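import Mathlib
import Pool.Agent.Lib_MP_8b82cd_ag.Defs
import Pool.Agent.Lib_MP_8b82cd_ag.Transfer
import Pool.Agent.Lib_MP_8b82cd_ag.CI
import Pool.Agent.Lib_MP_8b82cd_ag.Neg

/-!
# Weak Lefschetz property of `T_{n,d,k}`, `n ≥ 4`: working definitions

Throughout `d = D + 1`.
-/

namespace Pool.Agent.Lib_MP_8b82cd_w

open MvPolynomial Pool.Agent.Lib_MP_8b82cd_ag

variable {n : ℕ}

/-- the critical degree -/
def e0 (n D k : ℕ) : ℕ := n * D / 2 + (D + 1) * (k - 1)

/-- injectivity of multiplication by the sum of the variables in the critical degree -/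
def Inj (n D k : ℕ) : Prop := InjP (powI n (D + 1) k) (ell n) (e0 n D k - 1) 1

/-- the ideal `(x_1^(D+1), …, x_n^(D+1))` -/
noncomputable abbrev JJ (n D : ℕ) : Ideal (MvPolynomial (Fin n) ℂ) := ciI (fun _ : Fin n => D + 1)

/-- the lowering operator modulo `JJ n D` -/
noncomputable abbrev FF (n D : ℕ) : MvPolynomial (Fin n) ℂ →ₗ[ℂ] MvPolynomial (Fin n) ℂ :=
  lowF (fun _ : Fin n => D + 1)

/-- all exponents are at most `D` -/
def Box (D : ℕ) (f : MvPolynomial (Fin n) ℂ) : Prop := ∀ m ∈ f.support, ∀ i, m i ≤ D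

/-- the substitution `x_i = 0` -/
noncomputable def zi (i : Fin n) : MvPolynomial (Fin n) ℂ →ₐ[ℂ] MvPolynomial (Fin n) ℂ :=
  aeval fun j => if j = i then 0 else X j

/-- `E_i f = x_i^D * f|_{x_i = 0}` -/
noncomputable def E (D : ℕ) (i : Fin n) (f : MvPolynomial (Fin n) ℂ) : MvPolynomial (Fin n) ℂ :=
  X i ^ D * zi i f

/-- the constant `1 / (D!)^2` -/
noncomputable def kap0 (D : ℕ) : ℂ := ((D.factorial : ℂ) ^ 2)⁻¹

/-- the contraction operator: `x^m ↦ ∑_i x^(m - e_i)` (terms with `m_i ≥ 1`) -/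
noncomputable def cd (f : MvPolynomial (Fin n) ℂ) : MvPolynomial (Fin n) ℂ :=
  ∑ i, f.divMonomial (Finsupp.single i 1)

/-- all monomials lie outside `(x_1^d, …, x_n^d)^k` -/
def Low (d k : ℕ) (f : MvPolynomial (Fin n) ℂ) : Prop := ∀ m ∈ f.support, ∑ i, m i / d < k

/-- there is a form `h` with exponents at most `D`, killed by the sum of the variables modulo
`JJ n D`, in which the monomial with exponents `w` has a nonzero coefficient -/
def HW (n D : ℕ) (w : Fin n → ℕ) : Prop :=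
  ∃ h : MvPolynomial (Fin n) ℂ, h.IsHomogeneous (∑ i, w i) ∧ Box D h ∧
    ell n * h ∈ JJ n D ∧ coeff (Finsupp.equivFunOnFinite.symm w) h ≠ 0

theorem low_ci (n D : ℕ) : Lowering (FF n D) (n * D) (ell n) (JJ n D) :=
  lowering_ci (fun _ : Fin n => D + 1) (n * D) (by simp; ring)

end Pool.Agent.Lib_MP_8b82cd_w
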