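import Mathlib
import Pool.Agent.Lib_MP_8b82cd_w.Defs

/-! Injectivity below, and monotonicity in `k`. -/

namespace Pool.Agent.Lib_MP_8b82cd_w

open MvPolynomial Pool.Agent.Lib_MP_8b82cd_ag

variable {n : ℕ}

private theorem floor_add (d : ℕ) (m : Fin n →₀ ℕ) (j : Fin n) (c : ℕ) :
    ∑ i, (Finsupp.single j c + m : Fin n →₀ ℕ) i / d + m j / d =
      ∑ i, m i / d + (c + m j) / d := by
  rw [← Finset.add_sum_erase _ _ (Finset.mem_univ j),
    ← Finset.add_sum_erase _ (fun i => m i / d) (Finset.mem_univ j)]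
  have h1 : ∑ i ∈ Finset.univ.erase j, (Finsupp.single j c + m : Fin n →₀ ℕ) i / d =
      ∑ i ∈ Finset.univ.erase j, m i / d := by
    refine Finset.sum_congr rfl fun i hi => ?_
    have hij : j ≠ i := (Finset.ne_of_mem_erase hi).symm
    simp [Finsupp.single_eq_of_ne' hij]
  have h2 : (Finsupp.single j c + m : Fin n →₀ ℕ) j = c + m j := by simp
  rw [h1, h2]
  ring

private theorem inj_step {D k i : ℕ} (hn : 1 ≤ n) (hk : 1 ≤ k)
    (hi : i < n * D + (D + 1) * (k - 1)) (h : InjP (powI n (D + 1) k) (ell n) (i + 1) 1) :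
    InjP (powI n (D + 1) k) (ell n) i 1 := by
  intro f hf hJ
  have hD : 0 < D + 1 := Nat.succ_pos D
  rw [mem_powI_iff hD]
  intro m hm
  by_contra hlt
  push Not at hlt
  have hdeg := isHomogeneous_iff.mp hf m (mem_support_iff.mp hm)
  obtain ⟨j, hj⟩ : ∃ j : Fin n, ∑ l, (Finsupp.single j 1 + m : Fin n →₀ ℕ) l / (D + 1) < k := by
    by_cases hq : ∑ l, m l / (D + 1) < k - 1
    · refine ⟨⟨0, by omega⟩, ?_⟩
      have h1 := floor_add (D + 1) m ⟨0, by omega⟩ 1
      have h2 : (1 + m ⟨0, by omega⟩) / (D + 1) ≤ m ⟨0, by omega⟩ / (D + 1) + 1 := by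
        rw [← Nat.add_div_right _ hD]
        exact Nat.div_le_div_right (by omega)
      omega
    · have hq' : ∑ l, m l / (D + 1) = k - 1 := by omega
      have h3 : ∑ l, m l = (D + 1) * ∑ l, m l / (D + 1) + ∑ l, m l % (D + 1) := by
        rw [Finset.mul_sum, ← Finset.sum_add_distrib]
        exact Finset.sum_congr rfl fun l _ => (Nat.div_add_mod _ _).symm
      obtain ⟨j, hj⟩ : ∃ j : Fin n, m j % (D + 1) < D := by
        by_contra hcon
        push Not at hcon
        have h4 : n * D ≤ ∑ l, m l % (D + 1) := by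
          calc n * D = ∑ _l : Fin n, D := by simp
            _ ≤ _ := Finset.sum_le_sum fun l _ => hcon l
        rw [hq'] at h3
        omega
      refine ⟨j, ?_⟩
      have h1 := floor_add (D + 1) m j 1
      have h2 : (1 + m j) / (D + 1) = m j / (D + 1) := by
        have h5 := Nat.div_add_mod (m j) (D + 1)
        have h6 : 1 + m j = (D + 1) * (m j / (D + 1)) + (m j % (D + 1) + 1) := by omega
        have h9 : (m j % (D + 1) + 1) / (D + 1) = 0 := Nat.div_eq_of_lt (by omega)
        rw [h6, Nat.mul_add_div hD, h9, add_zero]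
      omega
  have hX : (X j * f).IsHomogeneous (i + 1) := by
    have := (isHomogeneous_X ℂ j).mul hf
    rwa [add_comm] at this
  have h7 : ell n ^ 1 * (X j * f) ∈ powI n (D + 1) k := by
    have e : ell n ^ 1 * (X j * f) = X j * (ell n ^ 1 * f) := by ring
    rw [e]
    exact Ideal.mul_mem_left _ _ hJ
  have h8 := (mem_powI_iff hD k).mp (h _ hX h7) (Finsupp.single j 1 + m) (by
    rw [mem_support_iff, coeff_X_mul]
    exact mem_support_iff.mp hm)
  omega

/-- PIECE A2a. The algebra is level: injectivity in degree `e` gives it in all degrees `i ≤ e`.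
Proof: let `f` have degree `i < e`, `ell * f ∈ powI`, `f ∉ powI`. Some monomial `x^m` of `f` has
floor sum `< k`; its degree is below `n D + (D+1)(k-1)`, so for some `j` also `x^m x_j` has floor
sum `< k` (otherwise all `m_j` are `D` modulo `D+1` and the floor sum is `k - 1`); then
`x_j f ∉ powI`, `ell * (x_j f) ∈ powI`: induct on `e - i`. -/
theorem inj_below {D k e i : ℕ} (hn : 1 ≤ n) (hk : 1 ≤ k) (hie : i ≤ e)
    (he : e ≤ n * D + (D + 1) * (k - 1)) (h : InjP (powI n (D + 1) k) (ell n) e 1) :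
    InjP (powI n (D + 1) k) (ell n) i 1 := by
  obtain ⟨t, rfl⟩ := Nat.exists_eq_add_of_le hie
  induction t with
  | zero => exact h
  | succ t ih =>
    refine ih (by omega) (by omega) (inj_step hn hk (by omega) ?_)
    exact h

/-- PIECE A2b. `Inj` is monotone in `k`: multiply by `x_1^(D+1)`. -/
theorem Inj.down {D k : ℕ} (hn : 2 ≤ n) (hD : 1 ≤ D) (hk : 1 ≤ k) (h : Inj n D (k + 1)) :
    Inj n D k := by
  have hD1 : 0 < D + 1 := Nat.succ_pos D
  have hs : 2 ≤ n * D := by nlinarith
  have he : e0 n D k - 1 + (D + 1) = e0 n D (k + 1) - 1 := by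
    unfold e0
    have h1 : k + 1 - 1 = k - 1 + 1 := by omega
    rw [h1, mul_add]
    omega
  unfold Inj at h ⊢
  intro f hf hJ
  obtain ⟨j, hj⟩ : ∃ j : Fin n, j = ⟨0, by omega⟩ := ⟨_, rfl⟩
  have hX : (X j ^ (D + 1) * f).IsHomogeneous (e0 n D (k + 1) - 1) := by
    have h1 := (isHomogeneous_X_pow (R := ℂ) j (D + 1)).mul hf
    have h2 : D + 1 + (e0 n D k - 1) = e0 n D (k + 1) - 1 := by omega
    rwa [h2] at h1
  have hp : powI n (D + 1) (k + 1) = powI n (D + 1) k *
      Ideal.span (Set.range fun i : Fin n => (X i : MvPolynomial (Fin n) ℂ) ^ (D + 1)) := by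
    unfold powI
    rw [pow_succ]
  have h7 : ell n ^ 1 * (X j ^ (D + 1) * f) ∈ powI n (D + 1) (k + 1) := by
    have e : ell n ^ 1 * (X j ^ (D + 1) * f) = (ell n ^ 1 * f) * X j ^ (D + 1) := by ring
    rw [e, hp]
    exact Ideal.mul_mem_mul hJ (Ideal.subset_span ⟨j, rfl⟩)
  have h8 := h _ hX h7
  rw [mem_powI_iff hD1] at h8 ⊢
  intro m hm
  have h9 := h8 (Finsupp.single j (D + 1) + m) (by
    rw [mem_support_iff, X_pow_eq_monomial, coeff_monomial_mul, one_mul]
    exact mem_support_iff.mp hm)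
  have h10 := floor_add (D + 1) m j (D + 1)
  rw [Nat.add_div_left _ hD1] at h10
  omega

theorem Inj.mono {D k l : ℕ} (hn : 2 ≤ n) (hD : 1 ≤ D) (hk : 1 ≤ k) (hkl : k ≤ l)
    (h : Inj n D l) : Inj n D k := by
  induction l, hkl using Nat.le_induction with
  | base => exact h
  | succ l hl ih => exact ih (h.down hn hD (by omega))

end Pool.Agent.Lib_MP_8b82cd_w
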