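import Mathlib
import Pool.Agent.Lib_MP_8b82cd_w.Defs

/-! Surjectivity above the critical degree. -/

namespace Pool.Agent.Lib_MP_8b82cd_w

open MvPolynomial Pool.Agent.Lib_MP_8b82cd_ag

variable {n : ℕ}

/-- multiplication by `x^((D+1)q)` maps `JJ n D` into the power of exponent `∑ q_i + 1` -/
private theorem mul_mem_pow {D : ℕ} (q s : Fin n →₀ ℕ) (hs : ∀ l, s l = (D + 1) * q l)
    {h : MvPolynomial (Fin n) ℂ} (hh : h ∈ JJ n D) {m : Fin n →₀ ℕ}
    (hm : m ∈ (monomial s (1 : ℂ) * h).support) : ∑ l, q l + 1 ≤ ∑ l, m l / (D + 1) := by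
  classical
  rw [mem_support_iff, coeff_monomial_mul'] at hm
  by_cases hsm : s ≤ m
  · rw [if_pos hsm, one_mul] at hm
    obtain ⟨i0, hi0⟩ := (mem_ciI_iff _).mp hh _ (mem_support_iff.mpr hm)
    have h1 : ∀ l, m l / (D + 1) = q l + (m - s) l / (D + 1) := by
      intro l
      have h2 : m l = (m - s) l + (D + 1) * q l := by
        have h3 := hsm l
        rw [Finsupp.tsub_apply, ← hs l]
        omega
      have h6 : 0 < D + 1 := Nat.succ_pos D
      rw [h2, Nat.add_mul_div_left _ _ h6]
      exact Nat.add_comm _ _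
    rw [Finset.sum_congr rfl fun l _ => h1 l, Finset.sum_add_distrib]
    have h4 : 1 ≤ (m - s) i0 / (D + 1) := (Nat.one_le_div_iff (Nat.succ_pos D)).mpr hi0
    have h5 : (m - s) i0 / (D + 1) ≤ ∑ l, (m - s) l / (D + 1) :=
      Finset.single_le_sum (f := fun l => (m - s) l / (D + 1)) (fun _ _ => Nat.zero_le _)
        (Finset.mem_univ i0)
    omega
  · rw [if_neg hsm] at hm
    exact absurd rfl hm

private theorem img_of_floor {D k : ℕ} (hk : 1 ≤ k) (i : ℕ) (hi : e0 n D k ≤ i) (t : ℕ) :
    ∀ g : MvPolynomial (Fin n) ℂ, g.IsHomogeneous (i + 1) →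
      (∀ m ∈ g.support, k ≤ ∑ l, m l / (D + 1) + t) →
      g ∈ Img (powI n (D + 1) k) (ell n) i 1 := by
  induction t with
  | zero =>
    intro g hg hsup
    refine ⟨0, isHomogeneous_zero _ _ _, ?_⟩
    rw [mul_zero, sub_zero]
    exact (mem_powI_iff (Nat.succ_pos D) k).mpr fun m hm => by simpa using hsup m hm
  | succ t ih =>
    intro g hg hsup
    rw [g.as_sum]
    apply Submodule.sum_mem
    intro m hm
    have h1 : monomial m (coeff m g) = (coeff m g) • monomial m (1 : ℂ) := by
      rw [smul_monomial, smul_eq_mul, mul_one]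
    rw [h1]
    apply Submodule.smul_mem
    have hdeg : ∑ l, m l = i + 1 := (isHomogeneous_iff.mp hg) m (mem_support_iff.mp hm)
    have hfl := hsup m hm
    have hhom : (monomial m (1 : ℂ)).IsHomogeneous (i + 1) := by
      rw [isHomogeneous_iff]
      intro m' hm'
      rw [coeff_monomial] at hm'
      by_cases h2 : m = m'
      · rw [← h2]; exact hdeg
      · rw [if_neg h2] at hm'
        exact absurd rfl hm'
    by_cases hlt : k ≤ ∑ l, m l / (D + 1) + t
    · apply ih _ hhom
      intro m' hm'
      rw [support_monomial, if_neg one_ne_zero, Finset.mem_singleton] at hm'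
      rw [hm']
      exact hlt
    · -- `m = (D+1) q + r`
      set q : Fin n →₀ ℕ := Finsupp.equivFunOnFinite.symm fun l => m l / (D + 1) with hq
      set s : Fin n →₀ ℕ := Finsupp.equivFunOnFinite.symm fun l => (D + 1) * (m l / (D + 1))
        with hs
      set r : Fin n →₀ ℕ := Finsupp.equivFunOnFinite.symm fun l => m l % (D + 1) with hr
      have hql : ∀ l, q l = m l / (D + 1) := fun l => rfl
      have hsl : ∀ l, s l = (D + 1) * q l := fun l => rfl
      have hrl : ∀ l, r l = m l % (D + 1) := fun l => rfl
      have hm2 : ∀ l, m l = s l + r l := by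
        intro l
        rw [hsl, hql, hrl]
        exact (Nat.div_add_mod (m l) (D + 1)).symm
      have hmsr : m = s + r := by
        ext l
        exact hm2 l
      have hsum : ∑ l, m l = (D + 1) * ∑ l, q l + ∑ l, r l := by
        rw [Finset.sum_congr rfl fun l _ => hm2 l, Finset.sum_add_distrib,
          Finset.sum_congr rfl fun l _ => hsl l, Finset.mul_sum]
      have hqs : ∑ l, q l = ∑ l, m l / (D + 1) := rfl
      have hqk : ∑ l, q l ≤ k - 1 := by omega
      have hrsum : n * D / 2 + 1 ≤ ∑ l, r l := by
        have h3 : (D + 1) * ∑ l, q l ≤ (D + 1) * (k - 1) := Nat.mul_le_mul_left _ hqk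
        unfold e0 at hi
        omega
      obtain ⟨i', hi'⟩ : ∃ i', ∑ l, r l = i' + 1 := ⟨∑ l, r l - 1, by omega⟩
      have hrhom : (monomial r (1 : ℂ)).IsHomogeneous (i' + 1) := by
        rw [isHomogeneous_iff]
        intro m' hm'
        rw [coeff_monomial] at hm'
        by_cases h2 : r = m'
        · rw [← h2]; exact hi'
        · rw [if_neg h2] at hm'
          exact absurd rfl hm'
      have hσ : n * D + n = ∑ _l : Fin n, (D + 1) := by
        simp
        ring
      obtain ⟨f, hf, hfJ⟩ := ci_surjP (fun _ : Fin n => D + 1) (n * D) hσ (i := i') (j := 1)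
        (by omega) (monomial r 1) hrhom
      -- the main term
      have hshom : (monomial s (1 : ℂ)).IsHomogeneous ((D + 1) * ∑ l, q l) := by
        rw [isHomogeneous_iff]
        intro m' hm'
        rw [coeff_monomial] at hm'
        by_cases h2 : s = m'
        · rw [← h2, Finset.mul_sum]
          exact Finset.sum_congr rfl fun l _ => hsl l
        · rw [if_neg h2] at hm'
          exact absurd rfl hm'
      have hmain : (monomial s (1 : ℂ) * f).IsHomogeneous i := by
        have h3 := hshom.mul hf
        have h4 : (D + 1) * ∑ l, q l + i' = i := by omega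
        rwa [h4] at h3
      have herr : monomial s (1 : ℂ) * (monomial r 1 - ell n ^ 1 * f) ∈
          Img (powI n (D + 1) k) (ell n) i 1 := by
        apply ih
        · have h5 : (monomial r (1 : ℂ) - ell n ^ 1 * f).IsHomogeneous (i' + 1) :=
            hrhom.sub (ell_pow_mul_isHomogeneous hf 1)
          have h6 := hshom.mul h5
          have h7 : (D + 1) * ∑ l, q l + (i' + 1) = i + 1 := by omega
          rwa [h7] at h6
        · intro m' hm'
          have h8 := mul_mem_pow q s hsl hfJ hm'
          omega
      have hsplit : monomial m (1 : ℂ) = ell n ^ 1 * (monomial s (1 : ℂ) * f) +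
          monomial s (1 : ℂ) * (monomial r 1 - ell n ^ 1 * f) := by
        have h9 : monomial m (1 : ℂ) = monomial s (1 : ℂ) * monomial r 1 := by
          rw [monomial_mul, mul_one, ← hmsr]
        rw [h9]
        ring
      rw [hsplit]
      apply Submodule.add_mem _ _ herr
      refine ⟨monomial s (1 : ℂ) * f, hmain, ?_⟩
      rw [sub_self]
      exact Ideal.zero_mem _

/-- PIECE A1. Above the critical degree, multiplication by the sum of the variables is surjective.
Proof: a monomial `x^m` with floor sum `j = ∑ m_i / (D+1) < k` is `x^((D+1)q) x^r`, `r_i ≤ D`, and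
`x^r` has degree `i + 1 - (D+1) j ≥ n D / 2 + 1`, so it is `ell * f` modulo `JJ n D` by
`ci_surjP`; multiplied by `x^((D+1)q)` the error has floor sum at least `j + 1`: induct. -/
theorem surj_above {D k : ℕ} (hk : 1 ≤ k) (i : ℕ) (hi : e0 n D k ≤ i) :
    SurjP (powI n (D + 1) k) (ell n) i 1 := by
  intro g hg
  rw [← mem_Img]
  exact img_of_floor hk i hi k g hg fun m _ => Nat.le_add_left _ _

end Pool.Agent.Lib_MP_8b82cd_w
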