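import Mathlib
import Pool.Agent.Lib_MP_8b82cd_w.Defs

/-! Multiplication is not surjective onto the middle degree of a monomial complete intersection. -/

namespace Pool.Agent.Lib_MP_8b82cd_w

open MvPolynomial Pool.Agent.Lib_MP_8b82cd_ag

variable {n : ℕ}

/-- the product of the factorials -/
private noncomputable def mf (m : Fin n →₀ ℕ) : ℂ := ∏ i, ((m i).factorial : ℂ)

private theorem mf_ne (m : Fin n →₀ ℕ) : mf m ≠ 0 :=
  Finset.prod_ne_zero_iff.mpr fun i _ => by exact_mod_cast (m i).factorial_ne_zero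

private theorem mf_add (m : Fin n →₀ ℕ) (i : Fin n) :
    mf (m + Finsupp.single i 1) = ((m i : ℂ) + 1) * mf m := by
  unfold mf
  rw [← Finset.mul_prod_erase _ _ (Finset.mem_univ i),
    ← Finset.mul_prod_erase (Finset.univ) (fun i => ((m i).factorial : ℂ)) (Finset.mem_univ i)]
  have h1 : ∏ j ∈ Finset.univ.erase i, (((m + Finsupp.single i 1 : Fin n →₀ ℕ) j).factorial : ℂ) =
      ∏ j ∈ Finset.univ.erase i, ((m j).factorial : ℂ) := by
    refine Finset.prod_congr rfl fun j hj => ?_
    have hji : j ≠ i := Finset.ne_of_mem_erase hj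
    rw [Finsupp.add_apply, Finsupp.single_eq_of_ne hji, add_zero]
  rw [h1, Finsupp.add_apply, Finsupp.single_eq_same, Nat.factorial_succ]
  push_cast
  ring

/-- the apolarity pairing -/
private noncomputable def pair (Q : MvPolynomial (Fin n) ℂ) : MvPolynomial (Fin n) ℂ →ₗ[ℂ] ℂ :=
  (MvPolynomial.basisMonomials (Fin n) ℂ).constr ℂ fun m => coeff m Q * mf m

private theorem pair_monomial (Q : MvPolynomial (Fin n) ℂ) (m : Fin n →₀ ℕ) (c : ℂ) :
    pair Q (monomial m c) = c * (coeff m Q * mf m) := by
  have h1 : monomial m c = c • (MvPolynomial.basisMonomials (Fin n) ℂ) m := by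
    rw [coe_basisMonomials, smul_monomial, smul_eq_mul, mul_one]
  rw [h1, map_smul, pair, Module.Basis.constr_basis, smul_eq_mul]

private theorem pair_X_mul (Q f : MvPolynomial (Fin n) ℂ) (i : Fin n) :
    pair Q (X i * f) = pair (pderiv i Q) f := by
  induction f using MvPolynomial.induction_on' with
  | monomial m c =>
    have h1 : X i * monomial m c = monomial (m + Finsupp.single i 1) c := by
      rw [X, monomial_mul, one_mul, add_comm]
    rw [h1, pair_monomial, pair_monomial, coeff_pderiv, mf_add]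
    ring
  | add p q hp hq => rw [mul_add, map_add, map_add, hp, hq]

private theorem pair_zero (f : MvPolynomial (Fin n) ℂ) : pair 0 f = 0 := by
  induction f using MvPolynomial.induction_on' with
  | monomial m c => rw [pair_monomial]; simp
  | add p q hp hq => rw [map_add, hp, hq, add_zero]

private theorem pair_add (P Q f : MvPolynomial (Fin n) ℂ) :
    pair (P + Q) f = pair P f + pair Q f := by
  induction f using MvPolynomial.induction_on' with
  | monomial m c => rw [pair_monomial, pair_monomial, pair_monomial, coeff_add]; ring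
  | add p q hp hq => rw [map_add, map_add, map_add, hp, hq]; ring

private theorem pair_sum {ι : Type} (s : Finset ι) (P : ι → MvPolynomial (Fin n) ℂ)
    (f : MvPolynomial (Fin n) ℂ) : pair (∑ i ∈ s, P i) f = ∑ i ∈ s, pair (P i) f := by
  classical
  induction s using Finset.induction_on with
  | empty => simp [pair_zero]
  | insert a s ha ih => rw [Finset.sum_insert ha, Finset.sum_insert ha, pair_add, ih]

private theorem pair_ell (Q f : MvPolynomial (Fin n) ℂ) (hQ : ∑ i, pderiv i Q = 0) :
    pair Q (ell n * f) = 0 := by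
  rw [ell, Finset.sum_mul, map_sum, Finset.sum_congr rfl fun i _ => pair_X_mul Q f i, ← pair_sum,
    hQ, pair_zero]

private theorem pair_mem {D : ℕ} (Q g : MvPolynomial (Fin n) ℂ) (hQ : Box D Q)
    (hg : g ∈ JJ n D) : pair Q g = 0 := by
  rw [g.as_sum, map_sum]
  refine Finset.sum_eq_zero fun m hm => ?_
  rw [pair_monomial]
  obtain ⟨i, hi⟩ := (mem_ciI_iff _).mp hg m hm
  have h1 : coeff m Q = 0 := by
    by_contra h
    have := hQ m (mem_support_iff.mpr h) i
    omega
  rw [h1]
  ring

private theorem not_surj_of {D e : ℕ} (Q : MvPolynomial (Fin n) ℂ) (hQ0 : Q ≠ 0)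
    (hQh : Q.IsHomogeneous (e + 1)) (hQB : Box D Q) (hQ : ∑ i, pderiv i Q = 0) :
    ¬ SurjP (JJ n D) (ell n) e 1 := by
  intro h
  obtain ⟨m, hm⟩ := ne_zero_iff.mp hQ0
  obtain ⟨f, -, hf⟩ := h (monomial m 1) (isHomogeneous_iff.mpr fun m' hm' => by
    rw [coeff_monomial] at hm'
    split_ifs at hm' with hmm
    · rw [← hmm]
      exact isHomogeneous_iff.mp hQh m hm
    · exact absurd rfl hm')
  have h1 := pair_mem Q _ hQB hf
  rw [pow_one, map_sub, pair_ell Q f hQ, sub_zero, pair_monomial, one_mul] at h1
  exact mul_ne_zero hm (mf_ne m) h1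

/-- the exponents -/
private def aa (N D j : ℕ) : ℕ := if j % 2 = 0 ∧ j + 1 < N then D - D / 2 else D / 2

private theorem aa_pair {N D p : ℕ} (hp : 2 * p ≤ N) :
    ∑ j ∈ Finset.range (2 * p), aa N D j = p * D := by
  induction p with
  | zero => simp
  | succ p ih =>
    rw [show 2 * (p + 1) = 2 * p + 1 + 1 by ring, Finset.sum_range_succ, Finset.sum_range_succ,
      ih (by omega)]
    have h1 : aa N D (2 * p) = D - D / 2 := by
      unfold aa
      rw [if_pos ⟨by omega, by omega⟩]
    have h2 : aa N D (2 * p + 1) = D / 2 := by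
      unfold aa
      rw [if_neg fun h => by omega]
    rw [h1, h2, add_mul, one_mul]
    omega

private theorem aa_sum (N D : ℕ) : ∑ j : Fin N, aa N D j = N * D / 2 := by
  rw [← Finset.sum_range (fun j => aa N D j)]
  rcases Nat.even_or_odd' N with ⟨p, hp | hp⟩
  · have h1 := aa_pair (N := N) (D := D) (p := p) hp.ge
    rw [← hp] at h1
    rw [h1, hp, show 2 * p * D = 2 * (p * D) by ring, Nat.mul_div_cancel_left _ (by norm_num)]
  · have h1 := aa_pair (N := N) (D := D) (p := p) (by omega)
    have h2 : Finset.range N = Finset.range (2 * p + 1) := by rw [hp]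
    rw [h2, Finset.sum_range_succ, h1]
    have h3 : aa N D (2 * p) = D / 2 := by
      unfold aa
      rw [if_neg fun h => by omega]
    have h4 : N * D = 2 * (p * D) + D := by
      rw [hp]
      ring
    rw [h3, h4]
    omega

/-- the cyclic successor -/
private def sc {N : ℕ} (j : Fin N) : Fin N :=
  if h : j.val + 1 < N then ⟨j.val + 1, h⟩ else ⟨0, by have := j.2; omega⟩

/-- the cyclic predecessor -/
private def pd {N : ℕ} (i : Fin N) : Fin N :=
  if i.val = 0 then ⟨N - 1, by have := i.2; omega⟩ else ⟨i.val - 1, by have := i.2; omega⟩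

private theorem sc_eq {N : ℕ} (i j : Fin N) (h : sc j = i) : j = pd i := by
  have h1 := congrArg Fin.val h
  have hj := j.2
  apply Fin.ext
  unfold sc at h1
  unfold pd
  split_ifs at h1 ⊢ <;> simp_all <;> omega

private theorem sc_ne {N : ℕ} (hN : 2 ≤ N) (j : Fin N) : sc j ≠ j := by
  intro h
  have h1 := congrArg Fin.val h
  unfold sc at h1
  split_ifs at h1
  · simp at h1
  · simp at h1
    omega

private theorem aa_le {N D : ℕ} (hN : 2 ≤ N) (i : Fin N) : aa N D i + aa N D (pd i) ≤ D := by
  have hi := i.2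
  unfold aa pd
  split_ifs <;> simp_all <;> omega

/-- the form -/
private noncomputable def QQ (N D : ℕ) : MvPolynomial (Fin N) ℂ :=
  ∏ j : Fin N, (X j - X (sc j)) ^ aa N D j

private theorem QQ_ne {N D : ℕ} (hN : 2 ≤ N) : QQ N D ≠ 0 := by
  refine Finset.prod_ne_zero_iff.mpr fun j _ => pow_ne_zero _ ?_
  rw [sub_ne_zero]
  intro h
  exact sc_ne hN j (X_injective h).symm

private theorem QQ_hom (N D : ℕ) : (QQ N D).IsHomogeneous (N * D / 2) := by
  rw [← aa_sum]
  refine IsHomogeneous.prod _ _ _ fun j _ => ?_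
  have h1 : (X j - X (sc j) : MvPolynomial (Fin N) ℂ).IsHomogeneous 1 :=
    (isHomogeneous_X _ _).sub (isHomogeneous_X _ _)
  simpa using h1.pow (aa N D j)

private theorem QQ_deriv (N D : ℕ) : ∑ i, pderiv i (QQ N D) = 0 := by
  classical
  have hX : ∀ j : Fin N, ∑ i, pderiv i (X j : MvPolynomial (Fin N) ℂ) = 1 := by
    intro j
    simp [pderiv_X, Pi.single_apply]
  unfold QQ
  refine Finset.prod_induction _ (fun f : MvPolynomial (Fin N) ℂ => ∑ i, pderiv i f = 0)
    ?_ ?_ ?_
  · intro a b ha hb
    beta_reduce at ha hb ⊢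
    rw [Finset.sum_congr rfl fun i _ => pderiv_mul, Finset.sum_add_distrib, ← Finset.sum_mul,
      ← Finset.mul_sum, ha, hb, zero_mul, mul_zero, add_zero]
  · simp
  · intro j _
    rw [Finset.sum_congr rfl fun i _ => pderiv_pow, ← Finset.mul_sum,
      Finset.sum_congr rfl fun i _ => map_sub (pderiv (R := ℂ) i) (X j) (X (sc j)),
      Finset.sum_sub_distrib, hX, hX, sub_self, mul_zero]

private theorem QQ_box {N D : ℕ} (hN : 2 ≤ N) : Box D (QQ N D) := by
  classical
  intro m hm i
  refine (monomial_le_degreeOf i hm).trans ?_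
  have h1 : degreeOf i (QQ N D) ≤ ∑ j : Fin N, aa N D j * degreeOf i (X j - X (sc j) :
      MvPolynomial (Fin N) ℂ) := by
    refine (degreeOf_prod_le i _ _).trans (Finset.sum_le_sum fun j _ => ?_)
    exact degreeOf_pow_le _ _ _
  have h2 : ∀ j : Fin N, aa N D j * degreeOf i (X j - X (sc j) : MvPolynomial (Fin N) ℂ) ≤
      (if j = i then aa N D j else 0) + if j = pd i then aa N D j else 0 := by
    intro j
    have h3 : degreeOf i (X j - X (sc j) : MvPolynomial (Fin N) ℂ) ≤
        max (if i = j then 1 else 0) (if i = sc j then 1 else 0) := by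
      refine (degreeOf_sub_le _ _ _).trans ?_
      rw [degreeOf_X, degreeOf_X]
    by_cases h4 : j = i
    · rw [if_pos h4]
      have h5 : degreeOf i (X j - X (sc j) : MvPolynomial (Fin N) ℂ) ≤ 1 := by
        refine h3.trans (max_le ?_ ?_) <;> split_ifs <;> simp
      calc _ ≤ aa N D j * 1 := Nat.mul_le_mul_left _ h5
        _ ≤ _ := by omega
    · by_cases h6 : sc j = i
      · have h7 := sc_eq i j h6
        rw [if_neg h4, if_pos h7]
        have h5 : degreeOf i (X j - X (sc j) : MvPolynomial (Fin N) ℂ) ≤ 1 := by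
          refine h3.trans (max_le ?_ ?_) <;> split_ifs <;> simp
        calc _ ≤ aa N D j * 1 := Nat.mul_le_mul_left _ h5
          _ ≤ _ := by omega
      · rw [if_neg (Ne.symm h4), if_neg (Ne.symm h6)] at h3
        have h5 : degreeOf i (X j - X (sc j) : MvPolynomial (Fin N) ℂ) = 0 := by simpa using h3
        rw [h5, mul_zero]
        exact Nat.zero_le _
  calc degreeOf i (QQ N D) ≤ _ := h1
    _ ≤ ∑ j : Fin N, ((if j = i then aa N D j else 0) + if j = pd i then aa N D j else 0) :=
        Finset.sum_le_sum fun j _ => h2 j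
    _ = aa N D i + aa N D (pd i) := by
        rw [Finset.sum_add_distrib, Finset.sum_ite_eq', Finset.sum_ite_eq']
        simp
    _ ≤ D := aa_le hN i

/-- PIECE A3a (monomial complete intersection in `N ≥ 2` variables, middle degree): multiplication
by the sum of the variables is not surjective onto degree `N D / 2`.
Proof. Pair with the product `Q` of the powers `(x_j - x_{j+1})^{a_j}`, cyclically, where
`a_j + a_{j+1} ≤ D` and `∑ a_j = N D / 2`: it has degree at most `D` in each variable, hence pairs
trivially with `JJ N D`, and it is killed by the sum of the derivatives, hence pairs trivially with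
the multiples of the sum of the variables. -/
theorem ci_not_surj {N D : ℕ} (hN : 2 ≤ N) (hD : 1 ≤ D) :
    ¬ SurjP (JJ N D) (ell N) (N * D / 2 - 1) 1 := by
  have h1 : 1 ≤ N * D / 2 := by
    have : 2 * 1 ≤ N * D := Nat.mul_le_mul hN hD
    omega
  refine not_surj_of (QQ N D) (QQ_ne hN) ?_ (QQ_box hN) (QQ_deriv N D)
  rw [Nat.sub_add_cancel h1]
  exact QQ_hom N D

end Pool.Agent.Lib_MP_8b82cd_w
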