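import Mathlib
import Pool.Agent.Lib_MP_8b82cd_w.A3a

/-! Multiplication is not surjective in the critical degree. -/

namespace Pool.Agent.Lib_MP_8b82cd_w

open MvPolynomial Pool.Agent.Lib_MP_8b82cd_ag

variable {n : ℕ}

section Subst

variable {N : ℕ}

/-- the images of the variables -/
noncomputable def sv (N : ℕ) : Fin (N + 2) → Polynomial (MvPolynomial (Fin N) ℂ) :=
  Fin.cons Polynomial.X (Fin.cons (-Polynomial.X) fun j => Polynomial.C (X j))

/-- the substitution `x_0 ↦ T`, `x_1 ↦ -T`, `x_{j+2} ↦ x_j` -/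
noncomputable def sPhi (N : ℕ) :
    MvPolynomial (Fin (N + 2)) ℂ →ₐ[ℂ] Polynomial (MvPolynomial (Fin N) ℂ) := aeval (sv N)

/-- the tail of an exponent vector -/
noncomputable def tl (m : Fin (N + 2) →₀ ℕ) : Fin N →₀ ℕ :=
  Finsupp.equivFunOnFinite.symm fun j => m j.succ.succ

private lemma tl_apply (m : Fin (N + 2) →₀ ℕ) (j : Fin N) : tl m j = m j.succ.succ := rfl

private lemma sPhi_monomial (m : Fin (N + 2) →₀ ℕ) (c : ℂ) :
    sPhi N (monomial m c) =
      Polynomial.monomial (m 0 + m 1) (monomial (tl m) ((-1) ^ m 1 * c)) := by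
  have h1 : (m.prod fun i e => sv N i ^ e) = ∏ i, sv N i ^ m i :=
    Finsupp.prod_fintype _ _ fun i => pow_zero _
  have h2 : (monomial (tl m) (1 : ℂ) : MvPolynomial (Fin N) ℂ) = ∏ j, X j ^ m j.succ.succ := by
    rw [monomial_eq, C_1, one_mul, Finsupp.prod_fintype _ _ fun i => pow_zero _]
    rfl
  have h3 : (monomial (tl m) ((-1) ^ m 1 * c) : MvPolynomial (Fin N) ℂ) =
      C ((-1) ^ m 1 * c) * monomial (tl m) (1 : ℂ) := by
    rw [C_mul_monomial, mul_one]
  rw [sPhi, aeval_monomial, h1, Fin.prod_univ_succ, Fin.prod_univ_succ, h3, h2]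
  simp only [sv, Fin.cons_zero, Fin.cons_succ]
  have h4 : (Fin.succ (0 : Fin (N + 1)) : Fin (N + 2)) = 1 := rfl
  have h5 : ∏ j : Fin N, (Polynomial.C (X j : MvPolynomial (Fin N) ℂ)) ^ m j.succ.succ =
      Polynomial.C (∏ j : Fin N, (X j : MvPolynomial (Fin N) ℂ) ^ m j.succ.succ) := by
    rw [map_prod]
    simp only [map_pow]
  rw [h4, h5, ← Polynomial.C_mul_X_pow_eq_monomial]
  have h6 : (algebraMap ℂ (Polynomial (MvPolynomial (Fin N) ℂ))) c =
      Polynomial.C (C c : MvPolynomial (Fin N) ℂ) := rfl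
  rw [h6]
  simp only [map_mul, map_pow, map_neg, map_one, neg_pow (Polynomial.X : Polynomial (MvPolynomial (Fin N) ℂ)) (m 1), pow_add]
  ring

private lemma sPhi_coeff (f : MvPolynomial (Fin (N + 2)) ℂ) (M : ℕ) :
    (sPhi N f).coeff M = ∑ m ∈ f.support,
      if m 0 + m 1 = M then monomial (tl m) ((-1) ^ m 1 * coeff m f) else 0 := by
  conv_lhs => rw [← support_sum_monomial_coeff f]
  rw [map_sum, Polynomial.finsetSum_coeff]
  refine Finset.sum_congr rfl fun m _ => ?_
  rw [sPhi_monomial, Polynomial.coeff_monomial]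

private lemma sPhi_hom (f : MvPolynomial (Fin (N + 2)) ℂ) (M r : ℕ) (hf : f.IsHomogeneous (M + r)) :
    ((sPhi N f).coeff M).IsHomogeneous r := by
  rw [sPhi_coeff]
  refine IsHomogeneous.sum _ _ _ fun m hm => ?_
  split_ifs with h
  · refine isHomogeneous_monomial _ ?_
    have h1 : Finsupp.weight 1 m = M + r := hf (mem_support_iff.1 hm)
    rw [Finsupp.weight_apply, Finsupp.sum_fintype _ _ fun i => by simp] at h1
    simp only [Pi.one_apply, smul_eq_mul, mul_one] at h1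
    rw [Finsupp.degree_eq_sum]
    rw [Fin.sum_univ_succ, Fin.sum_univ_succ] at h1
    have h4 : (Fin.succ (0 : Fin (N + 1)) : Fin (N + 2)) = 1 := rfl
    rw [h4] at h1
    have h5 : ∑ j, tl m j = ∑ j : Fin N, m j.succ.succ := rfl
    rw [h5]
    omega
  · exact isHomogeneous_zero _ _ _

private lemma sPhi_mem (D k : ℕ) (f : MvPolynomial (Fin (N + 2)) ℂ)
    (hf : f ∈ powI (N + 2) (D + 1) k) (M : ℕ) (hM : M < (D + 1) * k) :
    (sPhi N f).coeff M ∈ JJ N D := by
  rw [sPhi_coeff]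
  refine Ideal.sum_mem _ fun m hm => ?_
  split_ifs with h
  · rw [mem_ciI_iff]
    intro m' hm'
    have h1 : m' = tl m := by
      have := support_monomial_subset hm'
      simpa using this
    subst h1
    by_contra hcon
    push Not at hcon
    have h2 := (mem_powI_iff (Nat.succ_pos D) k).1 hf m hm
    rw [Fin.sum_univ_succ, Fin.sum_univ_succ] at h2
    have h4 : (Fin.succ (0 : Fin (N + 1)) : Fin (N + 2)) = 1 := rfl
    rw [h4] at h2
    have h3 : ∑ j : Fin N, m j.succ.succ / (D + 1) = 0 := by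
      refine Finset.sum_eq_zero fun j _ => Nat.div_eq_of_lt ?_
      have := hcon j
      rwa [tl_apply] at this
    rw [h3, add_zero] at h2
    have h5 : m 0 / (D + 1) + m 1 / (D + 1) ≤ (m 0 + m 1) / (D + 1) :=
      Nat.div_add_div_le_add_div
    have h6 : (m 0 + m 1) / (D + 1) < k := by
      rw [Nat.div_lt_iff_lt_mul (Nat.succ_pos D), h, mul_comm]
      exact hM
    exact absurd (h2.trans h5) (not_le.2 h6)
  · exact Ideal.zero_mem _

private lemma sPhi_ell : sPhi N (ell (N + 2)) = Polynomial.C (ell N) := by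
  rw [ell, map_sum, Fin.sum_univ_succ, Fin.sum_univ_succ]
  simp only [sPhi, aeval_X, sv, Fin.cons_zero, Fin.cons_succ]
  rw [ell, map_sum]
  ring

private lemma sPhi_rename (w : MvPolynomial (Fin N) ℂ) :
    sPhi N (rename (fun j : Fin N => j.succ.succ) w) = Polynomial.C w := by
  have h : (sPhi N).comp (rename fun j : Fin N => j.succ.succ) =
      (Polynomial.CAlgHom (R := ℂ) (A := MvPolynomial (Fin N) ℂ)) := by
    apply MvPolynomial.algHom_ext
    intro j
    simp only [AlgHom.comp_apply, rename_X, sPhi, aeval_X, sv, Fin.cons_succ]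
    rfl
  exact DFunLike.congr_fun h w

end Subst

/-- PIECE A3b. Proof from A3a: the algebra map `x_0 ↦ T`, `x_1 ↦ -T`, `x_{j+2} ↦ x_j` sends
`ell n` to `ell (n-2)` and `powI n (D+1) k` into `(T^((D+1)k)) + JJ (n-2) D`; look at the
coefficient of `T^((D+1)k-1)` (e.g. via `Polynomial (MvPolynomial (Fin (n-2)) ℂ)`) of
`x_0^((D+1)k-1) w(x_2,…) - ell * f ∈ powI`. Degrees: `(D+1)k - 1 + (n-2)D/2 = e0 n D k`. -/
theorem not_surj {D k : ℕ} (hn : 4 ≤ n) (hD : 1 ≤ D) (hk : 1 ≤ k) :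
    ¬ SurjP (powI n (D + 1) k) (ell n) (e0 n D k - 1) 1 := by
  intro h
  obtain ⟨N, rfl⟩ : ∃ N, n = N + 2 := ⟨n - 2, by omega⟩
  have hN : 2 ≤ N := by omega
  refine ci_not_surj hN hD fun w hw => ?_
  have hND : 1 ≤ N * D / 2 := by
    have : 2 ≤ N * D := le_trans (by omega) (Nat.mul_le_mul hN hD)
    omega
  have he : e0 (N + 2) D k - 1 = ((D + 1) * k - 1) + (N * D / 2 - 1) := by
    unfold e0
    have h1 : (N + 2) * D / 2 = N * D / 2 + D := by
      rw [add_mul, Nat.add_mul_div_left _ _ (by norm_num : 0 < 2)]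
    obtain ⟨k', rfl⟩ : ∃ k', k = k' + 1 := ⟨k - 1, by omega⟩
    rw [h1, Nat.add_sub_cancel, mul_add, mul_one]
    omega
  have hk' : 1 ≤ (D + 1) * k := Nat.mul_pos (Nat.succ_pos D) hk
  obtain ⟨f, hf, hfm⟩ := h (X 0 ^ ((D + 1) * k - 1) * rename (fun j : Fin N => j.succ.succ) w) (by
    rw [he]
    have h1 := (isHomogeneous_X ℂ (0 : Fin (N + 2))).pow ((D + 1) * k - 1)
    rw [one_mul] at h1
    have h2 : ((D + 1) * k - 1) + (N * D / 2 - 1) + 1 =
        ((D + 1) * k - 1) + (N * D / 2 - 1 + 1) := by omega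
    have h3 := h1.mul (hw.rename_isHomogeneous (f := fun j : Fin N => j.succ.succ))
    rw [← h2] at h3
    exact h3)
  rw [he] at hf
  refine ⟨(sPhi N f).coeff ((D + 1) * k - 1), sPhi_hom f _ _ hf, ?_⟩
  have h1 := sPhi_mem D k _ hfm ((D + 1) * k - 1) (by omega)
  rw [map_sub, map_mul, map_mul, map_pow, map_pow, sPhi_rename, sPhi_ell] at h1
  have h2 : sPhi N (X 0) = Polynomial.X := by
    simp only [sPhi, aeval_X, sv, Fin.cons_zero]
  rw [h2, pow_one, Polynomial.coeff_sub, Polynomial.coeff_X_pow_mul', Polynomial.coeff_C_mul] at h1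
  simpa using h1

end Pool.Agent.Lib_MP_8b82cd_w
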