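import Mathlib
import Pool.Agent.Lib_MP_8b82cd_w.A1
import Pool.Agent.Lib_MP_8b82cd_w.A2
import Pool.Agent.Lib_MP_8b82cd_w.A3

/-! The weak Lefschetz property is injectivity in the critical degree. -/

namespace Pool.Agent.Lib_MP_8b82cd_w

open MvPolynomial Pool.Agent.Lib_MP_8b82cd_ag Pool.Agent.Lib_MP_8b82cd_ag.Lefschetz

variable {n : ℕ}

/-- PIECE A4. From `hasWLP_iff`, `surj_above`, `inj_below`, `not_surj`. -/
theorem wlp_iff {D k : ℕ} (hn : 4 ≤ n) (hD : 1 ≤ D) (hk : 1 ≤ k) :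
    HasWLP n (D + 1) k ↔ Inj n D k := by
  rw [hasWLP_iff]
  constructor
  · intro h
    rcases h (e0 n D k - 1) with h1 | h1
    · exact h1
    · exact absurd h1 (not_surj hn hD hk)
  · intro h i
    by_cases hi : e0 n D k ≤ i
    · exact Or.inr (surj_above hk i hi)
    · refine Or.inl (inj_below (e := e0 n D k - 1) (by omega) hk (by omega) ?_ h)
      have h1 : e0 n D k = n * D / 2 + (D + 1) * (k - 1) := rfl
      have h2 : n * D / 2 ≤ n * D := Nat.div_le_self _ _
      omega

end Pool.Agent.Lib_MP_8b82cd_w
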