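import Mathlib
import Pool.Agent.Lib_MP_8b82cd_w.Defs

/-! Duality. -/

namespace Pool.Agent.Lib_MP_8b82cd_w

open MvPolynomial Pool.Agent.Lib_MP_8b82cd_ag

variable {n : ℕ}

/-- the pairing of a polynomial with a polynomial, through the coefficients -/
private noncomputable def pairB (G : MvPolynomial (Fin n) ℂ) : MvPolynomial (Fin n) ℂ →ₗ[ℂ] ℂ :=
  ∑ m ∈ G.support, (coeff m G) • (lcoeff ℂ m)

private theorem pairB_apply (G f : MvPolynomial (Fin n) ℂ) :
    pairB G f = ∑ m ∈ G.support, coeff m G * coeff m f := by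
  simp [pairB, LinearMap.sum_apply]

private theorem pairB_monomial (G : MvPolynomial (Fin n) ℂ) (a : Fin n →₀ ℕ) (c : ℂ) :
    pairB G (monomial a c) = coeff a G * c := by
  classical
  rw [pairB_apply]
  by_cases ha : a ∈ G.support
  · rw [Finset.sum_eq_single_of_mem a ha]
    · rw [coeff_monomial, if_pos rfl]
    · intro b _ hb
      rw [coeff_monomial, if_neg (Ne.symm hb), mul_zero]
  · have h0 : coeff a G = 0 := by simpa using ha
    rw [h0, zero_mul]
    apply Finset.sum_eq_zero
    intro b hb
    have : a ≠ b := by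
      rintro rfl
      exact ha hb
    rw [coeff_monomial, if_neg this, mul_zero]

private theorem coeff_cd (G : MvPolynomial (Fin n) ℂ) (a : Fin n →₀ ℕ) :
    coeff a (cd G) = ∑ i, coeff (Finsupp.single i 1 + a) G := by
  rw [cd, coeff_sum]
  exact Finset.sum_congr rfl fun i _ => coeff_divMonomial _ _ _

private theorem pairB_cd (G f : MvPolynomial (Fin n) ℂ) :
    pairB (cd G) f = pairB G (ell n * f) := by
  induction f using MvPolynomial.induction_on' with
  | monomial a c =>
    rw [pairB_monomial, coeff_cd, ell, Finset.sum_mul, Finset.sum_mul, map_sum]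
    apply Finset.sum_congr rfl
    intro i _
    rw [X, monomial_mul, one_mul, pairB_monomial]
  | add p q hp hq =>
    rw [mul_add, map_add, map_add, hp, hq]

private theorem coeff_ell_mul_sum {S : Finset (Fin n →₀ ℕ)} (c : S → ℂ) (m : Fin n →₀ ℕ) :
    coeff m (ell n * ∑ a : S, monomial (a : Fin n →₀ ℕ) (c a)) =
      ∑ a : S, (∑ i : Fin n, if (a : Fin n →₀ ℕ) + Finsupp.single i 1 = m then (1 : ℂ) else 0) *
        c a := by
  classical
  rw [ell, Finset.sum_mul, coeff_sum]
  have h1 : ∀ i : Fin n, coeff m (X i * ∑ a : S, monomial (a : Fin n →₀ ℕ) (c a)) =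
      ∑ a : S, (if (a : Fin n →₀ ℕ) + Finsupp.single i 1 = m then (1 : ℂ) else 0) * c a := by
    intro i
    rw [Finset.mul_sum, coeff_sum]
    apply Finset.sum_congr rfl
    intro a _
    rw [X, monomial_mul, one_mul, coeff_monomial, add_comm (Finsupp.single i 1) _]
    split_ifs <;> simp
  rw [Finset.sum_congr rfl fun i _ => h1 i, Finset.sum_comm]
  apply Finset.sum_congr rfl
  intro a _
  rw [Finset.sum_mul]

/-- PIECE B1a (hard direction of the duality; functions on exponents, `stdExp` is in
`Lib_MP_8b82cd_ag.Neg`). Proof: the linear map `(stdExp e-1 → ℂ) → (stdExp e → ℂ)`,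
`c ↦ (m ↦ coeff m (ell * ∑ c α x^α))`, is injective, so its transpose is surjective. -/
theorem dual_fun {d k e : ℕ} (hd : 1 ≤ d) (he : 1 ≤ e)
    (h : InjP (powI n d k) (ell n) (e - 1) 1) (H : (Fin n →₀ ℕ) → ℂ) :
    ∃ G : (Fin n →₀ ℕ) → ℂ, (∀ m, G m ≠ 0 → m ∈ stdExp n d k e) ∧
      ∀ m ∈ stdExp n d k (e - 1), H m = ∑ i, G (m + Finsupp.single i 1) := by
  classical
  set A := stdExp n d k (e - 1) with hA
  set B := stdExp n d k e with hB
  let M : Matrix B A ℂ := fun m a =>
    ∑ i : Fin n, if (a : Fin n →₀ ℕ) + Finsupp.single i 1 = (m : Fin n →₀ ℕ) then (1 : ℂ) else 0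
  have hinj : Function.Injective M.mulVecLin := by
    rw [injective_iff_map_eq_zero]
    intro c hc
    set f : MvPolynomial (Fin n) ℂ := ∑ a : A, monomial (a : Fin n →₀ ℕ) (c a) with hf
    have hcoef : ∀ a : A, coeff (a : Fin n →₀ ℕ) f = c a := by
      intro a
      rw [hf, coeff_sum, Finset.sum_eq_single_of_mem a (Finset.mem_univ a)]
      · rw [coeff_monomial, if_pos rfl]
      · intro b _ hb
        rw [coeff_monomial, if_neg]
        intro h'
        exact hb (Subtype.ext h')
    have hhom : f.IsHomogeneous (e - 1) := by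
      rw [hf]
      apply IsHomogeneous.sum
      intro a _
      apply isHomogeneous_monomial
      rw [Finsupp.degree_eq_sum]
      exact (mem_stdExp.mp a.2).1
    have hmem : ell n ^ 1 * f ∈ powI n d k := by
      rw [mem_powI_iff hd]
      intro m hm
      by_contra hlt
      push Not at hlt
      have hne : coeff m (ell n ^ 1 * f) ≠ 0 := mem_support_iff.mp hm
      have hs := (isHomogeneous_iff.mp (ell_pow_mul_isHomogeneous hhom 1)) m hne
      have hmB : m ∈ B := by
        rw [hB, mem_stdExp]
        exact ⟨by omega, hlt⟩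
      apply hne
      rw [pow_one, hf, coeff_ell_mul_sum]
      exact congrFun hc ⟨m, hmB⟩
    have hfm := h f hhom hmem
    rw [mem_powI_iff hd] at hfm
    ext a
    by_contra hne
    have h1 : coeff (a : Fin n →₀ ℕ) f ≠ 0 := by rw [hcoef]; exact hne
    have h2 := hfm _ (mem_support_iff.mpr h1)
    have h3 := (mem_stdExp.mp a.2).2
    omega
  have hsurj : Function.Surjective M.transpose.mulVecLin := by
    have h1 : M.rank = Fintype.card A := by
      rw [Matrix.rank, LinearMap.finrank_range_of_inj hinj, Module.finrank_fintype_fun_eq_card]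
    have h2 : M.transpose.rank = Fintype.card A := by rw [Matrix.rank_transpose, h1]
    rw [← LinearMap.range_eq_top]
    apply Submodule.eq_top_of_finrank_eq
    rw [Module.finrank_fintype_fun_eq_card, ← h2, Matrix.rank]
  obtain ⟨g, hg⟩ := hsurj (fun a => H a)
  refine ⟨fun m => if hm : m ∈ B then g ⟨m, hm⟩ else 0, ?_, ?_⟩
  · intro m hm
    by_contra hmB
    exact hm (dif_neg hmB)
  · intro m hm
    have h1 : H m = ∑ b : B, (∑ i : Fin n,
        if m + Finsupp.single i 1 = (b : Fin n →₀ ℕ) then (1 : ℂ) else 0) * g b := by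
      exact (congrFun hg ⟨m, hm⟩).symm
    rw [h1]
    simp_rw [Finset.sum_mul]
    rw [Finset.sum_comm]
    apply Finset.sum_congr rfl
    intro i _
    by_cases hmi : m + Finsupp.single i 1 ∈ B
    · simp only [dif_pos hmi]
      rw [Finset.sum_eq_single_of_mem (⟨m + Finsupp.single i 1, hmi⟩ : B) (Finset.mem_univ _)]
      · simp
      · intro b _ hb
        rw [if_neg, zero_mul]
        intro h'
        exact hb (Subtype.ext h'.symm)
    · simp only [dif_neg hmi]
      apply Finset.sum_eq_zero
      intro b _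
      rw [if_neg, zero_mul]
      intro h'
      exact hmi (h' ▸ b.2)

/-- PIECE B1b (easy direction). If every monomial `x^m`, `m ∈ stdExp n d k (e-1)`, is `cd G` with
`G` homogeneous of degree `e` and `Low d k G`, then multiplication is injective: for `f` with
`ell * f ∈ powI` one has `coeff m f = ∑_m' coeff m' G * coeff m' (ell * f) = 0`. -/
theorem injP_of_cd {d k e : ℕ} (hd : 1 ≤ d) (he : 1 ≤ e)
    (h : ∀ m ∈ stdExp n d k (e - 1), ∃ G : MvPolynomial (Fin n) ℂ, G.IsHomogeneous e ∧
      Low d k G ∧ cd G = monomial m 1) :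
    InjP (powI n d k) (ell n) (e - 1) 1 := by
  classical
  intro f hf hJ
  rw [pow_one, mem_powI_iff hd] at hJ
  rw [mem_powI_iff hd]
  intro m hm
  by_contra hlt
  push Not at hlt
  have hmf : coeff m f ≠ 0 := mem_support_iff.mp hm
  have hmS : m ∈ stdExp n d k (e - 1) := by
    rw [mem_stdExp]
    exact ⟨(isHomogeneous_iff.mp hf) m hmf, hlt⟩
  obtain ⟨G, -, hG, hcd⟩ := h m hmS
  apply hmf
  have h1 : pairB (cd G) f = coeff m f := by
    rw [hcd, pairB_apply, support_monomial, if_neg one_ne_zero, Finset.sum_singleton,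
      coeff_monomial, if_pos rfl, one_mul]
  rw [← h1, pairB_cd, pairB_apply]
  apply Finset.sum_eq_zero
  intro b hb
  have h2 := hG b hb
  have h3 : coeff b (ell n * f) = 0 := by
    by_contra hne
    have := hJ b (mem_support_iff.mpr hne)
    omega
  rw [h3, mul_zero]

end Pool.Agent.Lib_MP_8b82cd_w
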