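import Mathlib
import Pool.Agent.Lib_MP_8b82cd_w.B1

/-! The dual data as a family of polynomials. -/

namespace Pool.Agent.Lib_MP_8b82cd_w

open MvPolynomial Pool.Agent.Lib_MP_8b82cd_ag

variable {n : ℕ}

private theorem zi_monomial_B2 (i : Fin n) (m : Fin n →₀ ℕ) (c : ℂ) :
    zi i (monomial m c) = if m i = 0 then monomial m c else 0 := by
  classical
  unfold zi
  rw [aeval_monomial]
  split_ifs with h
  · rw [monomial_eq]
    congr 1
    refine Finsupp.prod_congr ?_
    intro j hj
    have hji : j ≠ i := by
      rintro rfl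
      exact (Finsupp.mem_support_iff.mp hj) h
    rw [if_neg hji]
  · have hi : i ∈ m.support := Finsupp.mem_support_iff.mpr h
    have h1 : (m.prod fun j k => (if j = i then (0 : MvPolynomial (Fin n) ℂ) else X j) ^ k) = 0 := by
      unfold Finsupp.prod
      refine Finset.prod_eq_zero hi ?_
      beta_reduce
      rw [if_pos rfl, zero_pow h]
    rw [h1, mul_zero]

private theorem coeff_zi_B2 (i : Fin n) (f : MvPolynomial (Fin n) ℂ) (m : Fin n →₀ ℕ) :
    coeff m (zi i f) = if m i = 0 then coeff m f else 0 := by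
  classical
  induction f using MvPolynomial.induction_on' with
  | monomial u a =>
    rw [zi_monomial_B2]
    by_cases hum : u = m
    · subst hum
      split_ifs <;> simp
    · split_ifs <;> simp [coeff_monomial, hum]
  | add p q hp hq =>
    rw [map_add, coeff_add, hp, hq, coeff_add]
    split_ifs <;> simp

private theorem coeff_E_B2 (D : ℕ) (i : Fin n) (f : MvPolynomial (Fin n) ℂ) (m : Fin n →₀ ℕ) :
    coeff m (E D i f) = if m i = D then coeff (m.erase i) f else 0 := by
  classical
  unfold E
  rw [X_pow_eq_monomial, coeff_monomial_mul', one_mul]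
  by_cases h : m i = D
  · have h1 : Finsupp.single i D ≤ m := by
      intro j
      by_cases hj : j = i
      · subst hj; simp [h]
      · simp [Ne.symm hj]
    have h2 : m - Finsupp.single i D = m.erase i := by
      ext j
      by_cases hj : j = i
      · subst hj; simp [h]
      · simp [Ne.symm hj, hj]
    rw [if_pos h1, if_pos h, h2, coeff_zi_B2, if_pos (by simp)]
  · rw [if_neg h]
    split_ifs with h1
    · rw [coeff_zi_B2, if_neg]
      have h3 := h1 i
      simp only [Finsupp.single_eq_same] at h3
      simp only [Finsupp.coe_tsub, Pi.sub_apply, Finsupp.single_eq_same]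
      omega
    · rfl

/-- the weight of one exponent -/
private noncomputable def w1 (D t : ℕ) : ℂ :=
  (t.factorial : ℂ) * (D.factorial : ℂ) / ((D - t).factorial : ℂ)

private theorem w1_ne (D t : ℕ) : w1 D t ≠ 0 := by
  unfold w1
  refine div_ne_zero (mul_ne_zero ?_ ?_) ?_ <;> exact_mod_cast Nat.factorial_ne_zero _

private theorem w1_zero (D : ℕ) : w1 D 0 = 1 := by
  unfold w1
  have : (D.factorial : ℂ) ≠ 0 := by exact_mod_cast Nat.factorial_ne_zero _
  simp [this]

private theorem w1_top (D : ℕ) : w1 D D = (D.factorial : ℂ) ^ 2 := by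
  unfold w1
  simp
  ring

private theorem w1_succ {D t : ℕ} (h : t < D) :
    w1 D (t + 1) = ((t : ℂ) + 1) * ((D : ℂ) - t) * w1 D t := by
  unfold w1
  have h1 : D - t = (D - (t + 1)) + 1 := by omega
  have h2 : ((D - (t + 1) : ℕ) : ℂ) + 1 = (D : ℂ) - t := by
    rw [Nat.cast_sub (by omega)]
    push_cast
    ring
  have h3 : ((D - (t + 1)).factorial : ℂ) ≠ 0 := by exact_mod_cast Nat.factorial_ne_zero _
  have h4 : (D : ℂ) - t ≠ 0 := by
    rw [← h2]
    exact Nat.cast_add_one_ne_zero _
  rw [h1, Nat.factorial_succ (D - (t + 1)), Nat.factorial_succ t]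
  push_cast
  rw [h2]
  field_simp

/-- the weight of a family of exponents -/
private noncomputable def wt (D : ℕ) (r : Fin n →₀ ℕ) : ℂ := ∏ i, w1 D (r i)

private theorem wt_ne (D : ℕ) (r : Fin n →₀ ℕ) : wt D r ≠ 0 :=
  Finset.prod_ne_zero_iff.mpr fun i _ => w1_ne D (r i)

private theorem wt_add {D : ℕ} {r : Fin n →₀ ℕ} {i : Fin n} (h : r i < D) :
    wt D (r + Finsupp.single i 1) = ((r i : ℂ) + 1) * ((D : ℂ) - r i) * wt D r := by
  classical
  unfold wt
  rw [← Finset.mul_prod_erase _ _ (Finset.mem_univ i),
    ← Finset.mul_prod_erase _ (fun j => w1 D (r j)) (Finset.mem_univ i), ← mul_assoc]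
  congr 1
  · rw [Finsupp.add_apply, Finsupp.single_eq_same, w1_succ h]
  · apply Finset.prod_congr rfl
    intro j hj
    rw [Finsupp.add_apply, Finsupp.single_eq_of_ne (Finset.ne_of_mem_erase hj), add_zero]

private theorem wt_erase {D : ℕ} {r : Fin n →₀ ℕ} {i : Fin n} (h : r i = D) :
    wt D r = (D.factorial : ℂ) ^ 2 * wt D (r.erase i) := by
  classical
  unfold wt
  rw [← Finset.mul_prod_erase _ _ (Finset.mem_univ i),
    ← Finset.mul_prod_erase _ (fun j => w1 D (r.erase i j)) (Finset.mem_univ i)]
  rw [h, w1_top, Finsupp.erase_same, w1_zero, one_mul]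
  congr 1
  apply Finset.prod_congr rfl
  intro j hj
  rw [Finsupp.erase_ne (Finset.ne_of_mem_erase hj)]

/-- the polynomials `g q` -/
private noncomputable def gg (D : ℕ) (G : (Fin n →₀ ℕ) → ℂ) (q : Fin n →₀ ℕ) :
    MvPolynomial (Fin n) ℂ :=
  ∑ r ∈ Finset.Icc 0 (Finsupp.equivFunOnFinite.symm fun _ : Fin n => D),
    monomial r (G (r + (D + 1) • q) / wt D r)

private theorem coeff_gg (D : ℕ) (G : (Fin n →₀ ℕ) → ℂ) (q r : Fin n →₀ ℕ) :
    coeff r (gg D G q) = if ∀ i, r i ≤ D then G (r + (D + 1) • q) / wt D r else 0 := by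
  classical
  unfold gg
  rw [coeff_sum]
  simp only [coeff_monomial]
  rw [Finset.sum_ite_eq']
  have h : r ∈ Finset.Icc 0 (Finsupp.equivFunOnFinite.symm fun _ : Fin n => D) ↔
      ∀ i, r i ≤ D := by
    rw [Finset.mem_Icc]
    constructor
    · intro h i
      exact h.2 i
    · intro h
      exact ⟨zero_le, fun i => h i⟩
  by_cases hr : ∀ i, r i ≤ D
  · rw [if_pos hr, if_pos (h.mpr hr)]
  · rw [if_neg hr, if_neg (fun hh => hr (h.mp hh))]

private theorem div_box {D : ℕ} {r q : Fin n →₀ ℕ} (hr : ∀ i, r i ≤ D) (i : Fin n) :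
    (r + (D + 1) • q) i / (D + 1) = q i := by
  rw [Finsupp.add_apply, Finsupp.smul_apply, smul_eq_mul, Nat.add_mul_div_left _ _ (by omega),
    Nat.div_eq_of_lt (by have := hr i; omega), zero_add]

private theorem sum_box {D : ℕ} (r q : Fin n →₀ ℕ) :
    ∑ i, (r + (D + 1) • q) i = ∑ i, r i + (D + 1) * ∑ i, q i := by
  rw [Finset.mul_sum, ← Finset.sum_add_distrib]
  rfl

/-- the main identity, coefficientwise -/
private theorem coeff_main {D : ℕ} (G : (Fin n →₀ ℕ) → ℂ) (q r : Fin n →₀ ℕ) :
    coeff r (FF n D (gg D G q) + kap0 D • ∑ i, E D i (gg D G (q + Finsupp.single i 1))) =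
      if ∀ i, r i ≤ D then (∑ i, G (r + (D + 1) • q + Finsupp.single i 1)) / wt D r else 0 := by
  classical
  rw [coeff_add, coeff_lowF, coeff_smul, coeff_sum, smul_eq_mul, Finset.mul_sum,
    ← Finset.sum_add_distrib]
  by_cases hr : ∀ i, r i ≤ D
  · rw [if_pos hr, Finset.sum_div]
    apply Finset.sum_congr rfl
    intro i _
    rw [coeff_gg, coeff_E_B2, coeff_gg]
    rcases Nat.lt_or_ge (r i) D with hi | hi
    · have h1 : ∀ j, (r + Finsupp.single i 1 : Fin n →₀ ℕ) j ≤ D := by
        intro j
        by_cases hj : j = i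
        · subst hj
          rw [Finsupp.add_apply, Finsupp.single_eq_same]
          omega
        · rw [Finsupp.add_apply, Finsupp.single_eq_of_ne hj]
          simpa using hr j
      rw [if_pos h1, if_neg (by omega), mul_zero, add_zero, wt_add hi]
      have h2 : r + Finsupp.single i 1 + (D + 1) • q = r + (D + 1) • q + Finsupp.single i 1 := by
        abel
      have h3 : (r i : ℂ) + 1 ≠ 0 := Nat.cast_add_one_ne_zero _
      have h4 : (D : ℂ) - r i ≠ 0 := by
        rw [← Nat.cast_sub hi.le]
        exact_mod_cast (by omega : D - r i ≠ 0)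
      have h5 := wt_ne D r
      rw [h2]
      have h6 : ((D + 1 : ℕ) : ℂ) - 1 - (r i : ℂ) = (D : ℂ) - r i := by push_cast; ring
      rw [h6]
      field_simp
    · have hiD : r i = D := le_antisymm (hr i) hi
      have h1 : ∀ j, (r.erase i) j ≤ D := by
        intro j
        by_cases hj : j = i
        · subst hj
          rw [Finsupp.erase_same]
          omega
        · rw [Finsupp.erase_ne hj]
          exact hr j
      have h6 : ((D + 1 : ℕ) : ℂ) - 1 - (r i : ℂ) = 0 := by rw [hiD]; push_cast; ring
      rw [if_pos hiD, if_pos h1, h6, mul_zero, zero_mul, zero_add, wt_erase hiD]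
      have h2 : r.erase i + (D + 1) • (q + Finsupp.single i 1) =
          r + (D + 1) • q + Finsupp.single i 1 := by
        ext j
        by_cases hj : j = i
        · subst hj
          simp [hiD]
          ring
        · simp [hj, Finsupp.single_eq_of_ne hj]
      rw [h2]
      unfold kap0
      have h7 : (D.factorial : ℂ) ≠ 0 := by exact_mod_cast Nat.factorial_ne_zero _
      have h8 := wt_ne D (r.erase i)
      field_simp
  · rw [if_neg hr]
    apply Finset.sum_eq_zero
    intro i _
    push Not at hr
    obtain ⟨j, hj⟩ := hr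
    rw [coeff_gg, coeff_E_B2, coeff_gg, if_neg, mul_zero, zero_add]
    · split_ifs with h1 h2
      · exfalso
        have hji : j ≠ i := by
          rintro rfl
          omega
        have h3 := h2 j
        rw [Finsupp.erase_ne hji] at h3
        omega
      · rw [mul_zero]
      · rw [mul_zero]
    · intro h2
      have h3 := h2 j
      rw [Finsupp.add_apply] at h3
      omega

/-- PIECE B2. Let `s r = ∏ i, r_i ! * D ! / (D - r_i)!` on exponents `r_i ≤ D` (so
`s (r + e_i) = (r_i + 1)(D - r_i) s r`, and `s r = (D!)^2 s (r - D e_i)` if `r_i = D`). Apply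
`dual_fun` to `H m = s m * coeff m h` (`m` with all `m_i ≤ D`, `0` otherwise) and put
`g q = ∑_{r_i ≤ D, |r| + (D+1)|q| = e} (G (r + (D+1) q) / s r) x^r`. The two equations are the
coefficientwise form of `H m = ∑ G (m + e_i)` at `m = r + (D+1) q` (use `coeff_lowF`). -/
theorem dual_data {D k e : ℕ} (hk : 1 ≤ k) (he : 1 ≤ e)
    (hI : InjP (powI n (D + 1) k) (ell n) (e - 1) 1)
    (h : MvPolynomial (Fin n) ℂ) (hh : h.IsHomogeneous (e - 1)) (hb : Box D h) :
    ∃ g : (Fin n →₀ ℕ) → MvPolynomial (Fin n) ℂ,
      (∀ q, Box D (g q)) ∧ (∀ q, k ≤ ∑ i, q i → g q = 0) ∧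
      (∀ q t, (D + 1) * ∑ i, q i + t = e → (g q).IsHomogeneous t) ∧
      (∀ q, e < (D + 1) * ∑ i, q i → g q = 0) ∧
      FF n D (g 0) + kap0 D • ∑ i, E D i (g (Finsupp.single i 1)) = h ∧
      ∀ q, q ≠ 0 → ∑ i, q i < k →
        FF n D (g q) + kap0 D • ∑ i, E D i (g (q + Finsupp.single i 1)) = 0 := by
  classical
  obtain ⟨G, hG, hGH⟩ := dual_fun (n := n) (by omega : 1 ≤ D + 1) he hI
    (fun m => if ∀ i, m i ≤ D then wt D m * coeff m h else 0)
  have hG0 : ∀ m, (¬ (∑ i, m i = e ∧ ∑ i, m i / (D + 1) < k)) → G m = 0 := by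
    intro m hm
    by_contra hne
    exact hm (mem_stdExp.mp (hG m hne))
  have hbox : ∀ q, Box D (gg D G q) := by
    intro q m hm
    rw [mem_support_iff, coeff_gg] at hm
    by_contra hne
    exact hm (if_neg hne)
  have hkey : ∀ q : Fin n →₀ ℕ, ∑ i, q i < k →
      FF n D (gg D G q) + kap0 D • ∑ i, E D i (gg D G (q + Finsupp.single i 1)) =
        if q = 0 then h else 0 := by
    intro q hq
    ext r
    rw [coeff_main]
    by_cases hr : ∀ i, r i ≤ D
    · rw [if_pos hr]
      have hfl : ∑ i, (r + (D + 1) • q) i / (D + 1) = ∑ i, q i :=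
        Finset.sum_congr rfl fun i _ => div_box hr i
      by_cases hdeg : ∑ i, (r + (D + 1) • q) i = e - 1
      · have hm : r + (D + 1) • q ∈ stdExp n (D + 1) k (e - 1) :=
          mem_stdExp.mpr ⟨hdeg, by rw [hfl]; exact hq⟩
        rw [← hGH _ hm]
        by_cases hq0 : q = 0
        · subst hq0
          rw [smul_zero, add_zero, if_pos hr, if_pos rfl]
          have := wt_ne D r
          field_simp
        · rw [if_neg hq0, if_neg, zero_div, coeff_zero]
          intro hbx
          apply hq0
          ext i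
          have h1 := hbx i
          have h2 := div_box (q := q) hr i
          rw [Nat.div_eq_of_lt (by omega)] at h2
          rw [← h2]
          rfl
      · have h0 : ∀ i, G (r + (D + 1) • q + Finsupp.single i 1) = 0 := by
          intro i
          apply hG0
          rintro ⟨h1, -⟩
          apply hdeg
          have h2 : ∑ j, (r + (D + 1) • q + Finsupp.single i 1 : Fin n →₀ ℕ) j =
              ∑ j, (r + (D + 1) • q) j + 1 := by
            simp only [Finsupp.add_apply (r + (D + 1) • q), Finset.sum_add_distrib]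
            congr 1
            rw [Finset.sum_eq_single i]
            · simp
            · intro j _ hj
              exact Finsupp.single_eq_of_ne hj
            · intro hi
              exact absurd (Finset.mem_univ i) hi
          omega
        rw [Finset.sum_eq_zero fun i _ => h0 i, zero_div]
        by_cases hq0 : q = 0
        · subst hq0
          rw [if_pos rfl]
          symm
          by_contra hne
          apply hdeg
          have h1 := isHomogeneous_iff.mp hh r hne
          rw [smul_zero, add_zero]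
          exact h1
        · rw [if_neg hq0, coeff_zero]
    · rw [if_neg hr]
      split_ifs
      · symm
        by_contra hne
        exact hr (hb r (mem_support_iff.mpr hne))
      · rfl
  refine ⟨gg D G, hbox, ?_, ?_, ?_, ?_, ?_⟩
  · intro q hq
    ext r
    rw [coeff_gg, coeff_zero]
    split_ifs with hr
    · rw [hG0, zero_div]
      rintro ⟨-, h2⟩
      have h3 : ∑ i, (r + (D + 1) • q) i / (D + 1) = ∑ i, q i :=
        Finset.sum_congr rfl fun i _ => div_box hr i
      rw [h3] at h2
      omega
    · rfl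
  · intro q t hqt
    rw [isHomogeneous_iff]
    intro r hr
    rw [coeff_gg] at hr
    by_contra hne
    apply hr
    split_ifs with h1
    · rw [hG0, zero_div]
      rintro ⟨h2, -⟩
      rw [sum_box] at h2
      omega
    · rfl
  · intro q hq
    ext r
    rw [coeff_gg, coeff_zero]
    split_ifs with hr
    · rw [hG0, zero_div]
      rintro ⟨h2, -⟩
      rw [sum_box] at h2
      omega
    · rfl
  · have := hkey 0 (by simp; omega)
    rw [if_pos rfl] at this
    simpa only [zero_add] using this
  · intro q hq0 hq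
    rw [hkey q hq, if_neg hq0]

end Pool.Agent.Lib_MP_8b82cd_w
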