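import Mathlib
import Pool.Agent.Lib_MP_8b82cd_w.Defs

/-! `sl₂` lemmas. -/

namespace Pool.Agent.Lib_MP_8b82cd_ag.Lowering

open MvPolynomial

variable {n : ℕ} {F : MvPolynomial (Fin n) ℂ →ₗ[ℂ] MvPolynomial (Fin n) ℂ} {σ : ℕ}
  {L : MvPolynomial (Fin n) ℂ} {J : Ideal (MvPolynomial (Fin n) ℂ)}

private theorem smul_cancel {c : ℂ} (hc : c ≠ 0) {p : MvPolynomial (Fin n) ℂ}
    (hp : c • p ∈ J) : p ∈ J := by
  have h4 : p = c⁻¹ • (c • p) := by rw [smul_smul, inv_mul_cancel₀ hc, one_smul]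
  rw [h4]
  exact Submodule.smul_of_tower_mem J _ hp

/-- PIECE B3a. `F` is injective on positive weights. By `comm_pow`, `L^(m+1) p ∈ J` and
`F p ∈ J` give `L^m p ∈ J`; and `L^m p ∈ J` for large `m` by `htop`. -/
theorem low_inj (h : Lowering F σ L J)
    (htop : ∀ t, σ < t → ∀ p : MvPolynomial (Fin n) ℂ, p.IsHomogeneous t → p ∈ J)
    {p : MvPolynomial (Fin n) ℂ} {t : ℕ} (hp : p.IsHomogeneous t) (ht : σ < 2 * t)
    (hF : F p ∈ J) : p ∈ J := by
  have key : ∀ m : ℕ, L ^ m * p ∈ J → p ∈ J := by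
    intro m
    induction m with
    | zero => intro hm; simpa using hm
    | succ m ih =>
      intro hm
      apply ih
      have h1 := h.hJ _ hm
      rw [h.comm_pow hp m] at h1
      have h2 : L ^ (m + 1) * F p ∈ J := Ideal.mul_mem_left _ _ hF
      have h3 : (((m : ℂ) + 1) * ((σ : ℂ) - 2 * t - m)) • (L ^ m * p) ∈ J := by
        have := J.sub_mem h1 h2
        simpa using this
      refine smul_cancel ?_ h3
      apply mul_ne_zero
      · exact_mod_cast Nat.succ_ne_zero m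
      · have : ((σ : ℂ) - 2 * t - m) = -((2 * t + m - σ : ℕ) : ℂ) := by
          rw [Nat.cast_sub (by omega)]
          push_cast
          ring
        rw [this, neg_ne_zero]
        exact_mod_cast (by omega : 2 * t + m - σ ≠ 0)
  exact key (σ + 1) (htop (t + (σ + 1)) (by omega) _ (h.pow_hom hp (σ + 1)))

/-- PIECE B3b. `ker L` and `im F` meet in `0` in nonnegative weight. By `surj`,
`p = L^(s+2) u` mod `J` with `2t = σ + s`, `deg u = t - s - 1` (if `t ≤ s`, `p ∈ J` by `htop`);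
`F p = L^(s+1) (L F u + (s+2) u)`, and `inj` applied to `L^(s+2) (L F u + (s+2) u) ∈ J`. -/
theorem ker_im (h : Lowering F σ L J)
    (htop : ∀ t, σ < t → ∀ p : MvPolynomial (Fin n) ℂ, p.IsHomogeneous t → p ∈ J)
    {p : MvPolynomial (Fin n) ℂ} {t : ℕ} (hp : p.IsHomogeneous (t + 1)) (ht : σ ≤ 2 * t)
    (hL : L * F p ∈ J) : F p ∈ J := by
  obtain ⟨s, hs⟩ : ∃ s, 2 * t = σ + s := ⟨2 * t - σ, by omega⟩
  by_cases hts : t ≤ s
  · exact h.hJ _ (htop (t + 1) (by omega) p hp)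
  · obtain ⟨i, hi⟩ : ∃ i, t = i + s + 1 := ⟨t - s - 1, by omega⟩
    obtain ⟨u, hu, hu2⟩ := h.surj (htop (σ + 1) (Nat.lt_succ_self σ)) i (s + 2) (by omega) p
      (by convert hp using 1; omega)
    have hσ : (σ : ℂ) = 2 * i + s + 2 := by
      have : σ = 2 * i + s + 2 := by omega
      exact_mod_cast this
    have h1 : F (L ^ (s + 1 + 1) * u) = L ^ (s + 1) * (L * F u + ((s : ℂ) + 2) • u) := by
      rw [h.comm_pow hu (s + 1)]
      rw [mul_add, mul_smul_comm, ← mul_assoc, ← pow_succ]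
      congr 2
      rw [hσ]
      push_cast
      ring
    have h2 : F p - L ^ (s + 1) * (L * F u + ((s : ℂ) + 2) • u) ∈ J := by
      rw [← h1, ← map_sub]
      exact h.hJ _ hu2
    have hv : (L * F u + ((s : ℂ) + 2) • u).IsHomogeneous i := by
      apply IsHomogeneous.add
      · cases i with
        | zero => rw [h.hF0 u hu, mul_zero]; exact isHomogeneous_zero _ _ _
        | succ i =>
          have := h.pow_hom (h.hF i u hu) 1
          rwa [pow_one] at this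
      · exact (homogeneousSubmodule (Fin n) ℂ i).smul_mem _ hu
    have h3 : L ^ (s + 2) * (L * F u + ((s : ℂ) + 2) • u) ∈ J := by
      have h4 := J.sub_mem hL (J.mul_mem_left L h2)
      convert h4 using 1
      ring
    have h5 := h.inj i (s + 2) (by omega) _ hv h3
    have h6 := J.add_mem h2 (J.mul_mem_left (L ^ (s + 1)) h5)
    simpa using h6

/-- PIECE B3c. `hc` and `low_inj`. -/
theorem wt_zero (h : Lowering F σ L J)
    (htop : ∀ t, σ < t → ∀ p : MvPolynomial (Fin n) ℂ, p.IsHomogeneous t → p ∈ J)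
    {p : MvPolynomial (Fin n) ℂ} {t : ℕ} (hp : p.IsHomogeneous t) (ht : 2 * t = σ)
    (hF : F p ∈ J) : L * p ∈ J := by
  have h0 : (L * p).IsHomogeneous (t + 1) := by
    have := h.pow_hom hp 1
    rwa [pow_one] at this
  refine h.low_inj htop h0 (by omega) ?_
  rw [h.hc t p hp]
  have : (σ : ℂ) - 2 * t = 0 := by rw [← ht]; push_cast; ring
  rw [this, zero_smul, add_zero]
  exact J.mul_mem_left _ hF

/-- PIECE B3d. `comm_pow` with `m = 1` and `low_inj`. -/
theorem wt_neg_one (h : Lowering F σ L J)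
    (htop : ∀ t, σ < t → ∀ p : MvPolynomial (Fin n) ℂ, p.IsHomogeneous t → p ∈ J)
    {p : MvPolynomial (Fin n) ℂ} {t : ℕ} (hp : p.IsHomogeneous t) (ht : 2 * t + 1 = σ)
    (hF : F p ∈ J) : L ^ 2 * p ∈ J := by
  refine h.low_inj htop (h.pow_hom hp 2) (by omega) ?_
  have h1 := h.comm_pow hp 1
  have h2 : (((1 : ℕ) : ℂ) + 1) * ((σ : ℂ) - 2 * t - ((1 : ℕ) : ℂ)) = 0 := by
    rw [← ht]; push_cast; ring
  rw [h2, zero_smul, add_zero] at h1
  have e : L ^ 2 * p = L ^ (1 + 1) * p := rfl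
  rw [e, h1]
  exact J.mul_mem_left _ hF

/-- PIECE B3e. Let `w = 2t - σ ≥ 1`. Mod `J`: `F (L^2 p) = -2(w+1) L p`, and with `y = L p`
also `F (L y) = L F y - (w+2) y`, so `L F y = -w y`; apply `F`: `L F^2 y = 0`, so `F^2 y = 0`
(`ker_im`; if `w = 1` note that `F y` has degree `t ≥ ...`), `F y = 0`, `y = 0` (`low_inj`). -/
theorem sq_ker (h : Lowering F σ L J)
    (htop : ∀ t, σ < t → ∀ p : MvPolynomial (Fin n) ℂ, p.IsHomogeneous t → p ∈ J)
    {p : MvPolynomial (Fin n) ℂ} {t : ℕ} (hp : p.IsHomogeneous t) (ht : σ < 2 * t)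
    (hL : L ^ 2 * F p ∈ J) : L * p ∈ J := by
  obtain ⟨w, hw⟩ : ∃ w, 2 * t = σ + w + 1 := ⟨2 * t - σ - 1, by omega⟩
  obtain ⟨t, rfl⟩ : ∃ t', t = t' + 1 := ⟨t - 1, by omega⟩
  have hσ : (σ : ℂ) = 2 * ((t + 1 : ℕ) : ℂ) - w - 1 := by
    have : (2 * ((t + 1 : ℕ) : ℂ)) = σ + w + 1 := by exact_mod_cast hw
    rw [this]; ring
  have hy : (L * p).IsHomogeneous (t + 1 + 1) := by
    have := h.pow_hom hp 1
    rwa [pow_one] at this
  have hFy : (F (L * p)).IsHomogeneous (t + 1) := h.hF _ _ hy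
  have hFFy : (F (F (L * p))).IsHomogeneous t := h.hF _ _ hFy
  -- `F (L^2 p)` in two ways
  have h1 := h.comm_pow hp 1
  have h2 := h.hc _ _ hy
  have e1 : L * (L * p) = L ^ (1 + 1) * p := by ring
  rw [e1, h1] at h2
  have h3 : L * F (L * p) + ((w : ℂ) + 1) • (L * p) ∈ J := by
    have h4 : L * F (L * p) + ((w : ℂ) + 1) • (L * p) = L ^ 2 * F p := by
      have h5 : L * F (L * p) = L ^ (1 + 1) * F p +
          ((((1 : ℕ) : ℂ) + 1) * ((σ : ℂ) - 2 * ((t + 1 : ℕ) : ℂ) - ((1 : ℕ) : ℂ))) • (L ^ 1 * p) -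
          ((σ : ℂ) - 2 * ((t + 1 + 1 : ℕ) : ℂ)) • (L * p) := by
        rw [h2]; ring
      rw [h5, pow_one, add_sub_assoc, ← sub_smul, add_assoc, ← add_smul]
      have h6 : (((1 : ℕ) : ℂ) + 1) * ((σ : ℂ) - 2 * ((t + 1 : ℕ) : ℂ) - ((1 : ℕ) : ℂ)) -
          ((σ : ℂ) - 2 * ((t + 1 + 1 : ℕ) : ℂ)) + ((w : ℂ) + 1) = 0 := by
        rw [hσ]; push_cast; ring
      rw [h6, zero_smul, add_zero]
    rw [h4]; exact hL
  have h4 := h.hJ _ h3
  rw [map_add, map_smul, h.hc _ _ hFy] at h4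
  have h5 : L * F (F (L * p)) ∈ J := by
    convert h4 using 1
    rw [add_assoc, ← add_smul]
    have h6 : (σ : ℂ) - 2 * ((t + 1 : ℕ) : ℂ) + ((w : ℂ) + 1) = 0 := by
      rw [hσ]; ring
    rw [h6, zero_smul, add_zero]
  have h6 : F (F (L * p)) ∈ J := by
    by_cases hw0 : w = 0
    · refine h.inj t 1 (by omega) _ hFFy ?_
      rwa [pow_one]
    · exact h.ker_im htop hFy (by omega) h5
  have h7 := h.low_inj htop hFy (by omega) h6
  exact h.low_inj htop hy (by omega) h7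

end Pool.Agent.Lib_MP_8b82cd_ag.Lowering
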