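import Mathlib
import Pool.Agent.Lib_MP_8b82cd_w.Defs

/-! `sl₂` lemmas. -/

namespace Pool.Agent.Lib_MP_8b82cd_ag.Lowering

open MvPolynomial

variable {n : ℕ} {F : MvPolynomial (Fin n) ℂ →ₗ[ℂ] MvPolynomial (Fin n) ℂ} {σ : ℕ}
  {L : MvPolynomial (Fin n) ℂ} {J : Ideal (MvPolynomial (Fin n) ℂ)}

/-- enough applications of `F` kill a form -/
private theorem iter_zero (h : Lowering F σ L J) {p : MvPolynomial (Fin n) ℂ} {t : ℕ}
    (hp : p.IsHomogeneous t) {m : ℕ} (hm : t < m) : (F ^ m) p = 0 := by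
  have h1 : ((F ^ t) p).IsHomogeneous 0 := h.iter_hom t 0 (by simpa using hp)
  have h2 : (F ^ (t + 1)) p = 0 := by
    rw [pow_succ', Module.End.mul_apply]
    exact h.hF0 _ h1
  obtain ⟨k, rfl⟩ : ∃ k, m = k + (t + 1) := ⟨m - (t + 1), by omega⟩
  rw [pow_add, Module.End.mul_apply, h2, map_zero]

/-- commutation of `L` with the powers of `F` -/
private theorem comm_iter (h : Lowering F σ L J) {q : MvPolynomial (Fin n) ℂ} {e : ℕ}
    (hq : q.IsHomogeneous e) : ∀ j : ℕ, j ≤ e →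
    L * (F ^ (j + 1)) q = (F ^ (j + 1)) (L * q) -
      (((j : ℂ) + 1) * ((σ : ℂ) - 2 * e + j)) • (F ^ j) q := by
  intro j
  induction j with
  | zero =>
    intro _
    simp only [zero_add, pow_one, pow_zero, Module.End.one_apply, Nat.cast_zero, add_zero, one_mul]
    rw [h.hc e q hq]
    ring
  | succ j ih =>
    intro hj
    have h1 : ((F ^ (j + 1)) q).IsHomogeneous (e - (j + 1)) := by
      apply h.iter_hom
      convert hq using 1
      omega
    have h2 := h.hc _ _ h1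
    rw [ih (by omega), map_sub, map_smul] at h2
    have e1 : ∀ (k : ℕ) (x : MvPolynomial (Fin n) ℂ), F ((F ^ k) x) = (F ^ (k + 1)) x := by
      intro k x
      rw [pow_succ' F k, Module.End.mul_apply]
    rw [e1, e1, e1] at h2
    have h3 : L * (F ^ (j + 1 + 1)) q = (F ^ (j + 1 + 1)) (L * q) -
        (((j : ℂ) + 1) * ((σ : ℂ) - 2 * e + j)) • (F ^ (j + 1)) q -
        ((σ : ℂ) - 2 * ((e - (j + 1) : ℕ) : ℂ)) • (F ^ (j + 1)) q := by
      rw [h2]; ring
    rw [h3, sub_sub, ← add_smul]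
    congr 2
    rw [Nat.cast_sub hj]
    push_cast
    ring

/-- PIECE B3f. `F` is surjective onto negative weights: `z = ∑_j c_j L^(j+1) F^j p`,
`F (L^(j+1) F^j p) = L^(j+1) F^(j+1) p + (j+1)(σ - 2t + j) L^j F^j p`, `F^(t+1) p = 0`. -/
theorem low_surj (h : Lowering F σ L J) {p : MvPolynomial (Fin n) ℂ} {t : ℕ}
    (hp : p.IsHomogeneous t) (ht : 2 * t < σ) :
    ∃ z : MvPolynomial (Fin n) ℂ, z.IsHomogeneous (t + 1) ∧ F z = p := by
  have key : ∀ k : ℕ, k ≤ t + 1 → ∃ z : MvPolynomial (Fin n) ℂ, z.IsHomogeneous (t + 1) ∧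
      F z = L ^ (t + 1 - k) * (F ^ (t + 1 - k)) p := by
    intro k
    induction k with
    | zero =>
      intro _
      refine ⟨0, isHomogeneous_zero _ _ _, ?_⟩
      rw [Nat.sub_zero, iter_zero h hp (Nat.lt_succ_self t), map_zero, mul_zero]
    | succ k ih =>
      intro hk
      obtain ⟨z, hz, hFz⟩ := ih (by omega)
      obtain ⟨j, hj⟩ : ∃ j, t = j + k := ⟨t - k, by omega⟩
      have ej : t + 1 - (k + 1) = j := by omega
      have ej' : t + 1 - k = j + 1 := by omega
      rw [ej'] at hFz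
      rw [ej]
      have hq : ((F ^ j) p).IsHomogeneous k := h.iter_hom j k (by rwa [add_comm, ← hj])
      have h1 := h.comm_pow hq j
      have e1 : F ((F ^ j) p) = (F ^ (j + 1)) p := by
        rw [pow_succ' F j, Module.End.mul_apply]
      rw [e1] at h1
      set κ : ℂ := ((j : ℂ) + 1) * ((σ : ℂ) - 2 * k - j) with hκ
      have hκ0 : κ ≠ 0 := by
        rw [hκ]
        apply mul_ne_zero
        · exact_mod_cast Nat.succ_ne_zero j
        · have : ((σ : ℂ) - 2 * k - j) = ((σ - (2 * k + j) : ℕ) : ℂ) := by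
            rw [Nat.cast_sub (by omega)]
            push_cast
            ring
          rw [this]
          exact_mod_cast (by omega : σ - (2 * k + j) ≠ 0)
      refine ⟨κ⁻¹ • (L ^ (j + 1) * (F ^ j) p - z), ?_, ?_⟩
      · apply (homogeneousSubmodule (Fin n) ℂ (t + 1)).smul_mem
        apply IsHomogeneous.sub _ hz
        have := h.pow_hom hq (j + 1)
        have e2 : k + (j + 1) = t + 1 := by omega
        rwa [e2] at this
      · rw [map_smul, map_sub, h1, hFz, add_sub_cancel_left, smul_smul, inv_mul_cancel₀ hκ0,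
          one_smul]
  obtain ⟨z, hz, hFz⟩ := key (t + 1) le_rfl
  refine ⟨z, hz, ?_⟩
  rw [hFz]
  simp

/-- PIECE B3g. In nonnegative weight every form is a highest weight vector plus `F z`:
`z = ∑_j c_j F^j L^(j+1) p` modulo `J`. -/
theorem decomp (h : Lowering F σ L J)
    (htop : ∀ t, σ < t → ∀ p : MvPolynomial (Fin n) ℂ, p.IsHomogeneous t → p ∈ J)
    {p : MvPolynomial (Fin n) ℂ} {t : ℕ} (hp : p.IsHomogeneous t) (ht : σ ≤ 2 * t) :
    ∃ z : MvPolynomial (Fin n) ℂ, z.IsHomogeneous (t + 1) ∧ L * (p - F z) ∈ J := by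
  have key : ∀ N : ℕ, ∃ (z : MvPolynomial (Fin n) ℂ) (c : ℂ), z.IsHomogeneous (t + 1) ∧
      L * (p - F z) = c • (F ^ N) (L ^ (N + 1) * p) := by
    intro N
    induction N with
    | zero =>
      refine ⟨0, 1, isHomogeneous_zero _ _ _, ?_⟩
      simp
    | succ N ih =>
      obtain ⟨z, c, hz, hL⟩ := ih
      have hq : (L ^ (N + 1) * p).IsHomogeneous (t + (N + 1)) := h.pow_hom hp (N + 1)
      have h1 := comm_iter h hq N (by omega)
      have e1 : L * (L ^ (N + 1) * p) = L ^ (N + 1 + 1) * p := by ring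
      rw [e1] at h1
      set κ : ℂ := ((N : ℂ) + 1) * ((σ : ℂ) - 2 * ((t + (N + 1) : ℕ) : ℂ) + N) with hκ
      have hκ0 : κ ≠ 0 := by
        rw [hκ]
        apply mul_ne_zero
        · exact_mod_cast Nat.succ_ne_zero N
        · have : ((σ : ℂ) - 2 * ((t + (N + 1) : ℕ) : ℂ) + N) = -((2 * t - σ + N + 2 : ℕ) : ℂ) := by
            push_cast [Nat.cast_sub ht]
            ring
          rw [this, neg_ne_zero]
          exact_mod_cast (by omega : 2 * t - σ + N + 2 ≠ 0)
      have hw : ((F ^ N) (L ^ (N + 1) * p)).IsHomogeneous (t + 1) := by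
        apply h.iter_hom N (t + 1)
        convert hq using 1
        ring
      have e2 : F ((F ^ N) (L ^ (N + 1) * p)) = (F ^ (N + 1)) (L ^ (N + 1) * p) := by
        rw [pow_succ' F N, Module.End.mul_apply]
      refine ⟨z - (c * κ⁻¹) • (F ^ N) (L ^ (N + 1) * p), c * κ⁻¹, ?_, ?_⟩
      · exact IsHomogeneous.sub hz ((homogeneousSubmodule (Fin n) ℂ (t + 1)).smul_mem _ hw)
      · rw [map_sub, map_smul, e2]
        have e3 : L * (p - (F z - (c * κ⁻¹) • (F ^ (N + 1)) (L ^ (N + 1) * p))) =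
            L * (p - F z) + (c * κ⁻¹) • (L * (F ^ (N + 1)) (L ^ (N + 1) * p)) := by
          rw [← mul_smul_comm]
          ring
        rw [e3, hL, h1, smul_sub, smul_smul, mul_assoc, inv_mul_cancel₀ hκ0, mul_one]
        abel
  obtain ⟨z, c, hz, hL⟩ := key σ
  refine ⟨z, hz, ?_⟩
  rw [hL]
  apply Submodule.smul_of_tower_mem
  have h1 : L ^ (σ + 1) * p ∈ J :=
    htop (t + (σ + 1)) (by omega) _ (h.pow_hom hp (σ + 1))
  have h2 : ∀ m : ℕ, (F ^ m) (L ^ (σ + 1) * p) ∈ J := by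
    intro m
    induction m with
    | zero => simpa using h1
    | succ m ih =>
      rw [pow_succ' F m, Module.End.mul_apply]
      exact h.hJ _ ih
  exact h2 σ

/-- `L F + c` is injective modulo `J` for `c > 0` -/
private theorem eig (h : Lowering F σ L J) : ∀ (e c : ℕ) (q : MvPolynomial (Fin n) ℂ), 0 < c →
    q.IsHomogeneous e → 2 * e ≤ σ + 2 → L * F q + (c : ℂ) • q ∈ J → q ∈ J := by
  have fin : ∀ (c : ℕ) (q : MvPolynomial (Fin n) ℂ), 0 < c → (c : ℂ) • q ∈ J → q ∈ J := by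
    intro c q hc hq
    have hc0 : (c : ℂ) ≠ 0 := by exact_mod_cast hc.ne'
    have h1 := Submodule.smul_of_tower_mem J (c : ℂ)⁻¹ hq
    rwa [smul_smul, inv_mul_cancel₀ hc0, one_smul] at h1
  intro e
  induction e with
  | zero =>
    intro c q hc hq _ hJ
    rw [h.hF0 q hq, mul_zero, zero_add] at hJ
    exact fin c q hc hJ
  | succ e ih =>
    intro c q hc hq he hJ
    have hFq := h.hF e q hq
    have h1 := h.hJ _ hJ
    rw [map_add, map_smul, h.hc e _ hFq, add_assoc, ← add_smul] at h1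
    have h2 : F q ∈ J := by
      apply ih (c + (σ - 2 * e)) (F q) (by omega) hFq (by omega)
      convert h1 using 3
      push_cast [Nat.cast_sub (by omega : 2 * e ≤ σ)]
      ring
    have h3 : (c : ℂ) • q ∈ J := by
      have h4 := J.sub_mem hJ (J.mul_mem_left L h2)
      simpa using h4
    exact fin c q hc h3

private theorem kill_one (h : Lowering F σ L J) {p : MvPolynomial (Fin n) ℂ} {t μ : ℕ}
    (hp : p.IsHomogeneous t) (ht : 2 * t = σ + μ)
    (hL : L * p ∈ J) : (F ^ (μ + 1)) p ∈ J := by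
  by_cases htμ : t < μ + 1
  · rw [iter_zero h hp htμ]; exact J.zero_mem
  push Not at htμ
  obtain ⟨i, rfl⟩ : ∃ i, t = i + μ := ⟨t - μ, by omega⟩
  have h1 := h.killed (i := i) (s := μ) (by omega) hp hL μ le_rfl
  rw [sub_self, mul_zero, zero_smul, sub_zero] at h1
  have h2 : ((F ^ (μ + 1)) p).IsHomogeneous (i - 1) := by
    apply h.iter_hom
    convert hp using 1
    omega
  have h3 : InjP J L (i - 1) 1 := h.injP (by omega)
  exact h3 _ h2 (by simpa using h1)

/-- PIECE B3h. If `L^m p ∈ J`, `m ≥ 1`, and `p` has weight `μ = 2t - σ ≥ 0`, then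
`F^(μ+m) p ∈ J`. (Induct on `m`; `m = 1` from `killed` at `s = μ`: `L * F^(μ+1) p ∈ J`, degree
`t - μ - 1` (or `F^(t+1) p = 0`), `injP`.) Only `m = 1` and `m = 2` are needed. -/
theorem kill_pow (h : Lowering F σ L J) {p : MvPolynomial (Fin n) ℂ} {t m μ : ℕ}
    (hm1 : 1 ≤ m) (hm2 : m ≤ 2) (hp : p.IsHomogeneous t) (ht : 2 * t = σ + μ)
    (hL : L ^ m * p ∈ J) : (F ^ (μ + m)) p ∈ J := by
  obtain rfl | rfl : m = 1 ∨ m = 2 := by omega
  · exact kill_one h hp ht (by simpa using hL)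
  by_cases htμ : t < μ + 2
  · rw [iter_zero h hp htμ]; exact J.zero_mem
  push Not at htμ
  have h1 : (F ^ (μ + 2 + 1)) (L * p) ∈ J := by
    have h2 := h.pow_hom hp 1
    rw [pow_one] at h2
    apply kill_one h h2 (by omega)
    convert hL using 1
    ring
  have h2 := comm_iter h hp (μ + 2) htμ
  have h3 : ((F ^ (μ + 2)) p).IsHomogeneous (t - (μ + 2)) := by
    apply h.iter_hom
    convert hp using 1
    omega
  apply eig h (t - (μ + 2)) (2 * (μ + 3)) _ (by omega) h3 (by omega)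
  have e1 : F ((F ^ (μ + 2)) p) = (F ^ (μ + 2 + 1)) p := by
    rw [pow_succ' F (μ + 2), Module.End.mul_apply]
  rw [e1, h2]
  have e2 : (((μ + 2 : ℕ) : ℂ) + 1) * ((σ : ℂ) - 2 * t + ((μ + 2 : ℕ) : ℂ)) =
      ((2 * (μ + 3) : ℕ) : ℂ) := by
    have : (2 : ℂ) * t = σ + μ := by exact_mod_cast ht
    rw [this]
    push_cast
    ring
  rw [e2, sub_add_cancel]
  exact h1

end Pool.Agent.Lib_MP_8b82cd_ag.Lowering
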