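import Mathlib
import Pool.Agent.Lib_MP_8b82cd_w.Defs

/-! The operators `E_i` and reduced polynomials. -/

namespace Pool.Agent.Lib_MP_8b82cd_w

open MvPolynomial Pool.Agent.Lib_MP_8b82cd_ag

variable {n : ℕ}

private theorem zi_monomial_B4 (i : Fin n) (m : Fin n →₀ ℕ) (c : ℂ) :
    zi i (monomial m c) = if m i = 0 then monomial m c else 0 := by
  classical
  unfold zi
  rw [aeval_monomial]
  split_ifs with h
  · rw [monomial_eq]
    congr 1
    refine Finsupp.prod_congr ?_
    intro j hj
    have hji : j ≠ i := by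
      rintro rfl
      exact (Finsupp.mem_support_iff.mp hj) h
    rw [if_neg hji]
  · have hi : i ∈ m.support := Finsupp.mem_support_iff.mpr h
    have h1 : (m.prod fun j k => (if j = i then (0 : MvPolynomial (Fin n) ℂ) else X j) ^ k) = 0 := by
      unfold Finsupp.prod
      refine Finset.prod_eq_zero hi ?_
      beta_reduce
      rw [if_pos rfl, zero_pow h]
    rw [h1, mul_zero]

private theorem coeff_zi_B4 (i : Fin n) (f : MvPolynomial (Fin n) ℂ) (m : Fin n →₀ ℕ) :
    coeff m (zi i f) = if m i = 0 then coeff m f else 0 := by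
  classical
  induction f using MvPolynomial.induction_on' with
  | monomial u a =>
    rw [zi_monomial_B4]
    by_cases hum : u = m
    · subst hum
      split_ifs <;> simp
    · split_ifs <;> simp [coeff_monomial, hum]
  | add p q hp hq =>
    rw [map_add, coeff_add, hp, hq, coeff_add]
    split_ifs <;> simp

private theorem coeff_E_B4 (D : ℕ) (i : Fin n) (f : MvPolynomial (Fin n) ℂ) (m : Fin n →₀ ℕ) :
    coeff m (E D i f) = if m i = D then coeff (m.erase i) f else 0 := by
  classical
  unfold E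
  rw [X_pow_eq_monomial, coeff_monomial_mul', one_mul]
  by_cases h : m i = D
  · have h1 : Finsupp.single i D ≤ m := by
      intro j
      by_cases hj : j = i
      · subst hj; simp [h]
      · simp [Ne.symm hj]
    have h2 : m - Finsupp.single i D = m.erase i := by
      ext j
      by_cases hj : j = i
      · subst hj; simp [h]
      · simp [Ne.symm hj, Finsupp.erase_ne hj]
    rw [if_pos h1, if_pos h, coeff_zi_B4, h2, if_pos Finsupp.erase_same]
  · rw [if_neg h]
    split_ifs with h1
    · have h3 : D ≤ m i := by simpa using h1 i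
      rw [coeff_zi_B4, if_neg]
      rw [Finsupp.coe_tsub, Pi.sub_apply, Finsupp.single_eq_same]
      omega
    · rfl

/-- PIECE B4. All of the following. -/
theorem box_mem_zero {D : ℕ} {f : MvPolynomial (Fin n) ℂ} (hb : Box D f) (hf : f ∈ JJ n D) :
    f = 0 := by
  by_contra hne
  obtain ⟨m, hm⟩ := support_nonempty.mpr hne
  obtain ⟨i, hi⟩ := (mem_ciI_iff _).mp hf m hm
  have := hb m hm i
  omega

/-- reduction modulo `JJ n D` -/
theorem exists_red (D : ℕ) (f : MvPolynomial (Fin n) ℂ) :
    ∃ g : MvPolynomial (Fin n) ℂ, Box D g ∧ f - g ∈ JJ n D ∧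
      ∀ t, f.IsHomogeneous t → g.IsHomogeneous t := by
  classical
  set g : MvPolynomial (Fin n) ℂ :=
    ∑ m ∈ f.support.filter (fun m => ∀ i, m i ≤ D), monomial m (coeff m f) with hg
  have hcoeff : ∀ m, coeff m g = if (∀ i, m i ≤ D) then coeff m f else 0 := by
    intro m
    rw [hg, coeff_sum]
    simp only [coeff_monomial]
    rw [Finset.sum_ite_eq']
    by_cases h1 : ∀ i, m i ≤ D
    · by_cases h2 : m ∈ f.support
      · rw [if_pos (Finset.mem_filter.mpr ⟨h2, h1⟩), if_pos h1]
      · rw [if_neg (fun h => h2 (Finset.mem_filter.mp h).1), if_pos h1]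
        exact (notMem_support_iff.mp h2).symm
    · rw [if_neg (fun h => h1 (Finset.mem_filter.mp h).2), if_neg h1]
  refine ⟨g, ?_, ?_, ?_⟩
  · intro m hm i
    rw [mem_support_iff, hcoeff] at hm
    by_contra h
    exact hm (if_neg (fun h1 => h (h1 i)))
  · rw [mem_ciI_iff]
    intro m hm
    rw [mem_support_iff, coeff_sub, hcoeff] at hm
    by_contra h
    have h1 : ∀ i, m i ≤ D := by
      intro i
      by_contra h2
      exact h ⟨i, by omega⟩
    rw [if_pos h1, sub_self] at hm
    exact hm rfl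
  · intro t ht
    rw [isHomogeneous_iff] at ht ⊢
    intro m hm
    rw [hcoeff] at hm
    refine ht m (fun h => hm ?_)
    rw [h]
    split_ifs <;> rfl

theorem Box.add {D : ℕ} {f g : MvPolynomial (Fin n) ℂ} (hf : Box D f) (hg : Box D g) :
    Box D (f + g) := by
  classical
  intro m hm i
  rcases Finset.mem_union.mp (support_add hm) with h | h
  · exact hf m h i
  · exact hg m h i

theorem Box.smul {D : ℕ} {f : MvPolynomial (Fin n) ℂ} (hf : Box D f) (c : ℂ) :
    Box D (c • f) := by
  intro m hm i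
  refine hf m ?_ i
  rw [mem_support_iff] at hm ⊢
  intro h
  apply hm
  rw [coeff_smul, h, smul_zero]

theorem Box.sub {D : ℕ} {f g : MvPolynomial (Fin n) ℂ} (hf : Box D f) (hg : Box D g) :
    Box D (f - g) := by
  have h := hf.add (hg.smul (-1))
  rwa [neg_one_smul, ← sub_eq_add_neg] at h

theorem Box.sum {D : ℕ} {ι : Type*} {s : Finset ι} {f : ι → MvPolynomial (Fin n) ℂ}
    (hf : ∀ i ∈ s, Box D (f i)) : Box D (∑ i ∈ s, f i) := by
  intro m hm i
  rw [mem_support_iff, coeff_sum] at hm
  obtain ⟨j, hj, hj2⟩ := Finset.exists_ne_zero_of_sum_ne_zero hm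
  exact hf j hj m (mem_support_iff.mpr hj2) i

theorem Box.FF {D : ℕ} {f : MvPolynomial (Fin n) ℂ} (hf : Box D f) : Box D (FF n D f) := by
  intro m hm i
  rw [mem_support_iff, coeff_lowF] at hm
  obtain ⟨j, -, hj2⟩ := Finset.exists_ne_zero_of_sum_ne_zero hm
  have h1 : coeff (m + Finsupp.single j 1) f ≠ 0 := right_ne_zero_of_mul hj2
  have h2 := hf _ (mem_support_iff.mpr h1) i
  rw [Finsupp.add_apply] at h2
  omega

/-- monomials of `E_i f` have exponent exactly `D` at `i` -/
theorem E_support {D : ℕ} {f : MvPolynomial (Fin n) ℂ} {i : Fin n} {m : Fin n →₀ ℕ}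
    (hm : m ∈ (E D i f).support) : m i = D := by
  rw [mem_support_iff, coeff_E_B4] at hm
  by_contra h
  exact hm (if_neg h)

/-- a monomial of `E_i f` comes from a monomial of `f` without `x_i` -/
theorem E_support_from {D : ℕ} {f : MvPolynomial (Fin n) ℂ} {i : Fin n} {m : Fin n →₀ ℕ}
    (hm : m ∈ (E D i f).support) : ∃ m' ∈ f.support, m' i = 0 ∧ ∀ j, j ≠ i → m' j = m j := by
  have h1 := E_support hm
  rw [mem_support_iff, coeff_E_B4, if_pos h1] at hm
  exact ⟨m.erase i, mem_support_iff.mpr hm, Finsupp.erase_same, fun j hj => Finsupp.erase_ne hj⟩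

theorem Box.E {D : ℕ} {f : MvPolynomial (Fin n) ℂ} (hf : Box D f) (i : Fin n) :
    Box D (E D i f) := by
  intro m hm j
  by_cases hj : j = i
  · subst hj
    exact (E_support hm).le
  · obtain ⟨m', h1, -, h3⟩ := E_support_from hm
    rw [← h3 j hj]
    exact hf m' h1 j

theorem E_hom {D : ℕ} {f : MvPolynomial (Fin n) ℂ} {t : ℕ} (hf : f.IsHomogeneous t)
    (i : Fin n) : (E D i f).IsHomogeneous (t + D) := by
  classical
  rw [isHomogeneous_iff] at hf ⊢
  intro m hm
  have hm' : m ∈ (Pool.Agent.Lib_MP_8b82cd_w.E D i f).support := mem_support_iff.mpr hm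
  have h0 := E_support hm'
  obtain ⟨m', h1, h2, h3⟩ := E_support_from hm'
  have h4 := hf m' (mem_support_iff.mp h1)
  rw [← Finset.add_sum_erase _ _ (Finset.mem_univ i)] at h4 ⊢
  rw [h2, zero_add] at h4
  rw [h0, add_comm D, ← h4]
  congr 1
  refine Finset.sum_congr rfl (fun j hj => ?_)
  exact (h3 j (Finset.ne_of_mem_erase hj)).symm

theorem E_mem {D : ℕ} {f : MvPolynomial (Fin n) ℂ} (i : Fin n) (hf : f ∈ JJ n D) :
    E D i f ∈ JJ n D := by
  rw [mem_ciI_iff] at hf ⊢
  intro m hm
  obtain ⟨m', h1, h2, h3⟩ := E_support_from hm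
  obtain ⟨j, hj⟩ := hf m' h1
  have hji : j ≠ i := by
    rintro rfl
    omega
  exact ⟨j, by rw [← h3 j hji]; exact hj⟩

theorem E_add (D : ℕ) (i : Fin n) (f g : MvPolynomial (Fin n) ℂ) :
    E D i (f + g) = E D i f + E D i g := by
  simp [E, mul_add]

theorem E_sub (D : ℕ) (i : Fin n) (f g : MvPolynomial (Fin n) ℂ) :
    E D i (f - g) = E D i f - E D i g := by
  simp [E, mul_sub]

/-- `E_i` commutes with multiplication by the sum of the variables modulo `JJ n D` -/
theorem ell_E (D : ℕ) (i : Fin n) (f : MvPolynomial (Fin n) ℂ) :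
    ell n * E D i f - E D i (ell n * f) ∈ JJ n D := by
  classical
  have h1 : zi i (ell n) = ell n - X i := by
    unfold zi ell
    rw [map_sum]
    simp only [aeval_X]
    rw [← Finset.add_sum_erase _ _ (Finset.mem_univ i), if_pos rfl, zero_add,
      ← Finset.add_sum_erase _ (fun j : Fin n => (X j : MvPolynomial (Fin n) ℂ))
        (Finset.mem_univ i), add_sub_cancel_left]
    refine Finset.sum_congr rfl (fun j hj => ?_)
    rw [if_neg (Finset.ne_of_mem_erase hj)]
  have h2 : ell n * E D i f - E D i (ell n * f) = X i ^ (D + 1) * zi i f := by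
    unfold E
    rw [map_mul, h1]
    ring
  rw [h2]
  exact Ideal.mul_mem_right _ _ (Ideal.subset_span ⟨i, rfl⟩)

theorem ell_E_mem {D : ℕ} (i : Fin n) {f : MvPolynomial (Fin n) ℂ} (hf : ell n * f ∈ JJ n D) :
    ell n * E D i f ∈ JJ n D := by
  have h1 := ell_E D i f
  have h2 := E_mem i hf
  have h3 := (JJ n D).add_mem h1 h2
  simpa using h3

/-- if all monomials of `f` have exponent `D` at `j ≠ i`, so do those of `E_i f` -/
theorem E_support_other {D : ℕ} {f : MvPolynomial (Fin n) ℂ} {i j : Fin n} (hij : j ≠ i)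
    (hf : ∀ m ∈ f.support, m j = D) {m : Fin n →₀ ℕ} (hm : m ∈ (E D i f).support) :
    m j = D := by
  obtain ⟨m', h1, -, h3⟩ := E_support_from hm
  rw [← h3 j hij]
  exact hf m' h1

/-- `E_i E_i = 0` for `D ≥ 1` -/
theorem E_E_self {D : ℕ} (hD : 1 ≤ D) (i : Fin n) (f : MvPolynomial (Fin n) ℂ) :
    E D i (E D i f) = 0 := by
  ext m
  rw [coeff_E_B4, coeff_E_B4, coeff_zero, Finsupp.erase_same, if_neg (by omega : ¬ (0 = D))]
  split_ifs <;> rfl

end Pool.Agent.Lib_MP_8b82cd_w
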