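import Mathlib
import Pool.Agent.Lib_MP_8b82cd_w.Defs

/-! Definitions for the positive part. -/

namespace Pool.Agent.Lib_MP_8b82cd_w

open MvPolynomial Pool.Agent.Lib_MP_8b82cd_ag

variable {n : ℕ}

/-- every form of degree `t` killed by the sum of the variables modulo `ciI e` is a sum of such
forms each divisible by some `x_i^(D-b)` -/
def SpanE (D b : ℕ) (e : Fin n → ℕ) (t : ℕ) : Prop :=
  ∀ v : MvPolynomial (Fin n) ℂ, v.IsHomogeneous t → ell n * v ∈ ciI e →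
    ∃ w : Fin n → MvPolynomial (Fin n) ℂ,
      (∀ i, (w i).IsHomogeneous t ∧ ell n * w i ∈ ciI e ∧ X i ^ (D - b) ∣ w i) ∧
      v - ∑ i, w i ∈ ciI e

/-- the diagonal rescaling `x^r ↦ (∏ r_i! D! / (D - r_i)!) x^r` -/
noncomputable def sfac (D : ℕ) (r : Fin n →₀ ℕ) : ℂ :=
  ∏ i, ((r i).factorial * (D.descFactorial (r i)) : ℕ)

/-- the rescaling operator -/
noncomputable def SS (n D : ℕ) : MvPolynomial (Fin n) ℂ →ₗ[ℂ] MvPolynomial (Fin n) ℂ :=
  (basisMonomials (Fin n) ℂ).constr ℂ fun r => monomial r (sfac D r)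

end Pool.Agent.Lib_MP_8b82cd_w
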