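import Mathlib
import Pool.Agent.Lib_MP_8b82cd_w.C0
import Pool.Agent.Lib_MP_8b82cd_w.B4

/-! From families to the contraction operator, `k = 2`. -/

namespace Pool.Agent.Lib_MP_8b82cd_w

open MvPolynomial Pool.Agent.Lib_MP_8b82cd_ag

variable {n : ℕ}

private theorem zi_monomial_B5 (i : Fin n) (m : Fin n →₀ ℕ) (c : ℂ) :
    zi i (monomial m c) = if m i = 0 then monomial m c else 0 := by
  classical
  unfold zi
  rw [aeval_monomial]
  split_ifs with h
  · rw [monomial_eq]
    congr 1
    refine Finsupp.prod_congr ?_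
    intro j hj
    have hji : j ≠ i := by
      rintro rfl
      exact (Finsupp.mem_support_iff.mp hj) h
    rw [if_neg hji]
  · have hi : i ∈ m.support := Finsupp.mem_support_iff.mpr h
    have h1 : (m.prod fun j k => (if j = i then (0 : MvPolynomial (Fin n) ℂ) else X j) ^ k) = 0 := by
      unfold Finsupp.prod
      refine Finset.prod_eq_zero hi ?_
      beta_reduce
      rw [if_pos rfl, zero_pow h]
    rw [h1, mul_zero]

private theorem coeff_zi_B5 (i : Fin n) (f : MvPolynomial (Fin n) ℂ) (m : Fin n →₀ ℕ) :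
    coeff m (zi i f) = if m i = 0 then coeff m f else 0 := by
  classical
  induction f using MvPolynomial.induction_on' with
  | monomial u a =>
    rw [zi_monomial_B5]
    by_cases hum : u = m
    · subst hum
      split_ifs <;> simp
    · split_ifs <;> simp [coeff_monomial, hum]
  | add p q hp hq =>
    rw [map_add, coeff_add, hp, hq, coeff_add]
    split_ifs <;> simp

private theorem sub_single_B5 (i : Fin n) (D : ℕ) (m : Fin n →₀ ℕ) (h : m i = D) :
    m - Finsupp.single i D = m.erase i := by
  ext j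
  by_cases hj : j = i
  · subst hj; simp [h]
  · simp [Ne.symm hj, Finsupp.erase_ne hj]

private theorem coeff_E_B5 (D : ℕ) (i : Fin n) (f : MvPolynomial (Fin n) ℂ) (m : Fin n →₀ ℕ) :
    coeff m (E D i f) = if m i = D then coeff (m.erase i) f else 0 := by
  classical
  unfold E
  rw [X_pow_eq_monomial, coeff_monomial_mul', one_mul]
  by_cases h : m i = D
  · have h1 : Finsupp.single i D ≤ m := by
      intro j
      by_cases hj : j = i
      · subst hj; simp [h]
      · simp [Ne.symm hj]
    rw [if_pos h1, if_pos h, coeff_zi_B5, sub_single_B5 i D m h, if_pos Finsupp.erase_same]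
  · rw [if_neg h]
    split_ifs with h1
    · have h3 : D ≤ m i := by simpa using h1 i
      rw [coeff_zi_B5, if_neg]
      rw [Finsupp.coe_tsub, Pi.sub_apply, Finsupp.single_eq_same]
      omega
    · rfl

private theorem coeff_cd_B5 (f : MvPolynomial (Fin n) ℂ) (m : Fin n →₀ ℕ) :
    coeff m (cd f) = ∑ j, coeff (m + Finsupp.single j 1) f := by
  unfold cd
  rw [coeff_sum]
  refine Finset.sum_congr rfl fun j _ => ?_
  rw [coeff_divMonomial, add_comm]

private theorem single_le_B5 (i : Fin n) (a : ℕ) (m : Fin n →₀ ℕ) :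
    Finsupp.single i a ≤ m ↔ a ≤ m i := by
  constructor
  · intro h
    simpa using h i
  · intro h j
    by_cases hj : j = i
    · subst hj; simpa using h
    · simp [Ne.symm hj]

/-- `sfac` of a neighbour -/
private theorem sfac_succ_B5 (D : ℕ) (m : Fin n →₀ ℕ) (j : Fin n) :
    sfac D (m + Finsupp.single j 1) = sfac D m * (((m j : ℂ) + 1) * ((D : ℂ) - m j)) := by
  classical
  unfold sfac
  rw [← Finset.mul_prod_erase _ _ (Finset.mem_univ j), ← Finset.mul_prod_erase _ _ (Finset.mem_univ j)]
  have h1 : ∀ i ∈ Finset.univ.erase j, ((((m + Finsupp.single j 1 : Fin n →₀ ℕ) i).factorial *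
      D.descFactorial ((m + Finsupp.single j 1 : Fin n →₀ ℕ) i) : ℕ) : ℂ) =
        (((m i).factorial * D.descFactorial (m i) : ℕ) : ℂ) := by
    intro i hi
    have hne := Finset.ne_of_mem_erase hi
    have h2 : (m + Finsupp.single j 1 : Fin n →₀ ℕ) i = m i := by
      rw [Finsupp.add_apply, Finsupp.single_eq_of_ne hne, add_zero]
    rw [h2]
  rw [Finset.prod_congr rfl h1]
  have h3 : (m + Finsupp.single j 1 : Fin n →₀ ℕ) j = m j + 1 := by
    rw [Finsupp.add_apply, Finsupp.single_eq_same]
  rw [h3, Nat.factorial_succ, Nat.descFactorial_succ]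
  rcases le_or_gt (m j) D with h4 | h4
  · push_cast [Nat.cast_sub h4]
    ring
  · rw [Nat.descFactorial_eq_zero_iff_lt.mpr h4]
    simp

private theorem sfac_erase_B5 (D : ℕ) (m : Fin n →₀ ℕ) (i : Fin n) (h : m i = D) :
    sfac D m * kap0 D = sfac D (m.erase i) := by
  classical
  unfold sfac kap0
  rw [← Finset.mul_prod_erase _ _ (Finset.mem_univ i), ← Finset.mul_prod_erase _ _ (Finset.mem_univ i)]
  have h1 : ∀ j ∈ Finset.univ.erase i, ((((m.erase i) j).factorial *
      D.descFactorial ((m.erase i) j) : ℕ) : ℂ) =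
        (((m j).factorial * D.descFactorial (m j) : ℕ) : ℂ) := by
    intro j hj
    rw [Finsupp.erase_ne (Finset.ne_of_mem_erase hj)]
  rw [Finset.prod_congr rfl h1, Finsupp.erase_same, h, Nat.descFactorial_self]
  have h2 : (D.factorial : ℂ) ≠ 0 := by
    exact_mod_cast Nat.factorial_ne_zero D
  push_cast
  rw [Nat.factorial_zero, Nat.descFactorial_zero]
  field_simp
  push_cast
  ring

private theorem sfac_ne_B5 {D : ℕ} {m : Fin n →₀ ℕ} (h : ∀ i, m i ≤ D) : sfac D m ≠ 0 := by
  unfold sfac
  rw [Finset.prod_ne_zero_iff]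
  intro i _
  have h1 : (m i).factorial * D.descFactorial (m i) ≠ 0 := by
    refine Nat.mul_ne_zero (Nat.factorial_ne_zero _) ?_
    rw [Ne, Nat.descFactorial_eq_zero_iff_lt]
    exact not_lt.mpr (h i)
  exact_mod_cast h1

theorem coeff_SS (D : ℕ) (f : MvPolynomial (Fin n) ℂ) (r : Fin n →₀ ℕ) :
    coeff r (SS n D f) = sfac D r * coeff r f := by
  classical
  induction f using MvPolynomial.induction_on' with
  | monomial u a =>
    have h1 : SS n D (monomial u a) = monomial u (a * sfac D u) := by
      have h2 : (monomial u a : MvPolynomial (Fin n) ℂ) = a • (basisMonomials (Fin n) ℂ) u := by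
        rw [coe_basisMonomials, smul_monomial, smul_eq_mul, mul_one]
      unfold SS
      rw [h2, map_smul, Module.Basis.constr_basis, smul_monomial, smul_eq_mul]
    rw [h1, coeff_monomial, coeff_monomial]
    split_ifs with h
    · rw [h, mul_comm]
    · rw [mul_zero]
  | add p q hp hq =>
    rw [map_add, coeff_add, hp, hq, coeff_add, mul_add]

theorem SS_box {D : ℕ} {f : MvPolynomial (Fin n) ℂ} (hf : Box D f) : Box D (SS n D f) := by
  intro m hm
  rw [mem_support_iff, coeff_SS] at hm
  exact hf m (mem_support_iff.mpr (right_ne_zero_of_mul hm))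

theorem SS_hom {D t : ℕ} {f : MvPolynomial (Fin n) ℂ} (hf : f.IsHomogeneous t) :
    (SS n D f).IsHomogeneous t := by
  intro m hm
  rw [coeff_SS] at hm
  exact hf (right_ne_zero_of_mul hm)

/-- `SS` is onto on reduced polynomials (`sfac D r ≠ 0` if `r_i ≤ D`) -/
theorem SS_surj {D t : ℕ} {f : MvPolynomial (Fin n) ℂ} (hf : Box D f) (ht : f.IsHomogeneous t) :
    ∃ g : MvPolynomial (Fin n) ℂ, Box D g ∧ g.IsHomogeneous t ∧ SS n D g = f := by
  classical
  set g : MvPolynomial (Fin n) ℂ := ∑ m ∈ f.support, monomial m (coeff m f / sfac D m) with hg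
  have hcoeff : ∀ m, coeff m g = coeff m f / sfac D m := by
    intro m
    rw [hg, coeff_sum]
    simp only [coeff_monomial]
    rw [Finset.sum_ite_eq']
    split_ifs with h
    · rfl
    · rw [notMem_support_iff.mp h, zero_div]
  refine ⟨g, ?_, ?_, ?_⟩
  · intro m hm
    rw [mem_support_iff, hcoeff] at hm
    refine hf m (mem_support_iff.mpr fun h => hm ?_)
    rw [h, zero_div]
  · intro m hm
    rw [hcoeff] at hm
    exact ht fun h => hm (by rw [h, zero_div])
  · ext m
    rw [coeff_SS, hcoeff]
    by_cases h : coeff m f = 0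
    · rw [h, zero_div, mul_zero]
    · have h1 := sfac_ne_B5 (hf m (mem_support_iff.mpr h))
      field_simp

private theorem cd_SS_B5 (D : ℕ) (f : MvPolynomial (Fin n) ℂ) (m : Fin n →₀ ℕ) :
    ∑ j, coeff (m + Finsupp.single j 1) (SS n D f) = sfac D m * coeff m (FF n D f) := by
  rw [coeff_lowF, Finset.mul_sum]
  refine Finset.sum_congr rfl fun j _ => ?_
  rw [coeff_SS, sfac_succ_B5]
  push_cast
  ring

private theorem cd_X_B5 (D : ℕ) (i : Fin n) (f : MvPolynomial (Fin n) ℂ) (m : Fin n →₀ ℕ) :
    ∑ j, coeff (m + Finsupp.single j 1) (X i ^ (D + 1) * SS n D f) =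
      sfac D m * (kap0 D * coeff m (E D i f)) + coeff m (X i ^ (D + 1) * SS n D (FF n D f)) := by
  classical
  rw [X_pow_eq_monomial]
  simp only [coeff_monomial_mul', one_mul, single_le_B5]
  rw [coeff_E_B5]
  rcases lt_trichotomy (m i) D with h | h | h
  · -- all the terms vanish
    rw [if_neg (by omega), if_neg (by omega), mul_zero, mul_zero, add_zero]
    refine Finset.sum_eq_zero fun j _ => ?_
    rw [if_neg]
    rw [Finsupp.add_apply]
    by_cases hj : i = j
    · subst hj
      rw [Finsupp.single_eq_same]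
      omega
    · rw [Finsupp.single_eq_of_ne hj]
      omega
  · rw [if_pos h, if_neg (by omega), add_zero, ← mul_assoc, sfac_erase_B5 D m i h]
    rw [Finset.sum_eq_single i]
    · rw [if_pos (by rw [Finsupp.add_apply, Finsupp.single_eq_same]; omega)]
      have h1 : m + Finsupp.single i 1 - Finsupp.single i (D + 1) = m.erase i := by
        ext j
        by_cases hj : j = i
        · subst hj; simp [h]
        · simp [Ne.symm hj, Finsupp.erase_ne hj]
      rw [h1, coeff_SS]
    · intro j _ hj
      rw [if_neg]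
      rw [Finsupp.add_apply, Finsupp.single_eq_of_ne (Ne.symm hj)]
      omega
    · intro h1
      exact absurd (Finset.mem_univ i) h1
  · rw [if_neg (by omega), if_pos (by omega), mul_zero, mul_zero, zero_add, coeff_SS, ← cd_SS_B5]
    refine Finset.sum_congr rfl fun j _ => ?_
    rw [if_pos (by rw [Finsupp.add_apply]; omega)]
    congr 1
    ext l
    simp only [Finsupp.add_apply, Finsupp.coe_tsub, Pi.sub_apply]
    by_cases hl : i = l
    · subst hl
      rw [Finsupp.single_eq_same]
      omega
    · rw [Finsupp.single_eq_of_ne (Ne.symm hl)]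
      omega

/-- PIECE B5. Coefficientwise: `cd` of `SS g0` is `SS (FF g0)`; in `cd (x_i^(D+1) SS (g i))` the
contraction by `x_i` of the part of `SS (g i)` without `x_i` gives `x_i^D` times it, which is
`κ SS (E_i (g i))`, all the rest is `x_i^(D+1) SS (FF (g i))`. -/
theorem cd_two {D : ℕ} {g0 : MvPolynomial (Fin n) ℂ} {g : Fin n → MvPolynomial (Fin n) ℂ}
    (h0 : Box D g0) (hg : ∀ i, Box D (g i)) :
    cd (SS n D g0 + ∑ i, X i ^ (D + 1) * SS n D (g i)) =
      SS n D (FF n D g0 + kap0 D • ∑ i, E D i (g i)) +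
        ∑ i, X i ^ (D + 1) * SS n D (FF n D (g i)) := by
  classical
  ext m
  rw [coeff_cd_B5]
  simp only [coeff_add, coeff_sum, Finset.sum_add_distrib]
  rw [cd_SS_B5, Finset.sum_comm, coeff_SS, coeff_add, coeff_smul, coeff_sum, smul_eq_mul]
  have h1 : ∀ i : Fin n, ∑ j, coeff (m + Finsupp.single j 1) (X i ^ (D + 1) * SS n D (g i)) =
      sfac D m * (kap0 D * coeff m (E D i (g i))) +
        coeff m (X i ^ (D + 1) * SS n D (FF n D (g i))) := fun i => cd_X_B5 D i (g i) m
  rw [Finset.sum_congr rfl fun i _ => h1 i, Finset.sum_add_distrib, ← Finset.mul_sum,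
    ← Finset.mul_sum]
  ring

theorem low_two {D : ℕ} {g0 : MvPolynomial (Fin n) ℂ} {g : Fin n → MvPolynomial (Fin n) ℂ}
    (h0 : Box D g0) (hg : ∀ i, Box D (g i)) :
    Low (D + 1) 2 (SS n D g0 + ∑ i, X i ^ (D + 1) * SS n D (g i)) := by
  classical
  intro m hm
  rw [mem_support_iff, coeff_add, coeff_sum] at hm
  by_cases h1 : coeff m (SS n D g0) = 0
  · rw [h1, zero_add] at hm
    obtain ⟨i, -, hi⟩ := Finset.exists_ne_zero_of_sum_ne_zero hm
    rw [X_pow_eq_monomial, coeff_monomial_mul', one_mul] at hi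
    split_ifs at hi with h2
    · rw [single_le_B5] at h2
      have h3 := SS_box (hg i) _ (mem_support_iff.mpr hi)
      have h4 : ∑ j, m j / (D + 1) = m i / (D + 1) := by
        refine Finset.sum_eq_single i (fun j _ hj => ?_) (fun h => absurd (Finset.mem_univ i) h)
        have h5 := h3 j
        rw [Finsupp.coe_tsub, Pi.sub_apply, Finsupp.single_eq_of_ne hj] at h5
        exact Nat.div_eq_of_lt (by omega)
      have h5 := h3 i
      rw [Finsupp.coe_tsub, Pi.sub_apply, Finsupp.single_eq_same] at h5
      rw [h4, Nat.div_lt_iff_lt_mul (by omega)]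
      omega
    · exact absurd rfl hi
  · have h3 := SS_box h0 m (mem_support_iff.mpr h1)
    have h4 : ∑ j, m j / (D + 1) = 0 := by
      refine Finset.sum_eq_zero fun j _ => Nat.div_eq_of_lt ?_
      have := h3 j
      omega
    rw [h4]
    omega

end Pool.Agent.Lib_MP_8b82cd_w
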