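import Mathlib
import Pool.Agent.Lib_MP_8b82cd_w.B3
import Pool.Agent.Lib_MP_8b82cd_w.B3x
import Pool.Agent.Lib_MP_8b82cd_w.B4
import Pool.Agent.Lib_MP_8b82cd_w.C0

/-! One highest weight vector divisible by `x_i^(D-b)`. -/

namespace Pool.Agent.Lib_MP_8b82cd_w

open MvPolynomial Pool.Agent.Lib_MP_8b82cd_ag

variable {n : ℕ}

/-- PIECE C1a. Let `e' = Function.update (fun _ => D+1) i 1`, `F' = lowF e'`,
`σ' = (n-1) D` (`lowering_ci e' σ'`). Modulo `JJ`, `w = x_i^(D-b) c_0 (+ x_i^D c_1 if b = 1)`,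
`c_j` without `x_i`.
`b = 0`: `ell * c_0 ∈ ciI e'`; put `Y = c_0`, `z = 0`.
`b = 1`: `ell * c_0 ∈ ciI e'`, `c_0 + ell * c_1 ∈ ciI e'`;
`FF (x_i^D c_0) = D x_i^(D-1) c_0 + x_i^D F' c_0`, so with `z = x_i^D c_0 / D` and
`Y = c_1 - F' c_0 / D` one has `w = FF z + x_i^D Y` mod `JJ` and `ell^2 * Y ∈ ciI e'`.
`Y` has weight `2 (t - D) - σ' = D - b`, so `F'^(D+1) Y ∈ ciI e'` (`kill_pow`, `m = b + 1`).
Let `γ_0 = 1`, `γ_(j+1) = - γ_j / ((j+1)(D-j))`, `g = ∑_{j ≤ D} γ_j x_i^j F'^j Y`. Then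
`FF g = γ_D x_i^D F'^(D+1) Y ∈ JJ` (use `F_i x_i^j = j (D+1-j) x_i^(j-1)`) and
`E_i g = x_i^D Y` mod `JJ`. Replace `g` by its reduction (`exists_red`, `box_mem_zero`). -/
theorem solve_one {D b t : ℕ} (hD : 1 ≤ D) (hb : b ≤ 1) (i : Fin n)
    (w : MvPolynomial (Fin n) ℂ) (hw : w.IsHomogeneous t) (ht : 2 * t + b = n * D + 2 * D)
    (hL : ell n * w ∈ JJ n D) (hdiv : X i ^ (D - b) ∣ w) :
    ∃ z g : MvPolynomial (Fin n) ℂ, z.IsHomogeneous (t + 1) ∧ g.IsHomogeneous (t - D) ∧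
      Box D g ∧ FF n D g = 0 ∧ w - FF n D z - E D i g ∈ JJ n D := by
  sorry

end Pool.Agent.Lib_MP_8b82cd_w
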