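import Mathlib
import Pool.Agent.Lib_MP_8b82cd_w.B1
import Pool.Agent.Lib_MP_8b82cd_w.B5
import Pool.Agent.Lib_MP_8b82cd_w.C1a

/-! Spanning implies injectivity for `k = 2`. -/

namespace Pool.Agent.Lib_MP_8b82cd_w

open MvPolynomial Pool.Agent.Lib_MP_8b82cd_ag

variable {n : ℕ}

private theorem c1b_E_smul (D : ℕ) (i : Fin n) (c : ℂ) (f : MvPolynomial (Fin n) ℂ) :
    E D i (c • f) = c • E D i f := by
  unfold E
  rw [map_smul, mul_smul_comm]

private theorem c1b_kap_ne (D : ℕ) : kap0 D ≠ 0 := by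
  unfold kap0
  apply inv_ne_zero
  apply pow_ne_zero
  exact_mod_cast Nat.factorial_ne_zero D

/-- a monomial with floor sum at most `1` -/
private theorem c1b_split {D s : ℕ} (m : Fin n →₀ ℕ) (hs : ∑ i, m i = s + (D + 1))
    (hm : ∑ i, m i / (D + 1) < 2) :
    ∃ (h0 : MvPolynomial (Fin n) ℂ) (h : Fin n → MvPolynomial (Fin n) ℂ),
      Box D h0 ∧ h0.IsHomogeneous (s + (D + 1)) ∧
      (∀ i, Box D (h i) ∧ (h i).IsHomogeneous s) ∧
      SS n D h0 + ∑ i, X i ^ (D + 1) * SS n D (h i) = monomial m 1 := by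
  classical
  have hbox : ∀ r : Fin n →₀ ℕ, (∀ i, r i ≤ D) → Box D (monomial r (1 : ℂ)) := by
    intro r hr m' hm' i
    have h1 : m' = r := by
      have := support_monomial_subset hm'
      simpa using this
    rw [h1]; exact hr i
  have hhom : ∀ (r : Fin n →₀ ℕ) (t : ℕ), ∑ i, r i = t → (monomial r (1 : ℂ)).IsHomogeneous t := by
    intro r t hr
    apply isHomogeneous_monomial
    rw [Finsupp.degree_eq_sum]
    exact hr
  by_cases hall : ∀ i, m i ≤ D
  · obtain ⟨g, hg, hg2, hg3⟩ := SS_surj (hbox m hall) (hhom m _ hs)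
    refine ⟨g, fun _ => 0, hg, hg2, fun i => ⟨?_, isHomogeneous_zero _ _ _⟩, ?_⟩
    · intro m' hm'
      simp at hm'
    · rw [hg3]
      simp
  · push Not at hall
    obtain ⟨i, hi⟩ := hall
    have h1 : 1 ≤ m i / (D + 1) := by
      rw [Nat.le_div_iff_mul_le (by omega)]
      omega
    have hsplit : m i / (D + 1) + ∑ j ∈ Finset.univ.erase i, m j / (D + 1) < 2 := by
      have h0 := Finset.add_sum_erase Finset.univ (fun j => m j / (D + 1)) (Finset.mem_univ i)
      have h0' : m i / (D + 1) + ∑ j ∈ Finset.univ.erase i, m j / (D + 1) =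
          ∑ j, m j / (D + 1) := h0
      rw [h0']
      exact hm
    have h2 : m i / (D + 1) < 2 := by omega
    have h3 : ∀ j, j ≠ i → m j ≤ D := by
      intro j hj
      have h4 : m j / (D + 1) ≤ ∑ l ∈ Finset.univ.erase i, m l / (D + 1) :=
        Finset.single_le_sum (f := fun l => m l / (D + 1)) (fun _ _ => Nat.zero_le _)
          (Finset.mem_erase.mpr ⟨hj, Finset.mem_univ j⟩)
      generalize (∑ l ∈ Finset.univ.erase i, m l / (D + 1)) = T at hsplit h4
      generalize m i / (D + 1) = A at h1 hsplit h2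
      have h5 : m j / (D + 1) = 0 := by
        generalize m j / (D + 1) = q at h4
        omega
      have h6 := Nat.lt_of_div_eq_zero (by omega : 0 < D + 1) h5
      omega
    have h7 : m i < 2 * (D + 1) := by
      rw [Nat.div_lt_iff_lt_mul (by omega)] at h2
      exact h2
    set r : Fin n →₀ ℕ := m - Finsupp.single i (D + 1) with hr
    have hri : r i = m i - (D + 1) := by simp [hr]
    have hrj : ∀ j, j ≠ i → r j = m j := by
      intro j hj
      simp [hr, Ne.symm hj]
    have hrm : r + Finsupp.single i (D + 1) = m := by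
      rw [hr]
      apply tsub_add_cancel_of_le
      intro j
      by_cases hj : j = i
      · subst hj; simpa using hi
      · simp [Ne.symm hj]
    have hrs : ∑ j, r j = s := by
      have h8 : ∑ j, m j = ∑ j, r j + (D + 1) := by
        conv_lhs => rw [← hrm]
        simp [Finset.sum_add_distrib]
      omega
    have hrb : ∀ j, r j ≤ D := by
      intro j
      by_cases hj : j = i
      · subst hj; rw [hri]; omega
      · rw [hrj j hj]; exact h3 j hj
    obtain ⟨g, hg, hg2, hg3⟩ := SS_surj (hbox r hrb) (hhom r _ hrs)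
    refine ⟨0, fun j => if j = i then g else 0, ?_, isHomogeneous_zero _ _ _, ?_, ?_⟩
    · intro m' hm'
      simp at hm'
    · intro j
      by_cases hj : j = i
      · simp only [hj, if_true]
        exact ⟨hg, hg2⟩
      · simp only [hj, if_false]
        refine ⟨?_, isHomogeneous_zero _ _ _⟩
        intro m' hm'
        simp at hm'
    · rw [map_zero, zero_add, Finset.sum_eq_single i]
      · simp only [if_true]
        rw [hg3, X_pow_eq_monomial, monomial_mul, one_mul, add_comm, hrm]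
      · intro j _ hj
        simp [hj]
      · intro h; exact absurd (Finset.mem_univ i) h

/-- PIECE C1b. Use `injP_of_cd`, `e = e0 n D 2 = n*D/2 + D + 1`. A monomial of degree `e - 1` with
floor sum `≤ 1` is `SS h0 + ∑ x_i^(D+1) SS (h i)` with reduced homogeneous `h0, h i` (`SS_surj`).
`low_surj` + `exists_red` + `box_mem_zero` give reduced `g i` with `FF (g i) = h i`
(degree `n*D/2 - 1`). Put `h' = h0 - κ ∑ E_i (g i)`, of degree `t = e - 1`,
`2 t = n*D + 2*D - b`. `decomp`: `h' = v + FF z`, `ell * v ∈ JJ`; `hS` on `v`; `solve_one` on each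
`w i`: `h' = FF g0 + ∑ E_i (g' i)`, `FF (g' i) = 0` (reduce `g0`). Finally `cd_two`, `low_two`
with `g i + κ⁻¹ g' i`. -/
theorem pos_two {D b : ℕ} (hn : 2 ≤ n) (hD : 1 ≤ D) (hb : b = n * D % 2)
    (hS : SpanE D b (fun _ : Fin n => D + 1) (e0 n D 2 - 1)) : Inj n D 2 := by
  have hnD : 2 ≤ n * D := Nat.mul_le_mul hn hD
  obtain ⟨s, hs⟩ : ∃ s, n * D / 2 = s + 1 := ⟨n * D / 2 - 1, by omega⟩
  have he : e0 n D 2 = s + 1 + (D + 1) := by
    unfold e0
    rw [hs]
    ring
  have he1 : e0 n D 2 - 1 = s + (D + 1) := by omega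
  have hb1 : b ≤ 1 := by omega
  have h2s : 2 * (s + (D + 1)) + b = n * D + 2 * D := by omega
  have hlow := low_ci n D
  have htop : ∀ t, n * D < t → ∀ p : MvPolynomial (Fin n) ℂ, p.IsHomogeneous t → p ∈ JJ n D :=
    fun t ht p hp => ci_top (fun _ : Fin n => D + 1) (n * D) (by simp; ring) t ht p hp
  rw [he1] at hS
  unfold Inj
  apply injP_of_cd (d := D + 1) (k := 2) (e := e0 n D 2) (by omega) (by omega)
  intro m hm
  rw [he1, mem_stdExp] at hm
  obtain ⟨h0, h, hh0, hh0', hh, hsum⟩ := c1b_split m hm.1 hm.2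
  -- preimages of the `h i`
  have hg : ∀ i, ∃ g : MvPolynomial (Fin n) ℂ, Box D g ∧ g.IsHomogeneous (s + 1) ∧
      FF n D g = h i := by
    intro i
    obtain ⟨z, hz, hFz⟩ := hlow.low_surj (hh i).2 (by omega)
    obtain ⟨g, hg1, hg2, hg3⟩ := exists_red D z
    refine ⟨g, hg1, hg3 _ hz, ?_⟩
    have h1 : FF n D (z - g) ∈ JJ n D := hlow.hJ _ hg2
    rw [map_sub, hFz] at h1
    have h2 := box_mem_zero ((hh i).1.sub hg1.FF) h1
    exact (sub_eq_zero.mp h2).symm
  choose g hgB hgH hgF using hg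
  -- the remaining part
  set h' : MvPolynomial (Fin n) ℂ := h0 - kap0 D • ∑ i, E D i (g i) with hh'
  have hh'B : Box D h' := hh0.sub (Box.smul (Box.sum fun i _ => (hgB i).E i) _)
  have hh'H : h'.IsHomogeneous (s + (D + 1)) := by
    apply IsHomogeneous.sub hh0'
    apply (homogeneousSubmodule (Fin n) ℂ (s + (D + 1))).smul_mem
    apply Submodule.sum_mem
    intro i _
    have h1 := E_hom (D := D) (hgH i) i
    have e1 : s + 1 + D = s + (D + 1) := by ring
    rw [e1] at h1
    exact h1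
  obtain ⟨z, hz, hLz⟩ := hlow.decomp htop hh'H (by omega)
  have hvH : (h' - FF n D z).IsHomogeneous (s + (D + 1)) := hh'H.sub (hlow.hF _ _ hz)
  obtain ⟨w, hw, hw2⟩ := hS _ hvH hLz
  have hso : ∀ i, ∃ z' g' : MvPolynomial (Fin n) ℂ, z'.IsHomogeneous (s + (D + 1) + 1) ∧
      g'.IsHomogeneous (s + 1) ∧ Box D g' ∧ FF n D g' = 0 ∧
      w i - FF n D z' - E D i g' ∈ JJ n D := by
    intro i
    obtain ⟨z', g', h1, h2, h3, h4, h5⟩ :=
      solve_one hD hb1 i (w i) (hw i).1 h2s (hw i).2.1 (hw i).2.2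
    refine ⟨z', g', h1, ?_, h3, h4, h5⟩
    have e1 : s + (D + 1) - D = s + 1 := by omega
    rwa [e1] at h2
  choose z' g' hz'H hg'H hg'B hg'F hwz using hso
  obtain ⟨g0, hg0B, hg0J, hg0H⟩ := exists_red D (z + ∑ i, z' i)
  have hZH : (z + ∑ i, z' i).IsHomogeneous (s + (D + 1) + 1) := by
    apply IsHomogeneous.add hz
    apply IsHomogeneous.sum
    intro i _
    exact hz'H i
  have hg0H' := hg0H _ hZH
  have hmain : h' = FF n D g0 + ∑ i, E D i (g' i) := by
    have h1 : FF n D (z + ∑ i, z' i - g0) ∈ JJ n D := hlow.hJ _ hg0J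
    have h2 : ∑ i, (w i - FF n D (z' i) - E D i (g' i)) ∈ JJ n D :=
      Ideal.sum_mem _ fun i _ => hwz i
    have h3 : h' - (FF n D g0 + ∑ i, E D i (g' i)) ∈ JJ n D := by
      have h4 := (JJ n D).add_mem ((JJ n D).add_mem hw2 h2) h1
      have e1 : h' - FF n D z - ∑ i, w i + ∑ i, (w i - FF n D (z' i) - E D i (g' i)) +
          FF n D (z + ∑ i, z' i - g0) = h' - (FF n D g0 + ∑ i, E D i (g' i)) := by
        rw [map_sub, map_add, map_sum, Finset.sum_sub_distrib, Finset.sum_sub_distrib]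
        ring
      rw [e1] at h4
      exact h4
    have h5 : Box D (h' - (FF n D g0 + ∑ i, E D i (g' i))) :=
      hh'B.sub (hg0B.FF.add (Box.sum fun i _ => (hg'B i).E i))
    exact sub_eq_zero.mp (box_mem_zero h5 h3)
  -- the solution
  have hGB : ∀ i, Box D (g i + (kap0 D)⁻¹ • g' i) := fun i => (hgB i).add ((hg'B i).smul _)
  have hGF : ∀ i, FF n D (g i + (kap0 D)⁻¹ • g' i) = h i := by
    intro i
    rw [map_add, map_smul, hg'F i, smul_zero, add_zero, hgF i]
  have hGE : FF n D g0 + kap0 D • ∑ i, E D i (g i + (kap0 D)⁻¹ • g' i) = h0 := by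
    have h1 : ∑ i, E D i (g i + (kap0 D)⁻¹ • g' i) =
        ∑ i, E D i (g i) + (kap0 D)⁻¹ • ∑ i, E D i (g' i) := by
      rw [Finset.smul_sum, ← Finset.sum_add_distrib]
      apply Finset.sum_congr rfl
      intro i _
      rw [E_add, c1b_E_smul]
    rw [h1, smul_add, smul_smul, mul_inv_cancel₀ (c1b_kap_ne D), one_smul]
    have h2 : h0 = h' + kap0 D • ∑ i, E D i (g i) := by
      rw [hh', sub_add_cancel]
    rw [h2, hmain]
    ring
  refine ⟨SS n D g0 + ∑ i, X i ^ (D + 1) * SS n D (g i + (kap0 D)⁻¹ • g' i), ?_,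
    low_two hg0B hGB, ?_⟩
  · rw [he]
    have e1 : s + 1 + (D + 1) = s + (D + 1) + 1 := by ring
    rw [e1]
    apply IsHomogeneous.add (SS_hom hg0H')
    apply IsHomogeneous.sum
    intro i _
    have h1 : (g i + (kap0 D)⁻¹ • g' i).IsHomogeneous (s + 1) :=
      (hgH i).add ((homogeneousSubmodule (Fin n) ℂ (s + 1)).smul_mem _ (hg'H i))
    have h2 := ((isHomogeneous_X ℂ i).pow (D + 1)).mul (SS_hom (D := D) h1)
    have e2 : 1 * (D + 1) + (s + 1) = s + (D + 1) + 1 := by ring
    rw [e2] at h2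
    exact h2
  · rw [cd_two hg0B hGB, hGE, ← hsum]
    congr 1
    apply Finset.sum_congr rfl
    intro i _
    rw [hGF i]

end Pool.Agent.Lib_MP_8b82cd_w
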