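import Mathlib
import Pool.Agent.Lib_MP_8b82cd_w.C0

/-! The spanning lemma: induction step. -/

namespace Pool.Agent.Lib_MP_8b82cd_w

open MvPolynomial Pool.Agent.Lib_MP_8b82cd_ag

variable {n : ℕ}

/-- smaller exponents give a larger ideal -/
private theorem c2_mono {e e' : Fin n → ℕ} (h : ∀ i, e' i ≤ e i)
    {f : MvPolynomial (Fin n) ℂ} (hf : f ∈ ciI e) : f ∈ ciI e' := by
  rw [mem_ciI_iff] at hf ⊢
  intro m hm
  obtain ⟨i, hi⟩ := hf m hm
  exact ⟨i, (h i).trans hi⟩

/-- support of `X_i^c * f` -/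
private theorem c2_coeff_X_pow_mul (i : Fin n) (c : ℕ) (f : MvPolynomial (Fin n) ℂ)
    (m : Fin n →₀ ℕ) : coeff (m + Finsupp.single i c) (X i ^ c * f) = coeff m f := by
  rw [X_pow_eq_monomial, add_comm m, coeff_monomial_mul, one_mul]

private theorem c2_colon (e : Fin n → ℕ) (i : Fin n) (c : ℕ)
    {f : MvPolynomial (Fin n) ℂ} (hf : X i ^ c * f ∈ ciI e) :
    f ∈ ciI (Function.update e i (e i - c)) := by
  rw [mem_ciI_iff] at hf ⊢
  intro m hm
  obtain ⟨j, hj⟩ := hf (m + Finsupp.single i c) (by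
    rw [mem_support_iff, c2_coeff_X_pow_mul]
    exact mem_support_iff.mp hm)
  by_cases hji : j = i
  · subst hji
    refine ⟨j, ?_⟩
    rw [Function.update_self]
    simp only [Finsupp.add_apply, Finsupp.single_eq_same] at hj
    omega
  · refine ⟨j, ?_⟩
    rw [Function.update_of_ne hji]
    simpa [Finsupp.add_apply, Finsupp.single_apply, Ne.symm hji] using hj

private theorem c2_mul_mem (e : Fin n → ℕ) (i : Fin n) (c a : ℕ)
    {f : MvPolynomial (Fin n) ℂ} (hf : f ∈ ciI (Function.update e i a)) :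
    X i ^ c * f ∈ ciI (Function.update e i (a + c)) := by
  rw [mem_ciI_iff] at hf ⊢
  intro m hm
  rw [mem_support_iff, X_pow_eq_monomial, coeff_monomial_mul'] at hm
  split_ifs at hm with hle
  · rw [one_mul] at hm
    obtain ⟨j, hj⟩ := hf _ (mem_support_iff.mpr hm)
    have hle' := hle i
    rw [Finsupp.single_eq_same] at hle'
    by_cases hji : j = i
    · subst hji
      refine ⟨j, ?_⟩
      rw [Function.update_self] at hj ⊢
      simp only [Finsupp.coe_tsub, Pi.sub_apply, Finsupp.single_eq_same] at hj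
      omega
    · refine ⟨j, ?_⟩
      rw [Function.update_of_ne hji] at hj ⊢
      refine hj.trans ?_
      simp
  · exact absurd rfl hm

private theorem c2_zi_X_ne {l j : Fin n} (h : j ≠ l) : zi l (X j) = X j := by
  simp [zi, h]

private theorem c2_zi_X_self (l : Fin n) : zi l (X l) = 0 := by
  simp [zi]

private theorem c2_zi_mem (e : Fin n → ℕ) (l : Fin n) {f : MvPolynomial (Fin n) ℂ}
    (hf : f ∈ ciI (Function.update e l 1)) : zi l f ∈ ciI e := by
  have h : ciI (Function.update e l 1) ≤ (ciI e).comap (zi l) := by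
    unfold ciI
    rw [Ideal.span_le]
    rintro x ⟨j, rfl⟩
    show zi l (X j ^ (Function.update e l 1 j)) ∈ ciI e
    rw [map_pow]
    by_cases hj : j = l
    · subst hj
      rw [c2_zi_X_self, Function.update_self, pow_one]
      exact Ideal.zero_mem _
    · rw [c2_zi_X_ne hj, Function.update_of_ne hj]
      exact Ideal.subset_span ⟨j, rfl⟩
  exact h hf

private theorem c2_sub_zi (I : Ideal (MvPolynomial (Fin n) ℂ)) (l : Fin n) (hl : X l ∈ I)
    (f : MvPolynomial (Fin n) ℂ) : f - zi l f ∈ I := by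
  have h : (Ideal.Quotient.mkₐ ℂ I) = (Ideal.Quotient.mkₐ ℂ I).comp (zi l) := by
    apply MvPolynomial.algHom_ext
    intro j
    by_cases hj : j = l
    · subst hj
      rw [AlgHom.comp_apply, c2_zi_X_self, map_zero]
      exact Ideal.Quotient.eq_zero_iff_mem.mpr hl
    · rw [AlgHom.comp_apply, c2_zi_X_ne hj]
  have h2 := DFunLike.congr_fun h f
  rw [AlgHom.comp_apply] at h2
  exact (Ideal.Quotient.mk_eq_mk_iff_sub_mem f (zi l f)).mp h2

private theorem c2_X_mem (e : Fin n → ℕ) (l : Fin n) :
    (X l : MvPolynomial (Fin n) ℂ) ∈ ciI (Function.update e l 1) := by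
  apply Ideal.subset_span
  exact ⟨l, by simp⟩

private theorem c2_dvd_mem (e : Fin n → ℕ) (i : Fin n) {c : ℕ} (hc : e i ≤ c)
    {f : MvPolynomial (Fin n) ℂ} (hf : X i ^ c ∣ f) : f ∈ ciI e := by
  obtain ⟨g, rfl⟩ := hf
  apply Ideal.mul_mem_right
  obtain ⟨d, rfl⟩ := Nat.exists_eq_add_of_le hc
  rw [pow_add]
  apply Ideal.mul_mem_right
  exact Ideal.subset_span ⟨i, rfl⟩

private theorem c2_hom_of_mul {i : Fin n} {c t : ℕ} {f : MvPolynomial (Fin n) ℂ}
    (hf : (X i ^ c * f).IsHomogeneous (t + c)) : f.IsHomogeneous t := by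
  rw [isHomogeneous_iff] at hf ⊢
  intro m hm
  have h := hf (m + Finsupp.single i c) (by rwa [c2_coeff_X_pow_mul])
  simp [Finset.sum_add_distrib] at h
  exact h

private theorem c2_zi_hom (l : Fin n) {f : MvPolynomial (Fin n) ℂ} {t : ℕ}
    (hf : f.IsHomogeneous t) : (zi l f).IsHomogeneous t := by
  have hg : ∀ j : Fin n,
      (if j = l then (0 : MvPolynomial (Fin n) ℂ) else X j).IsHomogeneous 1 := by
    intro j
    split_ifs
    · exact isHomogeneous_zero _ _ _
    · exact isHomogeneous_X _ _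
  have h := hf.aeval (fun j => if j = l then (0 : MvPolynomial (Fin n) ℂ) else X j) hg
  rw [one_mul] at h
  exact h

/-- geometric sum -/
private noncomputable def c2G (τ : ℕ) (x y : MvPolynomial (Fin n) ℂ) : MvPolynomial (Fin n) ℂ :=
  ∑ s ∈ Finset.range (τ + 1), x ^ s * y ^ (τ + 1 - 1 - s)

private theorem c2G_mul (τ : ℕ) (x y : MvPolynomial (Fin n) ℂ) :
    c2G τ x y * (x - y) = x ^ (τ + 1) - y ^ (τ + 1) := by
  unfold c2G
  exact geom_sum₂_mul x y (τ + 1)

private theorem c2G_hom (τ : ℕ) {x y : MvPolynomial (Fin n) ℂ} (hx : x.IsHomogeneous 1)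
    (hy : y.IsHomogeneous 1) : (c2G τ x y).IsHomogeneous τ := by
  unfold c2G
  apply IsHomogeneous.sum
  intro s hs
  rw [Finset.mem_range] at hs
  have := (hx.pow s).mul (hy.pow (τ + 1 - 1 - s))
  convert this using 1
  omega

private theorem c2G_sub (I : Ideal (MvPolynomial (Fin n) ℂ)) (τ : ℕ)
    {x y : MvPolynomial (Fin n) ℂ} (hx : x ∈ I) : c2G τ x y - y ^ τ ∈ I := by
  unfold c2G
  rw [Finset.sum_range_succ']
  have h : (∑ s ∈ Finset.range τ, x ^ (s + 1) * y ^ (τ + 1 - 1 - (s + 1)) +
      x ^ 0 * y ^ (τ + 1 - 1 - 0)) - y ^ τ =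
      ∑ s ∈ Finset.range τ, x ^ (s + 1) * y ^ (τ + 1 - 1 - (s + 1)) := by
    simp
  rw [h]
  apply Ideal.sum_mem
  intro s _
  apply Ideal.mul_mem_right
  rw [pow_succ]
  exact Ideal.mul_mem_left _ _ hx

private theorem c2_sum_pred (e : Fin n → ℕ) (he : ∀ i, 1 ≤ e i) :
    ∑ i, (e i - 1) + n = ∑ i, e i := by
  have h2 : ∑ i, e i = ∑ i : Fin n, ((e i - 1) + 1) :=
    Finset.sum_congr rfl fun i _ => by have := he i; omega
  rw [h2, Finset.sum_add_distrib]
  simp

/-- extension of one summand -/
private theorem c2_ext {D b : ℕ} (hb : b + 1 ≤ D) (e : Fin n → ℕ)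
    (he : ∀ i, e i = 1 ∨ e i = D + 1) (l : Fin n) (hl : e l = D + 1) (t : ℕ)
    (ht : ∑ i, (e i - 1) + 2 * D ≤ 2 * t + 2 * b + 1) (j : ℕ) (hj : j + b < D) (hjt : j ≤ t)
    (i : Fin n) (w : MvPolynomial (Fin n) ℂ) (hw : w.IsHomogeneous (t - j))
    (hLw : ell n * w ∈ ciI (Function.update e l 1)) (hdvd : X i ^ (D - b) ∣ w) :
    ∃ W : MvPolynomial (Fin n) ℂ, W.IsHomogeneous t ∧ ell n * W ∈ ciI e ∧
      X i ^ (D - b) ∣ W ∧ X l ^ j * w - W ∈ ciI (Function.update e l (j + 1)) := by
  have he1 : ∀ i, 1 ≤ e i := fun i => by rcases he i with h | h <;> omega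
  by_cases hw0 : w ∈ ciI (Function.update e l 1)
  · refine ⟨0, isHomogeneous_zero _ _ _, by simp, dvd_zero _, ?_⟩
    rw [sub_zero, add_comm j 1]
    exact c2_mul_mem e l j 1 hw0
  have hil : i ≠ l := by
    rintro rfl
    exact hw0 (c2_dvd_mem _ i (by rw [Function.update_self]; omega) hdvd)
  have hei : e i = D + 1 := by
    rcases he i with h | h
    · exact absurd (c2_dvd_mem _ i (by rw [Function.update_of_ne hil, h]; omega) hdvd) hw0
    · exact h
  obtain ⟨y, rfl⟩ := hdvd
  set e' := Function.update e l 1 with he'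
  set e'' := Function.update e' i (b + 1) with he''
  have he''1 : ∀ m, 1 ≤ e'' m := by
    intro m
    by_cases hm : m = i
    · subst hm; simp [he'']
    · rw [he'', Function.update_of_ne hm]
      by_cases hm2 : m = l
      · subst hm2; simp [he']
      · rw [he', Function.update_of_ne hm2]; exact he1 m
  have hsum : ∑ m, (e m - 1) = ∑ m, (e'' m - 1) + D + (D - b) := by
    have h1 : ∀ m, e m - 1 = (e'' m - 1) + (if m = l then D else 0) +
        (if m = i then D - b else 0) := by
      intro m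
      by_cases hm : m = i
      · subst hm
        rw [he'', Function.update_self, if_neg hil, if_pos rfl, hei]
        omega
      · rw [he'', Function.update_of_ne hm, if_neg hm]
        by_cases hm2 : m = l
        · subst hm2
          rw [he', Function.update_self, if_pos rfl, hl]
          omega
        · rw [he', Function.update_of_ne hm2, if_neg hm2]
          omega
    rw [Finset.sum_congr rfl fun m _ => h1 m, Finset.sum_add_distrib, Finset.sum_add_distrib]
    simp
  have hbσ : b ≤ ∑ m, (e'' m - 1) := by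
    have h1 := Finset.single_le_sum (f := fun m => e'' m - 1) (fun m _ => Nat.zero_le _)
      (Finset.mem_univ i)
    have h2 : e'' i - 1 = b := by rw [he'', Function.update_self]; omega
    rw [← h2]
    exact h1
  have htD : 2 * D ≤ t + b := by omega
  obtain ⟨r, hr⟩ := Nat.exists_eq_add_of_le htD
  obtain ⟨τ, hτ⟩ := Nat.exists_eq_add_of_le (show j ≤ D by omega)
  have hyhom : y.IsHomogeneous (r + τ) := by
    apply c2_hom_of_mul (i := i) (c := D - b)
    convert hw using 1
    omega
  have hyL : ell n * y ∈ ciI e'' := by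
    have h1 : X i ^ (D - b) * (ell n * y) ∈ ciI e' := by
      have : X i ^ (D - b) * (ell n * y) = ell n * (X i ^ (D - b) * y) := by ring
      rw [this]; exact hLw
    have h2 := c2_colon e' i (D - b) h1
    have h3 : e' i - (D - b) = b + 1 := by
      rw [he', Function.update_of_ne hil, hei]; omega
    rw [h3] at h2
    exact h2
  obtain ⟨u, hu, hyu⟩ := ci_surjP e'' (∑ m, (e'' m - 1)) (c2_sum_pred e'' he''1)
    (i := r) (j := τ) (by omega) y hyhom
  have hXl' : (X l : MvPolynomial (Fin n) ℂ) ∈ ciI e' := c2_X_mem e l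
  -- membership facts
  have hup : ∀ f : MvPolynomial (Fin n) ℂ, f ∈ ciI e'' → X i ^ (D - b) * f ∈ ciI e' := by
    intro f hf
    have h1 := c2_mul_mem e' i (D - b) (b + 1) hf
    have h2 : Function.update e' i (b + 1 + (D - b)) = e' := by
      have h3 : b + 1 + (D - b) = e' i := by
        rw [he', Function.update_of_ne hil, hei]; omega
      rw [h3]
      exact Function.update_eq_self i e'
    rw [h2] at h1
    exact h1
  have h1 : ell n ^ (τ + 1) * u ∈ ciI e'' := by
    have h2 := Ideal.mul_mem_left (ciI e'') (ell n) hyu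
    have h3 := (ciI e'').sub_mem hyL h2
    convert h3 using 1
    ring
  have hzX : zi l (X i ^ (D - b)) = X i ^ (D - b) := by
    rw [map_pow, c2_zi_X_ne hil]
  set L' := zi l (ell n) with hL'
  set u0 := zi l u with hu0
  have hLL' : ell n = L' + X l := by
    have h2 : zi l (ell n) = ell n - X l := by
      unfold ell
      rw [map_sum, ← Finset.sum_erase_add _ _ (Finset.mem_univ l), c2_zi_X_self,
        ← Finset.sum_erase_add Finset.univ (fun m => (X m : MvPolynomial (Fin n) ℂ))
          (Finset.mem_univ l), add_zero, add_sub_cancel_right]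
      apply Finset.sum_congr rfl
      intro m hm
      exact c2_zi_X_ne (Finset.ne_of_mem_erase hm)
    rw [hL', h2]
    ring
  have h4 : X i ^ (D - b) * (L' ^ (τ + 1) * u0) ∈ ciI e := by
    have h5 := c2_zi_mem e l (hup _ h1)
    rw [map_mul, hzX, map_mul, map_pow] at h5
    exact h5
  have hL'hom : L'.IsHomogeneous 1 := c2_zi_hom l (ell_isHomogeneous n)
  have hu0hom : u0.IsHomogeneous r := c2_zi_hom l hu
  have hXhom : (-X l : MvPolynomial (Fin n) ℂ).IsHomogeneous 1 := (isHomogeneous_X _ _).neg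
  refine ⟨X i ^ (D - b) * (u0 * (X l ^ j * c2G τ (-X l) L')), ?_, ?_, dvd_mul_right _ _, ?_⟩
  · have h5 := (isHomogeneous_X_pow (R := ℂ) i (D - b)).mul
      (hu0hom.mul ((isHomogeneous_X_pow (R := ℂ) l j).mul (c2G_hom τ hXhom hL'hom)))
    convert h5 using 1
    omega
  · have h5 := c2G_mul τ (-X l) L'
    have h6 : ell n * (X i ^ (D - b) * (u0 * (X l ^ j * c2G τ (-X l) L'))) =
        X l ^ j * (X i ^ (D - b) * (L' ^ (τ + 1) * u0)) -
          X i ^ (D - b) * (u0 * (X l ^ j * (-X l) ^ (τ + 1))) := by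
      have h7 : ell n * (X i ^ (D - b) * (u0 * (X l ^ j * c2G τ (-X l) L'))) =
          -(X i ^ (D - b) * (u0 * (X l ^ j * (c2G τ (-X l) L' * (-X l - L'))))) := by
        rw [hLL']
        ring
      rw [h7, h5]
      ring
    rw [h6]
    apply Ideal.sub_mem
    · exact Ideal.mul_mem_left _ _ h4
    · apply Ideal.mul_mem_left
      apply Ideal.mul_mem_left
      rw [neg_pow]
      have h8 : X l ^ j * ((-1) ^ (τ + 1) * X l ^ (τ + 1)) =
          (-1) ^ (τ + 1) * (X l ^ e l : MvPolynomial (Fin n) ℂ) := by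
        rw [hl, hτ]
        ring
      rw [h8]
      apply Ideal.mul_mem_left
      exact Ideal.subset_span ⟨l, rfl⟩
  · have h5 : X l ^ j * (X i ^ (D - b) * y) - X i ^ (D - b) * (u0 * (X l ^ j * c2G τ (-X l) L'))
        = X l ^ j * (X i ^ (D - b) * (y - ell n ^ τ * u) +
          X i ^ (D - b) * ((ell n ^ τ * u - L' ^ τ * u0) + (-u0) * (c2G τ (-X l) L' - L' ^ τ))) := by
      ring
    rw [h5, add_comm j 1]
    apply c2_mul_mem e l j 1
    apply Ideal.add_mem
    · exact hup _ hyu
    · apply Ideal.mul_mem_left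
      apply Ideal.add_mem
      · have h6 := c2_sub_zi (ciI e') l hXl' (ell n ^ τ * u)
        rw [map_mul, map_pow] at h6
        exact h6
      · apply Ideal.mul_mem_left
        exact c2G_sub _ τ (neg_mem hXl')

private theorem c2_decomp (e : Fin n → ℕ) (l : Fin n) (j : ℕ) {t : ℕ}
    {v : MvPolynomial (Fin n) ℂ} (hv : v.IsHomogeneous t)
    (hvj : v ∈ ciI (Function.update e l j)) :
    v ∈ ciI e ∨ ∃ v' : MvPolynomial (Fin n) ℂ, j ≤ t ∧ v'.IsHomogeneous (t - j) ∧
      v - X l ^ j * v' ∈ ciI e := by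
  rw [mem_ciI_iff] at hvj
  by_cases hjt : j ≤ t
  · right
    refine ⟨v.divMonomial (Finsupp.single l j), hjt, ?_, ?_⟩
    · rw [isHomogeneous_iff] at hv ⊢
      intro m hm
      rw [coeff_divMonomial] at hm
      have h := hv _ hm
      simp [Finset.sum_add_distrib] at h
      omega
    · have h1 : v - X l ^ j * v.divMonomial (Finsupp.single l j) =
          v.modMonomial (Finsupp.single l j) := by
        have h2 := divMonomial_add_modMonomial v (Finsupp.single l j)
        rw [X_pow_eq_monomial]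
        exact sub_eq_of_eq_add' h2.symm
      rw [h1, mem_ciI_iff]
      intro m hm
      rw [mem_support_iff] at hm
      by_cases hle : Finsupp.single l j ≤ m
      · exact absurd (coeff_modMonomial_of_le v hle) hm
      · rw [coeff_modMonomial_of_not_le v hle] at hm
        obtain ⟨i, hi⟩ := hvj m (mem_support_iff.mpr hm)
        by_cases hil : i = l
        · subst hil
          rw [Function.update_self] at hi
          exact absurd (by simpa using hi) hle
        · rw [Function.update_of_ne hil] at hi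
          exact ⟨i, hi⟩
  · left
    rw [mem_ciI_iff]
    intro m hm
    obtain ⟨i, hi⟩ := hvj m hm
    by_cases hil : i = l
    · subst hil
      rw [Function.update_self] at hi
      exfalso
      have h1 := (isHomogeneous_iff.mp hv) m (mem_support_iff.mp hm)
      have h2 : m i ≤ ∑ i, m i := Finset.single_le_sum (f := fun i => m i)
        (fun i _ => Nat.zero_le _) (Finset.mem_univ i)
      omega
    · rw [Function.update_of_ne hil] at hi
      exact ⟨i, hi⟩

private theorem c2_main {D b : ℕ} (hb : b + 1 ≤ D) (e : Fin n → ℕ)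
    (he : ∀ i, e i = 1 ∨ e i = D + 1)
    (l : Fin n) (hl : e l = D + 1) (t : ℕ) (ht : ∑ i, (e i - 1) + 2 * D ≤ 2 * t + 2 * b + 1)
    (ih : ∀ j, j + b < D → j ≤ t → SpanE D b (Function.update e l 1) (t - j)) :
    ∀ c j : ℕ, j + c = D - b → ∀ v : MvPolynomial (Fin n) ℂ, v.IsHomogeneous t →
      ell n * v ∈ ciI e → v ∈ ciI (Function.update e l j) →
      ∃ w : Fin n → MvPolynomial (Fin n) ℂ,
        (∀ i, (w i).IsHomogeneous t ∧ ell n * w i ∈ ciI e ∧ X i ^ (D - b) ∣ w i) ∧
        v - ∑ i, w i ∈ ciI e := by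
  have he1 : ∀ i, 1 ≤ e i := fun i => by rcases he i with h | h <;> omega
  intro c
  induction c with
  | zero =>
    intro j hj v hv hLv hvj
    rw [add_zero] at hj
    subst hj
    rcases c2_decomp e l (D - b) hv hvj with h | ⟨v', hjt, hv', hvv⟩
    · refine ⟨fun _ => 0, fun i => ⟨isHomogeneous_zero _ _ _, by simp, dvd_zero _⟩, ?_⟩
      simpa using h
    · refine ⟨fun i => if i = l then X l ^ (D - b) * v' else 0, ?_, ?_⟩
      · intro i
        by_cases hil : i = l
        · subst hil
          simp only [if_true]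
          refine ⟨?_, ?_, dvd_mul_right _ _⟩
          · have h1 := (isHomogeneous_X_pow (R := ℂ) i (D - b)).mul hv'
            convert h1 using 1
            omega
          · have h1 := (ciI e).sub_mem hLv (Ideal.mul_mem_left (ciI e) (ell n) hvv)
            convert h1 using 1
            ring
        · simp only [if_neg hil]
          exact ⟨isHomogeneous_zero _ _ _, by simp, dvd_zero _⟩
      · simpa using hvv
  | succ c ihc =>
    intro j hj v hv hLv hvj
    rcases c2_decomp e l j hv hvj with h | ⟨v', hjt, hv', hvv⟩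
    · refine ⟨fun _ => 0, fun i => ⟨isHomogeneous_zero _ _ _, by simp, dvd_zero _⟩, ?_⟩
      simpa using h
    · have hLv' : ell n * v' ∈ ciI (Function.update e l 1) := by
        have h1 : X l ^ j * (ell n * v') ∈ ciI e := by
          have h2 := (ciI e).sub_mem hLv (Ideal.mul_mem_left (ciI e) (ell n) hvv)
          convert h2 using 1
          ring
        refine c2_mono ?_ (c2_colon e l j h1)
        intro i
        by_cases hil : i = l
        · subst hil
          rw [Function.update_self, Function.update_self]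
          omega
        · rw [Function.update_of_ne hil, Function.update_of_ne hil]
      obtain ⟨w, hw, hsum⟩ := ih j (by omega) hjt v' hv' hLv'
      have hext : ∀ i, ∃ W : MvPolynomial (Fin n) ℂ, W.IsHomogeneous t ∧ ell n * W ∈ ciI e ∧
          X i ^ (D - b) ∣ W ∧ X l ^ j * w i - W ∈ ciI (Function.update e l (j + 1)) := fun i =>
        c2_ext hb e he l hl t ht j (by omega) hjt i (w i) (hw i).1 (hw i).2.1 (hw i).2.2
      choose W hW1 hW2 hW3 hW4 using hext
      have hWs : (∑ i, W i).IsHomogeneous t := IsHomogeneous.sum _ _ _ fun i _ => hW1 i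
      have hLWs : ell n * ∑ i, W i ∈ ciI e := by
        rw [Finset.mul_sum]
        exact Ideal.sum_mem _ fun i _ => hW2 i
      obtain ⟨w2, hw2, hsum2⟩ := ihc (j + 1) (by omega) (v - ∑ i, W i) (hv.sub hWs)
        (by rw [mul_sub]; exact Ideal.sub_mem _ hLv hLWs) (by
          have h1 : v - ∑ i, W i = (v - X l ^ j * v') + (X l ^ j * (v' - ∑ i, w i) +
              ∑ i, (X l ^ j * w i - W i)) := by
            rw [Finset.sum_sub_distrib, ← Finset.mul_sum]
            ring
          rw [h1]
          apply Ideal.add_mem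
          · refine c2_mono ?_ hvv
            intro i
            by_cases hil : i = l
            · subst hil
              rw [Function.update_self]
              omega
            · rw [Function.update_of_ne hil]
          · apply Ideal.add_mem
            · rw [add_comm j 1]
              exact c2_mul_mem e l j 1 hsum
            · exact Ideal.sum_mem _ fun i _ => hW4 i)
      refine ⟨fun i => W i + w2 i, fun i => ⟨(hW1 i).add (hw2 i).1, ?_, ?_⟩, ?_⟩
      · rw [mul_add]
        exact Ideal.add_mem _ (hW2 i) (hw2 i).2.1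
      · exact dvd_add (hW3 i) (hw2 i).2.2
      · rw [Finset.sum_add_distrib, ← sub_sub]
        exact hsum2

/-- PIECE C2. Let `e' = Function.update e l 1`. Show by downward induction on `J ≤ D - b`: if
`v` is homogeneous of degree `t`, `ell * v ∈ ciI e` and `v = x_l^J v'` modulo `ciI e`, then the
conclusion of `SpanE` holds for `v`. `J = D - b`: take `w l = v` (its multiple of `x_l^J`).
`J < D - b`: let `a = v'|_{x_l = 0}`; comparing coefficients of `x_l^J` in `ell * v ∈ ciI e`
gives `ell * a ∈ ciI e'`; `ih` with `j = J` gives `a = ∑ w^i` mod `ciI e'`. Extension of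
`w^i = x_i^(D-b) y` (`i ≠ l`, `e i = D+1`; otherwise `w^i ∈ ciI e'` and nothing is to be done):
`ell * y ∈ ciI e''`, `e'' = Function.update e' i (b+1)`, `∑ (e'' - 1) = ∑ (e - 1) - 2 D + b`;
with `τ = D - J`, `ci_surjP e''` gives (degree of `y` is `t - J - (D - b)`; if it exceeds
`∑ (e'' - 1)` then `y ∈ ciI e''`) `y = ell^τ u` mod `ciI e''`; here `u` may be taken without
`x_l`. Put `W = ∑_{s=0}^{τ} (-1)^s ell'^(τ-s) x_i^(D-b) u x_l^(J+s)`, `ell' = ell - x_l`; then
`ell * W = ell'^(τ+1) x_i^(D-b) u x_l^J ± x_i^(D-b) u x_l^(D+1) ∈ ciI e`, `x_i^(D-b) ∣ W` and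
`W = x_l^J w^i` modulo `x_l^(J+1)` and `ciI e`. Subtract and use the case `J + 1`. -/
theorem span_step {D b : ℕ} (hb : b + 1 ≤ D) (e : Fin n → ℕ) (he : ∀ i, e i = 1 ∨ e i = D + 1)
    (l : Fin n) (hl : e l = D + 1) (t : ℕ) (ht : ∑ i, (e i - 1) + 2 * D ≤ 2 * t + 2 * b + 1)
    (ih : ∀ j, j + b < D → j ≤ t → SpanE D b (Function.update e l 1) (t - j)) :
    SpanE D b e t := by
  intro v hv hLv
  apply c2_main hb e he l hl t ht ih (D - b) 0 (by omega) v hv hLv
  rw [mem_ciI_iff]
  intro m _
  exact ⟨l, by simp⟩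

/-- above the top degree everything is `0` -/
theorem span_top {D b : ℕ} (e : Fin n → ℕ) (he : ∀ i, 1 ≤ e i) (t : ℕ)
    (ht : ∑ i, (e i - 1) < t) : SpanE D b e t := by
  intro v hv _
  refine ⟨fun _ => 0, fun i => ⟨isHomogeneous_zero _ _ _, by simp, dvd_zero _⟩, ?_⟩
  have h1 : ∑ i, (e i - 1) + n = ∑ i, e i := by
    have h2 : ∑ i, e i = ∑ i : Fin n, ((e i - 1) + 1) :=
      Finset.sum_congr rfl fun i _ => by have := he i; omega
    rw [h2, Finset.sum_add_distrib]
    simp
  have := ci_top e (∑ i, (e i - 1)) h1 t ht v hv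
  simpa using this

end Pool.Agent.Lib_MP_8b82cd_w
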