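import Mathlib
import Pool.Agent.Lib_MP_8b82cd_w.C1b
import Pool.Agent.Lib_MP_8b82cd_w.C2

/-! `Inj n 2 2` for all `n` and `Inj n 3 2` for odd `n`. -/

namespace Pool.Agent.Lib_MP_8b82cd_w

open MvPolynomial Pool.Agent.Lib_MP_8b82cd_ag

variable {n : ℕ}

private theorem c3_aux {D b : ℕ} (hb : b + 1 ≤ D) (hDb : D ≤ 2 * b + 2) : ∀ (N : ℕ)
    (e : Fin n → ℕ), (Finset.univ.filter fun i => e i = D + 1).card = N →
    (∀ i, e i = 1 ∨ e i = D + 1) → ∀ t : ℕ,
    ∑ i, (e i - 1) + (2 * D - 2 * b - 1) ≤ 2 * t → SpanE D b e t := by
  intro N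
  induction N with
  | zero =>
    intro e hN he t ht
    have h1 : ∀ i, e i = 1 := by
      intro i
      rcases he i with h | h
      · exact h
      · exfalso
        have : i ∈ Finset.univ.filter fun i => e i = D + 1 := by simp [h]
        rw [Finset.card_eq_zero.mp hN] at this
        exact absurd this (Finset.notMem_empty i)
    have h2 : ∑ i, (e i - 1) = 0 := Finset.sum_eq_zero fun i _ => by rw [h1 i, Nat.sub_self]
    refine span_top e (fun i => (h1 i).ge) t ?_
    rw [h2] at ht ⊢
    omega
  | succ N ih =>
    intro e hN he t ht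
    have hne : (Finset.univ.filter fun i => e i = D + 1).Nonempty := by
      rw [← Finset.card_pos, hN]
      omega
    obtain ⟨l, hl⟩ := hne
    have hl' : e l = D + 1 := (Finset.mem_filter.mp hl).2
    have hsum : ∑ i, (Function.update e l 1 i - 1) + D = ∑ i, (e i - 1) := by
      rw [← Finset.add_sum_erase _ _ (Finset.mem_univ l),
        ← Finset.add_sum_erase _ (fun i => e i - 1) (Finset.mem_univ l)]
      have h3 : ∑ i ∈ Finset.univ.erase l, (Function.update e l 1 i - 1) =
          ∑ i ∈ Finset.univ.erase l, (e i - 1) := by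
        apply Finset.sum_congr rfl
        intro i hi
        rw [Function.update_of_ne (Finset.ne_of_mem_erase hi)]
      rw [h3, Function.update_self, hl']
      omega
    apply span_step hb e he l hl' t (by omega)
    intro j hj hjt
    apply ih
    · have h4 : (Finset.univ.filter fun i => Function.update e l 1 i = D + 1) =
          (Finset.univ.filter fun i => e i = D + 1).erase l := by
        ext i
        simp only [Finset.mem_filter, Finset.mem_univ, true_and, Finset.mem_erase]
        by_cases hi : i = l
        · subst hi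
          rw [Function.update_self]
          constructor
          · intro h
            omega
          · intro h
            exact absurd rfl h.1
        · rw [Function.update_of_ne hi]
          simp [hi]
      rw [h4, Finset.card_erase_of_mem hl, hN]
      omega
    · intro i
      by_cases hi : i = l
      · subst hi
        rw [Function.update_self]
        exact Or.inl rfl
      · rw [Function.update_of_ne hi]
        exact he i
    · omega

/-- PIECE C3a. Induction on the number of `i` with `e i = D+1` by `span_step`; the hypothesis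
passes from `(N, t)` to `(N - 1, t - j)`, `j ≤ D - b - 1`, because `D ≤ 2b + 2`. If there is no
such `i`, `t ≥ 1` and `span_top` applies. -/
theorem span_all {D b : ℕ} (hb : b + 1 ≤ D) (hDb : D ≤ 2 * b + 2) (e : Fin n → ℕ)
    (he : ∀ i, e i = 1 ∨ e i = D + 1) (t : ℕ)
    (ht : ∑ i, (e i - 1) + (2 * D - 2 * b - 1) ≤ 2 * t) : SpanE D b e t :=
  c3_aux hb hDb _ e rfl he t ht

/-- PIECE C3b. `pos_two` with `b = 0`, `t = n + 2`. -/
theorem inj_2_2 (hn : 2 ≤ n) : Inj n 2 2 := by
  apply pos_two (b := 0) hn (by omega) (by omega)
  apply span_all (by omega) (by omega) _ (fun _ => Or.inr rfl)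
  rw [Finset.sum_const, Finset.card_univ, Fintype.card_fin, smul_eq_mul]
  unfold e0
  omega

/-- PIECE C3c. `pos_two` with `b = 1`, `2 t = 3 n + 5`. -/
theorem inj_3_2 (hn : 2 ≤ n) (hodd : n % 2 = 1) : Inj n 3 2 := by
  apply pos_two (b := 1) hn (by omega) (by omega)
  apply span_all (by omega) (by omega) _ (fun _ => Or.inr rfl)
  rw [Finset.sum_const, Finset.card_univ, Fintype.card_fin, smul_eq_mul]
  unfold e0
  omega

end Pool.Agent.Lib_MP_8b82cd_w
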