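import Mathlib
import Pool.Agent.Lib_MP_8b82cd_w.Defs

/-! Symmetric polynomials: a counting obstruction. -/

namespace Pool.Agent.Lib_MP_8b82cd_w

open MvPolynomial Pool.Agent.Lib_MP_8b82cd_ag

variable {n : ℕ}

/-- the exponents of a monomial, without order -/
def typ (m : Fin n →₀ ℕ) : Multiset ℕ := Finset.univ.val.map fun i => m i

/-- the number of `S_n`-orbits of monomials of degree `t` outside `(x_1^d, …, x_n^d)^k` -/
noncomputable def orbs (n d k t : ℕ) : ℕ := ((stdExp n d k t).image typ).card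

private lemma typ_mapDomain (σ : Equiv.Perm (Fin n)) (m : Fin n →₀ ℕ) :
    typ (Finsupp.mapDomain σ m) = typ m := by
  unfold typ
  simp only [Finsupp.mapDomain_equiv_apply]
  have h := congrArg (Multiset.map fun i => m i) (Multiset.map_univ_val_equiv σ.symm)
  rw [Multiset.map_map] at h
  exact h

private lemma std_mapDomain (σ : Equiv.Perm (Fin n)) {d k t : ℕ} {m : Fin n →₀ ℕ}
    (hm : m ∈ stdExp n d k t) : Finsupp.mapDomain σ m ∈ stdExp n d k t := by
  rw [mem_stdExp] at hm ⊢
  simp only [Finsupp.mapDomain_equiv_apply]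
  rw [Equiv.sum_comp σ.symm (fun i => m i), Equiv.sum_comp σ.symm (fun i => m i / d)]
  exact hm

private lemma exists_perm {m m' : Fin n →₀ ℕ} (h : typ m = typ m') :
    ∃ σ : Equiv.Perm (Fin n), m' = Finsupp.mapDomain σ m := by
  have h1 : ∀ v : ℕ, Fintype.card {i // m i = v} = Fintype.card {i // m' i = v} := by
    intro v
    have h2 := congrArg (Multiset.count v) h
    unfold typ at h2
    rw [Multiset.count_map, Multiset.count_map] at h2
    rw [Fintype.card_subtype, Fintype.card_subtype]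
    simp only [Finset.card_def, Finset.filter_val]
    simpa only [eq_comm] using h2
  let e : ∀ v : ℕ, {i // m i = v} ≃ {i // m' i = v} := fun v => Fintype.equivOfCardEq (h1 v)
  refine ⟨Equiv.ofFiberEquiv e, ?_⟩
  ext i
  rw [Finsupp.mapDomain_equiv_apply]
  have h2 := Equiv.ofFiberEquiv_map e ((Equiv.ofFiberEquiv e).symm i)
  rw [Equiv.apply_symm_apply] at h2
  exact h2

private lemma rename_ell (σ : Equiv.Perm (Fin n)) : rename σ (ell n) = ell n := by
  unfold ell
  rw [map_sum]
  simp only [rename_X]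
  exact Equiv.sum_comp σ (fun i => (X i : MvPolynomial (Fin n) ℂ))

/-- the symmetric polynomial with coefficients `c` -/
private noncomputable def sym (d k t : ℕ) :
    ({τ // τ ∈ (stdExp n d k t).image typ} → ℂ) →ₗ[ℂ] MvPolynomial (Fin n) ℂ :=
  ∑ m : {m // m ∈ stdExp n d k t},
    (monomial (m : Fin n →₀ ℕ)).comp
      (LinearMap.proj ⟨typ m.1, Finset.mem_image_of_mem _ m.2⟩)

private lemma sym_apply (d k t : ℕ) (c : {τ // τ ∈ (stdExp n d k t).image typ} → ℂ) :
    sym d k t c = ∑ m : {m // m ∈ stdExp n d k t},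
      monomial (m : Fin n →₀ ℕ) (c ⟨typ m.1, Finset.mem_image_of_mem _ m.2⟩) := by
  simp [sym, LinearMap.sum_apply]

private lemma rename_sym (σ : Equiv.Perm (Fin n)) (d k t : ℕ)
    (c : {τ // τ ∈ (stdExp n d k t).image typ} → ℂ) :
    rename σ (sym d k t c) = sym d k t c := by
  rw [sym_apply, map_sum]
  let E : {m // m ∈ stdExp n d k t} ≃ {m // m ∈ stdExp n d k t} :=
    { toFun := fun m => ⟨Finsupp.mapDomain σ m.1, std_mapDomain σ m.2⟩
      invFun := fun m => ⟨Finsupp.mapDomain σ.symm m.1, std_mapDomain σ.symm m.2⟩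
      left_inv := fun m => by
        apply Subtype.ext
        ext i
        simp [Finsupp.mapDomain_equiv_apply]
      right_inv := fun m => by
        apply Subtype.ext
        ext i
        simp [Finsupp.mapDomain_equiv_apply] }
  refine (Finset.sum_congr rfl fun m _ => ?_).trans (Equiv.sum_comp E
    (fun m => monomial (m : Fin n →₀ ℕ) (c ⟨typ m.1, Finset.mem_image_of_mem _ m.2⟩)))
  rw [rename_monomial]
  have h1 : (⟨typ (E m).1, Finset.mem_image_of_mem _ (E m).2⟩ :
      {τ // τ ∈ (stdExp n d k t).image typ}) = ⟨typ m.1, Finset.mem_image_of_mem _ m.2⟩ :=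
    Subtype.ext (typ_mapDomain σ m.1)
  rw [h1]
  rfl

private lemma coeff_sym (d k t : ℕ) (c : {τ // τ ∈ (stdExp n d k t).image typ} → ℂ)
    {m : Fin n →₀ ℕ} (hm : m ∈ stdExp n d k t) :
    coeff m (sym d k t c) = c ⟨typ m, Finset.mem_image_of_mem _ hm⟩ := by
  rw [sym_apply, coeff_sum, Finset.sum_eq_single ⟨m, hm⟩]
  · rw [coeff_monomial, if_pos rfl]
  · intro b _ hb
    rw [coeff_monomial, if_neg]
    intro h
    exact hb (Subtype.ext h)
  · intro h
    exact absurd (Finset.mem_univ _) h

private lemma sym_hom (d k t : ℕ) (c : {τ // τ ∈ (stdExp n d k t).image typ} → ℂ) :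
    (sym d k t c).IsHomogeneous t := by
  rw [sym_apply]
  apply IsHomogeneous.sum
  intro m _
  apply isHomogeneous_monomial
  rw [Finsupp.degree_eq_sum]
  exact (mem_stdExp.1 m.2).1

/-- PIECE CNT1. For `c : (image of e-1) → ℂ` put `u = ∑_{m ∈ stdExp (e-1)} c (typ m) x^m`;
`coeff m (ell * u)` depends only on `typ m`, so `ell * u ∈ powI` is a system of
`orbs n d k e` equations in `orbs n d k (e-1)` unknowns. -/
theorem not_inj_of_orbs {d k e : ℕ} (hd : 1 ≤ d) (he : 1 ≤ e)
    (h : orbs n d k e < orbs n d k (e - 1)) : ¬ InjP (powI n d k) (ell n) (e - 1) 1 := by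
  classical
  intro hinj
  have hrep : ∀ τ : {τ // τ ∈ (stdExp n d k e).image typ}, ∃ m ∈ stdExp n d k e, typ m = τ.1 :=
    fun τ => by simpa using Finset.mem_image.1 τ.2
  choose rep hrep1 hrep2 using hrep
  let Φ : ({τ // τ ∈ (stdExp n d k (e - 1)).image typ} → ℂ) →ₗ[ℂ]
      ({τ // τ ∈ (stdExp n d k e).image typ} → ℂ) :=
    { toFun := fun c τ => coeff (rep τ) (ell n * sym d k (e - 1) c)
      map_add' := fun c c' => by
        funext τ
        simp [mul_add]
      map_smul' := fun r c => by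
        funext τ
        simp }
  have hker : LinearMap.ker Φ ≠ ⊥ := by
    apply LinearMap.ker_ne_bot_of_finrank_lt
    rw [Module.finrank_pi, Module.finrank_pi, Fintype.card_coe, Fintype.card_coe]
    exact h
  obtain ⟨c, hc, hc0⟩ := (Submodule.ne_bot_iff _).1 hker
  rw [LinearMap.mem_ker] at hc
  have hmem : sym d k (e - 1) c ∈ powI n d k := by
    apply hinj _ (sym_hom d k (e - 1) c)
    rw [pow_one, mem_powI_iff (by omega)]
    intro m hm
    by_contra hlt
    push Not at hlt
    have hdeg : ∑ i, m i = e := by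
      have h1 := ell_pow_mul_isHomogeneous (sym_hom d k (e - 1) c) 1
      rw [pow_one] at h1
      have h2 := isHomogeneous_iff.1 h1 m (mem_support_iff.1 hm)
      omega
    have hms : m ∈ stdExp n d k e := mem_stdExp.2 ⟨hdeg, hlt⟩
    have hτ : typ m ∈ (stdExp n d k e).image typ := Finset.mem_image_of_mem _ hms
    obtain ⟨σ, hσ⟩ := exists_perm (hrep2 ⟨typ m, hτ⟩)
    have h1 : coeff m (ell n * sym d k (e - 1) c) =
        coeff (rep ⟨typ m, hτ⟩) (ell n * sym d k (e - 1) c) := by
      have h2 : rename σ (ell n * sym d k (e - 1) c) = ell n * sym d k (e - 1) c := by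
        rw [map_mul, rename_ell, rename_sym]
      have h3 := coeff_rename_mapDomain σ σ.injective (ell n * sym d k (e - 1) c)
        (rep ⟨typ m, hτ⟩)
      rw [h2, ← hσ] at h3
      exact h3
    have h2 : Φ c ⟨typ m, hτ⟩ = 0 := by rw [hc]; rfl
    exact mem_support_iff.1 hm (h1.trans h2)
  apply hc0
  funext τ
  obtain ⟨m, hm, hmτ⟩ := Finset.mem_image.1 τ.2
  by_contra hne
  have h1 : coeff m (sym d k (e - 1) c) ≠ 0 := by
    rw [coeff_sym d k (e - 1) c hm]
    have : (⟨typ m, Finset.mem_image_of_mem _ hm⟩ :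
      {τ // τ ∈ (stdExp n d k (e - 1)).image typ}) = τ := Subtype.ext hmτ
    rw [this]
    exact hne
  have h2 := (mem_powI_iff (by omega : 0 < d) k).1 hmem m (mem_support_iff.2 h1)
  have h3 := (mem_stdExp.1 hm).2
  omega

end Pool.Agent.Lib_MP_8b82cd_w
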