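import Mathlib
import Pool.Agent.Lib_MP_8b82cd_w.Cnt

/-! Counting orbits. -/

namespace Pool.Agent.Lib_MP_8b82cd_w

open MvPolynomial Pool.Agent.Lib_MP_8b82cd_ag

variable {n : ℕ}

/-- all weakly decreasing lists of length `n` with entries at most `c`, sum `t` and floor sum at
most `q` (for `d`) -/
def parts (d : ℕ) : ℕ → ℕ → ℕ → ℕ → List (List ℕ)
  | 0, _, t, _ => if t = 0 then [[]] else []
  | n + 1, c, t, q =>
      (List.range (min c t + 1)).flatMap fun a =>
        if a / d ≤ q then (parts d n a (t - a) (q - a / d)).map (a :: ·) else []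

private theorem mem_parts (d : ℕ) : ∀ (n c t q : ℕ) (l : List ℕ), l ∈ parts d n c t q ↔
    l.length = n ∧ l.Pairwise (· ≥ ·) ∧ (∀ a ∈ l, a ≤ c) ∧ l.sum = t ∧
      (l.map (· / d)).sum ≤ q := by
  intro n
  induction n with
  | zero =>
    intro c t q l
    unfold parts
    constructor
    · intro h
      split_ifs at h with h0
      · rw [List.mem_singleton] at h
        subst h
        refine ⟨rfl, List.Pairwise.nil, fun a ha => absurd ha List.not_mem_nil, ?_, ?_⟩
        · rw [h0]; rfl
        · exact Nat.zero_le _
      · exact absurd h List.not_mem_nil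
    · rintro ⟨h1, _, _, h4, _⟩
      have h5 : l = [] := List.length_eq_zero_iff.1 h1
      subst h5
      have h6 : t = 0 := by rw [← h4]; rfl
      rw [if_pos h6]
      exact List.mem_singleton.2 rfl
  | succ n ih =>
    intro c t q l
    unfold parts
    rw [List.mem_flatMap]
    constructor
    · rintro ⟨a, ha, h⟩
      rw [List.mem_range] at ha
      split_ifs at h with h0
      · rw [List.mem_map] at h
        obtain ⟨l', hl', rfl⟩ := h
        obtain ⟨h1, h2, h3, h4, h5⟩ := (ih _ _ _ _).1 hl'
        refine ⟨by rw [List.length_cons, h1], List.Pairwise.cons (fun b hb => h3 b hb) h2, ?_, ?_, ?_⟩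
        · intro b hb
          rcases List.mem_cons.1 hb with hb | hb
          · omega
          · have := h3 b hb
            omega
        · rw [List.sum_cons, h4]
          omega
        · rw [List.map_cons, List.sum_cons]
          omega
      · exact absurd h List.not_mem_nil
    · rintro ⟨h1, h2, h3, h4, h5⟩
      cases l with
      | nil => exact absurd h1 (by simp)
      | cons a l' =>
        rw [List.length_cons] at h1
        rw [List.pairwise_cons] at h2
        rw [List.sum_cons] at h4
        rw [List.map_cons, List.sum_cons] at h5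
        have h6 := h3 a List.mem_cons_self
        refine ⟨a, List.mem_range.2 (by omega), ?_⟩
        have h7 : a / d ≤ q := by omega
        rw [if_pos h7, List.mem_map]
        refine ⟨l', (ih _ _ _ _).2 ⟨by omega, h2.2, fun b hb => h2.1 b hb, by omega, ?_⟩, rfl⟩
        omega

private theorem nodup_parts (d : ℕ) : ∀ (n c t q : ℕ), (parts d n c t q).Nodup := by
  intro n
  induction n with
  | zero =>
    intro c t q
    unfold parts
    split_ifs
    · exact List.nodup_singleton _
    · exact List.nodup_nil
  | succ n ih =>
    intro c t q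
    unfold parts
    rw [List.nodup_flatMap]
    constructor
    · intro a _
      split_ifs
      · exact (ih _ _ _).map (fun x y h => (List.cons.inj h).2)
      · exact List.nodup_nil
    · refine List.Pairwise.imp ?_ List.nodup_range
      intro a b hab
      rw [Function.onFun, List.disjoint_left]
      intro l h1 h2
      split_ifs at h1 with c1
      · split_ifs at h2 with c2
        · rw [List.mem_map] at h1 h2
          obtain ⟨l1, _, e1⟩ := h1
          obtain ⟨l2, _, e2⟩ := h2
          exact hab (List.cons.inj (e1.trans e2.symm)).1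
        · exact absurd h2 List.not_mem_nil
      · exact absurd h1 List.not_mem_nil

private theorem typ_eq (m : Fin n →₀ ℕ) : typ m = ↑(List.ofFn fun i => m i) :=
  Fin.univ_val_map _

/-- PIECE CNT2. -/
theorem orbs_eq (n d k t : ℕ) (hk : 1 ≤ k) : orbs n d k t = (parts d n t t (k - 1)).length := by
  classical
  have hinj : Set.InjOn (fun l : List ℕ => (l : Multiset ℕ)) (parts d n t t (k - 1)).toFinset := by
    intro l1 h1 l2 h2 h
    rw [Finset.mem_coe, List.mem_toFinset, mem_parts] at h1 h2
    exact List.Perm.eq_of_pairwise' h1.2.1 h2.2.1 (Multiset.coe_eq_coe.1 h)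
  have himg : (stdExp n d k t).image typ =
      (parts d n t t (k - 1)).toFinset.image (fun l : List ℕ => (l : Multiset ℕ)) := by
    ext s
    rw [Finset.mem_image, Finset.mem_image]
    constructor
    · rintro ⟨m, hm, rfl⟩
      rw [mem_stdExp] at hm
      obtain ⟨hm1, hm2⟩ := hm
      have hp : ((typ m).sort (· ≥ ·) : Multiset ℕ) = typ m := Multiset.sort_eq _ _
      refine ⟨(typ m).sort (· ≥ ·), ?_, hp⟩
      rw [List.mem_toFinset, mem_parts]
      have hperm : ((typ m).sort (· ≥ ·)).Perm (List.ofFn fun i => m i) := by
        rw [← Multiset.coe_eq_coe, hp, typ_eq]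
      have hsum : ((typ m).sort (· ≥ ·)).sum = t := by
        rw [hperm.sum_eq, List.sum_ofFn, hm1]
      refine ⟨?_, Multiset.pairwise_sort _ _, ?_, hsum, ?_⟩
      · rw [hperm.length_eq, List.length_ofFn]
      · intro a ha
        rw [← hsum]
        exact List.single_le_sum (fun _ _ => Nat.zero_le _) a ha
      · rw [(hperm.map _).sum_eq, List.map_ofFn, List.sum_ofFn]
        have : ∑ i, ((· / d) ∘ fun i => m i) i = ∑ i, m i / d := rfl
        rw [this]
        omega
    · rintro ⟨l, hl, rfl⟩
      rw [List.mem_toFinset, mem_parts] at hl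
      obtain ⟨h1, _, _, h4, h5⟩ := hl
      subst h1
      refine ⟨Finsupp.equivFunOnFinite.symm fun i => l.get i, ?_, ?_⟩
      · rw [mem_stdExp]
        simp only [Finsupp.equivFunOnFinite_symm_apply_apply]
        constructor
        · rw [← List.sum_ofFn, List.ofFn_get, h4]
        · have h6 : ∑ i, l.get i / d = (l.map (· / d)).sum := by
            conv_rhs => rw [← List.ofFn_get l]
            rw [List.map_ofFn, List.sum_ofFn]
            rfl
          rw [h6]
          omega
      · rw [typ_eq]
        simp only [Finsupp.equivFunOnFinite_symm_apply_apply]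
        rw [List.ofFn_get]
  unfold orbs
  rw [himg, Finset.card_image_of_injOn hinj, List.toFinset_card_of_nodup (nodup_parts _ _ _ _ _)]

end Pool.Agent.Lib_MP_8b82cd_w
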