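import Mathlib
import Pool.Agent.Lib_MP_8b82cd_w.Cnt2

/-! The sporadic failures. -/

namespace Pool.Agent.Lib_MP_8b82cd_w

open MvPolynomial Pool.Agent.Lib_MP_8b82cd_ag

variable {n : ℕ}

/-- the reduction to the lengths of the two lists -/
theorem sporadic_aux (n D k : ℕ) (hk : 1 ≤ k) (he : 1 ≤ e0 n D k)
    (h : (parts (D + 1) n (e0 n D k) (e0 n D k) (k - 1)).length <
      (parts (D + 1) n (e0 n D k - 1) (e0 n D k - 1) (k - 1)).length) : ¬ Inj n D k := by
  refine not_inj_of_orbs (by omega) he ?_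
  rw [orbs_eq _ _ _ _ hk, orbs_eq _ _ _ _ hk]
  exact h

/-- PIECE CNT3. The seven sporadic cases (`decide +kernel` on the lengths; a faster recursive
counting function may be needed). Orbits: (4,1,4): 11 > 10, (5,1,8): 84 > 83, (5,3,4): 113 > 111,
(5,5,3): 207 > 205, (7,1,5): 31 > 30, (7,3,3): 114 > 113, (9,3,3): 194 > 193. -/
theorem sporadic_neg : ¬ Inj 4 1 4 ∧ ¬ Inj 5 1 8 ∧ ¬ Inj 5 3 4 ∧ ¬ Inj 5 5 3 ∧ ¬ Inj 7 1 5 ∧
    ¬ Inj 7 3 3 ∧ ¬ Inj 9 3 3 := by
  refine ⟨?_, ?_, ?_, ?_, ?_, ?_, ?_⟩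
  · exact sporadic_aux 4 1 4 (by decide) (by decide) (by decide +kernel)
  · exact sporadic_aux 5 1 8 (by decide) (by decide) (by decide +kernel)
  · exact sporadic_aux 5 3 4 (by decide) (by decide) (by decide +kernel)
  · exact sporadic_aux 5 5 3 (by decide) (by decide) (by decide +kernel)
  · exact sporadic_aux 7 1 5 (by decide) (by decide) (by decide +kernel)
  · exact sporadic_aux 7 3 3 (by decide) (by decide) (by decide +kernel)
  · exact sporadic_aux 9 3 3 (by decide) (by decide) (by decide +kernel)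

end Pool.Agent.Lib_MP_8b82cd_w
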