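import Mathlib
import Pool.Agent.Lib_MP_8b82cd_w.Defs

/-!
All the positive cases with `k = 2`, by a direct argument which uses only that monomial complete
intersections have the strong Lefschetz property.
-/

namespace Pool.Agent.Lib_MP_8b82cd_w

open MvPolynomial Pool.Agent.Lib_MP_8b82cd_ag

variable {n : ℕ}

private theorem k2_comp (e : Fin n → ℕ) {f : MvPolynomial (Fin n) ℂ} (hf : f ∈ ciI e) (t : ℕ) :
    homogeneousComponent t f ∈ ciI e := by
  rw [mem_ciI_iff] at hf ⊢
  intro m hm
  apply hf
  rw [mem_support_iff, coeff_homogeneousComponent] at hm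
  rw [mem_support_iff]
  intro h; apply hm; rw [h]; split_ifs <;> rfl

private theorem k2_mono {e e' : Fin n → ℕ} (h : ∀ i, e' i ≤ e i) {f : MvPolynomial (Fin n) ℂ}
    (hf : f ∈ ciI e) : f ∈ ciI e' := by
  rw [mem_ciI_iff] at hf ⊢
  intro m hm
  obtain ⟨i, hi⟩ := hf m hm
  exact ⟨i, (h i).trans hi⟩

/-- multiplication by `x_p^a` -/
private theorem k2_shift (e : Fin n → ℕ) (p : Fin n) (a : ℕ) (f : MvPolynomial (Fin n) ℂ) :
    X p ^ a * f ∈ ciI e ↔ f ∈ ciI (Function.update e p (e p - a)) := by
  rw [mem_ciI_iff, mem_ciI_iff]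
  constructor
  · intro h m hm
    have h1 : Finsupp.single p a + m ∈ (X p ^ a * f).support := by
      rw [mem_support_iff, X_pow_eq_monomial, coeff_monomial_mul, one_mul]
      exact mem_support_iff.mp hm
    obtain ⟨i, hi⟩ := h _ h1
    refine ⟨i, ?_⟩
    by_cases hip : i = p
    · subst hip
      rw [Finsupp.add_apply, Finsupp.single_eq_same] at hi
      rw [Function.update_self]
      omega
    · rw [Finsupp.add_apply, Finsupp.single_eq_of_ne hip, zero_add] at hi
      rw [Function.update_of_ne hip]
      exact hi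
  · intro h m hm
    rw [mem_support_iff, X_pow_eq_monomial, coeff_monomial_mul'] at hm
    split_ifs at hm with hle
    · rw [one_mul] at hm
      obtain ⟨i, hi⟩ := h _ (mem_support_iff.mpr hm)
      refine ⟨i, ?_⟩
      have h2 := hle p
      rw [Finsupp.single_eq_same] at h2
      by_cases hip : i = p
      · subst hip
        rw [Function.update_self, Finsupp.tsub_apply, Finsupp.single_eq_same] at hi
        omega
      · rw [Function.update_of_ne hip, Finsupp.tsub_apply, Finsupp.single_eq_of_ne hip] at hi
        omega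
    · exact absurd rfl hm

/-- splitting off a multiple of `x_p^c` -/
private theorem k2_split (e : Fin n → ℕ) (p : Fin n) (c : ℕ) {t : ℕ} {f : MvPolynomial (Fin n) ℂ}
    (hf : f ∈ ciI (Function.update e p c)) (ht : f.IsHomogeneous t) :
    ∃ g : MvPolynomial (Fin n) ℂ, g.IsHomogeneous (t - c) ∧ f - X p ^ c * g ∈ ciI e := by
  refine ⟨f.divMonomial (Finsupp.single p c), ?_, ?_⟩
  · rw [isHomogeneous_iff] at ht ⊢
    intro m hm
    rw [coeff_divMonomial] at hm
    have h1 := ht _ hm
    have h2 : ∑ i, (Finsupp.single p c + m) i = c + ∑ i, m i := by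
      simp only [Finsupp.add_apply, Finset.sum_add_distrib]
      congr 1
      rw [Finset.sum_eq_single p]
      · exact Finsupp.single_eq_same
      · intro b _ hb; exact Finsupp.single_eq_of_ne hb
      · intro h; exact absurd (Finset.mem_univ _) h
    omega
  · have h1 : f - X p ^ c * f.divMonomial (Finsupp.single p c) =
        f.modMonomial (Finsupp.single p c) := by
      rw [X_pow_eq_monomial, sub_eq_iff_eq_add, add_comm]
      exact (divMonomial_add_modMonomial f (Finsupp.single p c)).symm
    rw [h1, mem_ciI_iff]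
    rw [mem_ciI_iff] at hf
    intro m hm
    rw [mem_support_iff] at hm
    by_cases hle : Finsupp.single p c ≤ m
    · exact absurd (coeff_modMonomial_of_le f hle) hm
    · rw [coeff_modMonomial_of_not_le f hle] at hm
      obtain ⟨i, hi⟩ := hf m (mem_support_iff.mpr hm)
      refine ⟨i, ?_⟩
      by_cases hip : i = p
      · subst hip
        rw [Function.update_self] at hi
        exfalso
        apply hle
        intro j
        by_cases hj : j = i
        · subst hj; rw [Finsupp.single_eq_same]; exact hi
        · rw [Finsupp.single_eq_of_ne hj]; exact Nat.zero_le _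
      · rwa [Function.update_of_ne hip] at hi

/-- `f` is a multiple of the sum of the variables modulo `ciI e` -/
private def MemL (e : Fin n → ℕ) (f : MvPolynomial (Fin n) ℂ) : Prop :=
  ∃ g : MvPolynomial (Fin n) ℂ, f - ell n * g ∈ ciI e

private theorem comp_ell_mul (t : ℕ) (g : MvPolynomial (Fin n) ℂ) :
    homogeneousComponent (t + 1) (ell n * g) = ell n * homogeneousComponent t g := by
  conv_lhs => rw [← sum_homogeneousComponent g, Finset.mul_sum, map_sum]
  have h1 : ∀ s ∈ Finset.range (g.totalDegree + 1),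
      homogeneousComponent (t + 1) (ell n * homogeneousComponent s g) =
        if s = t then ell n * homogeneousComponent t g else 0 := by
    intro s _
    have h2 : (ell n * homogeneousComponent s g).IsHomogeneous (1 + s) :=
      (ell_isHomogeneous n).mul (homogeneousComponent_isHomogeneous s g)
    rw [homogeneousComponent_of_mem (m := t + 1) (n := 1 + s) h2]
    by_cases hs : s = t
    · subst hs; rw [if_pos (by omega), if_pos rfl]
    · rw [if_neg (by omega), if_neg hs]
  rw [Finset.sum_congr rfl h1, Finset.sum_ite_eq']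
  split_ifs with h
  · rfl
  · have h3 : homogeneousComponent t g = 0 := by
      apply homogeneousComponent_eq_zero
      rw [Finset.mem_range] at h
      omega
    rw [h3, mul_zero]

private theorem comp_zero_ell_mul (g : MvPolynomial (Fin n) ℂ) :
    homogeneousComponent 0 (ell n * g) = 0 := by
  rw [homogeneousComponent_zero]
  have : coeff 0 (ell n * g) = 0 := by
    have h1 : constantCoeff (ell n * g) = 0 := by
      rw [map_mul]
      have : constantCoeff (ell n) = 0 := by simp [ell]
      rw [this, zero_mul]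
    simpa [constantCoeff_eq] using h1
  rw [this, C_0]

private theorem MemL.hom {e : Fin n → ℕ} {f : MvPolynomial (Fin n) ℂ} {t : ℕ}
    (ht : f.IsHomogeneous t) (h : MemL e f) :
    ∃ g : MvPolynomial (Fin n) ℂ, g.IsHomogeneous (t - 1) ∧ f - ell n * g ∈ ciI e ∧
      (t = 0 → g = 0) := by
  obtain ⟨g, hg⟩ := h
  have h1 := k2_comp e hg t
  have h2 : homogeneousComponent t f = f := by
    rw [homogeneousComponent_of_mem ht, if_pos rfl]
  rw [map_sub, h2] at h1
  cases t with
  | zero =>
    rw [comp_zero_ell_mul] at h1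
    exact ⟨0, isHomogeneous_zero _ _ _, by rw [mul_zero]; exact h1, fun _ => rfl⟩
  | succ t =>
    rw [comp_ell_mul] at h1
    exact ⟨homogeneousComponent t g, homogeneousComponent_isHomogeneous t g, h1,
      fun h => absurd h (by omega)⟩

private theorem MemL.of_mem {e : Fin n → ℕ} {f : MvPolynomial (Fin n) ℂ} (h : f ∈ ciI e) :
    MemL e f := ⟨0, by rwa [mul_zero, sub_zero]⟩

private theorem MemL.add {e : Fin n → ℕ} {f g : MvPolynomial (Fin n) ℂ} (h : MemL e f)
    (h' : MemL e g) : MemL e (f + g) := by
  obtain ⟨a, ha⟩ := h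
  obtain ⟨b, hb⟩ := h'
  refine ⟨a + b, ?_⟩
  have := (ciI e).add_mem ha hb
  convert this using 1
  ring

private theorem MemL.sub {e : Fin n → ℕ} {f g : MvPolynomial (Fin n) ℂ} (h : MemL e f)
    (h' : MemL e g) : MemL e (f - g) := by
  obtain ⟨a, ha⟩ := h
  obtain ⟨b, hb⟩ := h'
  refine ⟨a - b, ?_⟩
  have := (ciI e).sub_mem ha hb
  convert this using 1
  ring

private theorem MemL.ell_mul {e : Fin n → ℕ} (f : MvPolynomial (Fin n) ℂ) :
    MemL e (ell n * f) := ⟨f, by rw [sub_self]; exact (ciI e).zero_mem⟩

private theorem MemL.mul {e : Fin n → ℕ} {f : MvPolynomial (Fin n) ℂ} (h : MemL e f)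
    (g : MvPolynomial (Fin n) ℂ) : MemL e (g * f) := by
  obtain ⟨a, ha⟩ := h
  refine ⟨g * a, ?_⟩
  have := (ciI e).mul_mem_left g ha
  convert this using 1
  ring

private theorem MemL.mono {e e' : Fin n → ℕ} (hee : ∀ i, e' i ≤ e i)
    {f : MvPolynomial (Fin n) ℂ} (h : MemL e f) : MemL e' f := by
  obtain ⟨a, ha⟩ := h
  exact ⟨a, k2_mono hee ha⟩

/-- sum of `e i - 1` -/
private def sg (e : Fin n → ℕ) : ℕ := ∑ i, (e i - 1)

private theorem sg_add (e : Fin n → ℕ) (he : ∀ i, 1 ≤ e i) : sg e + n = ∑ i, e i := by
  have h2 : ∑ i, e i = ∑ i : Fin n, ((e i - 1) + 1) :=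
    Finset.sum_congr rfl fun i _ => by have := he i; omega
  rw [h2, Finset.sum_add_distrib]
  simp [sg]

private theorem sg_update (e : Fin n → ℕ) (p : Fin n) (c : ℕ) :
    sg (Function.update e p c) + (e p - 1) = sg e + (c - 1) := by
  unfold sg
  have h1 : (fun i => Function.update e p c i - 1) = Function.update (fun i => e i - 1) p (c - 1) := by
    funext i
    by_cases hi : i = p
    · subst hi; simp
    · simp [Function.update_of_ne hi]
  rw [Finset.sum_congr rfl fun i _ => congrFun h1 i, Finset.sum_update_of_mem (Finset.mem_univ p),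
    ← Finset.sum_erase_add _ _ (Finset.mem_univ p)]
  rw [Finset.sdiff_singleton_eq_erase]
  ring

private theorem sg_inj (e : Fin n → ℕ) (he : ∀ i, 1 ≤ e i) {i j : ℕ} (h : 2 * i + j ≤ sg e) :
    InjP (ciI e) (ell n) i j := ci_injP e (sg e) (sg_add e he) h

/-- THE CLAIM. -/
private theorem claim {D c : ℕ} (hc1 : 1 ≤ c) (hcD : c ≤ D) : ∀ (S : Finset (Fin n))
    (e : Fin n → ℕ) (_ : ∀ p ∈ S, e p = D + 1) (_ : ∀ i, 1 ≤ e i) (t : ℕ) (_ : t < c * S.card)
    (_ : 2 * t + 2 * D ≤ sg e + (c - 1)) (f : MvPolynomial (Fin n) ℂ) (_ : f.IsHomogeneous t)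
    (_ : ∀ p ∈ S, MemL (Function.update e p c) f), MemL e f := by
  intro S
  induction S using Finset.induction_on with
  | empty =>
    intro e _ _ t ht
    simp at ht
  | insert p S hpS ih =>
    intro e heS he t htc ht f hf hmem
    have hep : e p = D + 1 := heS p (Finset.mem_insert_self _ _)
    have hcard : (insert p S).card = S.card + 1 := Finset.card_insert_of_notMem hpS
    -- write `f = L a + x_p^c y`
    obtain ⟨a, ha, ha2, ha0⟩ := (hmem p (Finset.mem_insert_self _ _)).hom hf
    have hfa : (f - ell n * a).IsHomogeneous t := by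
      by_cases h0 : t = 0
      · rw [ha0 h0, mul_zero, sub_zero]; exact hf
      · have h1 : (ell n * a).IsHomogeneous t := by
          have := (ell_isHomogeneous n).mul ha
          convert this using 1
          omega
        exact hf.sub h1
    obtain ⟨y, hy, hy2⟩ := k2_split e p c ha2 hfa
    by_cases htc' : t < c
    · -- then the part `x_p^c y` vanishes by degrees
      have h1 : f - ell n * a ∈ ciI e := by
        rw [mem_ciI_iff] at ha2 ⊢
        intro m hm
        obtain ⟨i, hi⟩ := ha2 m hm
        refine ⟨i, ?_⟩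
        by_cases hip : i = p
        · subst hip
          rw [Function.update_self] at hi
          have h3 := (isHomogeneous_iff.mp hfa) m (mem_support_iff.mp hm)
          have h4 : m i ≤ ∑ j, m j := Finset.single_le_sum (fun _ _ => Nat.zero_le _) (Finset.mem_univ i)
          omega
        · rwa [Function.update_of_ne hip] at hi
      exact ⟨a, h1⟩
    · push Not at htc'
      -- the new exponents
      set e1 : Fin n → ℕ := Function.update e p (D + 1 - c) with he1
      have he1pos : ∀ i, 1 ≤ e1 i := by
        intro i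
        by_cases hip : i = p
        · subst hip; rw [he1, Function.update_self]; omega
        · rw [he1, Function.update_of_ne hip]; exact he i
      have hsg1 : sg e1 + c = sg e := by
        have := sg_update e p (D + 1 - c)
        rw [hep] at this
        rw [he1]
        omega
      have hyL : MemL e1 y := by
        apply ih e1 ?_ he1pos (t - c) ?_ ?_ y hy ?_
        · intro q hq
          have hqp : q ≠ p := fun h => hpS (h ▸ hq)
          rw [he1, Function.update_of_ne hqp]
          exact heS q (Finset.mem_insert_of_mem hq)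
        · rw [hcard, Nat.mul_succ] at htc
          omega
        · omega
        · intro q hq
          have hqp : q ≠ p := fun h => hpS (h ▸ hq)
          have heq : e q = D + 1 := heS q (Finset.mem_insert_of_mem hq)
          -- `x_p^c y = L g` in `e' = update e q c`
          set e' : Fin n → ℕ := Function.update e q c with he'
          have he'p : e' p = D + 1 := by rw [he', Function.update_of_ne hqp.symm]; exact hep
          have he'pos : ∀ i, 1 ≤ e' i := by
            intro i
            by_cases hiq : i = q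
            · subst hiq; rw [he', Function.update_self]; exact hc1
            · rw [he', Function.update_of_ne hiq]; exact he i
          have he'le : ∀ i, e' i ≤ e i := by
            intro i
            by_cases hiq : i = q
            · subst hiq; rw [he', Function.update_self, heq]; omega
            · rw [he', Function.update_of_ne hiq]
          have h1 : MemL e' (X p ^ c * y) := by
            have h2 : MemL e' f := hmem q (Finset.mem_insert_of_mem hq)
            have h3 : MemL e' (ell n * a) := MemL.ell_mul a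
            have h4 : MemL e' (f - ell n * a - X p ^ c * y) :=
              MemL.of_mem (k2_mono he'le hy2)
            have h5 := (h2.sub h3).sub h4
            convert h5 using 1
            ring
          have hxy : (X p ^ c * y).IsHomogeneous t := by
            have h2 : (X p ^ c : MvPolynomial (Fin n) ℂ).IsHomogeneous c := by
              have := (isHomogeneous_X ℂ p).pow c
              simpa using this
            have := h2.mul hy
            convert this using 1
            omega
          obtain ⟨g, hg, hg2, -⟩ := h1.hom hxy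
          -- multiply by `x_p^(D+1-c)`
          have h6 : ell n * g ∈ ciI (Function.update e' p c) := by
            have h7 : X p ^ (D + 1 - c) * (ell n * g) ∈ ciI e' := by
              have h8 : X p ^ (D + 1) * y ∈ ciI e' := by
                rw [k2_shift, he'p]
                rw [mem_ciI_iff]
                intro m _
                exact ⟨p, by rw [Function.update_self]; omega⟩
              have h9 := (ciI e').mul_mem_left (X p ^ (D + 1 - c)) hg2
              have h10 := (ciI e').sub_mem h8 h9
              convert h10 using 1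
              have h11 : (X p : MvPolynomial (Fin n) ℂ) ^ (D + 1) = X p ^ (D + 1 - c) * X p ^ c := by
                rw [← pow_add]; congr 1; omega
              rw [h11]
              ring
            rw [k2_shift, he'p] at h7
            convert h7 using 3
            omega
          have hpos2 : ∀ i, 1 ≤ Function.update e' p c i := by
            intro i
            by_cases hip : i = p
            · subst hip; rw [Function.update_self]; exact hc1
            · rw [Function.update_of_ne hip]; exact he'pos i
          have h12 : g ∈ ciI (Function.update e' p c) := by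
            apply sg_inj _ hpos2 (i := t - 1) (j := 1) ?_ g hg (by rwa [pow_one])
            have h13 := sg_update e' p c
            have h14 := sg_update e q c
            rw [← he', heq] at h14
            rw [he'p] at h13
            omega
          obtain ⟨g', hg', hg'2⟩ := k2_split e' p c h12 hg
          -- `x_p^c (y - L g') ∈ ciI e'`
          have h15 : X p ^ c * (y - ell n * g') ∈ ciI e' := by
            have h16 := (ciI e').mul_mem_left (ell n) hg'2
            have h17 := (ciI e').add_mem hg2 h16
            convert h17 using 1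
            ring
          rw [k2_shift, he'p] at h15
          refine ⟨g', ?_⟩
          convert h15 using 2
          rw [he1, he', Function.update_comm hqp.symm]
      -- conclusion
      obtain ⟨z, hz⟩ := hyL
      have h18 : X p ^ c * (y - ell n * z) ∈ ciI e := by
        rw [k2_shift, hep]
        exact hz
      refine ⟨a + X p ^ c * z, ?_⟩
      have h19 := (ciI e).add_mem hy2 h18
      convert h19 using 1
      ring


/-! ### coefficients of the powers of one variable -/

private theorem zi_monomial_K2 (i : Fin n) (m : Fin n →₀ ℕ) (c : ℂ) :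
    zi i (monomial m c) = if m i = 0 then monomial m c else 0 := by
  classical
  unfold zi
  rw [aeval_monomial]
  split_ifs with h
  · rw [monomial_eq]
    congr 1
    refine Finsupp.prod_congr ?_
    intro j hj
    have hji : j ≠ i := by
      rintro rfl
      exact (Finsupp.mem_support_iff.mp hj) h
    rw [if_neg hji]
  · have hi : i ∈ m.support := Finsupp.mem_support_iff.mpr h
    have h1 : (m.prod fun j k => (if j = i then (0 : MvPolynomial (Fin n) ℂ) else X j) ^ k) = 0 := by
      unfold Finsupp.prod
      refine Finset.prod_eq_zero hi ?_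
      beta_reduce
      rw [if_pos rfl, zero_pow h]
    rw [h1, mul_zero]

private theorem coeff_zi_K2 (i : Fin n) (f : MvPolynomial (Fin n) ℂ) (m : Fin n →₀ ℕ) :
    coeff m (zi i f) = if m i = 0 then coeff m f else 0 := by
  classical
  induction f using MvPolynomial.induction_on' with
  | monomial u a =>
    rw [zi_monomial_K2]
    by_cases hum : u = m
    · subst hum
      split_ifs <;> simp
    · split_ifs <;> simp [coeff_monomial, hum]
  | add p q hp hq =>
    rw [map_add, coeff_add, hp, hq, coeff_add]
    split_ifs <;> simp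

/-- the coefficient of `x_i^s`, a polynomial without `x_i` -/
private noncomputable def xc (i : Fin n) (s : ℕ) :
    MvPolynomial (Fin n) ℂ →+ MvPolynomial (Fin n) ℂ where
  toFun f := zi i (f.divMonomial (Finsupp.single i s))
  map_zero' := by rw [zero_divMonomial, map_zero]
  map_add' f g := by rw [add_divMonomial, map_add]

private theorem coeff_xc (i : Fin n) (s : ℕ) (f : MvPolynomial (Fin n) ℂ) (m : Fin n →₀ ℕ) :
    coeff m (xc i s f) = if m i = 0 then coeff (Finsupp.single i s + m) f else 0 := by
  show coeff m (zi i (f.divMonomial (Finsupp.single i s))) = _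
  rw [coeff_zi_K2, coeff_divMonomial]

private theorem xc_X_ne {i j : Fin n} (hji : j ≠ i) (s : ℕ) (f : MvPolynomial (Fin n) ℂ) :
    xc i s (X j * f) = X j * xc i s f := by
  ext m
  rw [coeff_xc, coeff_X_mul', coeff_X_mul', coeff_xc]
  have h1 : (j ∈ (Finsupp.single i s + m).support) ↔ j ∈ m.support := by
    rw [Finsupp.mem_support_iff, Finsupp.mem_support_iff, Finsupp.add_apply,
      Finsupp.single_eq_of_ne hji, zero_add]
  have h2 : (m - Finsupp.single j 1 : Fin n →₀ ℕ) i = m i := by
    rw [Finsupp.tsub_apply, Finsupp.single_eq_of_ne hji.symm, tsub_zero]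
  rw [h2]
  by_cases hj : j ∈ m.support
  · rw [if_pos (h1.mpr hj), if_pos hj]
    have h3 : Finsupp.single i s + m - Finsupp.single j 1 =
        Finsupp.single i s + (m - Finsupp.single j 1) := by
      ext l
      rw [Finsupp.tsub_apply, Finsupp.add_apply, Finsupp.add_apply, Finsupp.tsub_apply]
      by_cases hl : l = j
      · subst hl
        rw [Finsupp.single_eq_same, Finsupp.single_eq_of_ne hji]
        have := Finsupp.mem_support_iff.mp hj
        omega
      · rw [Finsupp.single_eq_of_ne hl]
        omega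
    rw [h3]
  · rw [if_neg (fun h => hj (h1.mp h)), if_neg hj]
    split_ifs <;> rfl

private theorem xc_X_succ (i : Fin n) (s : ℕ) (f : MvPolynomial (Fin n) ℂ) :
    xc i (s + 1) (X i * f) = xc i s f := by
  ext m
  rw [coeff_xc, coeff_xc]
  have h1 : Finsupp.single i (s + 1) + m = Finsupp.single i 1 + (Finsupp.single i s + m) := by
    rw [← add_assoc, ← Finsupp.single_add, add_comm 1 s]
  rw [h1, coeff_X_mul]

private theorem xc_X_zero (i : Fin n) (f : MvPolynomial (Fin n) ℂ) :
    xc i 0 (X i * f) = 0 := by
  ext m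
  rw [coeff_xc, coeff_zero]
  split_ifs with h
  · rw [Finsupp.single_zero, zero_add, coeff_X_mul', if_neg]
    rw [Finsupp.mem_support_iff]
    exact fun h' => h' h
  · rfl

private theorem xc_X_pow (i : Fin n) (j : ℕ) : ∀ (s : ℕ) (f : MvPolynomial (Fin n) ℂ),
    xc i s (X i ^ j * f) = if j ≤ s then xc i (s - j) f else 0 := by
  induction j with
  | zero => intro s f; simp
  | succ j ih =>
    intro s f
    have h1 : X i ^ (j + 1) * f = X i * (X i ^ j * f) := by ring
    rw [h1]
    cases s with
    | zero => rw [xc_X_zero, if_neg (by omega)]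
    | succ s =>
      rw [xc_X_succ, ih]
      by_cases h : j ≤ s
      · rw [if_pos h, if_pos (by omega), Nat.succ_sub_succ]
      · rw [if_neg h, if_neg (by omega)]

private theorem ell_sub_X (i : Fin n) :
    ell n - X i = ∑ j ∈ Finset.univ.erase i, (X j : MvPolynomial (Fin n) ℂ) := by
  rw [ell, ← Finset.sum_erase_add _ _ (Finset.mem_univ i)]
  ring

private theorem xc_P (i : Fin n) (s : ℕ) (f : MvPolynomial (Fin n) ℂ) :
    xc i s ((ell n - X i) * f) = (ell n - X i) * xc i s f := by
  rw [ell_sub_X, Finset.sum_mul, Finset.sum_mul, map_sum]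
  exact Finset.sum_congr rfl fun j hj => xc_X_ne (Finset.ne_of_mem_erase hj) s f

private theorem xc_P_pow (i : Fin n) (s k : ℕ) (f : MvPolynomial (Fin n) ℂ) :
    xc i s ((ell n - X i) ^ k * f) = (ell n - X i) ^ k * xc i s f := by
  induction k with
  | zero => simp
  | succ k ih =>
    have h1 : (ell n - X i) ^ (k + 1) * f = (ell n - X i) * ((ell n - X i) ^ k * f) := by ring
    rw [h1, xc_P, ih]
    ring

private theorem xc_ell_succ (i : Fin n) (s : ℕ) (f : MvPolynomial (Fin n) ℂ) :
    xc i (s + 1) (ell n * f) = (ell n - X i) * xc i (s + 1) f + xc i s f := by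
  have h1 : ell n * f = (ell n - X i) * f + X i * f := by ring
  rw [h1, map_add, xc_P, xc_X_succ]

private theorem xc_hom (i : Fin n) {s t : ℕ} {f : MvPolynomial (Fin n) ℂ}
    (hf : f.IsHomogeneous t) : (xc i s f).IsHomogeneous (t - s) := by
  rw [isHomogeneous_iff] at hf ⊢
  intro m hm
  rw [coeff_xc] at hm
  split_ifs at hm with h
  · have h1 := hf _ hm
    have h2 : ∑ j, (Finsupp.single i s + m) j = s + ∑ j, m j := by
      simp only [Finsupp.add_apply, Finset.sum_add_distrib]
      congr 1
      rw [Finset.sum_eq_single i]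
      · exact Finsupp.single_eq_same
      · intro b _ hb; exact Finsupp.single_eq_of_ne hb
      · intro h; exact absurd (Finset.mem_univ _) h
    omega
  · exact absurd rfl hm

private theorem xc_eq_zero (i : Fin n) {s t : ℕ} (hst : t < s) {f : MvPolynomial (Fin n) ℂ}
    (hf : f.IsHomogeneous t) : xc i s f = 0 := by
  ext m
  rw [coeff_xc, coeff_zero]
  split_ifs with h
  · by_contra hne
    have h1 := (isHomogeneous_iff.mp hf) _ hne
    have h3 : (Finsupp.single i s + m) i ≤ ∑ j, (Finsupp.single i s + m) j :=
      Finset.single_le_sum (fun _ _ => Nat.zero_le _) (Finset.mem_univ i)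
    rw [Finsupp.add_apply, Finsupp.single_eq_same] at h3
    omega
  · rfl

private theorem xc_mem (e : Fin n → ℕ) (i : Fin n) {s : ℕ} (hs : s < e i) (N : ℕ)
    {f : MvPolynomial (Fin n) ℂ} (hf : f ∈ ciI e) : xc i s f ∈ ciI (Function.update e i N) := by
  rw [mem_ciI_iff] at hf ⊢
  intro m hm
  rw [mem_support_iff, coeff_xc] at hm
  split_ifs at hm with h
  · obtain ⟨j, hj⟩ := hf _ (mem_support_iff.mpr hm)
    by_cases hji : j = i
    · subst hji
      rw [Finsupp.add_apply, Finsupp.single_eq_same] at hj
      omega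
    · refine ⟨j, ?_⟩
      rw [Function.update_of_ne hji]
      rwa [Finsupp.add_apply, Finsupp.single_eq_of_ne hji, zero_add] at hj
  · exact absurd rfl hm

/-- the expansion of the coefficient of `x_i^D` -/
private theorem xc_expand (i : Fin n) {D : ℕ} (hD : 1 ≤ D) (r : ℕ) (g : MvPolynomial (Fin n) ℂ) :
    ∃ W : MvPolynomial (Fin n) ℂ, xc i D (ell n ^ (D + r) * g) =
      (((D + r).choose r : ℕ) : MvPolynomial (Fin n) ℂ) * ((ell n - X i) ^ r * xc i 0 g) +
      (((D + r).choose (r + 1) : ℕ) : MvPolynomial (Fin n) ℂ) *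
        ((ell n - X i) ^ (r + 1) * xc i 1 g) + (ell n - X i) ^ (r + 2) * W := by
  have h1 : ell n ^ (D + r) * g = ∑ j ∈ Finset.range (D + r + 1),
      (D + r).choose j • ((ell n - X i) ^ j * (X i ^ (D + r - j) * g)) := by
    have h2 : ell n = (ell n - X i) + X i := by ring
    conv_lhs => rw [h2, add_pow, Finset.sum_mul]
    apply Finset.sum_congr rfl
    intro j _
    rw [nsmul_eq_mul]
    ring
  have h3 : xc i D (ell n ^ (D + r) * g) = ∑ j ∈ Finset.range (D + r + 1),
      (D + r).choose j • ((ell n - X i) ^ j *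
        (if D + r - j ≤ D then xc i (D - (D + r - j)) g else 0)) := by
    rw [h1, map_sum]
    apply Finset.sum_congr rfl
    intro j _
    rw [map_nsmul, xc_P_pow, xc_X_pow]
  obtain ⟨D', rfl⟩ : ∃ D', D = D' + 1 := ⟨D - 1, by omega⟩
  have h4 : D' + 1 + r + 1 = r + (D' + 1 + 1) := by ring
  rw [h3, h4, Finset.sum_range_add, Finset.sum_range_succ', Finset.sum_range_succ']
  have h5 : ∑ j ∈ Finset.range r, (D' + 1 + r).choose j • ((ell n - X i) ^ j *
        (if D' + 1 + r - j ≤ D' + 1 then xc i (D' + 1 - (D' + 1 + r - j)) g else 0)) = 0 := by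
    apply Finset.sum_eq_zero
    intro j hj
    rw [Finset.mem_range] at hj
    rw [if_neg (by omega), mul_zero, smul_zero]
  rw [h5, zero_add]
  refine ⟨∑ k ∈ Finset.range D', (D' + 1 + r).choose (r + (k + 1 + 1)) • ((ell n - X i) ^ k *
        (if D' + 1 + r - (r + (k + 1 + 1)) ≤ D' + 1 then
          xc i (D' + 1 - (D' + 1 + r - (r + (k + 1 + 1)))) g else 0)), ?_⟩
  rw [Finset.mul_sum]
  have h6 : ∀ k, (D' + 1 + r).choose (r + (k + 1 + 1)) • ((ell n - X i) ^ (r + (k + 1 + 1)) *
        (if D' + 1 + r - (r + (k + 1 + 1)) ≤ D' + 1 then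
          xc i (D' + 1 - (D' + 1 + r - (r + (k + 1 + 1)))) g else 0)) =
      (ell n - X i) ^ (r + 2) * ((D' + 1 + r).choose (r + (k + 1 + 1)) • ((ell n - X i) ^ k *
        (if D' + 1 + r - (r + (k + 1 + 1)) ≤ D' + 1 then
          xc i (D' + 1 - (D' + 1 + r - (r + (k + 1 + 1)))) g else 0))) := by
    intro k
    rw [nsmul_eq_mul, nsmul_eq_mul]
    ring
  rw [Finset.sum_congr rfl fun k _ => h6 k]
  have h7 : D' + 1 + r - (r + 0) = D' + 1 := by omega
  have h8 : D' + 1 + r - (r + (0 + 1)) = D' := by omega
  rw [h7, h8, if_pos le_rfl, if_pos (Nat.le_succ D'), Nat.sub_self, Nat.add_sub_cancel_left,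
    add_zero, zero_add, nsmul_eq_mul, nsmul_eq_mul]
  ring


/-- `f` is the sum of its coefficients modulo `x_i^c` -/
private theorem recon (e : Fin n → ℕ) (i : Fin n) (c : ℕ) (f : MvPolynomial (Fin n) ℂ) :
    f - ∑ s ∈ Finset.range c, X i ^ s * xc i s f ∈ ciI (Function.update e i c) := by
  rw [mem_ciI_iff]
  intro m hm
  refine ⟨i, ?_⟩
  rw [Function.update_self]
  by_contra hlt
  push Not at hlt
  rw [mem_support_iff] at hm
  apply hm
  rw [coeff_sub, coeff_sum]
  have h1 : ∀ s ∈ Finset.range c, coeff m (X i ^ s * xc i s f) =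
      if s = m i then coeff m f else 0 := by
    intro s _
    rw [X_pow_eq_monomial, coeff_monomial_mul', one_mul]
    by_cases hs : s ≤ m i
    · have hle : Finsupp.single i s ≤ m := by
        intro j
        by_cases hj : j = i
        · subst hj; rw [Finsupp.single_eq_same]; exact hs
        · rw [Finsupp.single_eq_of_ne hj]; exact Nat.zero_le _
      rw [if_pos hle, coeff_xc, Finsupp.tsub_apply, Finsupp.single_eq_same,
        add_tsub_cancel_of_le hle]
      by_cases hsm : s = m i
      · rw [if_pos (by omega), if_pos hsm]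
      · rw [if_neg (by omega), if_neg hsm]
    · rw [if_neg, if_neg (by omega)]
      intro hle
      have := hle i
      rw [Finsupp.single_eq_same] at this
      exact hs this
  rw [Finset.sum_congr rfl h1, Finset.sum_ite_eq', if_pos (Finset.mem_range.mpr hlt), sub_self]

private theorem xc_zero_xc (i : Fin n) (s : ℕ) (f : MvPolynomial (Fin n) ℂ) :
    xc i 0 (xc i s f) = xc i s f := by
  ext m
  rw [coeff_xc, Finsupp.single_zero, zero_add]
  split_ifs with h
  · rfl
  · rw [coeff_xc, if_neg h]

private theorem comp_ell_pow (q : ℕ) : ∀ (t : ℕ) (g : MvPolynomial (Fin n) ℂ),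
    homogeneousComponent (t + q) (ell n ^ q * g) = ell n ^ q * homogeneousComponent t g := by
  induction q with
  | zero => intro t g; simp
  | succ q ih =>
    intro t g
    have h1 : ell n ^ (q + 1) * g = ell n * (ell n ^ q * g) := by ring
    rw [h1, ← add_assoc, comp_ell_mul, ih]
    ring

private theorem comp_ell_pow_lt (q : ℕ) : ∀ (t : ℕ) (_ : t < q) (g : MvPolynomial (Fin n) ℂ),
    homogeneousComponent t (ell n ^ q * g) = 0 := by
  induction q with
  | zero => intro t ht g; omega
  | succ q ih =>
    intro t ht g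
    have h1 : ell n ^ (q + 1) * g = ell n * (ell n ^ q * g) := by ring
    rw [h1]
    cases t with
    | zero => exact comp_zero_ell_mul _
    | succ t => rw [comp_ell_mul, ih t (by omega), mul_zero]

/-- division of a relation by a power of `ell` -/
private theorem divide {e : Fin n → ℕ} (he : ∀ i, 1 ≤ e i) {r a q : ℕ} (hra : 2 * r + a ≤ sg e)
    {h W : MvPolynomial (Fin n) ℂ} (hh : h.IsHomogeneous r)
    (hm : ell n ^ a * h - ell n ^ (a + q) * W ∈ ciI e) :
    ∃ W' : MvPolynomial (Fin n) ℂ, h - ell n ^ q * W' ∈ ciI e := by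
  have h1 := k2_comp e hm (r + a)
  have h2 : homogeneousComponent (r + a) (ell n ^ a * h) = ell n ^ a * h := by
    rw [comp_ell_pow, homogeneousComponent_of_mem hh, if_pos rfl]
  rw [map_sub, h2] at h1
  by_cases hqr : q ≤ r
  · have h3 : r + a = (r - q) + (a + q) := by omega
    have h4 : homogeneousComponent (r + a) (ell n ^ (a + q) * W) =
        ell n ^ (a + q) * homogeneousComponent (r - q) W := by
      rw [h3, comp_ell_pow]
    rw [h4] at h1
    refine ⟨homogeneousComponent (r - q) W, ?_⟩
    apply sg_inj e he hra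
    · apply hh.sub
      have h5 := ((ell_isHomogeneous n).pow q).mul (homogeneousComponent_isHomogeneous (r - q) W)
      have h6 : 1 * q + (r - q) = r := by omega
      rwa [h6] at h5
    · convert h1 using 1
      ring
  · rw [comp_ell_pow_lt _ _ (by omega), sub_zero] at h1
    refine ⟨0, ?_⟩
    rw [mul_zero, sub_zero]
    exact sg_inj e he hra h hh h1

private theorem X_mem (e : Fin n → ℕ) (i : Fin n) :
    (X i : MvPolynomial (Fin n) ℂ) ∈ ciI (Function.update e i 1) :=
  Ideal.subset_span ⟨i, by simp⟩

/-- modulo `x_i`, the polynomials `ell - x_i` and `ell` have the same powers -/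
private theorem P_pow_sub (e : Fin n → ℕ) (i : Fin n) (k : ℕ) (y : MvPolynomial (Fin n) ℂ) :
    (ell n - X i) ^ k * y - ell n ^ k * y ∈ ciI (Function.update e i 1) := by
  obtain ⟨z, hz⟩ := sub_dvd_pow_sub_pow (ell n - X i) (ell n) k
  rw [← sub_mul, hz]
  have h1 : (ell n - X i - ell n) * z * y = X i * (-(z * y)) := by ring
  rw [h1]
  exact Ideal.mul_mem_right _ _ (X_mem e i)

private theorem inv_mul_nat (N : ℕ) (hN : N ≠ 0) :
    C ((N : ℂ)⁻¹) * ((N : ℕ) : MvPolynomial (Fin n) ℂ) = 1 := by
  rw [← map_natCast (C : ℂ →+* MvPolynomial (Fin n) ℂ) N, ← C_mul,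
    inv_mul_cancel₀ (Nat.cast_ne_zero.mpr hN), C_1]

/-- the chain of the coefficients of a polynomial killed by `ell` -/
private theorem chain (e : Fin n → ℕ) (i : Fin n) {f : MvPolynomial (Fin n) ℂ}
    (hf : ell n * f ∈ ciI e) (k : ℕ) : ∀ (s : ℕ) (_ : s + k < e i),
    xc i s f - (-ell n) ^ k * xc i (s + k) f ∈ ciI (Function.update e i 1) := by
  induction k with
  | zero => intro s _; simp
  | succ k ih =>
    intro s hs
    have h1 := ih s (by omega)
    have h2 := xc_mem e i (s := s + k + 1) (by omega) 1 hf
    rw [xc_ell_succ] at h2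
    have h3 := P_pow_sub e i 1 (xc i (s + k + 1) f)
    have h4 := (ciI (Function.update e i 1)).mul_mem_left ((-ell n) ^ k)
      ((ciI (Function.update e i 1)).sub_mem h2 h3)
    have h5 := (ciI (Function.update e i 1)).add_mem h1 h4
    convert h5 using 1
    ring_nf

/-- the first condition, even case -/
private theorem step_even {D t : ℕ} (hD : 1 ≤ D) (i : Fin n) (ht : 2 * t + 2 * D = n * D)
    {f g : MvPolynomial (Fin n) ℂ} (hg : g.IsHomogeneous t)
    (hfg : f - ell n ^ (D + D) * g ∈ ciI (fun _ : Fin n => D + 1))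
    (hLf : ell n * f ∈ ciI (Function.update (fun _ : Fin n => D + 1) i (2 * D + 2))) :
    MemL (Function.update (fun _ : Fin n => D + 1) i 1) g := by
  set e : Fin n → ℕ := fun _ => D + 1 with he
  set A := ciI (Function.update e i 1) with hA
  have hsg : sg (Function.update e i 1) + D = n * D := by
    have h1 := sg_update e i 1
    have h2 : sg e = n * D := by simp [sg, he]
    have h3 : e i = D + 1 := rfl
    rw [h3, h2] at h1
    omega
  have hpos : ∀ j, 1 ≤ Function.update e i 1 j := by
    intro j
    by_cases hj : j = i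
    · subst hj; rw [Function.update_self]
    · rw [Function.update_of_ne hj]; exact Nat.succ_pos D
  -- first relation
  have h1 := chain _ i hLf (D + 1) D (by rw [Function.update_self]; omega)
  rw [Function.update_idem] at h1
  have h2 := xc_mem e i (s := D) (Nat.lt_succ_self D) 1 hfg
  rw [map_sub] at h2
  obtain ⟨W, hW⟩ := xc_expand i hD D g
  rw [hW] at h2
  set g0 := xc i 0 g with hg0
  set g1 := xc i 1 g with hg1
  set y := xc i (D + (D + 1)) f with hy
  set α : ℕ := (D + D).choose D with hα
  set γ : ℕ := (D + D).choose (D + 1) with hγ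
  have h3 := P_pow_sub e i D ((α : MvPolynomial (Fin n) ℂ) * g0)
  have h4 := P_pow_sub e i (D + 1) ((γ : MvPolynomial (Fin n) ℂ) * g1)
  have h5 := P_pow_sub e i (D + 2) W
  have h6 : ell n ^ D * ((α : MvPolynomial (Fin n) ℂ) * g0) - ell n ^ (D + 1) *
      ((-1) ^ (D + 1) * y - (γ : MvPolynomial (Fin n) ℂ) * g1 - ell n * W) ∈ A := by
    have h7 := A.sub_mem h1 h2
    have h8 := A.sub_mem (A.sub_mem (A.sub_mem h7 h3) h4) h5
    convert h8 using 1
    rw [neg_pow (ell n)]
    ring
  have hh : ((α : MvPolynomial (Fin n) ℂ) * g0).IsHomogeneous t := by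
    have h7 := (isHomogeneous_C (Fin n) (α : ℂ)).mul (xc_hom i (s := 0) hg)
    rw [map_natCast] at h7
    convert h7 using 1
    omega
  obtain ⟨W', hW'⟩ := divide hpos (r := t) (a := D) (q := 1) (by omega) hh h6
  have hα0 : α ≠ 0 := (Nat.choose_pos (Nat.le_add_left D D)).ne'
  have h9 : g0 - ell n * (C ((α : ℂ)⁻¹) * W') ∈ A := by
    have h10 := A.mul_mem_left (C ((α : ℂ)⁻¹)) hW'
    convert h10 using 1
    have h13 := inv_mul_nat (n := n) α hα0
    linear_combination (-g0) * h13
  have h11 := recon e i 1 g
  rw [Finset.sum_range_one, pow_zero, one_mul] at h11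
  refine ⟨C ((α : ℂ)⁻¹) * W', ?_⟩
  have h12 := A.add_mem h11 h9
  convert h12 using 1
  ring

/-- the first condition, odd case -/
private theorem step_odd {D t : ℕ} (hD : 1 ≤ D) (i : Fin n) (ht : 2 * t + 2 * D = n * D + 1)
    {f g : MvPolynomial (Fin n) ℂ} (hg : g.IsHomogeneous t)
    (hfg : f - ell n ^ (D + (D - 1)) * g ∈ ciI (fun _ : Fin n => D + 1))
    (hLf : ell n * f ∈ ciI (Function.update (fun _ : Fin n => D + 1) i (2 * D + 2))) :
    MemL (Function.update (fun _ : Fin n => D + 1) i 2) g := by
  obtain ⟨E, rfl⟩ : ∃ E, D = E + 1 := ⟨D - 1, by omega⟩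
  rw [Nat.add_sub_cancel] at hfg
  set e : Fin n → ℕ := fun _ => E + 1 + 1 with he
  set A := ciI (Function.update e i 1) with hA
  have hsg : sg (Function.update e i 1) + (E + 1) = n * (E + 1) := by
    have h1 := sg_update e i 1
    have h2 : sg e = n * (E + 1) := by simp [sg, he]
    have h3 : e i = E + 1 + 1 := rfl
    rw [h3, h2] at h1
    omega
  have hpos : ∀ j, 1 ≤ Function.update e i 1 j := by
    intro j
    by_cases hj : j = i
    · subst hj; rw [Function.update_self]
    · rw [Function.update_of_ne hj]; exact Nat.succ_pos _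
  -- first relation
  have h1 := chain _ i hLf (E + 2) (E + 1) (by rw [Function.update_self]; omega)
  rw [Function.update_idem] at h1
  have h2 := xc_mem e i (s := E + 1) (Nat.lt_succ_self _) 1 hfg
  rw [map_sub] at h2
  obtain ⟨W, hW⟩ := xc_expand i hD E g
  rw [hW] at h2
  set g0 := xc i 0 g with hg0
  set g1 := xc i 1 g with hg1
  set y := xc i (E + 1 + (E + 2)) f with hy
  set β : ℕ := (E + 1 + E).choose E with hβ
  have hββ : (E + 1 + E).choose (E + 1) = β :=
    Nat.choose_symm_of_eq_add (by ring)
  rw [hββ] at h2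
  have hg1t : t = 0 → g1 = 0 := fun h0 => xc_eq_zero i (by omega) hg
  have hg0h : g0.IsHomogeneous t := by simpa using xc_hom i (s := 0) hg
  have hg1h : g1.IsHomogeneous (t - 1) := xc_hom i hg
  have hlg1 : (ell n * g1).IsHomogeneous t := by
    by_cases h0 : t = 0
    · rw [hg1t h0, mul_zero]; exact isHomogeneous_zero _ _ _
    · have := (ell_isHomogeneous n).mul hg1h
      convert this using 1
      omega
  have h3 := P_pow_sub e i E ((β : MvPolynomial (Fin n) ℂ) * g0)
  have h4 := P_pow_sub e i (E + 1) ((β : MvPolynomial (Fin n) ℂ) * g1)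
  have h5 := P_pow_sub e i (E + 2) W
  have h6 : ell n ^ E * ((β : MvPolynomial (Fin n) ℂ) * (g0 + ell n * g1)) - ell n ^ (E + 2) *
      ((-1) ^ (E + 2) * y - W) ∈ A := by
    have h7 := A.sub_mem h1 h2
    have h8 := A.sub_mem (A.sub_mem (A.sub_mem h7 h3) h4) h5
    convert h8 using 1
    rw [neg_pow (ell n)]
    ring
  have hh : ((β : MvPolynomial (Fin n) ℂ) * (g0 + ell n * g1)).IsHomogeneous t := by
    have h7 := (isHomogeneous_C (Fin n) (β : ℂ)).mul (hg0h.add hlg1)
    rw [map_natCast] at h7
    convert h7 using 1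
    omega
  obtain ⟨W', hW'⟩ := divide hpos (r := t) (a := E) (q := 2) (by omega) hh h6
  have hβ0 : β ≠ 0 := (Nat.choose_pos (Nat.le_add_left E (E + 1))).ne'
  set V := C ((β : ℂ)⁻¹) * W' with hV
  have h9 : g0 + ell n * g1 - ell n ^ 2 * V ∈ A := by
    have h10 := A.mul_mem_left (C ((β : ℂ)⁻¹)) hW'
    convert h10 using 1
    have h13 := inv_mul_nat (n := n) β hβ0
    rw [hV]
    linear_combination (-(g0 + ell n * g1)) * h13
  -- second relation
  have hJ : ell n ^ (E + 1 + (E + 1)) * g ∈ ciI e := by
    have h10 : ell n * f ∈ ciI e := by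
      refine k2_mono ?_ hLf
      intro j
      by_cases hj : j = i
      · subst hj; rw [Function.update_self, he]; show E + 1 + 1 ≤ _; omega
      · rw [Function.update_of_ne hj]
    have h11 := (ciI e).mul_mem_left (ell n) hfg
    have h12 := (ciI e).sub_mem h10 h11
    convert h12 using 1
    ring
  have h13 := xc_mem e i (s := E + 1) (Nat.lt_succ_self _) 1 hJ
  obtain ⟨W2, hW2⟩ := xc_expand i hD (E + 1) g
  rw [hW2, ← hg0, ← hg1] at h13
  set α : ℕ := (E + 1 + (E + 1)).choose (E + 1) with hα
  set γ : ℕ := (E + 1 + (E + 1)).choose (E + 1 + 1) with hγ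
  have hαγ : (α : ℂ) - γ ≠ 0 := by
    have h14 : γ * (E + 1 + 1) = α * (E + 1) := by
      have := Nat.choose_succ_right_eq (E + 1 + (E + 1)) (E + 1)
      rw [Nat.add_sub_cancel] at this
      exact this
    have h15 : 0 < α := Nat.choose_pos (Nat.le_add_left _ _)
    have h16 : γ < α := by
      by_contra hcon
      push Not at hcon
      have h17 : α * (E + 1 + 1) ≤ γ * (E + 1 + 1) := Nat.mul_le_mul_right _ hcon
      rw [h14] at h17
      have h18 : α * (E + 1 + 1) = α * (E + 1) + α := by ring
      omega
    rw [sub_ne_zero]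
    exact_mod_cast h16.ne'
  obtain ⟨V1, hV1⟩ : ∃ V1 : MvPolynomial (Fin n) ℂ, g1 - ell n * V1 ∈ A := by
    by_cases h0 : t = 0
    · exact ⟨0, by rw [hg1t h0, mul_zero, sub_zero]; exact A.zero_mem⟩
    · have k3 := P_pow_sub e i (E + 1) ((α : MvPolynomial (Fin n) ℂ) * g0)
      have k4 := P_pow_sub e i (E + 1 + 1) ((γ : MvPolynomial (Fin n) ℂ) * g1)
      have k5 := P_pow_sub e i (E + 1 + 2) W2
      have k6 : ell n ^ (E + 2) * (C ((α : ℂ) - γ) * g1) - ell n ^ (E + 2 + 1) *
          ((α : MvPolynomial (Fin n) ℂ) * V + W2) ∈ A := by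
        have k7 := A.sub_mem (A.sub_mem (A.sub_mem h13 k3) k4) k5
        have k8 := A.mul_mem_left (ell n ^ (E + 1) * (α : MvPolynomial (Fin n) ℂ)) h9
        have k9 := A.sub_mem k8 k7
        convert k9 using 1
        rw [C_sub, map_natCast, map_natCast]
        ring
      have kh : (C ((α : ℂ) - γ) * g1).IsHomogeneous (t - 1) := by
        have h7 := (isHomogeneous_C (Fin n) ((α : ℂ) - γ)).mul hg1h
        convert h7 using 1
        omega
      obtain ⟨V', hV'⟩ := divide hpos (r := t - 1) (a := E + 2) (q := 1) (by omega) kh k6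
      refine ⟨C ((α : ℂ) - γ)⁻¹ * V', ?_⟩
      have k10 := A.mul_mem_left (C ((α : ℂ) - γ)⁻¹) hV'
      convert k10 using 1
      rw [mul_sub, ← mul_assoc (C _) (C _) g1, ← C_mul, inv_mul_cancel₀ hαγ, C_1]
      ring
  -- conclusion
  have hg0V : g0 - (ell n - X i) ^ 2 * (V - V1) ∈ A := by
    have k1 := A.mul_mem_left (ell n) hV1
    have k2 := A.sub_mem h9 k1
    have k3 := P_pow_sub e i 2 (V - V1)
    have k4 := A.sub_mem k2 k3
    convert k4 using 1
    ring
  have hA2 := xc_mem (Function.update e i 1) i (s := 0) (by rw [Function.update_self]; omega) 2 hg0V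
  rw [Function.update_idem, map_sub, xc_P_pow, hg0, xc_zero_xc, ← hg0] at hA2
  set V2 := xc i 0 (V - V1) with hV2
  have hX1 : X i ^ 1 * (g1 - ell n * V1) ∈ ciI (Function.update e i 2) := by
    rw [k2_shift, Function.update_idem, Function.update_self]
    exact hV1
  have hX2 : X i ^ 2 * V2 ∈ ciI (Function.update e i 2) := by
    rw [k2_shift, Function.update_idem, Function.update_self, mem_ciI_iff]
    intro m _
    exact ⟨i, by rw [Function.update_self]; omega⟩
  have h20 := recon e i 2 g
  rw [Finset.sum_range_succ, Finset.sum_range_one, pow_zero, one_mul, ← hg0, ← hg1] at h20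
  refine ⟨(ell n - 2 * X i) * V2 + X i * V1, ?_⟩
  have h21 := (ciI (Function.update e i 2)).add_mem
    ((ciI (Function.update e i 2)).add_mem
      ((ciI (Function.update e i 2)).add_mem h20 hA2) hX1) hX2
  convert h21 using 1
  ring


private theorem mem_K_of_powI {D : ℕ} (i : Fin n) {f : MvPolynomial (Fin n) ℂ}
    (hf : f ∈ powI n (D + 1) 2) :
    f ∈ ciI (Function.update (fun _ : Fin n => D + 1) i (2 * D + 2)) := by
  rw [mem_powI_iff (Nat.succ_pos D)] at hf
  rw [mem_ciI_iff]
  intro m hm
  have h1 := hf m hm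
  by_contra hcon
  push Not at hcon
  have h2 : ∀ j, j ≠ i → m j / (D + 1) = 0 := by
    intro j hj
    have h3 := hcon j
    rw [Function.update_of_ne hj] at h3
    exact Nat.div_eq_of_lt h3
  have h4 : ∑ j, m j / (D + 1) = m i / (D + 1) :=
    Finset.sum_eq_single i (fun j _ hj => h2 j hj) (fun h => absurd (Finset.mem_univ _) h)
  rw [h4] at h1
  have h5 := hcon i
  rw [Function.update_self] at h5
  have h6 : m i / (D + 1) < 2 := by
    rw [Nat.div_lt_iff_lt_mul (Nat.succ_pos D)]
    omega
  omega

private theorem powI_of_mem_K {D : ℕ} (hn : 1 ≤ n) {f : MvPolynomial (Fin n) ℂ}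
    (hf : ∀ i, f ∈ ciI (Function.update (fun _ : Fin n => D + 1) i (2 * D + 2))) :
    f ∈ powI n (D + 1) 2 := by
  rw [mem_powI_iff (Nat.succ_pos D)]
  intro m hm
  show 2 ≤ ∑ i, m i / (D + 1)
  have h1 : ∃ i, D + 1 ≤ m i := by
    have h2 := hf ⟨0, by omega⟩
    rw [mem_ciI_iff] at h2
    obtain ⟨j, hj⟩ := h2 m hm
    refine ⟨j, ?_⟩
    by_cases hj0 : j = ⟨0, by omega⟩
    · rw [hj0, Function.update_self] at hj
      rw [hj0]; omega
    · rwa [Function.update_of_ne hj0] at hj
  obtain ⟨i, hi⟩ := h1
  have h2 := hf i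
  rw [mem_ciI_iff] at h2
  obtain ⟨j, hj⟩ := h2 m hm
  by_cases hji : j = i
  · rw [hji, Function.update_self] at hj
    have h3 : 2 ≤ m i / (D + 1) := by
      rw [Nat.le_div_iff_mul_le (Nat.succ_pos D)]
      omega
    exact h3.trans (Finset.single_le_sum (f := fun j => m j / (D + 1))
      (fun _ _ => Nat.zero_le _) (Finset.mem_univ i))
  · rw [Function.update_of_ne hji] at hj
    have h3 : 1 ≤ m i / (D + 1) := by
      rw [Nat.le_div_iff_mul_le (Nat.succ_pos D)]; omega
    have h4 : 1 ≤ m j / (D + 1) := by
      rw [Nat.le_div_iff_mul_le (Nat.succ_pos D)]; omega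
    have h5 : ∑ l ∈ {i, j}, m l / (D + 1) ≤ ∑ l, m l / (D + 1) :=
      Finset.sum_le_sum_of_subset (Finset.subset_univ _)
    rw [Finset.sum_pair (Ne.symm hji)] at h5
    omega

/-- **All positive cases with `k = 2`.** -/
theorem inj_two {D b : ℕ} (hn : 2 ≤ n) (hD : 1 ≤ D) (hb : b = n * D % 2)
    (h : n * D + b < 2 * D + 2 * ((b + 1) * n)) : Inj n D 2 := by
  set e : Fin n → ℕ := fun _ => D + 1 with he
  have hepos : ∀ i, 1 ≤ e i := fun i => Nat.succ_pos D
  have hsg : sg e = n * D := by simp [sg, he]
  have hb1 : b ≤ 1 := by omega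
  have hN2 : 2 * D ≤ n * D := Nat.mul_le_mul_right D hn
  have hND : e0 n D 2 - 1 = n * D / 2 + D := by
    show n * D / 2 + (D + 1) * (2 - 1) - 1 = _
    omega
  obtain ⟨t, ht⟩ : ∃ t, 2 * t + 2 * D = n * D + b := ⟨(n * D + b) / 2 - D, by omega⟩
  have hNt : n * D / 2 + D = t + (2 * D - b) := by omega
  intro f hf hLf
  rw [hND] at hf
  rw [pow_one] at hLf
  have hK : ∀ i, ell n * f ∈ ciI (Function.update e i (2 * D + 2)) := fun i => mem_K_of_powI i hLf
  have hKle : ∀ i j, e j ≤ Function.update e i (2 * D + 2) j := by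
    intro i j
    by_cases hj : j = i
    · subst hj; rw [Function.update_self]; show D + 1 ≤ _; omega
    · rw [Function.update_of_ne hj]
  have hLJ : ell n * f ∈ ciI e := k2_mono (hKle ⟨0, by omega⟩) (hK ⟨0, by omega⟩)
  -- step 1: `f ∈ J`
  have hfJ : f ∈ ciI e := by
    obtain ⟨g, hg, hfg⟩ := ci_surjP e (n * D) (by rw [← hsg]; exact sg_add e hepos)
      (i := t) (j := 2 * D - b) (by omega) f (by rw [← hNt]; exact hf)
    have hmem : ∀ i, MemL (Function.update e i (b + 1)) g := by
      intro i
      rcases Nat.lt_or_ge b 1 with hb0 | hb0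
      · have hb0' : b = 0 := by omega
        subst hb0'
        rw [Nat.sub_zero, two_mul D] at hfg
        exact step_even hD i (by omega) hg hfg (hK i)
      · have hb0' : b = 1 := by omega
        rw [hb0']
        have h1 : 2 * D - b = D + (D - 1) := by omega
        rw [h1] at hfg
        exact step_odd hD i (by omega) hg hfg (hK i)
    have hgL : MemL e g := by
      by_cases hbD : b + 1 ≤ D
      · apply claim (by omega) hbD Finset.univ e (fun _ _ => rfl) hepos t ?_ ?_ g hg
          (fun i _ => hmem i)
        · rw [Finset.card_univ, Fintype.card_fin]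
          omega
        · rw [hsg]; omega
      · have hbD' : b + 1 = D + 1 := by omega
        have h1 := hmem ⟨0, by omega⟩
        rw [hbD'] at h1
        have h2 : Function.update e ⟨0, by omega⟩ (D + 1) = e := Function.update_eq_self _ _
        rwa [h2] at h1
    obtain ⟨y, hy, hy2, hy0⟩ := hgL.hom hg
    have h3 : ell n ^ (2 * D - b) * (ell n * y) - f ∈ ciI e := by
      have h4 := (ciI e).mul_mem_left (ell n ^ (2 * D - b)) hy2
      have h5 := (ciI e).add_mem hfg h4
      have h6 := (ciI e).neg_mem h5
      convert h6 using 1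
      ring
    have h7 : ell n ^ (2 * D - b + 2) * y ∈ ciI e := by
      have h8 := (ciI e).mul_mem_left (ell n) h3
      have h9 := (ciI e).add_mem h8 hLJ
      convert h9 using 1
      ring
    have h10 : y ∈ ciI e := by
      by_cases ht0 : t = 0
      · rw [hy0 ht0]; exact (ciI e).zero_mem
      · exact sg_inj e hepos (i := t - 1) (j := 2 * D - b + 2) (by omega) y hy h7
    have h11 := (ciI e).mul_mem_left (ell n ^ (2 * D - b) * ell n) h10
    have h12 := (ciI e).sub_mem h11 h3
    convert h12 using 1
    ring
  -- step 2: `f ∈ J ^ 2`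
  apply powI_of_mem_K (by omega)
  intro i
  have hK1 : Function.update e i (2 * D + 2) i = 2 * D + 2 := Function.update_self _ _ _
  have h1 : f ∈ ciI (Function.update (Function.update e i (2 * D + 2)) i (D + 1)) := by
    rw [Function.update_idem]
    have h2 : Function.update e i (D + 1) = e := Function.update_eq_self _ _
    rw [h2]
    exact hfJ
  obtain ⟨r, hr, hfr⟩ := k2_split _ i (D + 1) h1 hf
  have h2 : X i ^ (D + 1) * (ell n * r) ∈ ciI (Function.update e i (2 * D + 2)) := by
    have h3 := (ciI (Function.update e i (2 * D + 2))).mul_mem_left (ell n) hfr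
    have h4 := (ciI (Function.update e i (2 * D + 2))).sub_mem (hK i) h3
    convert h4 using 1
    ring
  have h5 : Function.update (Function.update e i (2 * D + 2)) i (2 * D + 2 - (D + 1)) = e := by
    rw [Function.update_idem]
    have h6 : 2 * D + 2 - (D + 1) = e i := by show _ = D + 1; omega
    rw [h6, Function.update_eq_self]
  rw [k2_shift, hK1, h5] at h2
  have h7 : r ∈ ciI e :=
    sg_inj e hepos (i := n * D / 2 + D - (D + 1)) (j := 1) (by omega) r hr (by rwa [pow_one])
  have h8 : X i ^ (D + 1) * r ∈ ciI (Function.update e i (2 * D + 2)) := by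
    rw [k2_shift, hK1, h5]
    exact h7
  have h9 := (ciI (Function.update e i (2 * D + 2))).add_mem hfr h8
  convert h9 using 1
  ring

/-- `T_{4,4,2}`, `T_{5,6,2}`, `T_{7,6,2}` -/
theorem inj_4_3_2' : Inj 4 3 2 := inj_two (b := 0) (by norm_num) (by norm_num) rfl (by norm_num)

theorem inj_5_5_2 : Inj 5 5 2 := inj_two (b := 1) (by norm_num) (by norm_num) rfl (by norm_num)

theorem inj_7_5_2 : Inj 7 5 2 := inj_two (b := 1) (by norm_num) (by norm_num) rfl (by norm_num)

/-- `d = 3`, all `n` -/
theorem inj_2_2' (hn : 2 ≤ n) : Inj n 2 2 :=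
  inj_two (b := 0) hn (by norm_num) (by omega) (by omega)

/-- `d = 4`, `n` odd -/
theorem inj_3_2' (hn : 2 ≤ n) (hodd : n % 2 = 1) : Inj n 3 2 :=
  inj_two (b := 1) hn (by norm_num) (by omega) (by omega)

end Pool.Agent.Lib_MP_8b82cd_w
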