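import Mathlib
import Pool.Agent.Lib_MP_8b82cd_w.K2

/-! The positive cases with `k = 2` (with `inj_5_5_2`, `inj_7_5_2` of `K2`). -/

namespace Pool.Agent.Lib_MP_8b82cd_w

open MvPolynomial Pool.Agent.Lib_MP_8b82cd_ag

variable {n : ℕ}

theorem inj_2_2 (hn : 2 ≤ n) : Inj n 2 2 := inj_2_2' hn

theorem inj_3_2 (hn : 2 ≤ n) (hodd : n % 2 = 1) : Inj n 3 2 := inj_3_2' hn hodd

theorem inj_4_3_2 : Inj 4 3 2 := inj_4_3_2'

end Pool.Agent.Lib_MP_8b82cd_w
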