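import Mathlib
import Pool.Agent.Lib_MP_8b82cd_w.Defs

/-! `d = 2`: the norm argument for `n = 4` and `n = 5`. -/

namespace Pool.Agent.Lib_MP_8b82cd_w

open MvPolynomial Pool.Agent.Lib_MP_8b82cd_ag

variable {n : ℕ}

/-- linear form with coefficients `c` -/
private noncomputable def lfm (c : Fin n → ℂ) : MvPolynomial (Fin n) ℂ := ∑ i, C (c i) * X i

private theorem lfm_hom (c : Fin n → ℂ) : (lfm c).IsHomogeneous 1 := by
  unfold lfm
  refine IsHomogeneous.sum _ _ _ fun i _ => ?_
  have h := (isHomogeneous_C (Fin n) (c i)).mul (isHomogeneous_X ℂ i)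
  rwa [zero_add] at h

private theorem lfm_coeff (c : Fin n → ℂ) (j : Fin n) :
    coeff (Finsupp.single j 1) (lfm c) = c j := by
  classical
  unfold lfm
  rw [coeff_sum, Finset.sum_eq_single j]
  · rw [coeff_C_mul, coeff_X, if_pos rfl, mul_one]
  · intro i _ hij
    rw [coeff_C_mul, coeff_X, if_neg, mul_zero]
    rwa [Finsupp.single_left_inj one_ne_zero]
  · intro h
    exact absurd (Finset.mem_univ j) h

private theorem lfm_ne {c : Fin n → ℂ} {j : Fin n} (hj : c j ≠ 0) : lfm c ≠ 0 := by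
  intro h
  apply hj
  rw [← lfm_coeff c j, h, coeff_zero]

private theorem lfm_irr {c : Fin n → ℂ} {j : Fin n} (hj : c j = 1) : Irreducible (lfm c) := by
  have hne : lfm c ≠ 0 := lfm_ne (j := j) (by rw [hj]; exact one_ne_zero)
  refine irreducible_of_totalDegree_eq_one ((lfm_hom c).totalDegree hne) ?_
  intro x hx
  have h1 := hx (Finsupp.single j 1)
  rw [lfm_coeff, hj] at h1
  exact isUnit_of_dvd_one h1

private theorem lfm_eq_of_dvd {c c' : Fin n → ℂ} {j : Fin n} (hj : c j = 1) (hj' : c' j = 1)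
    (h : lfm c ∣ lfm c') : c = c' := by
  obtain ⟨v, hv⟩ := h
  have hne : lfm c ≠ 0 := lfm_ne (j := j) (by rw [hj]; exact one_ne_zero)
  have hne' : lfm c' ≠ 0 := lfm_ne (j := j) (by rw [hj']; exact one_ne_zero)
  have hv0 : v ≠ 0 := by
    rintro rfl
    rw [mul_zero] at hv
    exact hne' hv
  have hd := congrArg totalDegree hv
  rw [totalDegree_mul_of_isDomain hne hv0, (lfm_hom c).totalDegree hne,
    (lfm_hom c').totalDegree hne'] at hd
  have hv1 : v.totalDegree = 0 := by omega
  rw [totalDegree_eq_zero_iff_eq_C] at hv1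
  have hco : ∀ i, c' i = c i * coeff 0 v := by
    intro i
    rw [← lfm_coeff c' i, ← lfm_coeff c i, hv, hv1, mul_comm, coeff_C_mul]
    simp [mul_comm]
  have h1 := hco j
  rw [hj, hj', one_mul] at h1
  funext i
  rw [hco i, ← h1, mul_one]

/-- sign changes -/
private noncomputable def sgm (c : Fin n → ℂ) :
    MvPolynomial (Fin n) ℂ →ₐ[ℂ] MvPolynomial (Fin n) ℂ := aeval fun i => C (c i) * X i

private theorem sgm_ell (c : Fin n → ℂ) : sgm c (ell n) = lfm c := by
  unfold sgm ell lfm
  rw [map_sum]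
  exact Finset.sum_congr rfl fun i _ => aeval_X _ i

private theorem sgm_even {c : Fin n → ℂ} (hc : ∀ i, c i ^ 2 = 1) {P : MvPolynomial (Fin n) ℂ}
    (he : ∀ m ∈ P.support, ∀ i, Even (m i)) : sgm c P = P := by
  conv_lhs => rw [P.as_sum]
  conv_rhs => rw [P.as_sum]
  rw [map_sum]
  refine Finset.sum_congr rfl fun m hm => ?_
  unfold sgm
  rw [aeval_monomial, monomial_eq, algebraMap_eq]
  congr 1
  unfold Finsupp.prod
  refine Finset.prod_congr rfl fun i _ => ?_
  obtain ⟨r, hr⟩ := he m hm i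
  have h1 : c i ^ m i = 1 := by
    rw [hr, ← two_mul, pow_mul, hc i, one_pow]
  show (C (c i) * X i) ^ m i = X i ^ m i
  rw [mul_pow, ← C_pow, h1, C_1, one_mul]

/-- PIECE NORM1. A polynomial `P` with even exponents divisible by the sum of the variables is
invariant under all sign changes, so it is divisible by all `∑ ε_i x_i`, `ε_0 = 1`, hence by their
product, of degree `2^(n-1)` (successively: modulo `∑ ε_i x_i` the ring is a domain, the kernel of
`x_0 ↦ - ∑_{i ≥ 1} ε_i x_i`, and the other forms do not vanish there). -/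
theorem norm_zero (hn : 1 ≤ n) {P u : MvPolynomial (Fin n) ℂ} {t : ℕ} (hP : P.IsHomogeneous t)
    (he : ∀ m ∈ P.support, ∀ i, Even (m i)) (hu : P = ell n * u) (ht : t < 2 ^ (n - 1)) :
    P = 0 := by
  obtain ⟨m, rfl⟩ : ∃ m, n = m + 1 := ⟨n - 1, by omega⟩
  by_contra hne
  let s : (Fin m → Bool) → Fin (m + 1) → ℂ := fun e =>
    Fin.cons 1 (fun i => if e i then -1 else 1)
  have hs0 : ∀ e, s e 0 = 1 := fun e => rfl
  have hs2 : ∀ e i, s e i ^ 2 = 1 := by
    intro e i
    refine Fin.cases ?_ (fun j => ?_) i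
    · rw [hs0, one_pow]
    · show (if e j then (-1 : ℂ) else 1) ^ 2 = 1
      split_ifs <;> norm_num
  have hsinj : ∀ e e', s e = s e' → e = e' := by
    intro e e' h
    funext j
    have h1 : (if e j then (-1 : ℂ) else 1) = if e' j then (-1 : ℂ) else 1 := congrFun h j.succ
    rcases h2 : e j <;> rcases h3 : e' j <;> rw [h2, h3] at h1 <;> simp at h1 ⊢
    · norm_num at h1
    · norm_num at h1
  have hdvd : (∏ e, lfm (s e)) ∣ P := by
    refine Fintype.prod_dvd_of_isRelPrime ?_ ?_
    · intro e e' hee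
      show IsRelPrime (lfm (s e)) (lfm (s e'))
      rw [(lfm_irr (hs0 e)).isRelPrime_iff_not_dvd]
      intro hd
      exact hee (hsinj e e' (lfm_eq_of_dvd (hs0 e) (hs0 e') hd))
    · intro e
      refine ⟨sgm (s e) u, ?_⟩
      rw [← sgm_ell, ← map_mul, ← hu, sgm_even (hs2 e) he]
  obtain ⟨w, hw⟩ := hdvd
  have hQ : (∏ e, lfm (s e)).IsHomogeneous (∑ _e : Fin m → Bool, 1) :=
    IsHomogeneous.prod _ _ _ fun e _ => lfm_hom (s e)
  have hQ0 : (∏ e, lfm (s e)) ≠ 0 := by
    intro h
    rw [h, zero_mul] at hw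
    exact hne hw
  have hw0 : w ≠ 0 := by
    rintro rfl
    rw [mul_zero] at hw
    exact hne hw
  have hd := congrArg totalDegree hw
  rw [totalDegree_mul_of_isDomain hQ0 hw0, hQ.totalDegree hQ0, hP.totalDegree hne] at hd
  simp at hd
  have : m + 1 - 1 = m := by omega
  rw [this] at ht
  omega

private theorem inj_of_norm {n k : ℕ} (hn : 1 ≤ n) (he : e0 n 1 k = 2 * k) (hk : 1 ≤ k)
    (hlt : 2 * k < 2 ^ (n - 1)) : Inj n 1 k := by
  intro f hf hJ
  rw [he] at hf
  rw [pow_one] at hJ
  have hP : (ell n * f).IsHomogeneous (2 * k) := by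
    have h1 := ell_pow_mul_isHomogeneous hf 1
    rw [pow_one] at h1
    have e : 2 * k - 1 + 1 = 2 * k := by omega
    rwa [e] at h1
  have h0 : ell n * f = 0 := by
    refine norm_zero hn hP ?_ rfl hlt
    intro m hm i
    have h1 := (mem_powI_iff (by norm_num) k).mp hJ m hm
    have h2 := isHomogeneous_iff.mp hP m (mem_support_iff.mp hm)
    by_contra hodd
    have h3 : ∑ j, 2 * (m j / (1 + 1)) < ∑ j, m j := by
      refine Finset.sum_lt_sum (fun j _ => ?_) ⟨i, Finset.mem_univ i, ?_⟩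
      · omega
      · rw [Nat.not_even_iff_odd, Nat.odd_iff] at hodd
        omega
    rw [← Finset.mul_sum] at h3
    omega
  have hell : ell n ≠ 0 := by
    intro h
    have h1 : coeff (Finsupp.single (⟨0, by omega⟩ : Fin n) 1) (lfm (n := n) fun _ => 1) = 1 :=
      lfm_coeff _ _
    have h2 : lfm (n := n) (fun _ => 1) = ell n := by
      unfold lfm ell
      exact Finset.sum_congr rfl fun i _ => by rw [C_1, one_mul]
    rw [h2, h, coeff_zero] at h1
    exact zero_ne_one h1
  rcases mul_eq_zero.mp h0 with h | h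
  · exact absurd h hell
  · rw [h]
    exact Ideal.zero_mem _

/-- PIECE NORM2. `e0 - 1 = 2k - 1`, and a form of degree `2k` in `powI n 2 k` has even
exponents. -/
theorem inj_4_1_3 : Inj 4 1 3 :=
  inj_of_norm (by norm_num) (by unfold e0; norm_num) (by norm_num) (by norm_num)

theorem inj_5_1_7 : Inj 5 1 7 :=
  inj_of_norm (by norm_num) (by unfold e0; norm_num) (by norm_num) (by norm_num)

end Pool.Agent.Lib_MP_8b82cd_w
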