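import Mathlib
import Pool.Agent.Lib_MP_8b82cd_w.Defs

/-! `D = 1`: highest weight vectors are spanned by products of differences and variables. -/

namespace Pool.Agent.Lib_MP_8b82cd_w

open MvPolynomial Pool.Agent.Lib_MP_8b82cd_ag

variable {n : ℕ}

/-- `PP S s p`: `p` is a product over the variable set `S` of `s` single variables and of
differences `x_a - x_b` over pairs -/
inductive PP : Finset (Fin n) → ℕ → MvPolynomial (Fin n) ℂ → Prop
  | singles (S : Finset (Fin n)) : PP S S.card (∏ c ∈ S, X c)
  | pair {S : Finset (Fin n)} {s : ℕ} {p : MvPolynomial (Fin n) ℂ} (a b : Fin n) (ha : a ∉ S)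
      (hb : b ∉ S) (hab : a ≠ b) (h : PP S s p) : PP (insert a (insert b S)) s ((X a - X b) * p)

private noncomputable abbrev IS (S : Finset (Fin n)) : Ideal (MvPolynomial (Fin n) ℂ) :=
  ciI (fun i : Fin n => if i ∈ S then 2 else 1)

private theorem p3a_le {l : Fin n} {S : Finset (Fin n)} : IS (insert l S) ≤ IS S := by
  intro f hf
  rw [mem_ciI_iff] at hf ⊢
  intro m hm
  obtain ⟨i, hi⟩ := hf m hm
  refine ⟨i, le_trans ?_ hi⟩
  by_cases h : i ∈ S
  · rw [if_pos h, if_pos (Finset.mem_insert_of_mem h)]
  · rw [if_neg h]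
    split_ifs <;> norm_num

private theorem p3a_colon {l : Fin n} {S : Finset (Fin n)} (hl : l ∉ S) (f : MvPolynomial (Fin n) ℂ) :
    X l * f ∈ IS (insert l S) ↔ f ∈ IS S := by
  rw [mem_ciI_iff, mem_ciI_iff, support_X_mul]
  constructor
  · intro h m hm
    obtain ⟨i, hi⟩ := h (Finsupp.single l 1 + m) (by
      rw [Finset.mem_map]
      exact ⟨m, hm, rfl⟩)
    refine ⟨i, ?_⟩
    rw [Finsupp.add_apply] at hi
    by_cases hil : i = l
    · subst hil
      rw [if_pos (Finset.mem_insert_self _ _), Finsupp.single_eq_same] at hi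
      rw [if_neg hl]
      omega
    · rw [Finsupp.single_eq_of_ne hil, zero_add] at hi
      have h1 : i ∈ insert l S ↔ i ∈ S := by
        rw [Finset.mem_insert]
        exact ⟨fun h => h.resolve_left hil, Or.inr⟩
      simpa only [h1] using hi
  · intro h m' hm'
    obtain ⟨m, hm, rfl⟩ := Finset.mem_map.1 hm'
    obtain ⟨i, hi⟩ := h m hm
    refine ⟨i, ?_⟩
    change _ ≤ (Finsupp.single l 1 + m : Fin n →₀ ℕ) i
    rw [Finsupp.add_apply]
    by_cases hil : i = l
    · subst hil
      rw [if_neg hl] at hi
      rw [if_pos (Finset.mem_insert_self _ _), Finsupp.single_eq_same]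
      omega
    · rw [Finsupp.single_eq_of_ne hil, zero_add]
      have h1 : i ∈ insert l S ↔ i ∈ S := by
        rw [Finset.mem_insert]
        exact ⟨fun h => h.resolve_left hil, Or.inr⟩
      simpa only [h1] using hi

private theorem p3a_split {l : Fin n} {S : Finset (Fin n)} (hl : l ∉ S) {t : ℕ}
    {u : MvPolynomial (Fin n) ℂ} (hu : u.IsHomogeneous (t + 1)) (hu' : u ∈ IS S) :
    ∃ u1 : MvPolynomial (Fin n) ℂ, u1.IsHomogeneous t ∧ u - X l * u1 ∈ IS (insert l S) := by
  refine ⟨u.divMonomial (Finsupp.single l 1), ?_, ?_⟩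
  · intro m hm
    rw [coeff_divMonomial] at hm
    have h1 := hu hm
    rw [map_add] at h1
    have h2 : (Finsupp.weight (1 : Fin n → ℕ)) (Finsupp.single l 1) = 1 := by
      rw [Finsupp.weight_single]
      simp
    rw [h2] at h1
    omega
  · have h1 : u - X l * (u.divMonomial (Finsupp.single l 1)) = u.modMonomial (Finsupp.single l 1) := by
      have h2 := divMonomial_add_modMonomial_single u l
      exact sub_eq_iff_eq_add'.2 h2.symm
    rw [h1, mem_ciI_iff]
    intro m hm
    rw [mem_support_iff] at hm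
    by_cases hle : Finsupp.single l 1 ≤ m
    · exact absurd (coeff_modMonomial_of_le u hle) hm
    · rw [coeff_modMonomial_of_not_le u hle] at hm
      rw [mem_ciI_iff] at hu'
      obtain ⟨i, hi⟩ := hu' m (mem_support_iff.2 hm)
      refine ⟨i, ?_⟩
      have hml : m l = 0 := by
        by_contra h0
        apply hle
        rw [Finsupp.single_le_iff]
        omega
      have hil : i ≠ l := by
        rintro rfl
        rw [if_neg hl] at hi
        omega
      have h3 : i ∈ insert l S ↔ i ∈ S := by
        rw [Finset.mem_insert]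
        exact ⟨fun h => h.resolve_left hil, Or.inr⟩
      simpa only [h3] using hi

private theorem p3a_hom {S : Finset (Fin n)} {s : ℕ} {p : MvPolynomial (Fin n) ℂ} (h : PP S s p) :
    ∃ t, 2 * t = S.card + s ∧ p.IsHomogeneous t := by
  induction h with
  | singles S =>
    refine ⟨S.card, by ring, ?_⟩
    have h1 := IsHomogeneous.prod S (fun c => (X c : MvPolynomial (Fin n) ℂ)) (fun _ => 1)
      (fun c _ => isHomogeneous_X ℂ c)
    rw [Finset.sum_const, smul_eq_mul, mul_one] at h1
    exact h1
  | @pair S s p a b ha hb hab h ih =>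
    obtain ⟨t, ht, hp⟩ := ih
    refine ⟨t + 1, ?_, ?_⟩
    · have h1 : a ∉ insert b S := by
        rw [Finset.mem_insert]
        push Not
        exact ⟨hab, ha⟩
      rw [Finset.card_insert_of_notMem h1, Finset.card_insert_of_notMem hb]
      omega
    · rw [add_comm]
      exact ((isHomogeneous_X ℂ a).sub (isHomogeneous_X ℂ b)).mul hp

private theorem p3a_kill {S : Finset (Fin n)} {s : ℕ} {p : MvPolynomial (Fin n) ℂ} (h : PP S s p) :
    (∑ i ∈ S, X i) * p ∈ Ideal.span ((fun i : Fin n => (X i : MvPolynomial (Fin n) ℂ) ^ 2) '' (S : Set (Fin n))) := by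
  induction h with
  | singles S =>
    rw [Finset.sum_mul]
    refine Ideal.sum_mem _ fun i hi => ?_
    rw [← Finset.mul_prod_erase S _ hi, ← mul_assoc, ← sq]
    exact Ideal.mul_mem_right _ _ (Ideal.subset_span ⟨i, hi, rfl⟩)
  | @pair S s p a b ha hb hab h ih =>
    have h1 : a ∉ insert b S := by
      rw [Finset.mem_insert]
      push Not
      exact ⟨hab, ha⟩
    rw [Finset.sum_insert h1, Finset.sum_insert hb]
    have h2 : (X a + (X b + ∑ i ∈ S, X i)) * ((X a - X b) * p) =
        X a ^ 2 * p - X b ^ 2 * p + (X a - X b) * ((∑ i ∈ S, X i) * p) := by ring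
    rw [h2]
    refine Ideal.add_mem _ (Ideal.sub_mem _ ?_ ?_) ?_
    · exact Ideal.mul_mem_right _ _ (Ideal.subset_span ⟨a, by simp, rfl⟩)
    · exact Ideal.mul_mem_right _ _ (Ideal.subset_span ⟨b, by simp, rfl⟩)
    · refine Ideal.mul_mem_left _ _ (Ideal.span_mono (Set.image_mono ?_) ih)
      intro x hx
      simp only [Finset.coe_insert]
      exact Set.mem_insert_of_mem _ (Set.mem_insert_of_mem _ hx)

private theorem p3a_ell {S : Finset (Fin n)} {s : ℕ} {p : MvPolynomial (Fin n) ℂ} (h : PP S s p) :
    ell n * p ∈ IS S := by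
  classical
  have hsq : Ideal.span ((fun i : Fin n => (X i : MvPolynomial (Fin n) ℂ) ^ 2) '' (S : Set (Fin n))) ≤ IS S := by
    rw [Ideal.span_le]
    rintro _ ⟨i, hi, rfl⟩
    refine Ideal.subset_span ⟨i, ?_⟩
    have hi' : i ∈ S := hi
    simp only [if_pos hi']
  unfold ell
  rw [← Finset.sum_add_sum_compl S, add_mul]
  refine Ideal.add_mem _ (hsq (p3a_kill h)) ?_
  rw [Finset.sum_mul]
  refine Ideal.sum_mem _ fun i hi => Ideal.mul_mem_right _ _ ?_
  refine Ideal.subset_span ⟨i, ?_⟩
  have hi' : i ∉ S := Finset.mem_compl.1 hi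
  simp only [if_neg hi', pow_one]

private theorem p3a_single {S : Finset (Fin n)} {s' : ℕ} {p : MvPolynomial (Fin n) ℂ} (h : PP S s' p) :
    ∀ s, s' = s + 1 → ∃ c ∈ S, ∃ p', PP (S.erase c) s p' ∧ p = X c * p' := by
  induction h with
  | singles S =>
    intro s hs
    obtain ⟨c, hc⟩ := Finset.card_pos.1 (by omega : 0 < S.card)
    refine ⟨c, hc, ∏ i ∈ S.erase c, X i, ?_, (Finset.mul_prod_erase S _ hc).symm⟩
    have h1 : (S.erase c).card = s := by
      rw [Finset.card_erase_of_mem hc]
      omega
    have h2 := PP.singles (S.erase c)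
    rw [h1] at h2
    exact h2
  | @pair S s0 p a b ha hb hab h ih =>
    intro s hs
    obtain ⟨c, hc, p', hp', rfl⟩ := ih s hs
    have hca : c ≠ a := by rintro rfl; exact ha hc
    have hcb : c ≠ b := by rintro rfl; exact hb hc
    refine ⟨c, by simp [hc], (X a - X b) * p', ?_, by ring⟩
    have h1 : (insert a (insert b S)).erase c = insert a (insert b (S.erase c)) := by
      rw [Finset.erase_insert_of_ne hca.symm, Finset.erase_insert_of_ne hcb.symm]
    rw [h1]
    exact PP.pair a b (fun h => ha (Finset.mem_of_mem_erase h))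
      (fun h => hb (Finset.mem_of_mem_erase h)) hab hp'

private theorem p3a_cons {S : Finset (Fin n)} {s : ℕ} {p : MvPolynomial (Fin n) ℂ} (h : PP S s p) :
    ∀ l : Fin n, l ∉ S → PP (insert l S) (s + 1) (X l * p) := by
  induction h with
  | singles S =>
    intro l hl
    rw [← Finset.prod_insert hl, ← Finset.card_insert_of_notMem hl]
    exact PP.singles _
  | @pair S s p a b ha hb hab h ih =>
    intro l hl
    have hla : l ≠ a := by rintro rfl; exact hl (by simp)
    have hlb : l ≠ b := by rintro rfl; exact hl (by simp)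
    have hlS : l ∉ S := fun h => hl (by simp [h])
    have h1 : insert l (insert a (insert b S)) = insert a (insert b (insert l S)) := by
      rw [Finset.insert_comm l a, Finset.insert_comm l b]
    have h2 : X l * ((X a - X b) * p) = (X a - X b) * (X l * p) := by ring
    rw [h1, h2]
    refine PP.pair a b ?_ ?_ hab (ih l hlS)
    · rw [Finset.mem_insert]
      push Not
      exact ⟨hla.symm, ha⟩
    · rw [Finset.mem_insert]
      push Not
      exact ⟨hlb.symm, hb⟩

private theorem p3a_swap {S : Finset (Fin n)} {s : ℕ} {l : Fin n} (hl : l ∉ S)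
    {w : MvPolynomial (Fin n) ℂ} (hw : w ∈ Submodule.span ℂ {p : MvPolynomial (Fin n) ℂ | PP S (s + 1) p}) :
    ∃ w' ∈ Submodule.span ℂ {p : MvPolynomial (Fin n) ℂ | PP (insert l S) s p}, w - w' ∈ IS S := by
  induction hw using Submodule.span_induction with
  | mem p hp =>
    obtain ⟨c, hc, p', hp', rfl⟩ := p3a_single hp s rfl
    have hcl : c ≠ l := by rintro rfl; exact hl hc
    refine ⟨(X c - X l) * p', Submodule.subset_span ?_, ?_⟩
    · have h1 := PP.pair c l (Finset.notMem_erase c S) (fun h => hl (Finset.mem_of_mem_erase h)) hcl hp'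
      rw [Finset.insert_comm, Finset.insert_erase hc] at h1
      exact h1
    · have h1 : X c * p' - (X c - X l) * p' = X l * p' := by ring
      rw [h1]
      refine Ideal.mul_mem_right _ _ (Ideal.subset_span ⟨l, ?_⟩)
      simp only [if_neg hl, pow_one]
  | zero => exact ⟨0, Submodule.zero_mem _, by simp⟩
  | add x y _ _ hx hy =>
    obtain ⟨x', hx1, hx2⟩ := hx
    obtain ⟨y', hy1, hy2⟩ := hy
    refine ⟨x' + y', Submodule.add_mem _ hx1 hy1, ?_⟩
    have h1 : x + y - (x' + y') = (x - x') + (y - y') := by ring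
    rw [h1]
    exact Ideal.add_mem _ hx2 hy2
  | smul c x _ hx =>
    obtain ⟨x', hx1, hx2⟩ := hx
    refine ⟨c • x', Submodule.smul_mem _ _ hx1, ?_⟩
    rw [← smul_sub, MvPolynomial.smul_eq_C_mul]
    exact Ideal.mul_mem_left _ _ hx2

/-- PIECE P3a. Induction on `S`: pick `l ∈ S`, `v = v0 + x_l v1` modulo the ideal, `v0, v1` in the
variables `S \ {l}`; `ell * v0 = 0`, `2t > |S| - 1`, so by induction `v0 = ∑ c_p p` with
`PP (S \ {l}) (s+1) p`; each `p` has a single variable `x_c`, `p = x_c p'` and
`(x_c - x_l) p'` is `PP S s`; subtract: `v0 = 0`. Then `ell * v1 = 0`, degree `t - 1`: if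
`s ≥ 1` induction (`PP (S \ {l}) (s-1)`, times `x_l` is `PP S s`), if `s = 0` then
`v1 = 0` by `ci_injP` (`2 (t-1) + 1 = |S| - 1`). -/
theorem pp_span (S : Finset (Fin n)) (t s : ℕ) (hts : 2 * t = S.card + s)
    (v : MvPolynomial (Fin n) ℂ) (hv : v.IsHomogeneous t)
    (hL : ell n * v ∈ ciI (fun i : Fin n => if i ∈ S then 2 else 1)) :
    ∃ v' ∈ Submodule.span ℂ {p : MvPolynomial (Fin n) ℂ | PP S s p},
      v - v' ∈ ciI (fun i : Fin n => if i ∈ S then 2 else 1) := by
  classical
  induction S using Finset.induction_on generalizing t s v with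
  | empty =>
    rw [Finset.card_empty, zero_add] at hts
    rcases Nat.eq_zero_or_pos t with rfl | ht
    · obtain rfl : s = 0 := by omega
      refine ⟨v, ?_, by simp⟩
      obtain ⟨c, rfl⟩ : ∃ c, v = C c := ⟨coeff 0 v, (totalDegree_eq_zero_iff_eq_C.1
        (Nat.le_zero.1 hv.totalDegree_le))⟩
      have h1 : (C c : MvPolynomial (Fin n) ℂ) = c • (∏ i ∈ (∅ : Finset (Fin n)), X i) := by
        rw [Finset.prod_empty, MvPolynomial.smul_eq_C_mul, mul_one]
      rw [h1]
      refine Submodule.smul_mem _ _ (Submodule.subset_span ?_)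
      exact PP.singles ∅
    · refine ⟨0, Submodule.zero_mem _, ?_⟩
      rw [sub_zero, mem_ciI_iff]
      intro m hm
      rw [mem_support_iff] at hm
      have h1 := hv hm
      by_contra hcon
      push Not at hcon
      have h2 : m = 0 := by
        ext i
        have h3 := hcon i
        rw [if_neg (Finset.notMem_empty i)] at h3
        simp only [Finsupp.coe_zero, Pi.zero_apply]
        omega
      rw [h2, map_zero] at h1
      omega
  | insert l S hl ih =>
    rw [Finset.card_insert_of_notMem hl] at hts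
    obtain ⟨w0, hw0, hvw⟩ := ih t (s + 1) (by omega) v hv (p3a_le hL)
    obtain ⟨w, hw, hww⟩ := p3a_swap hl hw0
    obtain ⟨t', rfl⟩ : ∃ t', t = t' + 1 := ⟨t - 1, by omega⟩
    have hwhom : w.IsHomogeneous (t' + 1) := by
      have h1 : Submodule.span ℂ {p : MvPolynomial (Fin n) ℂ | PP (insert l S) s p} ≤
          homogeneousSubmodule (Fin n) ℂ (t' + 1) := by
        rw [Submodule.span_le]
        intro p hp
        obtain ⟨t1, ht1, hp1⟩ := p3a_hom hp
        rw [Finset.card_insert_of_notMem hl] at ht1
        obtain rfl : t1 = t' + 1 := by omega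
        exact hp1
      exact h1 hw
    have hwell : ell n * w ∈ IS (insert l S) := by
      have h1 : ∀ x ∈ Submodule.span ℂ {p : MvPolynomial (Fin n) ℂ | PP (insert l S) s p},
          ell n * x ∈ IS (insert l S) := by
        intro x hx
        induction hx using Submodule.span_induction with
        | mem p hp => exact p3a_ell hp
        | zero => simp
        | add x y _ _ hx hy =>
          rw [mul_add]
          exact Ideal.add_mem _ hx hy
        | smul c x _ hx =>
          rw [mul_smul_comm, MvPolynomial.smul_eq_C_mul]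
          exact Ideal.mul_mem_left _ _ hx
      exact h1 w hw
    have hu : (v - w).IsHomogeneous (t' + 1) := hv.sub hwhom
    have huS : v - w ∈ IS S := by
      have h1 : v - w = (v - w0) + (w0 - w) := by ring
      rw [h1]
      exact Ideal.add_mem _ hvw hww
    obtain ⟨u1, hu1, hu1'⟩ := p3a_split hl hu huS
    have hu1L : ell n * u1 ∈ IS S := by
      rw [← p3a_colon hl]
      have h1 : X l * (ell n * u1) = ell n * v - ell n * w - ell n * (v - w - X l * u1) := by ring
      rw [h1]
      exact Ideal.sub_mem _ (Ideal.sub_mem _ hL hwell) (Ideal.mul_mem_left _ _ hu1')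
    rcases Nat.eq_zero_or_pos s with rfl | hs
    · have h1 : u1 ∈ IS S := by
        have hσ : S.card + n = ∑ i : Fin n, (if i ∈ S then 2 else 1) := by
          have h3 : ∀ i : Fin n, (if i ∈ S then 2 else 1) = 1 + (if i ∈ S then 1 else 0) := by
            intro i
            split_ifs <;> rfl
          rw [Finset.sum_congr rfl (fun i _ => h3 i), Finset.sum_add_distrib]
          simp
          omega
        have h2 := ci_injP (fun i : Fin n => if i ∈ S then 2 else 1) S.card hσ (i := t') (j := 1) (by omega)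
        exact h2 u1 hu1 (by rw [pow_one]; exact hu1L)
      refine ⟨w, hw, ?_⟩
      have h2 : v - w = (v - w - X l * u1) + X l * u1 := by ring
      rw [h2]
      exact Ideal.add_mem _ hu1' ((p3a_colon hl u1).2 h1)
    · obtain ⟨s', rfl⟩ : ∃ s', s = s' + 1 := ⟨s - 1, by omega⟩
      obtain ⟨w1, hw1, hw1'⟩ := ih t' s' (by omega) u1 hu1 hu1L
      have h2 : ∀ x ∈ Submodule.span ℂ {p : MvPolynomial (Fin n) ℂ | PP S s' p},
          X l * x ∈ Submodule.span ℂ {p : MvPolynomial (Fin n) ℂ | PP (insert l S) (s' + 1) p} := by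
        intro x hx
        induction hx using Submodule.span_induction with
        | mem p hp => exact Submodule.subset_span (p3a_cons hp l hl)
        | zero => simp
        | add x y _ _ hx hy =>
          rw [mul_add]
          exact Submodule.add_mem _ hx hy
        | smul c x _ hx =>
          rw [mul_smul_comm]
          exact Submodule.smul_mem _ _ hx
      refine ⟨w + X l * w1, Submodule.add_mem _ hw (h2 w1 hw1), ?_⟩
      have h3 : v - (w + X l * w1) = (v - w - X l * u1) + X l * (u1 - w1) := by ring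
      rw [h3]
      exact Ideal.add_mem _ hu1' ((p3a_colon hl _).2 hw1')

end Pool.Agent.Lib_MP_8b82cd_w
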