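import Mathlib
import Pool.Agent.Lib_MP_8b82cd_w.B1
import Pool.Agent.Lib_MP_8b82cd_w.B3x
import Pool.Agent.Lib_MP_8b82cd_w.B4
import Pool.Agent.Lib_MP_8b82cd_w.P3a

/-! `Inj n 1 3` for odd `n`. -/

namespace Pool.Agent.Lib_MP_8b82cd_w

open MvPolynomial Pool.Agent.Lib_MP_8b82cd_ag

variable {n : ℕ}

/-- one part of the contraction -/
private noncomputable def dv (i : Fin n) (f : MvPolynomial (Fin n) ℂ) : MvPolynomial (Fin n) ℂ :=
  f.divMonomial (Finsupp.single i 1)

private theorem coeff_dv (i : Fin n) (f : MvPolynomial (Fin n) ℂ) (m : Fin n →₀ ℕ) :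
    coeff m (dv i f) = coeff (m + Finsupp.single i 1) f := by
  unfold dv
  rw [coeff_divMonomial, add_comm]

private theorem cd_eq (f : MvPolynomial (Fin n) ℂ) : cd f = ∑ i, dv i f := rfl

private theorem coeff_cd (f : MvPolynomial (Fin n) ℂ) (m : Fin n →₀ ℕ) :
    coeff m (cd f) = ∑ i, coeff (m + Finsupp.single i 1) f := by
  rw [cd_eq, coeff_sum]
  exact Finset.sum_congr rfl fun i _ => coeff_dv i f m

private theorem cd_add (f g : MvPolynomial (Fin n) ℂ) : cd (f + g) = cd f + cd g := by
  ext m
  rw [coeff_add, coeff_cd, coeff_cd, coeff_cd, ← Finset.sum_add_distrib]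
  exact Finset.sum_congr rfl fun i _ => coeff_add _ _ _

private theorem cd_smul (c : ℂ) (f : MvPolynomial (Fin n) ℂ) : cd (c • f) = c • cd f := by
  ext m
  rw [coeff_smul, coeff_cd, coeff_cd, smul_eq_mul, Finset.mul_sum]
  exact Finset.sum_congr rfl fun i _ => by rw [coeff_smul, smul_eq_mul]

private theorem cd_zero : cd (0 : MvPolynomial (Fin n) ℂ) = 0 := by
  ext m
  rw [coeff_cd]
  simp

private theorem dv_add (i : Fin n) (f g : MvPolynomial (Fin n) ℂ) :
    dv i (f + g) = dv i f + dv i g := by
  ext m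
  simp [coeff_dv]

private theorem dv_free {i : Fin n} {f : MvPolynomial (Fin n) ℂ} (h : i ∉ f.vars) :
    dv i f = 0 := by
  ext m
  rw [coeff_dv, coeff_zero]
  by_contra hne
  apply h
  rw [mem_vars_iff_mem_support]
  refine ⟨_, mem_support_iff.mpr hne, ?_⟩
  rw [Finsupp.mem_support_iff]
  simp

private theorem dv_X_mul (i : Fin n) (f : MvPolynomial (Fin n) ℂ) : dv i (X i * f) = f := by
  ext m
  rw [coeff_dv, add_comm, coeff_X_mul']
  simp

private theorem free_rest (i : Fin n) (f : MvPolynomial (Fin n) ℂ) :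
    i ∉ (f - X i * dv i f).vars := by
  classical
  intro h
  rw [mem_vars_iff_mem_support] at h
  obtain ⟨m, hm, hi⟩ := h
  rw [mem_support_iff] at hm
  apply hm
  rw [Finsupp.mem_support_iff] at hi
  rw [coeff_sub, coeff_X_mul', if_pos (by rwa [Finsupp.mem_support_iff]), coeff_dv]
  rw [tsub_add_cancel_of_le, sub_self]
  intro j
  by_cases hj : j = i
  · subst hj; simp; omega
  · simp [Ne.symm hj]

private theorem free_mul {i : Fin n} {f g : MvPolynomial (Fin n) ℂ} (hf : i ∉ f.vars)
    (hg : i ∉ g.vars) : i ∉ (f * g).vars := by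
  classical
  intro h
  have := vars_mul f g h
  rw [Finset.mem_union] at this
  exact this.elim hf hg

private theorem dv_free_mul {i : Fin n} {g : MvPolynomial (Fin n) ℂ} (hg : i ∉ g.vars)
    (f : MvPolynomial (Fin n) ℂ) : dv i (g * f) = g * dv i f := by
  have h1 : g * f = X i * (g * dv i f) + g * (f - X i * dv i f) := by ring
  rw [h1, dv_add, dv_X_mul, dv_free (free_mul hg (free_rest i f)), add_zero]

/-- product rule for disjoint variables -/
private theorem cd_mul {f g : MvPolynomial (Fin n) ℂ} (h : ∀ i, i ∈ f.vars → i ∉ g.vars) :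
    cd (f * g) = cd f * g + f * cd g := by
  rw [cd_eq, cd_eq, cd_eq, Finset.sum_mul, Finset.mul_sum, ← Finset.sum_add_distrib]
  refine Finset.sum_congr rfl fun i _ => ?_
  by_cases hi : i ∈ f.vars
  · rw [mul_comm, dv_free_mul (h i hi), dv_free (h i hi)]
    ring
  · rw [dv_free_mul hi, dv_free hi]
    ring

/-! Explicit polynomials given by lists. -/

/-- the polynomial with the given list of exponents and coefficients -/
private noncomputable def mkL {N : ℕ} (L : List ((Fin N → ℕ) × ℤ)) : MvPolynomial (Fin N) ℂ :=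
  (L.map fun t => monomial (Finsupp.equivFunOnFinite.symm t.1) (t.2 : ℂ)).sum

private def cf {N : ℕ} (L : List ((Fin N → ℕ) × ℤ)) (m : Fin N → ℕ) : ℤ :=
  (L.map fun t => if t.1 = m then t.2 else 0).sum

private theorem coeff_mkL {N : ℕ} (L : List ((Fin N → ℕ) × ℤ)) (m : Fin N →₀ ℕ) :
    coeff m (mkL L) = (cf L m : ℂ) := by
  classical
  induction L with
  | nil => simp [mkL, cf]
  | cons t L ih =>
    have h1 : mkL (t :: L) = monomial (Finsupp.equivFunOnFinite.symm t.1) (t.2 : ℂ) + mkL L := by
      simp [mkL]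
    have h2 : cf (t :: L) m = (if t.1 = (m : Fin N → ℕ) then t.2 else 0) + cf L m := by
      simp [cf]
    rw [h1, h2, coeff_add, ih, coeff_monomial]
    push_cast
    congr 1
    by_cases h : t.1 = (m : Fin N → ℕ)
    · rw [if_pos h, if_pos]
      ext i
      simp [h]
    · rw [if_neg h, if_neg]
      intro h'
      apply h
      rw [← h']
      rfl

/-- the list of the contraction -/
private def cdL {N : ℕ} (L : List ((Fin N → ℕ) × ℤ)) : List ((Fin N → ℕ) × ℤ) :=
  L.flatMap fun t => (List.finRange N).flatMap fun i =>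
    if t.1 i = 0 then [] else [(fun j => if j = i then t.1 j - 1 else t.1 j, t.2)]

private theorem cf_append {N : ℕ} (L L' : List ((Fin N → ℕ) × ℤ)) (m : Fin N → ℕ) :
    cf (L ++ L') m = cf L m + cf L' m := by
  simp [cf]

private theorem cf_flatMap {N : ℕ} {α : Type*} (l : List α) (f : α → List ((Fin N → ℕ) × ℤ))
    (m : Fin N → ℕ) : cf (l.flatMap f) m = (l.map fun a => cf (f a) m).sum := by
  induction l with
  | nil => simp [cf]
  | cons a l ih => rw [List.flatMap_cons, cf_append, ih, List.map_cons, List.sum_cons]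

private theorem cd_mkL {N : ℕ} (L : List ((Fin N → ℕ) × ℤ)) : cd (mkL L) = mkL (cdL L) := by
  ext m
  rw [coeff_cd, coeff_mkL]
  have h1 : ∀ i : Fin N, coeff (m + Finsupp.single i 1) (mkL L) =
      (cf L (fun j => if j = i then m j + 1 else m j) : ℂ) := by
    intro i
    rw [coeff_mkL]
    congr 2
    funext j
    by_cases h : j = i
    · subst h; simp
    · simp [h]
  rw [Finset.sum_congr rfl fun i _ => h1 i, ← Int.cast_sum]
  congr 1
  unfold cdL
  rw [cf_flatMap]
  have h2 : ∀ i : Fin N, cf L (fun j => if j = i then m j + 1 else m j) =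
      (L.map fun t => if t.1 = (fun j => if j = i then m j + 1 else m j) then t.2 else 0).sum :=
    fun _ => rfl
  rw [Finset.sum_congr rfl fun i _ => h2 i]
  induction L with
  | nil => simp
  | cons t L ih =>
    simp only [List.map_cons, List.sum_cons]
    rw [Finset.sum_add_distrib, ih (fun i => by rw [coeff_mkL]; congr 2; funext j; by_cases h : j = i
                                                · subst h; simp
                                                · simp [h]) (fun _ => rfl)]
    congr 1
    rw [cf_flatMap, ← Fin.sum_univ_def]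
    refine Finset.sum_congr rfl fun i _ => ?_
    by_cases h0 : t.1 i = 0
    · rw [if_pos h0, if_neg]
      · simp [cf]
      · intro h
        have := congrFun h i
        simp at this
        omega
    · rw [if_neg h0]
      simp only [cf, List.map_cons, List.map_nil, List.sum_cons, List.sum_nil, add_zero]
      congr 1
      rw [eq_iff_iff]
      constructor
      · intro h
        funext j
        have := congrFun h j
        by_cases hj : j = i
        · subst hj; simp at this ⊢; omega
        · simp [hj] at this ⊢; exact this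
      · intro h
        funext j
        have := congrFun h j
        by_cases hj : j = i
        · subst hj; simp at this ⊢; omega
        · simp [hj] at this ⊢; exact this

/-- comparison of two lists -/
private theorem mkL_eq {N : ℕ} (A B : List ((Fin N → ℕ) × ℤ))
    (h : ∀ t ∈ A ++ B, cf A t.1 = cf B t.1) : mkL A = mkL B := by
  ext m
  rw [coeff_mkL, coeff_mkL]
  congr 1
  by_cases hm : ∃ t ∈ A ++ B, t.1 = m
  · obtain ⟨t, ht, hm⟩ := hm
    rw [← hm]
    exact h t ht
  · push Not at hm
    have h0 : ∀ C : List ((Fin N → ℕ) × ℤ), (∀ t ∈ C, t.1 ≠ m) → cf C m = 0 := by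
      intro C hC
      unfold cf
      apply List.sum_eq_zero
      intro x hx
      rw [List.mem_map] at hx
      obtain ⟨t, ht, rfl⟩ := hx
      rw [if_neg (hC t ht)]
    rw [h0 A fun t ht => hm t (List.mem_append_left _ ht),
      h0 B fun t ht => hm t (List.mem_append_right _ ht)]

private theorem mkL_support {N : ℕ} {L : List ((Fin N → ℕ) × ℤ)} {m : Fin N →₀ ℕ}
    (hm : m ∈ (mkL L).support) : ∃ t ∈ L, t.1 = m := by
  rw [mem_support_iff, coeff_mkL] at hm
  by_contra hcon
  push Not at hcon
  apply hm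
  have : cf L m = 0 := by
    unfold cf
    apply List.sum_eq_zero
    intro x hx
    rw [List.mem_map] at hx
    obtain ⟨t, ht, rfl⟩ := hx
    rw [if_neg (hcon t ht)]
  rw [this]
  simp

/-- `x0^3 x2 - x0^2 x1 x2` -/
private def L3 : List ((Fin 3 → ℕ) × ℤ) :=
  [(![3, 1, 1], -1), (![4, 0, 1], 2), (![4, 1, 0], 1), (![5, 0, 0], -3)]

private def L5 : List ((Fin 5 → ℕ) × ℤ) :=
  [(![0, 0, 1, 0, 5], 1), (![0, 0, 0, 1, 5], -2), (![0, 1, 0, 0, 5], -2), (![0, 0, 1, 1, 4], 1),
   (![1, 0, 0, 0, 5], 3), (![0, 1, 0, 1, 4], 1), (![0, 1, 1, 0, 4], 1), (![1, 1, 1, 1, 2], 1),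
   (![1, 0, 1, 0, 4], -3), (![2, 0, 1, 0, 3], 3), (![2, 0, 1, 1, 2], -1), (![2, 1, 0, 1, 2], -1),
   (![2, 1, 1, 0, 2], -1), (![2, 1, 1, 1, 1], 1), (![3, 0, 0, 0, 3], -3), (![3, 0, 0, 1, 2], 2),
   (![3, 0, 1, 0, 2], -1), (![3, 1, 0, 0, 2], 2), (![3, 1, 1, 1, 0], -1), (![4, 0, 0, 1, 1], -2),
   (![4, 0, 1, 0, 1], 1), (![4, 0, 1, 1, 0], 1), (![4, 1, 0, 0, 1], -2), (![4, 1, 0, 1, 0], 1),
   (![4, 1, 1, 0, 0], 1), (![5, 0, 0, 0, 1], 3), (![5, 0, 1, 0, 0], -3), (![0, 1, 1, 1, 3], -1)]

private theorem cd_L3 : cd (mkL L3) = mkL [(![3, 0, 1], 1), (![2, 1, 1], -1)] := by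
  rw [cd_mkL]
  exact mkL_eq _ _ (by decide +kernel)

private theorem cd_L5 : cd (mkL L5) = mkL [(![1, 1, 1, 1, 1], 2)] := by
  rw [cd_mkL]
  exact mkL_eq _ _ (by decide +kernel)

private theorem L3_spec : ∀ t ∈ L3, ∑ i, t.1 i = 5 ∧ ∑ i, t.1 i / 2 < 3 := by decide +kernel

private theorem L5_spec : ∀ t ∈ L5, ∑ i, t.1 i = 6 ∧ ∑ i, t.1 i / 2 < 3 := by decide +kernel


/-! The space of contractions. -/

/-- the forms `cd G`, `G` of degree `e` and low -/
private noncomputable def II (n e : ℕ) : Submodule ℂ (MvPolynomial (Fin n) ℂ) where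
  carrier := {p | ∃ G : MvPolynomial (Fin n) ℂ, G.IsHomogeneous e ∧ Low 2 3 G ∧ cd G = p}
  add_mem' := by
    rintro a b ⟨G, h1, h2, h3⟩ ⟨G', h1', h2', h3'⟩
    refine ⟨G + G', h1.add h1', ?_, by rw [cd_add, h3, h3']⟩
    classical
    intro m hm
    have := support_add hm
    rw [Finset.mem_union] at this
    exact this.elim (h2 m) (h2' m)
  zero_mem' := ⟨0, isHomogeneous_zero _ _ _, by intro m hm; simp at hm, cd_zero⟩
  smul_mem' := by
    rintro c a ⟨G, h1, h2, h3⟩
    refine ⟨c • G, (homogeneousSubmodule (Fin n) ℂ e).smul_mem c h1, ?_, by rw [cd_smul, h3]⟩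
    intro m hm
    exact h2 m (support_smul hm)

private theorem mem_II {e : ℕ} {G : MvPolynomial (Fin n) ℂ} (h1 : G.IsHomogeneous e)
    (h2 : Low 2 3 G) : cd G ∈ II n e := ⟨G, h1, h2, rfl⟩

/-- products of low and reduced polynomials in different variables -/
private theorem low_mul {k : ℕ} {f g : MvPolynomial (Fin n) ℂ} (hf : Low 2 k f) (hg : Box 1 g)
    (h : ∀ i, i ∈ f.vars → i ∉ g.vars) : Low 2 k (f * g) := by
  classical
  intro m hm
  have := support_mul f g hm
  rw [Finset.mem_add] at this
  obtain ⟨a, ha, b, hb, rfl⟩ := this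
  refine lt_of_eq_of_lt (Finset.sum_congr rfl fun i _ => ?_) (hf a ha)
  have hb1 := hg b hb i
  rw [Finsupp.add_apply]
  by_cases hai : a i = 0
  · rw [hai]; omega
  · have hbi : b i = 0 := by
      by_contra hne
      refine h i ?_ ?_
      · rw [mem_vars_iff_mem_support]
        exact ⟨a, ha, Finsupp.mem_support_iff.mpr hai⟩
      · rw [mem_vars_iff_mem_support]
        exact ⟨b, hb, Finsupp.mem_support_iff.mpr hne⟩
    rw [hbi, add_zero]

private theorem dv_rename {N : ℕ} {s : Fin N → Fin n} (hs : Function.Injective s) (i : Fin N)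
    (G : MvPolynomial (Fin N) ℂ) : dv (s i) (rename s G) = rename s (dv i G) := by
  classical
  have h1 : rename s G = X (s i) * rename s (dv i G) + rename s (G - X i * dv i G) := by
    rw [map_sub, map_mul, rename_X]; ring
  have h2 : dv (s i) (rename s (G - X i * dv i G)) = 0 := by
    apply dv_free
    intro h
    have := vars_rename s _ h
    rw [Finset.mem_image] at this
    obtain ⟨j, hj, hji⟩ := this
    rw [hs hji] at hj
    exact free_rest i G hj
  rw [h1, dv_add, dv_X_mul, h2, add_zero]

private theorem cd_rename {N : ℕ} {s : Fin N → Fin n} (hs : Function.Injective s)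
    (G : MvPolynomial (Fin N) ℂ) : cd (rename s G) = rename s (cd G) := by
  classical
  rw [cd_eq, cd_eq, map_sum, ← Finset.sum_subset (Finset.subset_univ (Finset.univ.image s)),
    Finset.sum_image (fun a _ b _ h => hs h)]
  · exact Finset.sum_congr rfl fun i _ => dv_rename hs i G
  · intro i _ hi
    apply dv_free
    intro h
    apply hi
    have := vars_rename s _ h
    rw [Finset.mem_image] at this
    obtain ⟨j, _, hji⟩ := this
    rw [← hji]
    exact Finset.mem_image_of_mem _ (Finset.mem_univ _)

/-- the block lemma -/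
private theorem block {N a b : ℕ} {s : Fin N → Fin n} (hs : Function.Injective s)
    (L : List ((Fin N → ℕ) × ℤ)) (hL : ∀ t ∈ L, ∑ i, t.1 i = a ∧ ∑ i, t.1 i / 2 < 3)
    {p : MvPolynomial (Fin n) ℂ} (hp : p.IsHomogeneous b) (hb : Box 1 p)
    (hv : ∀ i, s i ∉ p.vars) (hc : cd p = 0) :
    rename s (cd (mkL L)) * p ∈ II n (a + b) := by
  classical
  have hdis : ∀ i, i ∈ (rename s (mkL L)).vars → i ∉ p.vars := by
    intro i hi
    have := vars_rename s _ hi
    rw [Finset.mem_image] at this
    obtain ⟨j, _, rfl⟩ := this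
    exact hv j
  have h1 : rename s (cd (mkL L)) * p = cd (rename s (mkL L) * p) := by
    rw [cd_mul hdis, hc, mul_zero, add_zero, cd_rename hs]
  rw [h1]
  apply mem_II
  · apply IsHomogeneous.mul _ hp
    apply IsHomogeneous.rename_isHomogeneous
    rw [isHomogeneous_iff]
    intro m hm
    obtain ⟨t, ht, hm⟩ := mkL_support (mem_support_iff.mpr hm)
    rw [← hm]
    exact (hL t ht).1
  · apply low_mul _ hb hdis
    intro m hm
    rw [support_rename_of_injective hs, Finset.mem_image] at hm
    obtain ⟨m, hm, rfl⟩ := hm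
    obtain ⟨t, ht, hm⟩ := mkL_support hm
    rw [← Finset.sum_subset (Finset.subset_univ (Finset.univ.image s)),
      Finset.sum_image (fun a _ b _ h => hs h)]
    · rw [Finset.sum_congr rfl fun i _ => by rw [Finsupp.mapDomain_apply hs, ← hm]]
      exact (hL t ht).2
    · intro i _ hi
      rw [Finsupp.mapDomain_of_notMem_range, Nat.zero_div]
      rintro ⟨j, rfl⟩
      exact hi (Finset.mem_image_of_mem _ (Finset.mem_univ _))

/-! Products of differences and variables. -/

private theorem PP.vars {S : Finset (Fin n)} {s : ℕ} {p : MvPolynomial (Fin n) ℂ}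
    (h : PP S s p) : ∀ i ∈ p.vars, i ∈ S := by
  classical
  induction h with
  | singles S =>
    intro i hi
    have := vars_prod (fun c => (X c : MvPolynomial (Fin n) ℂ)) hi
    rw [Finset.mem_biUnion] at this
    obtain ⟨c, hc, hic⟩ := this
    rw [vars_X, Finset.mem_singleton] at hic
    rwa [hic]
  | @pair S s p a b ha hb hab h ih =>
    intro i hi
    have := vars_mul _ _ hi
    rw [Finset.mem_union] at this
    rw [Finset.mem_insert, Finset.mem_insert]
    rcases this with h1 | h1
    · have := vars_sub_subset _ h1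
      rw [Finset.mem_union, vars_X, vars_X, Finset.mem_singleton, Finset.mem_singleton] at this
      rcases this with rfl | rfl
      · exact Or.inl rfl
      · exact Or.inr (Or.inl rfl)
    · exact Or.inr (Or.inr (ih i h1))

private theorem box_mul {f g : MvPolynomial (Fin n) ℂ} (hf : Box 1 f) (hg : Box 1 g)
    (h : ∀ i, i ∈ f.vars → i ∉ g.vars) : Box 1 (f * g) := by
  classical
  intro m hm i
  have := support_mul f g hm
  rw [Finset.mem_add] at this
  obtain ⟨a, ha, b, hb, rfl⟩ := this
  have ha1 := hf a ha i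
  have hb1 := hg b hb i
  rw [Finsupp.add_apply]
  by_cases hai : a i = 0
  · rw [hai]; omega
  · have hbi : b i = 0 := by
      by_contra hne
      refine h i ?_ ?_
      · rw [mem_vars_iff_mem_support]
        exact ⟨a, ha, Finsupp.mem_support_iff.mpr hai⟩
      · rw [mem_vars_iff_mem_support]
        exact ⟨b, hb, Finsupp.mem_support_iff.mpr hne⟩
    rw [hbi, add_zero]; exact ha1

private theorem box_X (i : Fin n) : Box 1 (X i : MvPolynomial (Fin n) ℂ) := by
  intro m hm j
  rw [support_X, Finset.mem_singleton] at hm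
  rw [hm, Finsupp.single_apply]
  split_ifs <;> omega

private theorem box_sub {f g : MvPolynomial (Fin n) ℂ} (hf : Box 1 f) (hg : Box 1 g) :
    Box 1 (f - g) := by
  classical
  intro m hm
  have := support_sub _ f g hm
  rw [Finset.mem_union] at this
  exact this.elim (hf m) (hg m)

private theorem PP.box {S : Finset (Fin n)} {s : ℕ} {p : MvPolynomial (Fin n) ℂ}
    (h : PP S s p) : Box 1 p := by
  classical
  induction h with
  | singles S =>
    induction S using Finset.induction_on with
    | empty =>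
      intro m hm i
      rw [Finset.prod_empty] at hm
      have : m = 0 := by
        by_contra hne
        rw [mem_support_iff, coeff_one, if_neg (fun h => hne h.symm)] at hm
        exact hm rfl
      rw [this]; simp
    | insert a S ha ih =>
      rw [Finset.prod_insert ha]
      apply box_mul (box_X a) ih
      intro i hi hi'
      rw [vars_X, Finset.mem_singleton] at hi
      subst hi
      exact ha (PP.vars (PP.singles S) _ hi')
  | @pair S s p a b ha hb hab h ih =>
    apply box_mul (box_sub (box_X a) (box_X b)) ih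
    intro i hi hi'
    have := vars_sub_subset _ hi
    rw [Finset.mem_union, vars_X, vars_X, Finset.mem_singleton, Finset.mem_singleton] at this
    rcases this with rfl | rfl
    · exact ha (h.vars _ hi')
    · exact hb (h.vars _ hi')

private theorem PP.hom {S : Finset (Fin n)} {s : ℕ} {p : MvPolynomial (Fin n) ℂ}
    (h : PP S s p) : ∃ t, 2 * t = S.card + s ∧ p.IsHomogeneous t := by
  classical
  induction h with
  | singles S =>
    refine ⟨S.card, by ring, ?_⟩
    have := IsHomogeneous.prod S (fun c => (X c : MvPolynomial (Fin n) ℂ)) (fun _ => 1)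
      (fun c _ => isHomogeneous_X _ c)
    simpa using this
  | @pair S s p a b ha hb hab h ih =>
    obtain ⟨t, ht, hp⟩ := ih
    refine ⟨1 + t, ?_, ?_⟩
    · rw [Finset.card_insert_of_notMem, Finset.card_insert_of_notMem hb]
      · omega
      · rw [Finset.mem_insert]
        rintro (h1 | h1)
        · exact hab h1
        · exact ha h1
    · exact ((isHomogeneous_X _ a).sub (isHomogeneous_X _ b)).mul hp

private theorem PP.cd {S : Finset (Fin n)} {s : ℕ} {p : MvPolynomial (Fin n) ℂ}
    (h : PP S s p) (hs : s = 0) : cd p = 0 := by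
  classical
  induction h with
  | singles S =>
    rw [Finset.card_eq_zero] at hs
    subst hs
    rw [Finset.prod_empty, cd_eq]
    apply Finset.sum_eq_zero
    intro i _
    apply dv_free
    simp
  | @pair S s p a b ha hb hab h ih =>
    have hdis : ∀ i, i ∈ (X a - X b : MvPolynomial (Fin n) ℂ).vars → i ∉ p.vars := by
      intro i hi hi'
      have := vars_sub_subset _ hi
      rw [Finset.mem_union, vars_X, vars_X, Finset.mem_singleton, Finset.mem_singleton] at this
      rcases this with rfl | rfl
      · exact ha (h.vars _ hi')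
      · exact hb (h.vars _ hi')
    rw [cd_mul hdis, ih hs, mul_zero, add_zero]
    have h1 : Pool.Agent.Lib_MP_8b82cd_w.cd (X a - X b : MvPolynomial (Fin n) ℂ) = 0 := by
      have hX : ∀ c : Fin n, Pool.Agent.Lib_MP_8b82cd_w.cd (X c : MvPolynomial (Fin n) ℂ) = 1 := by
        intro c
        rw [cd_eq, Finset.sum_eq_single c]
        · have := dv_X_mul c (1 : MvPolynomial (Fin n) ℂ)
          rwa [mul_one] at this
        · intro i _ hi
          apply dv_free
          rw [vars_X, Finset.mem_singleton]
          exact hi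
        · intro h; exact absurd (Finset.mem_univ _) h
      rw [sub_eq_add_neg, ← neg_one_smul ℂ (X b), cd_add, cd_smul, hX, hX]
      simp
    rw [h1, zero_mul]

/-- take out the single variables -/
private theorem PP.split {S : Finset (Fin n)} {s : ℕ} {p : MvPolynomial (Fin n) ℂ}
    (h : PP S s p) : ∃ C ⊆ S, C.card = s ∧ ∃ p', PP (S \ C) 0 p' ∧ p = (∏ c ∈ C, X c) * p' := by
  classical
  induction h with
  | singles S =>
    refine ⟨S, le_rfl, rfl, 1, ?_, by rw [mul_one]⟩
    rw [Finset.sdiff_self]
    have := PP.singles (∅ : Finset (Fin n))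
    simpa using this
  | @pair S s p a b ha hb hab h ih =>
    obtain ⟨C, hC, hCs, p', hp', rfl⟩ := ih
    refine ⟨C, ?_, hCs, (X a - X b) * p', ?_, by ring⟩
    · exact hC.trans ((Finset.subset_insert _ _).trans (Finset.subset_insert _ _))
    · have h1 := PP.pair a b (fun h1 => ha (Finset.mem_sdiff.mp h1).1)
        (fun h1 => hb (Finset.mem_sdiff.mp h1).1) hab hp'
      have h2 : insert a (insert b S) \ C = insert a (insert b (S \ C)) := by
        rw [Finset.insert_sdiff_of_notMem _ (fun h1 => ha (hC h1)),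
          Finset.insert_sdiff_of_notMem _ (fun h1 => hb (hC h1))]
      rw [h2]
      exact h1

/-- take out a pair -/
private theorem PP.take {S : Finset (Fin n)} {s : ℕ} {p : MvPolynomial (Fin n) ℂ}
    (h : PP S s p) (hs : s = 0) {j : Fin n} (hj : j ∈ S) :
    ∃ b ∈ S, b ≠ j ∧ ∃ p', PP ((S \ {j}) \ {b}) 0 p' ∧
      (p = (X j - X b) * p' ∨ p = -((X j - X b) * p')) := by
  classical
  induction h with
  | singles S =>
    rw [Finset.card_eq_zero] at hs
    subst hs
    simp at hj
  | @pair S s p a b ha hb hab h ih =>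
    subst hs
    have hset : ∀ x y : Fin n, x ∉ S → y ∉ S → x ≠ y →
        (insert x (insert y S) \ {x}) \ {y} = S := by
      intro x y hx hy hxy
      ext z
      simp only [Finset.mem_sdiff, Finset.mem_insert, Finset.mem_singleton]
      constructor
      · rintro ⟨⟨h1 | h1 | h1, h2⟩, h3⟩
        · exact absurd h1 h2
        · exact absurd h1 h3
        · exact h1
      · intro hz
        exact ⟨⟨Or.inr (Or.inr hz), fun h => hx (h ▸ hz)⟩, fun h => hy (h ▸ hz)⟩
    rw [Finset.mem_insert, Finset.mem_insert] at hj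
    rcases hj with rfl | rfl | hj
    · exact ⟨b, by simp, hab.symm, p, by rw [hset j b ha hb hab]; exact h, Or.inl rfl⟩
    · refine ⟨a, by simp, hab, p, ?_, Or.inr (by ring)⟩
      rw [Finset.insert_comm, hset j a hb ha hab.symm]
      exact h
    · obtain ⟨c, hc, hcj, p', hp', hpp⟩ := ih rfl hj
      have hac : a ≠ c := fun h1 => ha (h1 ▸ hc)
      have hbc : b ≠ c := fun h1 => hb (h1 ▸ hc)
      have haj : a ≠ j := fun h1 => ha (h1 ▸ hj)
      have hbj : b ≠ j := fun h1 => hb (h1 ▸ hj)
      refine ⟨c, by simp [hc], hcj, (X a - X b) * p', ?_, ?_⟩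
      · have h1 := PP.pair a b (fun h1 => ha (Finset.mem_sdiff.mp (Finset.mem_sdiff.mp h1).1).1)
          (fun h1 => hb (Finset.mem_sdiff.mp (Finset.mem_sdiff.mp h1).1).1) hab hp'
        have h2 : (insert a (insert b S) \ {j}) \ {c} = insert a (insert b ((S \ {j}) \ {c})) := by
          ext z
          simp only [Finset.mem_sdiff, Finset.mem_insert, Finset.mem_singleton]
          constructor
          · rintro ⟨⟨h1 | h1 | h1, h2⟩, h3⟩
            · exact Or.inl h1
            · exact Or.inr (Or.inl h1)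
            · exact Or.inr (Or.inr ⟨⟨h1, h2⟩, h3⟩)
          · rintro (h1 | h1 | ⟨⟨h1, h2⟩, h3⟩)
            · subst h1; exact ⟨⟨Or.inl rfl, haj⟩, hac⟩
            · subst h1; exact ⟨⟨Or.inr (Or.inl rfl), hbj⟩, hbc⟩
            · exact ⟨⟨Or.inr (Or.inr h1), h2⟩, h3⟩
        rw [h2]
        exact h1
      · rcases hpp with h1 | h1
        · left; rw [h1]; ring
        · right; rw [h1]; ring

/-! The layers. -/

private theorem cd_hom {f : MvPolynomial (Fin n) ℂ} {t : ℕ} (hf : f.IsHomogeneous (t + 1)) :
    (cd f).IsHomogeneous t := by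
  rw [isHomogeneous_iff] at hf ⊢
  intro m hm
  rw [coeff_cd] at hm
  obtain ⟨i, -, hi⟩ := Finset.exists_ne_zero_of_sum_ne_zero hm
  have := hf _ hi
  simp [Finset.sum_add_distrib] at this
  exact this

private theorem step_low (q : Fin n →₀ ℕ) {z : MvPolynomial (Fin n) ℂ} (hz : Box 1 z) :
    Low 2 (∑ i, q i) (cd (monomial (2 • q) 1 * z) - monomial (2 • q) 1 * FF n 1 z) := by
  classical
  intro m hm
  rw [mem_support_iff, coeff_sub, coeff_cd, coeff_monomial_mul'] at hm
  have hbig : ∀ (m' : Fin n →₀ ℕ) (i : Fin n), 2 ≤ m' i → coeff m' z = 0 := by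
    intro m' i h
    by_contra hne
    have := hz m' (mem_support_iff.mpr hne) i
    omega
  by_cases hle : 2 • q ≤ m
  · exfalso
    apply hm
    rw [if_pos hle, one_mul, coeff_lowF, sub_eq_zero]
    refine Finset.sum_congr rfl fun i _ => ?_
    have hle' : 2 • q ≤ m + Finsupp.single i 1 := hle.trans (self_le_add_right _ _)
    have h1 : m + Finsupp.single i 1 - 2 • q = m - 2 • q + Finsupp.single i 1 := by
      ext j
      have := hle j
      simp only [Finsupp.coe_tsub, Finsupp.coe_add, Pi.sub_apply, Pi.add_apply] at this ⊢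
      omega
    rw [coeff_monomial_mul', if_pos hle', one_mul, h1]
    by_cases h0 : (m - 2 • q) i = 0
    · rw [h0]; push_cast; ring
    · rw [hbig _ i (by
        rw [Finsupp.add_apply, Finsupp.single_eq_same]; omega)]
      ring
  · rw [if_neg hle, sub_zero] at hm
    obtain ⟨i, -, hi⟩ := Finset.exists_ne_zero_of_sum_ne_zero hm
    rw [coeff_monomial_mul'] at hi
    have hle' : 2 • q ≤ m + Finsupp.single i 1 := by
      by_contra h
      rw [if_neg h] at hi
      exact hi rfl
    rw [if_pos hle', one_mul] at hi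
    have hb := hz _ (mem_support_iff.mpr hi)
    have hval : ∀ j, (m + Finsupp.single i 1 - 2 • q : Fin n →₀ ℕ) j =
        m j + (if j = i then 1 else 0) - 2 * q j := by
      intro j
      simp only [Finsupp.coe_tsub, Finsupp.coe_add, Pi.sub_apply, Pi.add_apply,
        Finsupp.single_apply, Finsupp.smul_apply, smul_eq_mul]
      by_cases hj : j = i
      · subst hj; simp
      · rw [if_neg hj, if_neg (Ne.symm hj)]
    have hlej : ∀ j, 2 * q j ≤ m j + (if j = i then 1 else 0) := by
      intro j
      have := hle' j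
      simp only [Finsupp.coe_add, Pi.add_apply,
        Finsupp.single_apply, Finsupp.smul_apply, smul_eq_mul] at this
      by_cases hj : j = i
      · subst hj; simpa using this
      · rw [if_neg hj]; rw [if_neg (Ne.symm hj)] at this; exact this
    have hother : ∀ j, j ≠ i → m j / 2 = q j := by
      intro j hj
      have h1 := hb j
      have h2 := hlej j
      rw [hval j] at h1
      rw [if_neg hj] at h1 h2
      omega
    have hmi : m i < 2 * q i := by
      by_contra hge
      apply hle
      intro j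
      rw [Finsupp.smul_apply, smul_eq_mul]
      by_cases hj : j = i
      · subst hj; omega
      · have h2 := hlej j
        rw [if_neg hj] at h2
        omega
    have hmi2 : m i / 2 < q i := by omega
    refine Finset.sum_lt_sum (fun j _ => ?_) ⟨i, Finset.mem_univ _, hmi2⟩
    by_cases hj : j = i
    · subst hj; exact hmi2.le
    · exact (hother j hj).le

private theorem low_step (q : Fin n →₀ ℕ) {z : MvPolynomial (Fin n) ℂ} (hz : Box 1 z)
    (hq : ∑ i, q i < 3) : Low 2 3 (monomial (2 • q) 1 * z) := by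
  classical
  intro m hm
  rw [mem_support_iff, coeff_monomial_mul'] at hm
  have hle : 2 • q ≤ m := by
    by_contra h
    rw [if_neg h] at hm
    exact hm rfl
  rw [if_pos hle, one_mul] at hm
  have hb := hz _ (mem_support_iff.mpr hm)
  refine lt_of_eq_of_lt (Finset.sum_congr rfl fun j _ => ?_) hq
  have h1 := hb j
  have h2 := hle j
  simp only [Finsupp.coe_tsub, Pi.sub_apply, Finsupp.smul_apply, smul_eq_mul] at h1 h2
  omega

private theorem monomial_box {r : Fin n →₀ ℕ} (hr : ∀ i, r i ≤ 1) :
    Box 1 (monomial r (1 : ℂ)) := by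
  classical
  intro m hm
  rw [mem_support_iff, coeff_monomial] at hm
  have : r = m := by
    by_contra h
    rw [if_neg h] at hm
    exact hm rfl
  rw [← this]
  exact hr

private theorem mon_congr {N : ℕ} {m m' : Fin N →₀ ℕ} (h : m = m') (c : ℂ) :
    monomial m c = monomial m' c := by rw [h]

private theorem monomial_hom {r : Fin n →₀ ℕ} {t : ℕ} (hr : ∑ i, r i = t) :
    (monomial r (1 : ℂ)).IsHomogeneous t := by
  apply isHomogeneous_monomial
  rw [Finsupp.degree_eq_sum]
  exact hr

private theorem span_box {s : ℕ} {v : MvPolynomial (Fin n) ℂ}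
    (hv : v ∈ Submodule.span ℂ {p : MvPolynomial (Fin n) ℂ | PP Finset.univ s p}) : Box 1 v := by
  induction hv using Submodule.span_induction with
  | mem p hp => exact PP.box hp
  | zero => intro m hm; simp at hm
  | add p q _ _ hp hq => exact hp.add hq
  | smul c p _ hp => exact hp.smul c

/-- negative weights -/
private theorem dec_neg {r : Fin n →₀ ℕ} (hr : ∀ i, r i ≤ 1) {t : ℕ} (ht : ∑ i, r i = t)
    (h : 2 * t < n) :
    ∃ z : MvPolynomial (Fin n) ℂ, z.IsHomogeneous (t + 1) ∧ Box 1 z ∧
      monomial r (1 : ℂ) = FF n 1 z := by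
  obtain ⟨z, hz, hFz⟩ := (low_ci n 1).low_surj (monomial_hom ht) (by omega)
  obtain ⟨z', hb, hzz, hh⟩ := exists_red 1 z
  refine ⟨z', hh _ hz, hb, ?_⟩
  have h1 : monomial r (1 : ℂ) - FF n 1 z' ∈ JJ n 1 := by
    rw [← hFz, ← map_sub]
    exact (low_ci n 1).hJ _ hzz
  have h2 := box_mem_zero ((monomial_box hr).sub hb.FF) h1
  exact sub_eq_zero.mp h2

/-- nonnegative weights -/
private theorem dec_pos {r : Fin n →₀ ℕ} (hr : ∀ i, r i ≤ 1) {t s : ℕ} (ht : ∑ i, r i = t)
    (h : 2 * t = n + s) :
    ∃ z v : MvPolynomial (Fin n) ℂ, z.IsHomogeneous (t + 1) ∧ Box 1 z ∧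
      v ∈ Submodule.span ℂ {p : MvPolynomial (Fin n) ℂ | PP Finset.univ s p} ∧
      monomial r (1 : ℂ) = FF n 1 z + v := by
  have htop : ∀ t, n * 1 < t → ∀ p : MvPolynomial (Fin n) ℂ, p.IsHomogeneous t → p ∈ JJ n 1 :=
    fun t ht p hp => ci_top (fun _ => 1 + 1) (n * 1) (by simp; ring) t ht p hp
  obtain ⟨z, hz, hLz⟩ := (low_ci n 1).decomp htop (monomial_hom ht) (by omega)
  have hfun : (fun i : Fin n => if i ∈ (Finset.univ : Finset (Fin n)) then 2 else 1) =
      fun _ : Fin n => 1 + 1 := by
    funext i; simp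
  obtain ⟨v, hv, hvv⟩ := pp_span Finset.univ t s (by rw [Finset.card_univ, Fintype.card_fin]; exact h)
    (monomial r (1 : ℂ) - FF n 1 z) ((monomial_hom ht).sub ((low_ci n 1).hF _ _ hz))
    (by rw [hfun]; exact hLz)
  rw [hfun] at hvv
  obtain ⟨z', hb, hzz, hh⟩ := exists_red 1 z
  refine ⟨z', v, hh _ hz, hb, hv, ?_⟩
  have h1 : monomial r (1 : ℂ) - FF n 1 z' - v ∈ JJ n 1 := by
    have h2 := (low_ci n 1).hJ _ hzz
    have h3 := (JJ n 1).add_mem hvv h2
    rw [map_sub] at h3
    convert h3 using 1
    ring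
  have h2 := box_mem_zero (((monomial_box hr).sub hb.FF).sub (span_box hv)) h1
  have h3 : monomial r (1 : ℂ) = (monomial r (1 : ℂ) - FF n 1 z' - v) + (FF n 1 z' + v) := by ring
  rw [h2, zero_add] at h3
  exact h3

/-- one single variable, times a square -/
private theorem pp_one (hodd : n % 2 = 1) (j : Fin n) {p : MvPolynomial (Fin n) ℂ}
    (hp : PP Finset.univ 1 p) : X j ^ 2 * p ∈ II n (n / 2 + 4) := by
  classical
  obtain ⟨C, -, hC, p', hp', rfl⟩ := hp.split
  obtain ⟨c, rfl⟩ := Finset.card_eq_one.mp hC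
  rw [Finset.prod_singleton]
  have hcard : (Finset.univ \ {c} : Finset (Fin n)).card = n - 1 := by
    rw [Finset.card_sdiff_of_subset (Finset.subset_univ _), Finset.card_univ, Fintype.card_fin,
      Finset.card_singleton]
  by_cases hjc : j = c
  · subst hjc
    obtain ⟨b, hb, hbh⟩ := hp'.hom
    have h1 := block (n := n) (N := 1) (a := 4) (s := fun _ => j)
      (fun a b _ => Subsingleton.elim a b)
      [(![4], 1)] (by decide) hbh hp'.box (fun _ h => by
        have := hp'.vars _ h
        simp at this) (hp'.cd rfl)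
    have h2 : cd (mkL ([(![4], 1)] : List ((Fin 1 → ℕ) × ℤ))) = mkL [(![3], 1)] := by
      rw [cd_mkL]
      exact mkL_eq _ _ (by decide +kernel)
    rw [h2] at h1
    have h3 : rename (fun _ => j) (mkL ([(![3], 1)] : List ((Fin 1 → ℕ) × ℤ))) =
        (X j ^ 3 : MvPolynomial (Fin n) ℂ) := by
      simp only [mkL, List.map_cons, List.map_nil, List.sum_cons, List.sum_nil, add_zero,
        Int.cast_one]
      have h4 : (monomial (Finsupp.equivFunOnFinite.symm ![3]) (1 : ℂ) :
          MvPolynomial (Fin 1) ℂ) = X 0 ^ 3 := by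
        rw [X_pow_eq_monomial]
        apply mon_congr
        ext
        simp
      rw [h4]
      simp
    rw [h3] at h1
    have h5 : 4 + b = n / 2 + 4 := by
      rw [hcard] at hb; omega
    rw [h5] at h1
    have h6 : X j ^ 2 * (X j * p') = X j ^ 3 * p' := by ring
    rw [h6]
    exact h1
  · obtain ⟨b, hb, hbj, p'', hp'', hpp⟩ := hp'.take rfl (j := j) (by simp [hjc])
    have hbc : b ≠ c := by
      intro h; subst h; simp at hb
    have hbb : b ∈ (Finset.univ \ {c} : Finset (Fin n)) \ {j} := by
      simp [hbj, hbc]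
    have hcard2 : (((Finset.univ \ {c} : Finset (Fin n)) \ {j}) \ {b}).card + 3 = n := by
      have e1 := Finset.card_sdiff_add_card_eq_card
        (Finset.singleton_subset_iff.mpr (Finset.mem_univ c))
      have e2 := Finset.card_sdiff_add_card_eq_card (Finset.singleton_subset_iff.mpr
        (show j ∈ (Finset.univ \ {c} : Finset (Fin n)) by simp [hjc]))
      have e3 := Finset.card_sdiff_add_card_eq_card (Finset.singleton_subset_iff.mpr hbb)
      rw [Finset.card_singleton] at e1 e2 e3
      rw [Finset.card_univ, Fintype.card_fin] at e1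
      omega
    obtain ⟨b', hb', hbh⟩ := hp''.hom
    have hinj : Function.Injective ![j, b, c] := by
      intro x y hxy
      fin_cases x <;> fin_cases y <;> simp_all
    have h1 := block (n := n) (N := 3) (a := 5) (s := ![j, b, c]) hinj L3 L3_spec hbh hp''.box
      (fun i h => by
        have := hp''.vars _ h
        fin_cases i <;> simp at this) (hp''.cd rfl)
    rw [cd_L3] at h1
    have h3 : rename ![j, b, c] (mkL ([(![3, 0, 1], 1), (![2, 1, 1], -1)] :
        List ((Fin 3 → ℕ) × ℤ))) =
        (X j ^ 3 * X c - X j ^ 2 * X b * X c : MvPolynomial (Fin n) ℂ) := by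
      simp only [mkL, List.map_cons, List.map_nil, List.sum_cons, List.sum_nil, add_zero,
        Int.cast_one, Int.cast_neg]
      have h4 : (monomial (Finsupp.equivFunOnFinite.symm ![3, 0, 1]) (1 : ℂ) :
          MvPolynomial (Fin 3) ℂ) = X 0 ^ 3 * X 2 := by
        rw [X_pow_eq_monomial, X, monomial_mul, one_mul]
        apply mon_congr
        ext i
        fin_cases i <;> simp
      have h5 : (monomial (Finsupp.equivFunOnFinite.symm ![2, 1, 1]) (-1 : ℂ) :
          MvPolynomial (Fin 3) ℂ) = - (X 0 ^ 2 * X 1 * X 2) := by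
        rw [X_pow_eq_monomial, X, X, monomial_mul, monomial_mul, one_mul, one_mul, ← map_neg]
        apply mon_congr
        ext i
        fin_cases i <;> simp
      rw [h4, h5, map_add, map_neg]
      simp
      ring
    rw [h3] at h1
    have h5 : 5 + b' = n / 2 + 4 := by omega
    rw [h5] at h1
    rcases hpp with rfl | rfl
    · have h6 : X j ^ 2 * (X c * ((X j - X b) * p'')) =
          (X j ^ 3 * X c - X j ^ 2 * X b * X c) * p'' := by ring
      rw [h6]
      exact h1
    · have h6 : X j ^ 2 * (X c * -((X j - X b) * p'')) =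
          -((X j ^ 3 * X c - X j ^ 2 * X b * X c) * p'') := by ring
      rw [h6]
      exact (II n _).neg_mem h1

/-- five single variables -/
private theorem pp_five (hodd : n % 2 = 1) {p : MvPolynomial (Fin n) ℂ}
    (hp : PP Finset.univ 5 p) : p ∈ II n (n / 2 + 4) := by
  classical
  obtain ⟨C, -, hC, p', hp', rfl⟩ := hp.split
  obtain ⟨b, hb, hbh⟩ := hp'.hom
  have hcard : (Finset.univ \ C : Finset (Fin n)).card + 5 = n := by
    have e1 := Finset.card_sdiff_add_card_eq_card (Finset.subset_univ C)
    rw [hC, Finset.card_univ, Fintype.card_fin] at e1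
    exact e1
  have hinj : Function.Injective (C.orderEmbOfFin hC) := (C.orderEmbOfFin hC).injective
  have h1 := block (n := n) (N := 5) (a := 6) (s := C.orderEmbOfFin hC) hinj L5 L5_spec hbh hp'.box
    (fun i h => by
      have h1 := hp'.vars _ h
      have h2 := C.orderEmbOfFin_mem hC i
      rw [Finset.mem_sdiff] at h1
      exact h1.2 h2) (hp'.cd rfl)
  rw [cd_L5] at h1
  have h3 : rename (C.orderEmbOfFin hC) (mkL ([(![1, 1, 1, 1, 1], 2)] :
      List ((Fin 5 → ℕ) × ℤ))) = (2 : ℂ) • (∏ c ∈ C, X c : MvPolynomial (Fin n) ℂ) := by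
    simp only [mkL, List.map_cons, List.map_nil, List.sum_cons, List.sum_nil, add_zero]
    have h4 : (monomial (Finsupp.equivFunOnFinite.symm ![1, 1, 1, 1, 1]) ((2 : ℤ) : ℂ) :
        MvPolynomial (Fin 5) ℂ) = (2 : ℂ) • ∏ i, X i := by
      ext m
      rw [coeff_smul, coeff_monomial]
      have h5 : (∏ i, X i : MvPolynomial (Fin 5) ℂ) =
          monomial (Finsupp.equivFunOnFinite.symm ![1, 1, 1, 1, 1]) 1 := by
        simp only [Fin.prod_univ_five, X, monomial_mul, one_mul]
        apply mon_congr
        ext i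
        fin_cases i <;> simp
      rw [h5, coeff_monomial]
      split_ifs <;> simp
    rw [h4, map_smul, map_prod]
    congr 1
    simp only [rename_X]
    conv_rhs => rw [← Finset.image_orderEmbOfFin_univ C hC]
    rw [Finset.prod_image (fun a _ b _ h => hinj h)]
  rw [h3] at h1
  have h5 : 6 + b = n / 2 + 4 := by omega
  rw [h5, smul_mul_assoc] at h1
  have h6 := (II n (n / 2 + 4)).smul_mem (2 : ℂ)⁻¹ h1
  rwa [smul_smul, inv_mul_cancel₀ two_ne_zero, one_smul] at h6

/-- one monomial -/
private theorem mon_mem (hn : 5 ≤ n) (hodd : n % 2 = 1) {K : ℕ} (hK : K < 3)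
    (ih : ∀ p : MvPolynomial (Fin n) ℂ, p.IsHomogeneous (n / 2 + 3) → Low 2 K p →
      p ∈ II n (n / 2 + 4)) (q r : Fin n →₀ ℕ) (hq : ∑ i, q i = K) (hr : ∀ i, r i ≤ 1)
    (hdeg : 2 * K + ∑ i, r i = n / 2 + 3) : monomial (2 • q + r) (1 : ℂ) ∈ II n (n / 2 + 4) := by
  classical
  -- the decomposition
  obtain ⟨z, v, hz, hb, hzv, hv⟩ : ∃ z v : MvPolynomial (Fin n) ℂ,
      z.IsHomogeneous (∑ i, r i + 1) ∧ Box 1 z ∧ monomial r (1 : ℂ) = FF n 1 z + v ∧
      monomial (2 • q) 1 * v ∈ II n (n / 2 + 4) := by
    interval_cases K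
    · obtain ⟨z, v, h1, h2, h3, h4⟩ := dec_pos hr rfl (s := 5) (by omega)
      refine ⟨z, v, h1, h2, h4, ?_⟩
      have hq0 : q = 0 := by
        ext i
        rw [Finset.sum_eq_zero_iff] at hq
        exact hq i (Finset.mem_univ _)
      rw [hq0, smul_zero]
      have e1 : (monomial (0 : Fin n →₀ ℕ) (1 : ℂ)) * v = v := by
        rw [← C_apply, C_1, one_mul]
      rw [e1]
      clear h4 e1
      induction h3 using Submodule.span_induction with
      | mem p hp => exact pp_five hodd hp
      | zero => exact Submodule.zero_mem _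
      | add p q _ _ hp hq => exact Submodule.add_mem _ hp hq
      | smul c p _ hp => exact Submodule.smul_mem _ _ hp
    · obtain ⟨z, v, h1, h2, h3, h4⟩ := dec_pos hr rfl (s := 1) (by omega)
      refine ⟨z, v, h1, h2, h4, ?_⟩
      obtain ⟨j, hj⟩ : ∃ j, q = Finsupp.single j 1 := by
        have hne : ∑ i, q i ≠ 0 := by omega
        obtain ⟨j, -, hj⟩ := Finset.exists_ne_zero_of_sum_ne_zero hne
        refine ⟨j, ?_⟩
        ext i
        rw [Finsupp.single_apply]
        have h5 := Finset.add_sum_erase Finset.univ (fun i => q i) (Finset.mem_univ j)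
        rw [hq] at h5
        have h6 : ∑ i ∈ Finset.univ.erase j, q i = 0 := by omega
        split_ifs with hij
        · subst hij; omega
        · rw [Finset.sum_eq_zero_iff] at h6
          exact h6 i (Finset.mem_erase.mpr ⟨fun h => hij h.symm, Finset.mem_univ _⟩)
      have e1 : (monomial (2 • q) (1 : ℂ)) = X j ^ 2 := by
        rw [hj, X_pow_eq_monomial]
        apply mon_congr
        ext i
        simp
      rw [e1]
      clear h4
      induction h3 using Submodule.span_induction with
      | mem p hp => exact pp_one hodd j hp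
      | zero => rw [mul_zero]; exact Submodule.zero_mem _
      | add p q _ _ hp hq => rw [mul_add]; exact Submodule.add_mem _ hp hq
      | smul c p _ hp => rw [mul_smul_comm]; exact Submodule.smul_mem _ _ hp
    · obtain ⟨z, h1, h2, h3⟩ := dec_neg hr rfl (by omega)
      exact ⟨z, 0, h1, h2, by rw [h3, add_zero], by rw [mul_zero]; exact Submodule.zero_mem _⟩
  have hmq : (monomial (2 • q) (1 : ℂ)).IsHomogeneous (2 * K) := by
    apply monomial_hom
    rw [← hq, Finset.mul_sum]
    simp
  have h1 : (monomial (2 • q) 1 * z).IsHomogeneous (n / 2 + 3 + 1) := by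
    have := hmq.mul hz
    convert this using 1
    omega
  have h2 : monomial (2 • q + r) (1 : ℂ) = cd (monomial (2 • q) 1 * z) -
      (cd (monomial (2 • q) 1 * z) - monomial (2 • q) 1 * FF n 1 z) + monomial (2 • q) 1 * v := by
    have h3 : monomial (2 • q + r) (1 : ℂ) = monomial (2 • q) 1 * monomial r 1 := by
      rw [monomial_mul, one_mul]
    rw [h3, hzv]
    ring
  rw [h2]
  refine Submodule.add_mem _ (Submodule.sub_mem _ (mem_II h1 (low_step q hb (by omega))) ?_) hv
  apply ih
  · apply (cd_hom h1).sub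
    have h3 := hmq.mul ((low_ci n 1).hF _ _ hz)
    rw [hdeg] at h3
    exact h3
  · rw [← hq]
    exact step_low q hb

private theorem layers (hn : 5 ≤ n) (hodd : n % 2 = 1) (K : ℕ) (hK : K ≤ 3) :
    ∀ p : MvPolynomial (Fin n) ℂ, p.IsHomogeneous (n / 2 + 3) → Low 2 K p →
      p ∈ II n (n / 2 + 4) := by
  classical
  induction K with
  | zero =>
    intro p _ hp
    have : p = 0 := by
      rw [← support_eq_empty, Finset.eq_empty_iff_forall_notMem]
      intro m hm
      exact absurd (hp m hm) (by omega)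
    rw [this]
    exact Submodule.zero_mem _
  | succ K ih =>
    intro p hp hlow
    have ih' := ih (by omega)
    rw [p.as_sum]
    apply Submodule.sum_mem
    intro m hm
    have e1 : monomial m (coeff m p) = (coeff m p) • monomial m (1 : ℂ) := by
      rw [smul_monomial, smul_eq_mul, mul_one]
    rw [e1]
    apply Submodule.smul_mem
    have hdeg := (isHomogeneous_iff.mp hp) m (mem_support_iff.mp hm)
    have hl := hlow m hm
    by_cases hlt : ∑ i, m i / 2 < K
    · apply ih' _ (monomial_hom hdeg)
      intro m' hm'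
      rw [mem_support_iff, coeff_monomial] at hm'
      have : m = m' := by
        by_contra h
        rw [if_neg h] at hm'
        exact hm' rfl
      rw [← this]
      exact hlt
    · let q : Fin n →₀ ℕ := Finsupp.equivFunOnFinite.symm fun i => m i / 2
      let r : Fin n →₀ ℕ := Finsupp.equivFunOnFinite.symm fun i => m i % 2
      have hqr : m = 2 • q + r := by
        ext i
        simp only [Finsupp.add_apply, Finsupp.smul_apply, smul_eq_mul, q, r,
          Finsupp.coe_equivFunOnFinite_symm]
        omega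
      have hqK : ∑ i, q i = K := by
        have : ∑ i, q i = ∑ i, m i / 2 := rfl
        omega
      rw [hqr]
      refine mon_mem hn hodd (by omega) ih' q r hqK (fun i => ?_) ?_
      · have : r i = m i % 2 := rfl
        omega
      · rw [← hdeg, ← hqK, Finset.mul_sum, ← Finset.sum_add_distrib]
        refine Finset.sum_congr rfl fun i _ => ?_
        have e2 : q i = m i / 2 := rfl
        have e3 : r i = m i % 2 := rfl
        omega

/-- PIECE P3b. `injP_of_cd` with `d = 2`, `k = 3`, `e = e0 n 1 3 = (n-1)/2 + 4`. Let `I` be the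
set of `cd G`, `G` homogeneous of degree `e`, `Low 2 3 G`. For multilinear `z` (no exponent `2`)
`cd (x^(2q) z) = x^(2q) FF z + (terms x^(2q') r, |q'| = |q| - 1, r multilinear)`.
A monomial of degree `e - 1` is `x^(2q) x^r`, `|q| ≤ 2`.
`|q| = 2`: `x^r = FF z` (`low_surj`, degree `(n-1)/2 - 1`), so it is in `I` + lower layers.
`|q| = 1`: `deg x^r = (n+1)/2`; `decomp` and `pp_span` (`s = 1`): enough `x_j^2 p`, `PP univ 1 p`.
  Either `p = x_j p'`, `cd p' = 0`, `p'` without `x_j`: `x_j^3 p' = cd (x_j^4 p')`.
  Or `p = ± (x_j - x_b) x_c p'`, `cd p' = 0`, `p'` without `x_j, x_b, x_c`: take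
  `G = G3 p'` with `cd G3 = x_j^3 x_c - x_j^2 x_b x_c`, `G3` any solution of degree 5 in the three
  variables (it exists, all monomials of degree 5 have floor sum ≤ 2).
`|q| = 0`: `deg = (n+5)/2`; `decomp`, `pp_span` (`s = 5`): `p = x_1⋯x_5 p'`, and
  `20 G5 = 4 m(2,1,1,1,1) - m(3,1,1,1) - m(2,2,1,1) + m(3,2,1) - 3 m(3,3)` (monomial symmetric
  polynomials in the five variables) has `cd G5 = x_1⋯x_5`; `G = G5 p'`. -/
theorem inj_1_3 (hn : 5 ≤ n) (hodd : n % 2 = 1) : Inj n 1 3 := by
  have he : e0 n 1 3 = n / 2 + 4 := by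
    unfold e0
    rw [mul_one]
  unfold Inj
  apply injP_of_cd (by norm_num) (by omega)
  intro m hm
  rw [mem_stdExp] at hm
  rw [he] at hm ⊢
  obtain ⟨G, h1, h2, h3⟩ := layers hn hodd 3 le_rfl (monomial m 1)
    (monomial_hom (by have := hm.1; omega)) (by
      classical
      intro m' hm'
      rw [mem_support_iff, coeff_monomial] at hm'
      have : m = m' := by
        by_contra h
        rw [if_neg h] at hm'
        exact hm' rfl
      rw [← this]
      exact hm.2)
  exact ⟨G, h1, h2, h3⟩

end Pool.Agent.Lib_MP_8b82cd_w
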