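import Mathlib
import Pool.Agent.Lib_MP_8b82cd_w.Defs

/-! `T_{4,3,3}`: an explicit kernel vector. -/

namespace Pool.Agent.Lib_MP_8b82cd_w

open MvPolynomial Pool.Agent.Lib_MP_8b82cd_ag

/-- values of the kernel vector at `(a, b, c, z)`, `a ≥ b ≥ c`; it is symmetric in the first
three exponents; degree 9; all other values are 0 -/
def tab433 : List ((ℕ × ℕ × ℕ × ℕ) × ℤ) := [
  ((1,0,0,8),1), ((1,1,0,7),-2), ((1,1,1,6),6), ((2,0,0,7),-1), ((2,1,0,6),3), ((2,1,1,5),-12), 
  ((2,2,0,5),-6), ((2,2,1,4),30), ((2,2,2,3),-90), ((3,1,0,5),26), ((3,1,1,4),-40), 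
  ((3,2,0,4),-20), ((3,2,1,3),30), ((3,2,2,2),30), ((3,3,1,2),68), ((3,3,2,1),-128), 
  ((4,0,0,5),-34), ((4,1,0,4),8), ((4,1,1,3),24), ((4,2,0,3),12), ((4,2,1,2),-66), 
  ((4,2,2,1),102), ((4,3,0,2),-10), ((4,3,1,1),8), ((4,3,2,0),18), ((4,4,0,1),20), 
  ((4,4,1,0),-36), ((5,0,0,4),34), ((5,1,0,3),-42), ((5,1,1,2),60), ((5,2,0,2),30), 
  ((5,2,1,1),-24), ((5,2,2,0),-54), ((5,3,0,1),-20), ((5,3,1,0),36), ((6,1,0,2),-29), 
  ((6,1,1,1),-2), ((6,2,0,1),-1), ((6,2,1,0),27), ((7,0,0,2),19), ((7,1,0,1),10), 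
  ((7,1,1,0),-18), ((7,2,0,0),-9), ((8,0,0,1),-19), ((8,1,0,0),9)]

/-- the entry of a table at a key, `0` if there is none -/
private def look : List ((ℕ × ℕ × ℕ × ℕ) × ℤ) → ℕ → ℕ → ℕ → ℕ → ℤ
  | [], _, _, _, _ => 0
  | ((p, q, r, s), v) :: l, a, b, c, z =>
    if p = a ∧ q = b ∧ r = c ∧ s = z then v else look l a b c z

/-- the coefficient at the exponents `(a, b, c, z)` -/
private def val (a b c z : ℕ) : ℤ :=
  look tab433 (max a (max b c)) (a + b + c - max a (max b c) - min a (min b c))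
    (min a (min b c)) z

private def P433 (a b c z : ℕ) : Prop := a + b + c + z = 10 →
    a / 3 + b / 3 + c / 3 + z / 3 ≤ 2 →
    (if a = 0 then 0 else val (a - 1) b c z) + (if b = 0 then 0 else val a (b - 1) c z) +
      (if c = 0 then 0 else val a b (c - 1) z) + (if z = 0 then 0 else val a b c (z - 1)) = 0

private instance (a b c z : ℕ) : Decidable (P433 a b c z) := by
  unfold P433
  infer_instance

private theorem check : ∀ a < 11, ∀ b < 11, ∀ c < 11, ∀ z < 11, P433 a b c z := by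
  decide +kernel

private theorem check1 : val 1 0 0 8 = 1 := by decide +kernel

/-- the kernel vector -/
private noncomputable def uu : MvPolynomial (Fin 4) ℂ :=
  ∑ m ∈ (Finset.univ : Finset (Fin 4)).finsuppAntidiag 9,
    monomial m ((val (m 0) (m 1) (m 2) (m 3) : ℤ) : ℂ)

private theorem coeff_uu (m : Fin 4 →₀ ℕ) (hm : ∑ i, m i = 9) :
    coeff m uu = ((val (m 0) (m 1) (m 2) (m 3) : ℤ) : ℂ) := by
  classical
  unfold uu
  rw [coeff_sum, Finset.sum_eq_single m]
  · rw [coeff_monomial, if_pos rfl]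
  · intro b _ hb
    rw [coeff_monomial, if_neg hb]
  · intro h
    exfalso
    apply h
    rw [Finset.mem_finsuppAntidiag]
    exact ⟨hm, Finset.subset_univ _⟩

private theorem uu_hom : uu.IsHomogeneous 9 := by
  unfold uu
  apply IsHomogeneous.sum
  intro m hm
  rw [Finset.mem_finsuppAntidiag] at hm
  apply isHomogeneous_monomial
  rw [Finsupp.degree_eq_sum]
  exact hm.1

private theorem coeff_X_uu (m : Fin 4 →₀ ℕ) (hm : ∑ i, m i = 10) (i : Fin 4) :
    coeff m (X i * uu) = if m i = 0 then 0 else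
      ((val ((m - Finsupp.single i 1 : Fin 4 →₀ ℕ) 0) ((m - Finsupp.single i 1 : Fin 4 →₀ ℕ) 1)
        ((m - Finsupp.single i 1 : Fin 4 →₀ ℕ) 2) ((m - Finsupp.single i 1 : Fin 4 →₀ ℕ) 3) :
        ℤ) : ℂ) := by
  classical
  rw [coeff_X_mul']
  by_cases h : m i = 0
  · rw [if_neg (by simpa using h), if_pos h]
  · rw [if_pos (by simpa using h), if_neg h, coeff_uu]
    have h1 : m = (m - Finsupp.single i 1) + Finsupp.single i 1 := by
      rw [tsub_add_cancel_of_le]
      intro j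
      by_cases hj : j = i
      · subst hj; simp; omega
      · simp [Ne.symm hj]
    have h2 : ∑ j, m j = ∑ j, (m - Finsupp.single i 1 : Fin 4 →₀ ℕ) j + 1 := by
      conv_lhs => rw [h1]
      simp only [Finsupp.coe_add, Pi.add_apply]
      rw [Finset.sum_add_distrib]
      congr 1
      simp
    omega

/-- PIECE S433 (`d = 3`, `k = 3`, `e0 - 1 = 9`). `u = ∑_{m ∈ stdExp 4 3 3 9} c(m) x^m`, `c(m)` the
entry of `tab433` at the sorted first three exponents and the fourth. For each of the 206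
monomials `m` of degree 10 with floor sum `≤ 2` one has `∑_{i, m_i ≥ 1} c(m - e_i) = 0`
(finite check, `decide +kernel` over an explicit list or `Finset`), so `ell * u ∈ powI 4 3 3`
(`mem_powI_iff`), but `coeff (1,0,0,8) u = 1`. -/
theorem not_inj_4_2_3 : ¬ Inj 4 2 3 := by
  classical
  intro h
  have h1 : InjP (powI 4 3 3) (ell 4) 9 1 := h
  have h2 : ell 4 ^ 1 * uu ∈ powI 4 3 3 := by
    rw [mem_powI_iff (by norm_num)]
    intro m hm
    by_contra hlt
    push Not at hlt
    have hdeg : ∑ i, m i = 10 :=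
      (isHomogeneous_iff.mp (ell_pow_mul_isHomogeneous uu_hom 1)) m (mem_support_iff.mp hm)
    apply mem_support_iff.mp hm
    rw [pow_one, ell, Finset.sum_mul, coeff_sum]
    rw [Finset.sum_congr rfl fun i _ => coeff_X_uu m hdeg i]
    rw [Fin.sum_univ_four] at hdeg hlt ⊢
    have h3 := check (m 0) (by omega) (m 1) (by omega) (m 2) (by omega) (m 3) (by omega) hdeg
      (by omega)
    have h4 := congrArg (fun x : ℤ => (x : ℂ)) h3
    simp only [Finsupp.coe_tsub, Pi.sub_apply, Finsupp.single_apply] at *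
    push_cast at h4
    simpa using h4
  have h3 := h1 uu uu_hom h2
  rw [mem_powI_iff (by norm_num)] at h3
  have h4 := h3 (Finsupp.equivFunOnFinite.symm ![1, 0, 0, 8]) (by
    rw [mem_support_iff, coeff_uu]
    · have : val 1 0 0 8 = 1 := check1
      simp [this]
    · rw [Fin.sum_univ_four]
      simp)
  rw [Fin.sum_univ_four] at h4
  simp at h4

end Pool.Agent.Lib_MP_8b82cd_w
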