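import Mathlib
import Pool.Agent.Lib_MP_8b82cd_w.A3

/-! `T_{4,4,3}` -/

namespace Pool.Agent.Lib_MP_8b82cd_w

open MvPolynomial Pool.Agent.Lib_MP_8b82cd_ag

/-- the exponents of `stdExp 4 4 3 t` by their first three entries -/
private def tri443 (t : ℕ) : Finset (ℕ × ℕ × ℕ) :=
  ((Finset.range (t + 1)) ×ˢ (Finset.range (t + 1)) ×ˢ (Finset.range (t + 1))).filter fun p =>
    p.1 + p.2.1 + p.2.2 ≤ t ∧
      p.1 / 4 + p.2.1 / 4 + p.2.2 / 4 + (t - (p.1 + p.2.1 + p.2.2)) / 4 < 3

private theorem card_tri443 : (tri443 13).card = (tri443 14).card := by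
  decide +kernel

private theorem card_std443 (t : ℕ) : (stdExp 4 4 3 t).card = (tri443 t).card := by
  refine Finset.card_bij (fun m _ => (m 0, m 1, m 2)) ?_ ?_ ?_
  · intro m hm
    rw [mem_stdExp, Fin.sum_univ_four, Fin.sum_univ_four] at hm
    obtain ⟨h1, h2⟩ := hm
    simp only [tri443, Finset.mem_filter, Finset.mem_product, Finset.mem_range]
    have h3 : t - (m 0 + m 1 + m 2) = m 3 := by omega
    rw [h3]
    refine ⟨⟨by omega, by omega, by omega⟩, by omega, h2⟩
  · intro m hm m' hm' h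
    rw [mem_stdExp, Fin.sum_univ_four, Fin.sum_univ_four] at hm hm'
    simp only [Prod.mk.injEq] at h
    obtain ⟨h0, h1, h2⟩ := h
    ext i
    fin_cases i
    · exact h0
    · exact h1
    · exact h2
    · have := hm.1
      have := hm'.1
      show m 3 = m' 3
      omega
  · rintro ⟨a, b, c⟩ hp
    simp only [tri443, Finset.mem_filter, Finset.mem_product, Finset.mem_range] at hp
    obtain ⟨-, h1, h2⟩ := hp
    refine ⟨Finsupp.equivFunOnFinite.symm ![a, b, c, t - (a + b + c)], ?_, ?_⟩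
    · rw [mem_stdExp, Fin.sum_univ_four, Fin.sum_univ_four]
      simp
      refine ⟨by omega, h2⟩
    · simp

/-- the polynomial with coefficients `c` -/
private noncomputable def pol443 (A : Finset (Fin 4 →₀ ℕ)) :
    ({m // m ∈ A} → ℂ) →ₗ[ℂ] MvPolynomial (Fin 4) ℂ :=
  ∑ m : {m // m ∈ A}, (monomial (m : Fin 4 →₀ ℕ)).comp (LinearMap.proj m)

private theorem pol443_apply (A : Finset (Fin 4 →₀ ℕ)) (c : {m // m ∈ A} → ℂ) :
    pol443 A c = ∑ m : {m // m ∈ A}, monomial (m : Fin 4 →₀ ℕ) (c m) := by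
  simp [pol443, LinearMap.sum_apply]

private theorem coeff_pol443 (A : Finset (Fin 4 →₀ ℕ)) (c : {m // m ∈ A} → ℂ)
    (m : {m // m ∈ A}) : coeff (m : Fin 4 →₀ ℕ) (pol443 A c) = c m := by
  rw [pol443_apply, coeff_sum, Finset.sum_eq_single m]
  · rw [coeff_monomial, if_pos rfl]
  · intro b _ hb
    rw [coeff_monomial, if_neg]
    intro h
    exact hb (Subtype.ext h)
  · intro h
    exact absurd (Finset.mem_univ _) h

private theorem pol443_hom {t : ℕ} (c : {m // m ∈ stdExp 4 4 3 t} → ℂ) :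
    (pol443 _ c).IsHomogeneous t := by
  rw [pol443_apply]
  apply IsHomogeneous.sum
  intro m _
  apply isHomogeneous_monomial
  rw [Finsupp.degree_eq_sum]
  exact (mem_stdExp.1 m.2).1

/-- PIECE S443: `stdExp 4 4 3 13` and `stdExp 4 4 3 14` both have 480 elements and `xL` is not
surjective (`not_surj`), so it is not injective. -/
theorem not_inj_4_3_3 : ¬ Inj 4 3 3 := by
  intro hI
  have hinj : InjP (powI 4 4 3) (ell 4) 13 1 := hI
  apply not_surj (n := 4) (D := 3) (k := 3) (by norm_num) (by norm_num) (by norm_num)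
  show SurjP (powI 4 4 3) (ell 4) 13 1
  intro g hg
  let Φ : ({m // m ∈ stdExp 4 4 3 13} → ℂ) →ₗ[ℂ] ({m // m ∈ stdExp 4 4 3 14} → ℂ) :=
    { toFun := fun c m => coeff (m : Fin 4 →₀ ℕ) (ell 4 * pol443 _ c)
      map_add' := fun c c' => by
        funext m
        simp [mul_add]
      map_smul' := fun r c => by
        funext m
        simp }
  have hker : Function.Injective Φ := by
    rw [← LinearMap.ker_eq_bot, LinearMap.ker_eq_bot']
    intro c hc
    have hmem : pol443 _ c ∈ powI 4 4 3 := by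
      apply hinj _ (pol443_hom c)
      rw [pow_one, mem_powI_iff (by norm_num)]
      intro m hm
      by_contra hlt
      push Not at hlt
      have h1 := ell_pow_mul_isHomogeneous (pol443_hom c) 1
      rw [pow_one] at h1
      have h2 := isHomogeneous_iff.1 h1 m (mem_support_iff.1 hm)
      have h3 : Φ c ⟨m, mem_stdExp.2 ⟨h2, hlt⟩⟩ = 0 := by rw [hc]; rfl
      exact mem_support_iff.1 hm h3
    funext m
    by_contra hne
    have h1 : coeff (m : Fin 4 →₀ ℕ) (pol443 _ c) ≠ 0 := by
      rw [coeff_pol443]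
      exact hne
    have h2 := (mem_powI_iff (by norm_num) 3).1 hmem m (mem_support_iff.2 h1)
    exact absurd h2 (not_le.2 (mem_stdExp.1 m.2).2)
  have hcard : Module.finrank ℂ ({m // m ∈ stdExp 4 4 3 13} → ℂ) =
      Module.finrank ℂ ({m // m ∈ stdExp 4 4 3 14} → ℂ) := by
    rw [Module.finrank_pi, Module.finrank_pi, Fintype.card_coe, Fintype.card_coe, card_std443,
      card_std443]
    exact card_tri443
  have hsurj : Function.Surjective Φ :=
    (LinearMap.injective_iff_surjective_of_finrank_eq_finrank hcard).1 hker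
  obtain ⟨c, hc⟩ := hsurj fun m => coeff (m : Fin 4 →₀ ℕ) g
  refine ⟨pol443 _ c, pol443_hom c, ?_⟩
  rw [pow_one, mem_powI_iff (by norm_num)]
  intro m hm
  by_contra hlt
  push Not at hlt
  have h1 := ell_pow_mul_isHomogeneous (pol443_hom c) 1
  rw [pow_one] at h1
  have h2 := isHomogeneous_iff.1 (hg.sub h1) m (mem_support_iff.1 hm)
  have h3 : Φ c ⟨m, mem_stdExp.2 ⟨h2, hlt⟩⟩ = coeff m g := by rw [hc]
  apply mem_support_iff.1 hm
  rw [coeff_sub]
  exact sub_eq_zero.2 h3.symm

end Pool.Agent.Lib_MP_8b82cd_w
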