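import Mathlib
import Pool.Agent.Lib_MP_8b82cd_w.S543d1
import Pool.Agent.Lib_MP_8b82cd_w.S543d2
import Pool.Agent.Lib_MP_8b82cd_w.S543d3
import Pool.Agent.Lib_MP_8b82cd_w.S543d4
import Pool.Agent.Lib_MP_8b82cd_w.S543d5
import Pool.Agent.Lib_MP_8b82cd_w.S543d6
import Pool.Agent.Lib_MP_8b82cd_w.S543d7
import Pool.Agent.Lib_MP_8b82cd_w.S543d8
import Pool.Agent.Lib_MP_8b82cd_w.S543d9

/-! Certificate for `T_{5,4,3}`: right inverse modulo `17` on the sorted monomials of degree 14. -/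

namespace Pool.Agent.Lib_MP_8b82cd_w.S543

/-- all certificates -/
def dts : List Dat := [dt0, dt1, dt2, dt3, dt4, dt5, dt6, dt7, dt8, dt9, dt10, dt11,
  dt12, dt13, dt14, dt15, dt16, dt17, dt18, dt19, dt20, dt21, dt22, dt23,
  dt24, dt25, dt26, dt27, dt28, dt29, dt30, dt31, dt32, dt33, dt34, dt35,
  dt36, dt37, dt38, dt39, dt40, dt41, dt42, dt43, dt44, dt45, dt46, dt47,
  dt48, dt49, dt50, dt51, dt52, dt53]

theorem dts_ok : ∀ t ∈ dts, chk t = true :=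
  List.forall_mem_cons.2 ⟨ok0,
  List.forall_mem_cons.2 ⟨ok1,
  List.forall_mem_cons.2 ⟨ok2,
  List.forall_mem_cons.2 ⟨ok3,
  List.forall_mem_cons.2 ⟨ok4,
  List.forall_mem_cons.2 ⟨ok5,
  List.forall_mem_cons.2 ⟨ok6,
  List.forall_mem_cons.2 ⟨ok7,
  List.forall_mem_cons.2 ⟨ok8,
  List.forall_mem_cons.2 ⟨ok9,
  List.forall_mem_cons.2 ⟨ok10,
  List.forall_mem_cons.2 ⟨ok11,
  List.forall_mem_cons.2 ⟨ok12,
  List.forall_mem_cons.2 ⟨ok13,
  List.forall_mem_cons.2 ⟨ok14,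
  List.forall_mem_cons.2 ⟨ok15,
  List.forall_mem_cons.2 ⟨ok16,
  List.forall_mem_cons.2 ⟨ok17,
  List.forall_mem_cons.2 ⟨ok18,
  List.forall_mem_cons.2 ⟨ok19,
  List.forall_mem_cons.2 ⟨ok20,
  List.forall_mem_cons.2 ⟨ok21,
  List.forall_mem_cons.2 ⟨ok22,
  List.forall_mem_cons.2 ⟨ok23,
  List.forall_mem_cons.2 ⟨ok24,
  List.forall_mem_cons.2 ⟨ok25,
  List.forall_mem_cons.2 ⟨ok26,
  List.forall_mem_cons.2 ⟨ok27,
  List.forall_mem_cons.2 ⟨ok28,
  List.forall_mem_cons.2 ⟨ok29,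
  List.forall_mem_cons.2 ⟨ok30,
  List.forall_mem_cons.2 ⟨ok31,
  List.forall_mem_cons.2 ⟨ok32,
  List.forall_mem_cons.2 ⟨ok33,
  List.forall_mem_cons.2 ⟨ok34,
  List.forall_mem_cons.2 ⟨ok35,
  List.forall_mem_cons.2 ⟨ok36,
  List.forall_mem_cons.2 ⟨ok37,
  List.forall_mem_cons.2 ⟨ok38,
  List.forall_mem_cons.2 ⟨ok39,
  List.forall_mem_cons.2 ⟨ok40,
  List.forall_mem_cons.2 ⟨ok41,
  List.forall_mem_cons.2 ⟨ok42,
  List.forall_mem_cons.2 ⟨ok43,
  List.forall_mem_cons.2 ⟨ok44,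
  List.forall_mem_cons.2 ⟨ok45,
  List.forall_mem_cons.2 ⟨ok46,
  List.forall_mem_cons.2 ⟨ok47,
  List.forall_mem_cons.2 ⟨ok48,
  List.forall_mem_cons.2 ⟨ok49,
  List.forall_mem_cons.2 ⟨ok50,
  List.forall_mem_cons.2 ⟨ok51,
  List.forall_mem_cons.2 ⟨ok52,
  List.forall_mem_cons.2 ⟨ok53,
  fun _ h => absurd h List.not_mem_nil⟩⟩⟩⟩⟩⟩⟩⟩⟩⟩⟩⟩⟩⟩⟩⟩⟩⟩⟩⟩⟩⟩⟩⟩⟩⟩⟩⟩⟩⟩⟩⟩⟩⟩⟩⟩⟩⟩⟩⟩⟩⟩⟩⟩⟩⟩⟩⟩⟩⟩⟩⟩⟩⟩

/-- test that the sorted exponent `(a, b, c, d, 14 - a - b - c - d)` is in the list -/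
def cov (a b c d : ℕ) : Bool :=
  match Nat.ble (a + b + c + d) 14 with
  | false => true
  | true => match Nat.ble (14 - a - b - c - d) d with
    | false => true
    | true => match Nat.ble 3 (fs a b c d (14 - a - b - c - d)) with
      | true => true
      | false => dts.any fun t => Nat.beq t.a a && (Nat.beq t.b b && (Nat.beq t.c c &&
          (Nat.beq t.d d && Nat.beq t.e (14 - a - b - c - d))))

theorem cov_all : (allN 15 fun a => allN (a + 1) fun b => allN (b + 1) fun c =>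
    allN (c + 1) fun d => cov a b c d) = true := by decide +kernel

theorem exists_dat {a b c d e : ℕ} (hab : b ≤ a) (hbc : c ≤ b) (hcd : d ≤ c) (hde : e ≤ d)
    (h1 : a + b + c + d + e = 14) (h2 : a / 4 + b / 4 + c / 4 + d / 4 + e / 4 < 3) :
    ∃ t ∈ dts, t.a = a ∧ t.b = b ∧ t.c = c ∧ t.d = d ∧ t.e = e := by
  have h3 := allN_spec (allN_spec (allN_spec (allN_spec cov_all a (by omega)) b (by omega)) c
    (by omega)) d (by omega)
  have he : 14 - a - b - c - d = e := by omega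
  unfold cov at h3
  rw [he] at h3
  have e1 : Nat.ble (a + b + c + d) 14 = true := Nat.ble_eq_true_of_le (by omega)
  have e2 : Nat.ble e d = true := Nat.ble_eq_true_of_le hde
  have e3 : Nat.ble 3 (fs a b c d e) = false := by
    rcases hb : Nat.ble 3 (fs a b c d e) with _ | _
    · rfl
    · have h4 := Nat.le_of_ble_eq_true hb
      have h5 : fs a b c d e = a / 4 + (b / 4 + (c / 4 + (d / 4 + e / 4))) := rfl
      omega
  rw [e1, e2, e3] at h3
  obtain ⟨t, ht, h4⟩ := List.any_eq_true.1 h3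
  simp only [Bool.and_eq_true] at h4
  exact ⟨t, ht, Nat.eq_of_beq_eq_true h4.1, Nat.eq_of_beq_eq_true h4.2.1,
    Nat.eq_of_beq_eq_true h4.2.2.1, Nat.eq_of_beq_eq_true h4.2.2.2.1,
    Nat.eq_of_beq_eq_true h4.2.2.2.2⟩

theorem chk_spec {t : Dat} (ht : chk t = true) {a b c d e : ℕ} (h1 : a + b + c + d + e = 14)
    (h2 : a / 4 + b / 4 + c / 4 + d / 4 + e / 4 < 3) :
    sm t.Y a b c d e % 17 = if a = t.a ∧ b = t.b ∧ c = t.c ∧ d = t.d then 1 else 0 := by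
  have h3 := allN_spec (allN_spec (allN_spec (allN_spec ht a (by omega)) b
    (show b < 15 - a by omega)) c (show c < 15 - (a + b) by omega)) d
    (show d < 15 - (a + (b + c)) by omega)
  have h4 : Nat.sub 14 (Nat.add a (Nat.add b (Nat.add c d))) = e := by
    show 14 - (a + (b + (c + d))) = e
    omega
  unfold one at h3
  rw [h4] at h3
  have e3 : Nat.ble 3 (fs a b c d e) = false := by
    rcases hb : Nat.ble 3 (fs a b c d e) with _ | _
    · rfl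
    · have h4 := Nat.le_of_ble_eq_true hb
      have h5 : fs a b c d e = a / 4 + (b / 4 + (c / 4 + (d / 4 + e / 4))) := rfl
      omega
  rw [e3] at h3
  have h5 := Nat.eq_of_beq_eq_true h3
  have h6 : sm t.Y a b c d e % 17 = Nat.mod (sm t.Y a b c d e) 17 := rfl
  rw [h6, h5]
  have hbt : ∀ x y : ℕ, Nat.beq x y = true → x = y := fun x y h => Nat.eq_of_beq_eq_true h
  have hbf : ∀ x y : ℕ, Nat.beq x y = false → x ≠ y := fun x y h => Nat.ne_of_beq_eq_false h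
  rcases ha : Nat.beq a t.a with _ | _
  · have := hbf _ _ ha
    rw [if_neg (by tauto)]
  · rcases hb : Nat.beq b t.b with _ | _
    · have := hbf _ _ hb
      rw [if_neg (by tauto)]
    · rcases hc : Nat.beq c t.c with _ | _
      · have := hbf _ _ hc
        rw [if_neg (by tauto)]
      · rcases hd : Nat.beq d t.d with _ | _
        · have := hbf _ _ hd
          rw [if_neg (by tauto)]
        · rw [if_pos ⟨hbt _ _ ha, hbt _ _ hb, hbt _ _ hc, hbt _ _ hd⟩]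

theorem cert (r : Fin 5 → ℕ) (hr : Antitone r) (h1 : ∑ i, r i = 14) (h2 : ∑ i, r i / 4 < 3) :
    ∃ y : (Fin 5 → ℕ) → ℕ, (∀ m, 3 ≤ ∑ i, m i / 4 → y m = 0) ∧
      ∀ m : Fin 5 → ℕ, ∑ i, m i = 14 → ∑ i, m i / 4 < 3 →
        (∑ i, y (m + Pi.single i 1)) % 17 = if m = r then 1 else 0 := by
  rw [Fin.sum_univ_five] at h1 h2
  obtain ⟨t, ht, ta, tb, tc, td, te⟩ := exists_dat (hr (show (0 : Fin 5) ≤ 1 by decide))
    (hr (show (1 : Fin 5) ≤ 2 by decide)) (hr (show (2 : Fin 5) ≤ 3 by decide))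
    (hr (show (3 : Fin 5) ≤ 4 by decide)) h1 h2
  refine ⟨fun m => yv t.Y (m 0) (m 1) (m 2) (m 3) (m 4), ?_, ?_⟩
  · intro m hm
    rw [Fin.sum_univ_five] at hm
    show yv t.Y (m 0) (m 1) (m 2) (m 3) (m 4) = 0
    unfold yv
    have h5 : fs (m 0) (m 1) (m 2) (m 3) (m 4) =
      m 0 / 4 + (m 1 / 4 + (m 2 / 4 + (m 3 / 4 + m 4 / 4))) := rfl
    have h6 : Nat.ble 3 (fs (m 0) (m 1) (m 2) (m 3) (m 4)) = true :=
      Nat.ble_eq_true_of_le (by omega)
    rw [h6]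
  · intro m hm1 hm2
    rw [Fin.sum_univ_five] at hm1 hm2
    have h3 := chk_spec (dts_ok t ht) hm1 hm2
    have h4 : (∑ i, (fun m : Fin 5 → ℕ => yv t.Y (m 0) (m 1) (m 2) (m 3) (m 4))
        (m + Pi.single i 1)) = sm t.Y (m 0) (m 1) (m 2) (m 3) (m 4) := by
      rw [Fin.sum_univ_five]
      simp only [Pi.add_apply]
      have s0 : ∀ i j : Fin 5, (Pi.single i 1 : Fin 5 → ℕ) j = if j = i then 1 else 0 := by
        intro i j
        rw [Pi.single_apply]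
      simp only [s0]
      unfold sm
      simp [add_assoc]
    rw [h4, h3]
    have h5 : (m 0 = t.a ∧ m 1 = t.b ∧ m 2 = t.c ∧ m 3 = t.d) ↔ m = r := by
      rw [ta, tb, tc, td]
      constructor
      · rintro ⟨e0, e1, e2, e3⟩
        funext i
        fin_cases i
        · exact e0
        · exact e1
        · exact e2
        · exact e3
        · show m 4 = r 4
          omega
      · rintro rfl
        exact ⟨rfl, rfl, rfl, rfl⟩
    by_cases h6 : m = r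
    · rw [if_pos h6, if_pos (h5.2 h6)]
    · rw [if_neg h6, if_neg (fun h => h6 (h5.1 h))]

end Pool.Agent.Lib_MP_8b82cd_w.S543
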