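import Mathlib
import Pool.Agent.Lib_MP_8b82cd_w.Defs

/-! Injectivity from a right inverse modulo a prime. -/

namespace Pool.Agent.Lib_MP_8b82cd_w

open MvPolynomial Pool.Agent.Lib_MP_8b82cd_ag

variable {n : ℕ}

/-- an integer matrix which is the identity modulo a prime is injective over the complex numbers -/
theorem zero_of_one_mod {A : Type*} [Fintype A] [DecidableEq A] (p : ℕ) (hp : p.Prime)
    (N : Matrix A A ℤ) (hN : N.map (Int.cast : ℤ → ZMod p) = 1) (c : A → ℂ)
    (hc : (N.map (Int.cast : ℤ → ℂ)).mulVec c = 0) : c = 0 := by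
  have : Fact p.Prime := ⟨hp⟩
  have h1 : ((N.det : ℤ) : ZMod p) = 1 := by
    have h := RingHom.map_det (Int.castRingHom (ZMod p)) N
    have h2 : (Int.castRingHom (ZMod p)).mapMatrix N = 1 := hN
    rw [h2, Matrix.det_one] at h
    simpa using h
  have h2 : N.det ≠ 0 := by
    intro h
    rw [h, Int.cast_zero] at h1
    exact zero_ne_one h1
  have h3 : (N.map (Int.cast : ℤ → ℂ)).det ≠ 0 := by
    have h := RingHom.map_det (Int.castRingHom ℂ) N
    have h4 : (Int.castRingHom ℂ).mapMatrix N = N.map (Int.cast : ℤ → ℂ) := rfl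
    rw [h4] at h
    rw [← h]
    simpa using h2
  exact Matrix.eq_zero_of_mulVec_eq_zero h3 hc

private theorem floor_add {d : ℕ} (m : Fin n →₀ ℕ) (i : Fin n) :
    ∑ j, m j / d ≤ ∑ j, (⇑m + Pi.single i 1 : Fin n → ℕ) j / d := by
  refine Finset.sum_le_sum fun j _ => Nat.div_le_div_right ?_
  simp

/-- Injectivity in degree `e - 1` from a right inverse, modulo a prime `p`, of the contraction
from degree `e` to degree `e - 1`. -/
theorem inj_of_cert {d k e : ℕ} (hd : 0 < d) (p : ℕ) (hp : p.Prime)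
    (hy : ∀ m0 ∈ stdExp n d k (e - 1), ∃ y : (Fin n → ℕ) → ℕ,
      (∀ m, k ≤ ∑ i, m i / d → y m = 0) ∧
      ∀ m ∈ stdExp n d k (e - 1),
        (∑ i, y (⇑m + Pi.single i 1)) % p = if m = m0 then 1 else 0) :
    InjP (powI n d k) (ell n) (e - 1) 1 := by
  classical
  intro f hf hJ
  rw [pow_one, mem_powI_iff hd] at hJ
  set A := stdExp n d k (e - 1) with hA
  choose y hy1 hy2 using hy
  let N : Matrix A A ℤ := fun m0 m =>
    ((∑ i, y m0.1 m0.2 (⇑m.1 + Pi.single i 1) : ℕ) : ℤ)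
  have hN : N.map (Int.cast : ℤ → ZMod p) = 1 := by
    ext m0 m
    have h1 : (N.map (Int.cast : ℤ → ZMod p)) m0 m =
        ((∑ i, y m0.1 m0.2 (⇑m.1 + Pi.single i 1) : ℕ) : ZMod p) := by
      show (((∑ i, y m0.1 m0.2 (⇑m.1 + Pi.single i 1) : ℕ) : ℤ) : ZMod p) = _
      rw [Int.cast_natCast]
    rw [h1, ← ZMod.natCast_mod, hy2 m0.1 m0.2 m.1 m.2, Matrix.one_apply]
    by_cases hm : m0 = m
    · rw [if_pos (by rw [hm]), if_pos hm, Nat.cast_one]
    · rw [if_neg (fun h => hm (Subtype.ext h.symm)), if_neg hm, Nat.cast_zero]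
  have hc : (N.map (Int.cast : ℤ → ℂ)).mulVec (fun m : A => coeff (m : Fin n →₀ ℕ) f) = 0 := by
    ext m0
    let Y : (Fin n →₀ ℕ) → ℂ := fun m => (y m0.1 m0.2 (⇑m) : ℂ)
    let Φ : MvPolynomial (Fin n) ℂ →ₗ[ℂ] ℂ := (basisMonomials (Fin n) ℂ).constr ℂ Y
    have hΦ : ∀ (m : Fin n →₀ ℕ) (c : ℂ), Φ (monomial m c) = c * Y m := by
      intro m c
      have h1 : monomial m c = c • (basisMonomials (Fin n) ℂ m) := by
        rw [coe_basisMonomials, smul_monomial, smul_eq_mul, mul_one]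
      rw [h1, map_smul, Module.Basis.constr_basis, smul_eq_mul]
    have hsum : ∀ g : MvPolynomial (Fin n) ℂ, Φ g = ∑ m ∈ g.support, coeff m g * Y m := by
      intro g
      conv_lhs => rw [g.as_sum]
      rw [map_sum]
      exact Finset.sum_congr rfl fun m _ => hΦ m _
    have hzero : Φ (ell n * f) = 0 := by
      rw [hsum]
      apply Finset.sum_eq_zero
      intro m hm
      have h1 : y m0.1 m0.2 (⇑m) = 0 := hy1 m0.1 m0.2 _ (hJ m hm)
      show _ * (y m0.1 m0.2 (⇑m) : ℂ) = 0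
      rw [h1, Nat.cast_zero, mul_zero]
    have hmon : ∀ (m : Fin n →₀ ℕ) (c : ℂ), Φ (ell n * monomial m c) =
        c * ∑ i, (y m0.1 m0.2 (⇑m + Pi.single i 1) : ℂ) := by
      intro m c
      rw [ell, Finset.sum_mul, map_sum, Finset.mul_sum]
      apply Finset.sum_congr rfl
      intro i _
      rw [X, monomial_mul, one_mul, hΦ]
      congr 2
      have h5 : (⇑(Finsupp.single i 1 + m : Fin n →₀ ℕ) : Fin n → ℕ) = ⇑m + Pi.single i 1 := by
        ext j
        simp [Finsupp.single_apply, Pi.single_apply, add_comm, eq_comm]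
      show (y m0.1 m0.2 (⇑(Finsupp.single i 1 + m : Fin n →₀ ℕ)) : ℂ) = _
      rw [h5]
    have h2 : Φ (ell n * f) = ∑ m ∈ f.support, coeff m f *
        ∑ i, (y m0.1 m0.2 (⇑m + Pi.single i 1) : ℂ) := by
      conv_lhs => rw [f.as_sum, Finset.mul_sum, map_sum]
      exact Finset.sum_congr rfl fun m _ => hmon m _
    have h3 : ∑ m ∈ f.support, coeff m f *
        ∑ i, (y m0.1 m0.2 (⇑m + Pi.single i 1) : ℂ) =
        ∑ m ∈ A, coeff m f *
        ∑ i, (y m0.1 m0.2 (⇑m + Pi.single i 1) : ℂ) := by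
      have hu1 := Finset.sum_subset (Finset.subset_union_left (s₁ := f.support) (s₂ := A))
        (f := fun m => coeff m f * ∑ i, (y m0.1 m0.2 (⇑m + Pi.single i 1) : ℂ)) ?_
      have hu2 := Finset.sum_subset (Finset.subset_union_right (s₁ := f.support) (s₂ := A))
        (f := fun m => coeff m f * ∑ i, (y m0.1 m0.2 (⇑m + Pi.single i 1) : ℂ)) ?_
      · exact hu1.trans hu2.symm
      · intro m hm hmA
        have hms : m ∈ f.support := by
          rcases Finset.mem_union.mp hm with h | h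
          · exact h
          · exact absurd h hmA
        have hdeg := (isHomogeneous_iff.mp hf) m (mem_support_iff.mp hms)
        have hk : k ≤ ∑ i, m i / d := by
          by_contra hlt
          push Not at hlt
          exact hmA (mem_stdExp.mpr ⟨hdeg, hlt⟩)
        have h4 : ∑ i, (y m0.1 m0.2 (⇑m + Pi.single i 1) : ℂ) = 0 := by
          apply Finset.sum_eq_zero
          intro i _
          rw [hy1 m0.1 m0.2 _ (le_trans hk (floor_add m i)), Nat.cast_zero]
        show coeff m f * ∑ i, (y m0.1 m0.2 (⇑m + Pi.single i 1) : ℂ) = 0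
        rw [h4, mul_zero]
      · intro m _ hms
        show coeff m f * ∑ i, (y m0.1 m0.2 (⇑m + Pi.single i 1) : ℂ) = 0
        rw [notMem_support_iff.mp hms, zero_mul]
    have h4 : ∑ m : A, (N.map (Int.cast : ℤ → ℂ)) m0 m * coeff (m : Fin n →₀ ℕ) f = 0 := by
      rw [← hzero, h2, h3, ← Finset.sum_coe_sort A]
      apply Finset.sum_congr rfl
      intro m _
      rw [mul_comm]
      congr 1
      show (((∑ i, y m0.1 m0.2 (⇑m.1 + Pi.single i 1) : ℕ) : ℤ) : ℂ) = _
      push_cast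
      rfl
    simpa [Matrix.mulVec, dotProduct] using h4
  have h0 := zero_of_one_mod p hp N hN _ hc
  rw [mem_powI_iff hd]
  intro m hm
  by_contra hlt
  push Not at hlt
  have hdeg := (isHomogeneous_iff.mp hf) m (mem_support_iff.mp hm)
  have hmA : m ∈ A := mem_stdExp.mpr ⟨hdeg, hlt⟩
  exact (mem_support_iff.mp hm) (congrFun h0 ⟨m, hmA⟩)

end Pool.Agent.Lib_MP_8b82cd_w
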