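import Mathlib
import Pool.Agent.Lib_MP_8b82cd_w.B1
import Pool.Agent.Lib_MP_8b82cd_w.S543b
import Pool.Agent.Lib_MP_8b82cd_w.S543c

/-! `T_{5,4,3}`. -/

namespace Pool.Agent.Lib_MP_8b82cd_w

open MvPolynomial Pool.Agent.Lib_MP_8b82cd_ag

private theorem s543_hy (m0 : Fin 5 →₀ ℕ) (hm0 : m0 ∈ stdExp 5 4 3 14) :
    ∃ y : (Fin 5 → ℕ) → ℕ, (∀ m, 3 ≤ ∑ i, m i / 4 → y m = 0) ∧
      ∀ m ∈ stdExp 5 4 3 14, (∑ i, y (⇑m + Pi.single i 1)) % 17 = if m = m0 then 1 else 0 := by
  classical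
  obtain ⟨h1, h2⟩ := mem_stdExp.mp hm0
  let τ : Equiv.Perm (Fin 5) := Fin.revPerm.trans (Tuple.sort (⇑m0))
  have hτ : Antitone (fun i => m0 (τ i)) := by
    intro i j hij
    exact Tuple.monotone_sort (⇑m0) (Fin.rev_le_rev.mpr hij)
  obtain ⟨y, hy1, hy2⟩ := S543.cert (fun i => m0 (τ i)) hτ
    (by rw [← h1]; exact Equiv.sum_comp τ (fun i => m0 i))
    (by
      have : ∑ i, m0 (τ i) / 4 = ∑ i, m0 i / 4 := Equiv.sum_comp τ (fun i => m0 i / 4)
      rw [this]; exact h2)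
  refine ⟨fun m => y (fun i => m (τ i)), ?_, ?_⟩
  · intro m hm
    refine hy1 _ ?_
    have : ∑ i, m (τ i) / 4 = ∑ i, m i / 4 := Equiv.sum_comp τ (fun i => m i / 4)
    rw [this]; exact hm
  · intro m hm
    obtain ⟨g1, g2⟩ := mem_stdExp.mp hm
    have h3 := hy2 (fun i => m (τ i))
      (by rw [← g1]; exact Equiv.sum_comp τ (fun i => m i))
      (by
        have : ∑ i, m (τ i) / 4 = ∑ i, m i / 4 := Equiv.sum_comp τ (fun i => m i / 4)
        rw [this]; exact g2)
    have h4 : ∑ i, (fun m : Fin 5 → ℕ => y (fun i => m (τ i))) (⇑m + Pi.single i 1) =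
        ∑ i, y ((fun i => m (τ i)) + Pi.single i 1) := by
      refine (Equiv.sum_comp τ
        (fun i => y (fun j => (⇑m + Pi.single i 1 : Fin 5 → ℕ) (τ j)))).symm.trans ?_
      refine Finset.sum_congr rfl fun i _ => ?_
      show y (fun j => (⇑m + Pi.single (τ i) 1 : Fin 5 → ℕ) (τ j)) = _
      congr 1
      funext j
      simp only [Pi.add_apply, Pi.single_apply, EmbeddingLike.apply_eq_iff_eq]
    rw [h4, h3]
    by_cases h5 : m = m0
    · rw [if_pos h5, if_pos (by rw [h5])]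
    · rw [if_neg h5, if_neg]
      intro h6
      apply h5
      ext i
      have h7 := congrFun h6 (τ.symm i)
      simpa using h7

/-- PIECE S543 (degree 14 → 15, 2535 × 2651, full rank mod 17). Right inverse of the transposed
matrix mod 17 on representatives of the `S_5`-orbits of the monomials of degree 14 (`S543.cert`),
`inj_of_cert`. -/
theorem inj_5_3_3 : Inj 5 3 3 := by
  unfold Inj
  have he : e0 5 3 3 = 15 := by
    unfold e0
    norm_num
  rw [he]
  exact inj_of_cert (by norm_num) 17 (by norm_num) s543_hy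

end Pool.Agent.Lib_MP_8b82cd_w
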