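import Mathlib
import Pool.Agent.Lib_MP_8b82cd_w.B2
import Pool.Agent.Lib_MP_8b82cd_w.B3
import Pool.Agent.Lib_MP_8b82cd_w.B4

/-! Obstructions for even `n * D`. -/

namespace Pool.Agent.Lib_MP_8b82cd_w

open MvPolynomial Pool.Agent.Lib_MP_8b82cd_ag

variable {n : ℕ}

private theorem n1_top (n D : ℕ) : ∀ t, n * D < t → ∀ p : MvPolynomial (Fin n) ℂ,
    p.IsHomogeneous t → p ∈ JJ n D :=
  ci_top (fun _ : Fin n => D + 1) (n * D) (by simp; ring)

private theorem n1_E_zero (D : ℕ) (i : Fin n) : E D i (0 : MvPolynomial (Fin n) ℂ) = 0 := by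
  simp [E]

/-- from the equation `FF p + κ ∑ u_i = v`, `c * v ∈ JJ` and `c * u_i ∈ JJ` to `c * FF p ∈ JJ` -/
private theorem n1_mem {D : ℕ} {p c v : MvPolynomial (Fin n) ℂ}
    {u : Fin n → MvPolynomial (Fin n) ℂ} (h : FF n D p + kap0 D • ∑ i, u i = v)
    (hv : c * v ∈ JJ n D) (hu : ∀ i, c * u i ∈ JJ n D) : c * FF n D p ∈ JJ n D := by
  have e : FF n D p = v - kap0 D • ∑ i, u i := eq_sub_of_add_eq h
  rw [e, mul_sub, mul_smul_comm, Finset.mul_sum]
  exact (JJ n D).sub_mem hv (Submodule.smul_of_tower_mem _ _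
    ((JJ n D).sum_mem fun i _ => hu i))

private theorem n1_sum (q : Fin n →₀ ℕ) (i : Fin n) :
    ∑ j, (q + Finsupp.single i 1 : Fin n →₀ ℕ) j = ∑ j, q j + 1 := by
  simp [Finset.sum_add_distrib]

private theorem n1_single (i : Fin n) : ∑ j, (Finsupp.single i 1 : Fin n →₀ ℕ) j = 1 := by
  simp [Finsupp.single_apply]

private theorem n1_zero_mem {D : ℕ} (c : MvPolynomial (Fin n) ℂ) : c * 0 ∈ JJ n D := by
  rw [mul_zero]
  exact (JJ n D).zero_mem

/-- PIECE N1 (`k = 2`). Suppose `Inj n D 2`; take `g` from `dual_data` (`e = e0 n D 2 = t + 1`).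
For `q = e_i` the equation is `FF (g q) = 0` (`g (q + e_j) = 0`), `deg = nD/2`, so
`ell * g q ∈ JJ` (`wt_zero`), so `ell * E_i (g e_i) ∈ JJ` (`ell_E_mem`). Hence
`ell * FF (g 0) ∈ JJ`, `FF (g 0) ∈ JJ` (`ker_im`), `FF (g 0) = 0` (`Box`), and
`h = κ ∑ E_i (g e_i)`, all of whose monomials have an exponent `D` (`E_support`). -/
theorem neg_even_two {D t : ℕ} (hD : 1 ≤ D) (hpar : n * D % 2 = 0) (h : MvPolynomial (Fin n) ℂ)
    (hh : h.IsHomogeneous t) (ht : 2 * t = n * D + 2 * D) (hb : Box D h)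
    (hL : ell n * h ∈ JJ n D) (m : Fin n →₀ ℕ) (hm : coeff m h ≠ 0) (hmD : ∀ i, m i < D) :
    ¬ Inj n D 2 := by
  intro hI
  have he0 : e0 n D 2 = t + 1 := by
    unfold e0
    omega
  unfold Inj at hI
  rw [he0] at hI
  have hlow := low_ci n D
  have htop := n1_top n D
  obtain ⟨g, hg1, hg2, hg3, -, hg5, hg6⟩ := dual_data (D := D) (k := 2) (e := t + 1)
    (by norm_num) (by omega) hI h hh hb
  -- `|q| = 1`
  have s1 : ∀ q : Fin n →₀ ℕ, ∑ i, q i = 1 → ell n * g q ∈ JJ n D := by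
    intro q hq
    have hq0 : q ≠ 0 := by
      rintro rfl
      simp at hq
    have h1 := hg6 q hq0 (by omega)
    have h2 : FF n D (g q) ∈ JJ n D := by
      have h3 := n1_mem (c := 1) h1 (n1_zero_mem 1) (fun i => by
        rw [hg2 (q + Finsupp.single i 1) (by rw [n1_sum]; omega), n1_E_zero]
        exact n1_zero_mem 1)
      rwa [one_mul] at h3
    exact hlow.wt_zero htop (hg3 q (t - D) (by rw [hq]; omega)) (by omega) h2
  -- `q = 0`
  have hhom0 : (g 0).IsHomogeneous (t + 1) := hg3 0 _ (by simp)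
  have h3 : FF n D (g 0) = 0 := by
    apply box_mem_zero (Box.FF (hg1 0))
    refine hlow.ker_im htop hhom0 (by omega) (n1_mem hg5 hL fun i => ?_)
    exact ell_E_mem i (s1 _ (n1_single i))
  rw [h3, zero_add] at hg5
  rw [← hg5, coeff_smul, coeff_sum] at hm
  have hm2 := right_ne_zero_of_smul hm
  obtain ⟨i, -, hi⟩ := Finset.exists_ne_zero_of_sum_ne_zero hm2
  have h4 := E_support (mem_support_iff.mpr hi)
  have h5 := hmD i
  omega

/-- PIECE N2 (`k = 3`). For `|q| = 2`: `FF (g q) = 0`, weight `0`, `ell * g q ∈ JJ`. For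
`|q| = 1`: `FF (g q) = - κ ∑ E_j (g (q + e_j))`, so `ell * FF (g q) ∈ JJ`, `FF (g q) = 0`
(`ker_im`), `g q = 0` (`low_inj`, degree `nD/2 + D + 1`). For `q = 0`: `h = FF (g 0)`,
`ell * FF (g 0) ∈ JJ`, so `h = 0` (`ker_im`). -/
theorem neg_even_three {D t : ℕ} (hD : 1 ≤ D) (hpar : n * D % 2 = 0)
    (h : MvPolynomial (Fin n) ℂ) (hh : h.IsHomogeneous t) (ht : 2 * t = n * D + 4 * D + 2)
    (hb : Box D h) (hL : ell n * h ∈ JJ n D) (hne : h ≠ 0) :
    ¬ Inj n D 3 := by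
  intro hI
  have he0 : e0 n D 3 = t + 1 := by
    unfold e0
    omega
  unfold Inj at hI
  rw [he0] at hI
  have hlow := low_ci n D
  have htop := n1_top n D
  obtain ⟨g, hg1, hg2, hg3, -, hg5, hg6⟩ := dual_data (D := D) (k := 3) (e := t + 1)
    (by norm_num) (by omega) hI h hh hb
  -- `|q| = 2`
  have s2 : ∀ q : Fin n →₀ ℕ, ∑ i, q i = 2 → ell n * g q ∈ JJ n D := by
    intro q hq
    have hq0 : q ≠ 0 := by
      rintro rfl
      simp at hq
    have h1 := hg6 q hq0 (by omega)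
    have h2 : FF n D (g q) ∈ JJ n D := by
      have h3 := n1_mem (c := 1) h1 (n1_zero_mem 1) (fun i => by
        rw [hg2 (q + Finsupp.single i 1) (by rw [n1_sum]; omega), n1_E_zero]
        exact n1_zero_mem 1)
      rwa [one_mul] at h3
    exact hlow.wt_zero htop (hg3 q (t - 2 * D - 1) (by rw [hq]; omega)) (by omega) h2
  -- `|q| = 1`
  have s1 : ∀ q : Fin n →₀ ℕ, ∑ i, q i = 1 → g q = 0 := by
    intro q hq
    have hq0 : q ≠ 0 := by
      rintro rfl
      simp at hq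
    have h1 := hg6 q hq0 (by omega)
    have h2 : ell n * FF n D (g q) ∈ JJ n D :=
      n1_mem h1 (n1_zero_mem _) (fun i => ell_E_mem i (s2 _ (by rw [n1_sum]; omega)))
    have hhom : (g q).IsHomogeneous (t - D - 1 + 1) := hg3 q _ (by rw [hq]; omega)
    have h3 : FF n D (g q) ∈ JJ n D := hlow.ker_im htop hhom (by omega) h2
    have h4 : g q ∈ JJ n D := hlow.low_inj htop hhom (by omega) h3
    exact box_mem_zero (hg1 q) h4
  -- `q = 0`
  have h0 : FF n D (g 0) = h := by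
    rw [← hg5]
    have : ∑ i, E D i (g (Finsupp.single i 1)) = 0 := by
      refine Finset.sum_eq_zero fun i _ => ?_
      rw [s1 (Finsupp.single i 1) (n1_single i), n1_E_zero]
    rw [this, smul_zero, add_zero]
  have hhom0 : (g 0).IsHomogeneous (t + 1) := hg3 0 _ (by simp)
  have h3 : FF n D (g 0) ∈ JJ n D := hlow.ker_im htop hhom0 (by omega) (by rw [h0]; exact hL)
  rw [h0] at h3
  exact hne (box_mem_zero hb h3)

end Pool.Agent.Lib_MP_8b82cd_w
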