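import Mathlib
import Pool.Agent.Lib_MP_8b82cd_w.Defs

/-! Highest weight vectors: products over pairs. -/

namespace Pool.Agent.Lib_MP_8b82cd_w

open MvPolynomial Pool.Agent.Lib_MP_8b82cd_ag

variable {n : ℕ}

theorem hw_zero (D : ℕ) (w : Fin 0 → ℕ) : HW 0 D w := by
  refine ⟨1, ?_, ?_, ?_, ?_⟩
  · simpa using isHomogeneous_one (Fin 0) ℂ
  · intro m _ i
    exact i.elim0
  · simp [ell]
  · have h : (Finsupp.equivFunOnFinite.symm w : Fin 0 →₀ ℕ) = 0 := Subsingleton.elim _ _
    rw [h, coeff_zero_one]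
    exact one_ne_zero

/-- the first `n` variables -/
private def io (n : ℕ) : Fin n → Fin (n + 2) := fun i => i.castSucc.castSucc
private def uu (n : ℕ) : Fin (n + 2) := (Fin.last n).castSucc
private def vv (n : ℕ) : Fin (n + 2) := Fin.last (n + 1)

private theorem io_inj : Function.Injective (io n) := by
  intro i j h
  exact Fin.castSucc_injective _ (Fin.castSucc_injective _ h)

private theorem io_ne_u (i : Fin n) : io n i ≠ uu n := by
  intro h
  have := Fin.castSucc_injective _ h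
  exact (Fin.castSucc_lt_last i).ne this

private theorem io_ne_v (i : Fin n) : io n i ≠ vv n := (Fin.castSucc_lt_last _).ne

private theorem u_ne_v : uu n ≠ vv n := (Fin.castSucc_lt_last _).ne

private theorem cases3 (j : Fin (n + 2)) : (∃ i, j = io n i) ∨ j = uu n ∨ j = vv n := by
  induction j using Fin.lastCases with
  | last => exact Or.inr (Or.inr rfl)
  | cast j =>
    induction j using Fin.lastCases with
    | last => exact Or.inr (Or.inl rfl)
    | cast j => exact Or.inl ⟨j, rfl⟩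

private theorem ell_split : ell (n + 2) = rename (io n) (ell n) + X (uu n) + X (vv n) := by
  unfold ell
  rw [Fin.sum_univ_castSucc, Fin.sum_univ_castSucc, map_sum]
  congr 2
  apply Finset.sum_congr rfl
  intro i _
  rw [rename_X]
  rfl

private theorem rename_JJ {D : ℕ} {f : MvPolynomial (Fin n) ℂ} (hf : f ∈ JJ n D) :
    rename (io n) f ∈ JJ (n + 2) D := by
  have h1 : Ideal.map (rename (io n) : MvPolynomial (Fin n) ℂ →ₐ[ℂ] MvPolynomial (Fin (n + 2)) ℂ).toRingHom
      (JJ n D) ≤ JJ (n + 2) D := by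
    unfold JJ ciI
    rw [Ideal.map_span, Ideal.span_le]
    rintro x ⟨y, ⟨i, rfl⟩, rfl⟩
    apply Ideal.subset_span
    refine ⟨io n i, ?_⟩
    simp
  exact h1 (Ideal.mem_map_of_mem _ hf)

private theorem X_JJ {D : ℕ} (i : Fin n) (c : ℕ) (hc : D + 1 ≤ c) (f : MvPolynomial (Fin n) ℂ) :
    X i ^ c * f ∈ JJ n D := by
  apply Ideal.mul_mem_right
  obtain ⟨t, rfl⟩ := Nat.exists_eq_add_of_le hc
  rw [pow_add]
  exact Ideal.mul_mem_right _ _ (Ideal.subset_span ⟨i, rfl⟩)

/-- exponents of the terms -/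
private noncomputable def ex (n α β : ℕ) : Fin (n + 2) →₀ ℕ :=
  Finsupp.single (uu n) α + Finsupp.single (vv n) β

private theorem mem_supp {h : MvPolynomial (Fin n) ℂ} {α β : ℕ} {c : ℂ} {m : Fin (n + 2) →₀ ℕ}
    (hm : coeff m (rename (io n) h * monomial (ex n α β) c) ≠ 0) :
    ∃ m1 : Fin n →₀ ℕ, coeff m1 h ≠ 0 ∧ (∀ i, m (io n i) = m1 i) ∧ m (uu n) = α ∧ m (vv n) = β := by
  rw [coeff_mul_monomial'] at hm
  split_ifs at hm with hle
  · have h2 : coeff (m - ex n α β) (rename (io n) h) ≠ 0 := left_ne_zero_of_mul hm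
    obtain ⟨m1, h3, h4⟩ := coeff_rename_ne_zero _ _ _ h2
    have h5 : m = Finsupp.mapDomain (io n) m1 + ex n α β := by
      rw [h3, tsub_add_cancel_of_le hle]
    refine ⟨m1, h4, ?_, ?_, ?_⟩
    · intro i
      rw [h5, Finsupp.add_apply, Finsupp.mapDomain_apply io_inj]
      unfold ex
      rw [Finsupp.add_apply, Finsupp.single_eq_of_ne (io_ne_u i), Finsupp.single_eq_of_ne (io_ne_v i)]
      omega
    · rw [h5, Finsupp.add_apply, Finsupp.mapDomain_of_notMem_range _ _ (by
        rintro ⟨i, hi⟩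
        exact io_ne_u i hi)]
      unfold ex
      rw [Finsupp.add_apply, Finsupp.single_eq_same, Finsupp.single_eq_of_ne u_ne_v]
      omega
    · rw [h5, Finsupp.add_apply, Finsupp.mapDomain_of_notMem_range _ _ (by
        rintro ⟨i, hi⟩
        exact io_ne_v i hi)]
      unfold ex
      rw [Finsupp.add_apply, Finsupp.single_eq_same, Finsupp.single_eq_of_ne u_ne_v.symm]
      omega
  · exact absurd rfl hm

private theorem mon_eq (α β : ℕ) (c : ℂ) : monomial (ex n α β) c =
    C c * (X (uu n) ^ α * X (vv n) ^ β : MvPolynomial (Fin (n + 2)) ℂ) := by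
  unfold ex
  rw [X_pow_eq_monomial, X_pow_eq_monomial, monomial_mul, C_mul_monomial, mul_one, mul_one]

/-- PIECE T1. Multiply `h` (in the first `n` variables) by
`∑_{i + j = a + b, i ≤ D, j ≤ D} (-1)^i x^i y^j` in two new variables
(`(x + y)` times it is in `(x^(D+1), y^(D+1))`, as `a + b ≥ D`). -/
theorem hw_pair {D : ℕ} {w : Fin n → ℕ} (h : HW n D w) (a b : ℕ) (ha : a ≤ D) (hb : b ≤ D)
    (hab : D ≤ a + b) : HW (n + 2) D (Fin.snoc (Fin.snoc w a : Fin (n + 1) → ℕ) b) := by
  obtain ⟨f, hf1, hf2, hf3, hf4⟩ := h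
  obtain ⟨c, hc⟩ := Nat.exists_eq_add_of_le hab
  obtain ⟨m, hm⟩ := Nat.exists_eq_add_of_le (show c ≤ D by omega)
  obtain ⟨i0, hi0⟩ := Nat.exists_eq_add_of_le (show c ≤ a by omega)
  set P : MvPolynomial (Fin (n + 2)) ℂ :=
    ∑ i ∈ Finset.range (m + 1), monomial (ex n (c + i) (c + (m - i))) ((-1 : ℂ) ^ i) with hP
  have hPe : P = (X (uu n) * X (vv n)) ^ c *
      ∑ i ∈ Finset.range (m + 1), (-X (uu n)) ^ i * X (vv n) ^ (m - i) := by
    rw [hP, Finset.mul_sum]
    apply Finset.sum_congr rfl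
    intro i _
    rw [mon_eq, neg_pow (X (uu n) : MvPolynomial (Fin (n + 2)) ℂ) i, C_pow, C_neg, C_1, pow_add, pow_add, mul_pow]
    ring
  have hXP : (X (uu n) + X (vv n)) * P = X (vv n) ^ (D + 1) * X (uu n) ^ c -
      X (uu n) ^ (D + 1) * ((-1) ^ (m + 1) * X (vv n) ^ c) := by
    have h1 := (Commute.all (-X (uu n) : MvPolynomial (Fin (n + 2)) ℂ) (X (vv n))).geom_sum₂_mul (m + 1)
    simp only [Nat.add_sub_cancel] at h1
    rw [hPe]
    have h2 : (X (uu n) + X (vv n) : MvPolynomial (Fin (n + 2)) ℂ) * ((X (uu n) * X (vv n)) ^ c *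
        ∑ i ∈ Finset.range (m + 1), (-X (uu n)) ^ i * X (vv n) ^ (m - i)) =
        -((X (uu n) * X (vv n)) ^ c * ((∑ i ∈ Finset.range (m + 1), (-X (uu n)) ^ i * X (vv n) ^ (m - i)) *
          (-X (uu n) - X (vv n)))) := by ring
    rw [h2, h1, neg_pow (X (uu n) : MvPolynomial (Fin (n + 2)) ℂ) (m + 1), show D + 1 = c + (m + 1) by omega, mul_pow,
      pow_add (X (vv n) : MvPolynomial (Fin (n + 2)) ℂ), pow_add (X (uu n) : MvPolynomial (Fin (n + 2)) ℂ)]
    ring
  have hterm : ∀ m' : Fin (n + 2) →₀ ℕ, coeff m' (rename (io n) f * P) ≠ 0 →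
      ∃ i ∈ Finset.range (m + 1), coeff m' (rename (io n) f * monomial (ex n (c + i) (c + (m - i))) ((-1 : ℂ) ^ i)) ≠ 0 := by
    intro m' hm'
    rw [hP, Finset.mul_sum, coeff_sum] at hm'
    exact Finset.exists_ne_zero_of_sum_ne_zero hm'
  have hsum : ∑ i, (Fin.snoc (Fin.snoc w a : Fin (n + 1) → ℕ) b : Fin (n + 2) → ℕ) i = ∑ i, w i + a + b := by
    rw [Fin.sum_univ_castSucc, Fin.sum_univ_castSucc]
    simp
  have hdeg : ∀ m' : Fin (n + 2) →₀ ℕ, ∑ i, m' i = ∑ i, m' (io n i) + m' (uu n) + m' (vv n) := by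
    intro m'
    rw [Fin.sum_univ_castSucc, Fin.sum_univ_castSucc]
    rfl
  refine ⟨rename (io n) f * P, ?_, ?_, ?_, ?_⟩
  · rw [isHomogeneous_iff, hsum]
    intro m' hm'
    obtain ⟨i, hi, h1⟩ := hterm m' hm'
    obtain ⟨m1, h2, h3, h4, h5⟩ := mem_supp h1
    rw [hdeg, h4, h5, Finset.sum_congr rfl (fun i _ => h3 i), (isHomogeneous_iff.1 hf1) m1 h2]
    have := Finset.mem_range.1 hi
    omega
  · intro m' hm' j
    obtain ⟨i, hi, h1⟩ := hterm m' (mem_support_iff.1 hm')
    obtain ⟨m1, h2, h3, h4, h5⟩ := mem_supp h1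
    have := Finset.mem_range.1 hi
    rcases cases3 j with ⟨t, rfl⟩ | rfl | rfl
    · rw [h3]
      exact hf2 m1 (mem_support_iff.2 h2) t
    · rw [h4]
      omega
    · rw [h5]
      omega
  · have e1 : ell (n + 2) * (rename (io n) f * P) = rename (io n) (ell n * f) * P +
        rename (io n) f * ((X (uu n) + X (vv n)) * P) := by
      rw [ell_split, map_mul]
      ring
    rw [e1]
    apply Ideal.add_mem
    · exact Ideal.mul_mem_right _ _ (rename_JJ hf3)
    · apply Ideal.mul_mem_left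
      rw [hXP]
      apply Ideal.sub_mem
      · exact X_JJ _ _ le_rfl _
      · exact X_JJ _ _ le_rfl _
  · set w' : Fin (n + 2) →₀ ℕ := Finsupp.equivFunOnFinite.symm
      (Fin.snoc (Fin.snoc w a : Fin (n + 1) → ℕ) b : Fin (n + 2) → ℕ) with hw'
    have w1 : ∀ i, w' (io n i) = w i := by
      intro i
      simp [hw', io]
    have w2 : w' (uu n) = a := by
      simp [hw', uu]
    have w3 : w' (vv n) = b := by
      simp [hw', vv]
    rw [hP, Finset.mul_sum, coeff_sum, Finset.sum_eq_single i0]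
    · have hle : ex n (c + i0) (c + (m - i0)) ≤ w' := by
        intro j
        unfold ex
        rcases cases3 j with ⟨t, rfl⟩ | rfl | rfl
        · rw [Finsupp.add_apply, Finsupp.single_eq_of_ne (io_ne_u t), Finsupp.single_eq_of_ne (io_ne_v t)]
          omega
        · rw [Finsupp.add_apply, Finsupp.single_eq_same, Finsupp.single_eq_of_ne u_ne_v, w2]
          omega
        · rw [Finsupp.add_apply, Finsupp.single_eq_same, Finsupp.single_eq_of_ne u_ne_v.symm, w3]
          omega
      rw [coeff_mul_monomial', if_pos hle]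
      have h2 : w' - ex n (c + i0) (c + (m - i0)) =
          Finsupp.mapDomain (io n) (Finsupp.equivFunOnFinite.symm w : Fin n →₀ ℕ) := by
        ext j
        rw [Finsupp.tsub_apply]
        unfold ex
        rcases cases3 j with ⟨t, rfl⟩ | rfl | rfl
        · rw [Finsupp.add_apply, Finsupp.single_eq_of_ne (io_ne_u t), Finsupp.single_eq_of_ne (io_ne_v t),
            Finsupp.mapDomain_apply io_inj, w1]
          simp
        · rw [Finsupp.add_apply, Finsupp.single_eq_same, Finsupp.single_eq_of_ne u_ne_v, w2,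
            Finsupp.mapDomain_of_notMem_range _ _ (by
              rintro ⟨i, hi⟩
              exact io_ne_u i hi)]
          omega
        · rw [Finsupp.add_apply, Finsupp.single_eq_same, Finsupp.single_eq_of_ne u_ne_v.symm, w3,
            Finsupp.mapDomain_of_notMem_range _ _ (by
              rintro ⟨i, hi⟩
              exact io_ne_v i hi)]
          omega
      rw [h2, coeff_rename_mapDomain _ io_inj]
      exact mul_ne_zero hf4 (pow_ne_zero _ (by norm_num))
    · intro i hi hne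
      by_contra h1
      obtain ⟨m1, h2, h3, h4, h5⟩ := mem_supp h1
      rw [w2] at h4
      omega
    · intro hi
      exfalso
      apply hi
      rw [Finset.mem_range]
      omega

end Pool.Agent.Lib_MP_8b82cd_w
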