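import Mathlib
import Pool.Agent.Lib_MP_8b82cd_w.Defs

/-! Highest weight vectors: one new variable. -/

namespace Pool.Agent.Lib_MP_8b82cd_w

open MvPolynomial Pool.Agent.Lib_MP_8b82cd_ag

variable {n : ℕ}

/-- the part of a polynomial with all exponents at most `D` -/
private noncomputable def boxPart (D : ℕ) (f : MvPolynomial (Fin n) ℂ) : MvPolynomial (Fin n) ℂ :=
  ∑ m ∈ f.support.filter (fun m => ∀ i, m i ≤ D), monomial m (coeff m f)

private theorem coeff_boxPart (D : ℕ) (f : MvPolynomial (Fin n) ℂ) (m : Fin n →₀ ℕ) :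
    coeff m (boxPart D f) = if ∀ i, m i ≤ D then coeff m f else 0 := by
  classical
  unfold boxPart
  rw [coeff_sum]
  simp only [coeff_monomial]
  rw [Finset.sum_ite_eq']
  by_cases hm : ∀ i, m i ≤ D
  · rw [if_pos hm]
    by_cases h0 : m ∈ f.support
    · rw [if_pos (Finset.mem_filter.2 ⟨h0, hm⟩)]
    · rw [if_neg (fun h1 => h0 (Finset.mem_filter.1 h1).1), notMem_support_iff.1 h0]
  · rw [if_neg hm, if_neg (fun h1 => hm (Finset.mem_filter.1 h1).2)]

/-- reduction to exponents at most `D` -/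
private theorem hw_of {D : ℕ} {w : Fin n → ℕ} (hw : ∀ i, w i ≤ D) {v : MvPolynomial (Fin n) ℂ}
    (hv : v.IsHomogeneous (∑ i, w i)) (hl : ell n * v ∈ JJ n D)
    (hc : coeff (Finsupp.equivFunOnFinite.symm w) v ≠ 0) : HW n D w := by
  refine ⟨boxPart D v, ?_, ?_, ?_, ?_⟩
  · rw [isHomogeneous_iff] at hv ⊢
    intro m hm
    rw [coeff_boxPart] at hm
    by_cases h : ∀ i, m i ≤ D
    · rw [if_pos h] at hm
      exact hv m hm
    · rw [if_neg h] at hm
      exact absurd rfl hm
  · intro m hm
    rw [mem_support_iff, coeff_boxPart] at hm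
    by_contra h
    rw [if_neg h] at hm
    exact hm rfl
  · have h1 : v - boxPart D v ∈ JJ n D := by
      rw [mem_ciI_iff]
      intro m hm
      rw [mem_support_iff, coeff_sub, coeff_boxPart] at hm
      by_contra h
      push Not at h
      rw [if_pos (fun i => by have := h i; omega), sub_self] at hm
      exact hm rfl
    have h2 : ell n * boxPart D v = ell n * v - ell n * (v - boxPart D v) := by ring
    rw [h2]
    exact Ideal.sub_mem _ hl (Ideal.mul_mem_left _ _ h1)
  · have h1 : ∀ i, (Finsupp.equivFunOnFinite.symm w) i ≤ D := fun i => hw i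
    rw [coeff_boxPart, if_pos h1]
    exact hc

/-- the telescoping sum -/
private noncomputable def tel (L y u : MvPolynomial (Fin n) ℂ) (c : ℕ) :
    ℕ → MvPolynomial (Fin n) ℂ
  | 0 => u * y ^ c
  | t + 1 => L * tel L y u c t + (-1) ^ (t + 1) * (u * y ^ (c + t + 1))

private theorem tel_mul (L y u : MvPolynomial (Fin n) ℂ) (c t : ℕ) :
    (L + y) * tel L y u c t = L ^ (t + 1) * u * y ^ c + (-1) ^ t * (u * y ^ (c + t + 1)) := by
  induction t with
  | zero =>
    show (L + y) * (u * y ^ c) = _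
    ring
  | succ t ih =>
    show (L + y) * (L * tel L y u c t + (-1) ^ (t + 1) * (u * y ^ (c + t + 1))) = _
    have : (L + y) * (L * tel L y u c t + (-1) ^ (t + 1) * (u * y ^ (c + t + 1))) =
        L * ((L + y) * tel L y u c t) + (L + y) * ((-1) ^ (t + 1) * (u * y ^ (c + t + 1))) := by
      ring
    rw [this, ih]
    ring

private theorem tel_split (L y u : MvPolynomial (Fin n) ℂ) (c t : ℕ) :
    ∃ R, tel L y u c t = L ^ t * u * y ^ c + y ^ (c + 1) * R := by
  induction t with
  | zero =>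
    refine ⟨0, ?_⟩
    show u * y ^ c = _
    ring
  | succ t ih =>
    obtain ⟨R, hR⟩ := ih
    refine ⟨L * R + (-1) ^ (t + 1) * (u * y ^ t), ?_⟩
    show L * tel L y u c t + (-1) ^ (t + 1) * (u * y ^ (c + t + 1)) = _
    rw [hR]
    ring

private theorem tel_hom {L y u : MvPolynomial (Fin n) ℂ} {a : ℕ} (hL : L.IsHomogeneous 1)
    (hy : y.IsHomogeneous 1) (hu : u.IsHomogeneous a) (c t : ℕ) :
    (tel L y u c t).IsHomogeneous (a + t + c) := by
  induction t with
  | zero =>
    show (u * y ^ c).IsHomogeneous (a + 0 + c)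
    have := hu.mul (hy.pow c)
    convert this using 1
    ring
  | succ t ih =>
    show (L * tel L y u c t + (-1) ^ (t + 1) * (u * y ^ (c + t + 1))).IsHomogeneous (a + (t + 1) + c)
    apply IsHomogeneous.add
    · have := hL.mul ih
      convert this using 1
      ring
    · have h1 := hu.mul (hy.pow (c + t + 1))
      have h2 : ((-1 : MvPolynomial (Fin n) ℂ) ^ (t + 1)).IsHomogeneous 0 := by
        have : (-1 : MvPolynomial (Fin n) ℂ) ^ (t + 1) = C ((-1) ^ (t + 1)) := by
          rw [map_pow, map_neg, map_one]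
        rw [this]
        exact isHomogeneous_C _ _
      have := h2.mul h1
      convert this using 1
      ring

/-- PIECE T2. `h` has degree `s = ∑ w_i`, `2s - nD ≥ τ := D - c`. By `ci_surjP` (`i = s - τ`,
`j = τ`, `σ = nD`; `s ≥ τ` because `s ≤ nD`) there is `u` with `h - ell^τ u ∈ JJ n D`. Put
`v = ∑_{j=0}^{τ} (-1)^j (ell_n^(τ-j) u) x_new^(c+j)`, then
`(ell_n + x_new) v = ell_n^(τ+1) u x_new^c ± u x_new^(D+1) ∈ JJ (n+1) D`; the `x_new^c` part of
`v` is `h` modulo `JJ n D`; reduce modulo `JJ (n+1) D`. -/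
theorem hw_ext {D : ℕ} {w : Fin n → ℕ} (h : HW n D w) (c : ℕ) (hc : c ≤ D)
    (hcw : n * D + (D - c) ≤ 2 * ∑ i, w i) : HW (n + 1) D (Fin.snoc w c) := by
  obtain ⟨h, hhom, hbox, hL, hco⟩ := h
  have hwD : ∀ i, w i ≤ D := by
    intro i
    have := hbox _ (mem_support_iff.2 hco) i
    simpa using this
  have hsum : ∑ i, w i ≤ n * D := by
    calc ∑ i, w i ≤ ∑ _i : Fin n, D := Finset.sum_le_sum fun i _ => hwD i
      _ = n * D := by simp
  obtain ⟨τ, hτ⟩ : ∃ τ, τ = D - c := ⟨_, rfl⟩
  rw [← hτ] at hcw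
  obtain ⟨a, ha⟩ : ∃ a, ∑ i, w i = a + τ := ⟨∑ i, w i - τ, by omega⟩
  obtain ⟨u, hu, hu2⟩ := ci_surjP (fun _ : Fin n => D + 1) (n * D) (by simp; ring)
    (i := a) (j := τ) (by omega) h (by rw [← ha]; exact hhom)
  -- the embedding
  have hinj : Function.Injective (Fin.castSucc : Fin n → Fin (n + 1)) :=
    Fin.castSucc_injective n
  set ι : MvPolynomial (Fin n) ℂ →ₐ[ℂ] MvPolynomial (Fin (n + 1)) ℂ :=
    rename (Fin.castSucc : Fin n → Fin (n + 1)) with hι
  set y : MvPolynomial (Fin (n + 1)) ℂ := X (Fin.last n) with hy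
  have hell : ell (n + 1) = ι (ell n) + y := by
    unfold ell
    rw [Fin.sum_univ_castSucc, map_sum]
    congr 1
    apply Finset.sum_congr rfl
    intro i _
    rw [hι, rename_X]
  have hJ : ∀ f ∈ JJ n D, ι f ∈ JJ (n + 1) D := by
    intro f hf
    have h1 : JJ n D ≤ (JJ (n + 1) D).comap ι := by
      show Ideal.span _ ≤ _
      rw [Ideal.span_le]
      rintro _ ⟨i, rfl⟩
      show ι (X i ^ (D + 1)) ∈ JJ (n + 1) D
      rw [map_pow, hι, rename_X]
      exact Ideal.subset_span ⟨Fin.castSucc i, rfl⟩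
    exact h1 hf
  have hyJ : y ^ (D + 1) ∈ JJ (n + 1) D := Ideal.subset_span ⟨Fin.last n, rfl⟩
  have hLu : ι (ell n ^ (τ + 1) * u) ∈ JJ (n + 1) D := by
    apply hJ
    have : ell n ^ (τ + 1) * u = ell n * h - ell n * (h - ell n ^ τ * u) := by ring
    rw [this]
    exact Ideal.sub_mem _ hL (Ideal.mul_mem_left _ _ hu2)
  have hsn : ∑ i, (Fin.snoc w c : Fin (n + 1) → ℕ) i = a + τ + c := by
    rw [Fin.sum_univ_castSucc]
    simp only [Fin.snoc_castSucc, Fin.snoc_last]
    rw [ha]
  apply hw_of (v := tel (ι (ell n)) y (ι u) c τ)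
  · intro i
    refine Fin.lastCases ?_ (fun j => ?_) i
    · rw [Fin.snoc_last]
      exact hc
    · rw [Fin.snoc_castSucc]
      exact hwD j
  · rw [hsn]
    apply tel_hom
    · exact (ell_isHomogeneous n).rename_isHomogeneous
    · exact isHomogeneous_X _ _
    · exact hu.rename_isHomogeneous
  · rw [hell, tel_mul]
    apply Ideal.add_mem
    · have : ι (ell n) ^ (τ + 1) * ι u * y ^ c = y ^ c * ι (ell n ^ (τ + 1) * u) := by
        rw [map_mul, map_pow]
        ring
      rw [this]
      exact Ideal.mul_mem_left _ _ hLu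
    · have : c + τ + 1 = D + 1 := by omega
      rw [this, ← mul_assoc]
      exact Ideal.mul_mem_left _ _ hyJ
  · obtain ⟨R, hR⟩ := tel_split (ι (ell n)) y (ι u) c τ
    rw [hR, coeff_add]
    have hlast : (Finsupp.equivFunOnFinite.symm (Fin.snoc w c : Fin (n + 1) → ℕ)) (Fin.last n) = c := by
      simp
    have h2 : coeff (Finsupp.equivFunOnFinite.symm (Fin.snoc w c : Fin (n + 1) → ℕ))
        (y ^ (c + 1) * R) = 0 := by
      rw [hy, X_pow_eq_monomial, coeff_monomial_mul', if_neg]
      intro hle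
      have := hle (Fin.last n)
      rw [hlast, Finsupp.single_eq_same] at this
      omega
    rw [h2, add_zero]
    have h3 : ι (ell n) ^ τ * ι u * y ^ c = ι (ell n ^ τ * u) * y ^ c := by
      rw [map_mul, map_pow]
    have hle : Finsupp.single (Fin.last n) c ≤
        Finsupp.equivFunOnFinite.symm (Fin.snoc w c : Fin (n + 1) → ℕ) := by
      intro i
      by_cases hi : i = Fin.last n
      · subst hi
        rw [hlast, Finsupp.single_eq_same]
      · rw [Finsupp.single_eq_of_ne hi]
        exact Nat.zero_le _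
    have hdom : Finsupp.equivFunOnFinite.symm (Fin.snoc w c : Fin (n + 1) → ℕ) -
        Finsupp.single (Fin.last n) c =
        (Finsupp.equivFunOnFinite.symm w).mapDomain Fin.castSucc := by
      ext i
      refine Fin.lastCases ?_ (fun j => ?_) i
      · rw [Finsupp.mapDomain_of_notMem_range]
        · rw [Finsupp.tsub_apply, hlast, Finsupp.single_eq_same, Nat.sub_self]
        · rintro ⟨j, hj⟩
          exact (Fin.castSucc_lt_last j).ne hj
      · rw [Finsupp.mapDomain_apply hinj, Finsupp.tsub_apply, Finsupp.single_eq_of_ne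
          (Fin.castSucc_lt_last j).ne]
        simp
    rw [h3, hy, X_pow_eq_monomial, coeff_mul_monomial', if_pos hle, mul_one, hdom, hι,
      coeff_rename_mapDomain _ hinj]
    have h4 : coeff (Finsupp.equivFunOnFinite.symm w) (h - ell n ^ τ * u) = 0 := by
      by_contra hne
      obtain ⟨i, hi⟩ := (mem_ciI_iff _).1 hu2 _ (mem_support_iff.2 hne)
      have : D + 1 ≤ w i := by simpa using hi
      have := hwD i
      omega
    rw [coeff_sub, sub_eq_zero] at h4
    rw [← h4]
    exact hco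

end Pool.Agent.Lib_MP_8b82cd_w
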