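import Mathlib
import Pool.Agent.Lib_MP_8b82cd_w.T1
import Pool.Agent.Lib_MP_8b82cd_w.T2
import Pool.Agent.Lib_MP_8b82cd_w.N1

/-! Negative results for even `n * D`. -/

namespace Pool.Agent.Lib_MP_8b82cd_w

open MvPolynomial Pool.Agent.Lib_MP_8b82cd_ag

variable {n : ℕ}

/-- there is a suitable `h` with exponents `w`, all `< B`, of total degree `s` -/
private def HWs (n D B s : ℕ) : Prop :=
  ∃ w : Fin n → ℕ, HW n D w ∧ ∑ i, w i = s ∧ ∀ i, w i < B

private theorem hws_zero (D B : ℕ) : HWs 0 D B 0 :=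
  ⟨fun i => i.elim0, hw_zero D _, by simp, fun i => i.elim0⟩

private theorem hws_pair {D B s : ℕ} (h : HWs n D B s) (a b : ℕ) (ha : a ≤ D) (hb : b ≤ D)
    (hab : D ≤ a + b) (haB : a < B) (hbB : b < B) : HWs (n + 2) D B (s + (a + b)) := by
  obtain ⟨w, hw, hs, hB⟩ := h
  refine ⟨_, hw_pair hw a b ha hb hab, ?_, ?_⟩
  · rw [Fin.sum_univ_castSucc, Fin.sum_univ_castSucc]
    simp only [Fin.snoc_castSucc, Fin.snoc_last]
    omega
  · intro i
    induction i using Fin.lastCases with
    | last => simpa using hbB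
    | cast i =>
      rw [Fin.snoc_castSucc]
      induction i using Fin.lastCases with
      | last => simpa using haB
      | cast i => simpa using hB i

private theorem hws_pairs {D B s : ℕ} (h : HWs n D B s) (a b : ℕ) (ha : a ≤ D) (hb : b ≤ D)
    (hab : D ≤ a + b) (haB : a < B) (hbB : b < B) (N : ℕ) :
    HWs (n + 2 * N) D B (s + N * (a + b)) := by
  induction N with
  | zero => simpa using h
  | succ N ih =>
    have h1 := hws_pair ih a b ha hb hab haB hbB
    have e1 : n + 2 * (N + 1) = n + 2 * N + 2 := by ring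
    have e2 : s + (N + 1) * (a + b) = s + N * (a + b) + (a + b) := by ring
    rw [e1, e2]
    exact h1

private theorem hws_ext {D B s : ℕ} (h : HWs n D B s) (c : ℕ) (hc : c ≤ D) (hcB : c < B)
    (hcw : n * D + (D - c) ≤ 2 * s) : HWs (n + 1) D B (s + c) := by
  obtain ⟨w, hw, hs, hB⟩ := h
  refine ⟨_, hw_ext hw c hc (by rw [hs]; exact hcw), ?_, ?_⟩
  · rw [Fin.sum_univ_castSucc]
    simp only [Fin.snoc_castSucc, Fin.snoc_last]
    omega
  · intro i
    induction i using Fin.lastCases with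
    | last => simpa using hcB
    | cast i => simpa using hB i

private theorem neg2_of {D s : ℕ} (hD : 1 ≤ D) (hpar : n * D % 2 = 0) (h : HWs n D D s)
    (hs : 2 * s = n * D + 2 * D) : ¬ Inj n D 2 := by
  obtain ⟨w, ⟨f, hf1, hf2, hf3, hf4⟩, hw, hB⟩ := h
  exact neg_even_two (t := s) hD hpar f (by rw [← hw]; exact hf1) hs hf2 hf3 _ hf4
    (fun i => by simpa using hB i)

private theorem neg3_of {D s : ℕ} (hD : 1 ≤ D) (hpar : n * D % 2 = 0) (h : HWs n D (D + 1) s)
    (hs : 2 * s = n * D + 4 * D + 2) : ¬ Inj n D 3 := by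
  obtain ⟨w, ⟨f, hf1, hf2, hf3, hf4⟩, hw, hB⟩ := h
  refine neg_even_three (t := s) hD hpar f (by rw [← hw]; exact hf1) hs hf2 hf3 ?_
  rintro rfl
  exact hf4 (coeff_zero _)

/-- PIECE T3a. `n` even: pairs `(D-1, 3), (D-1, D-1)` (so `r = 2, D-2`) for `D ≥ 4` and pairs
`(0, D)` for the rest; `D = 3`, `n ≥ 6`: three pairs `(2, 2)` and pairs `(0,3)`... with all
exponents `< D`: use `(D-1, 1)` instead of `(0, D)`. `n` odd (`D ≥ 4` even): pairs with
`r = D/2` and `r = 1`, i.e. `(D-1, D/2+1), (D-1, 2)`, pairs `(D-1, 1)` for the rest, then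
`hw_ext` with `c = D - 1`. A pair `(D-1, r+1)` has degree `D + r`. Total degree
`(nD + 2D)/2`. -/
theorem neg2e {D : ℕ} (hn : 4 ≤ n) (hD : 3 ≤ D) (hpar : n * D % 2 = 0)
    (hne : ¬ (n = 4 ∧ D = 3)) : ¬ Inj n D 2 := by
  rcases Nat.even_or_odd n with he | ho
  · obtain ⟨M, hM⟩ := he
    obtain ⟨N, rfl⟩ : ∃ N, M = N + 2 := ⟨M - 2, by omega⟩
    by_cases hD4 : 4 ≤ D
    · have h1 := hws_pairs (hws_pair (hws_pair (hws_zero D D) (D - 1) 3 (by omega) (by omega)
        (by omega) (by omega) (by omega)) (D - 1) (D - 1) (by omega) (by omega) (by omega)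
        (by omega) (by omega)) (D - 1) 1 (by omega) (by omega) (by omega) (by omega) (by omega) N
      have e1 : 0 + 2 + 2 + 2 * N = n := by omega
      rw [e1] at h1
      refine neg2_of (by omega) hpar h1 ?_
      have e2 : D - 1 + 1 = D := by omega
      rw [e2, hM]
      have e3 : 0 + (D - 1 + 3) + (D - 1 + (D - 1)) = 3 * D := by omega
      rw [e3]
      ring
    · have hD3 : D = 3 := by omega
      subst hD3
      obtain ⟨N', rfl⟩ : ∃ N', N = N' + 1 := ⟨N - 1, by omega⟩
      have h1 := hws_pairs (hws_pairs (hws_zero 3 3) 2 2 (by omega) (by omega)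
        (by omega) (by omega) (by omega) 3) 2 1 (by omega) (by omega) (by omega)
        (by omega) (by omega) N'
      have e1 : 0 + 2 * 3 + 2 * N' = n := by omega
      rw [e1] at h1
      refine neg2_of (by omega) hpar h1 ?_
      rw [hM]
      ring
  · obtain ⟨M, hM⟩ := ho
    obtain ⟨N, rfl⟩ : ∃ N, M = N + 2 := ⟨M - 2, by omega⟩
    obtain ⟨c, rfl⟩ : ∃ c, D = 2 * c := by
      rcases Nat.even_or_odd D with h | h
      · obtain ⟨c, hc⟩ := h
        exact ⟨c, by omega⟩
      · exfalso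
        have h2 : Odd (n * D) := Odd.mul ⟨N + 2, hM⟩ h
        rw [Nat.odd_iff] at h2
        omega
    have h1 := hws_pairs (hws_pair (hws_pair (hws_zero (2 * c) (2 * c)) (2 * c - 1) (c + 1)
      (by omega) (by omega)
      (by omega) (by omega) (by omega)) (2 * c - 1) 2 (by omega) (by omega) (by omega)
      (by omega) (by omega)) (2 * c - 1) 1 (by omega) (by omega) (by omega) (by omega) (by omega) N
    have e1 : 0 + 2 + 2 + 2 * N = n - 1 := by omega
    have e2 : 2 * c - 1 + 1 = 2 * c := by omega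
    have e3 : 0 + (2 * c - 1 + (c + 1)) + (2 * c - 1 + 2) = 5 * c + 1 := by omega
    rw [e1, e2, e3] at h1
    have h2 := hws_ext h1 (2 * c - 1) (by omega) (by omega) (by
      have e4 : n - 1 = 2 * (N + 2) := by omega
      rw [e4]
      have e5 : 2 * c - (2 * c - 1) = 1 := by omega
      rw [e5]
      nlinarith)
    rw [show n - 1 + 1 = n by omega] at h2
    refine neg2_of (by omega) hpar h2 ?_
    have e6 : 5 * c + 1 + N * (2 * c) + (2 * c - 1) = 7 * c + N * (2 * c) := by omega
    rw [e6, hM]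
    ring

/-- PIECE T3b. `n ≥ 6` even: pairs `(D,D), (D,D), (D,1)`, rest `(D,0)`. `n ≥ 5` odd (`D ≥ 2`
even): pairs `(D,D), (D, D/2+1)`, rest `(D,0)`, then `hw_ext` with `c = D`. -/
theorem neg3e {D : ℕ} (hn : 5 ≤ n) (hD : 1 ≤ D) (hpar : n * D % 2 = 0) : ¬ Inj n D 3 := by
  rcases Nat.even_or_odd n with he | ho
  · obtain ⟨M, hM⟩ := he
    obtain ⟨N, rfl⟩ : ∃ N, M = N + 3 := ⟨M - 3, by omega⟩
    have h1 := hws_pairs (hws_pair (hws_pairs (hws_zero D (D + 1)) D D (by omega) (by omega)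
      (by omega) (by omega) (by omega) 2) D 1 (by omega) (by omega) (by omega)
      (by omega) (by omega)) D 0 (by omega) (by omega) (by omega) (by omega) (by omega) N
    have e1 : 0 + 2 * 2 + 2 + 2 * N = n := by omega
    rw [e1] at h1
    refine neg3_of hD hpar h1 ?_
    rw [hM]
    ring
  · obtain ⟨M, hM⟩ := ho
    obtain ⟨N, rfl⟩ : ∃ N, M = N + 2 := ⟨M - 2, by omega⟩
    obtain ⟨c, rfl⟩ : ∃ c, D = 2 * c := by
      rcases Nat.even_or_odd D with h | h
      · obtain ⟨c, hc⟩ := h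
        exact ⟨c, by omega⟩
      · exfalso
        have h2 : Odd (n * D) := Odd.mul ⟨N + 2, hM⟩ h
        rw [Nat.odd_iff] at h2
        omega
    have h1 := hws_pairs (hws_pair (hws_pair (hws_zero (2 * c) (2 * c + 1)) (2 * c) (2 * c)
      (by omega) (by omega)
      (by omega) (by omega) (by omega)) (2 * c) (c + 1) (by omega) (by omega) (by omega)
      (by omega) (by omega)) (2 * c) 0 (by omega) (by omega) (by omega) (by omega) (by omega) N
    have e1 : 0 + 2 + 2 + 2 * N = n - 1 := by omega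
    rw [e1] at h1
    have h2 := hws_ext h1 (2 * c) (by omega) (by omega) (by
      have e4 : n - 1 = 2 * (N + 2) := by omega
      rw [e4, Nat.sub_self]
      nlinarith)
    rw [show n - 1 + 1 = n by omega] at h2
    refine neg3_of hD hpar h2 ?_
    rw [hM]
    ring

end Pool.Agent.Lib_MP_8b82cd_w
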