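import Mathlib
import Pool.Agent.Lib_MP_8b82cd_w.B2
import Pool.Agent.Lib_MP_8b82cd_w.B3
import Pool.Agent.Lib_MP_8b82cd_w.B4

/-! Obstruction for odd `n * D`, `k = 2`. -/

namespace Pool.Agent.Lib_MP_8b82cd_w

open MvPolynomial Pool.Agent.Lib_MP_8b82cd_ag

variable {n : ℕ}

/-- PIECE N4 (`k = 2`). `e = e0 n D 2 = t + 1`. For `q = e_i`: `FF (g q) = 0`,
`2 deg + 1 = nD`, so `ell^2 * g q ∈ JJ` (`wt_neg_one`) and `ell^2 * E_i (g e_i) ∈ JJ`. So
`ell^2 * FF (g 0) ∈ JJ`, `ell * g 0 ∈ JJ` (`sq_ker`, degree `t + 1`). Apply `ell` to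
`h = FF (g 0) + κ ∑ E_i (g e_i)`: `hc` gives `ell * FF (g 0) = (2(t+1) - nD) g 0` mod `JJ`, so
`g 0 = - κ/(2D+1) ∑ E_i (ell * g e_i)` mod `JJ` and, reduced, every monomial of `g 0` has an
exponent `D`; so every monomial of `FF (g 0)` (`coeff_lowF`) and of `h` has an exponent
`≥ D - 1`. -/
theorem neg_odd_two {D t : ℕ} (hD : 1 ≤ D) (hpar : n * D % 2 = 1) (h : MvPolynomial (Fin n) ℂ)
    (hh : h.IsHomogeneous t) (ht : 2 * t + 1 = n * D + 2 * D) (hb : Box D h)
    (hL : ell n * h ∈ JJ n D) (m : Fin n →₀ ℕ) (hm : coeff m h ≠ 0) (hmD : ∀ i, m i + 1 < D) :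
    ¬ Inj n D 2 := by
  intro hI
  have htop : ∀ s, n * D < s → ∀ p : MvPolynomial (Fin n) ℂ, p.IsHomogeneous s → p ∈ JJ n D :=
    ci_top (fun _ : Fin n => D + 1) (n * D) (by simp; ring)
  have low := low_ci n D
  have he : e0 n D 2 = t + 1 := by
    unfold e0
    omega
  have hI' : InjP (powI n (D + 1) 2) (ell n) (t + 1 - 1) 1 := by
    have h1 : InjP (powI n (D + 1) 2) (ell n) (e0 n D 2 - 1) 1 := hI
    rwa [he] at h1
  obtain ⟨g, hgB, hg0, hgh, -, hg1, hg2⟩ := dual_data (D := D) (k := 2) (e := t + 1)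
    (by norm_num) (by omega) hI' h (by simpa using hh) hb
  -- the equations for `q = e_i`
  have hsum : ∀ i : Fin n, ∑ j, (Finsupp.single i 1 : Fin n →₀ ℕ) j = 1 := by
    intro i
    simp [Finsupp.single_apply]
  have hF1 : ∀ i : Fin n, FF n D (g (Finsupp.single i 1)) = 0 := by
    intro i
    have h1 := hg2 (Finsupp.single i 1) (by simp) (by rw [hsum]; norm_num)
    have h2 : ∀ j : Fin n, g (Finsupp.single i 1 + Finsupp.single j 1) = 0 := by
      intro j
      apply hg0
      simp only [Finsupp.add_apply, Finset.sum_add_distrib, hsum]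
      norm_num
    simpa [h2, E, zi] using h1
  have hhom : ∀ i : Fin n, (g (Finsupp.single i 1)).IsHomogeneous (t - D) := by
    intro i
    apply hgh
    rw [hsum]
    omega
  have hsq : ∀ i : Fin n, ell n ^ 2 * g (Finsupp.single i 1) ∈ JJ n D := by
    intro i
    apply low.wt_neg_one htop (hhom i) (by omega)
    rw [hF1 i]
    exact (JJ n D).zero_mem
  have hsqE : ∀ i : Fin n, ell n ^ 2 * E D i (g (Finsupp.single i 1)) ∈ JJ n D := by
    intro i
    have h1 := (JJ n D).mul_mem_left (ell n) (ell_E D i (g (Finsupp.single i 1)))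
    have h2 := ell_E D i (ell n * g (Finsupp.single i 1))
    have h3 : E D i (ell n * (ell n * g (Finsupp.single i 1))) ∈ JJ n D := by
      apply E_mem
      have := hsq i
      rwa [pow_two, mul_assoc] at this
    have h4 := (JJ n D).add_mem ((JJ n D).add_mem h1 h2) h3
    convert h4 using 1
    ring
  have hg0h : (g 0).IsHomogeneous (t + 1) := hgh 0 (t + 1) (by simp)
  have hL0 : ell n * g 0 ∈ JJ n D := by
    apply low.sq_ker htop hg0h (by omega)
    have h1 : FF n D (g 0) = h - kap0 D • ∑ i, E D i (g (Finsupp.single i 1)) := by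
      rw [← hg1]; ring
    rw [h1, mul_sub, mul_smul_comm, Finset.mul_sum]
    apply (JJ n D).sub_mem
    · have := (JJ n D).mul_mem_left (ell n) hL
      rwa [← mul_assoc, ← pow_two] at this
    · apply Submodule.smul_of_tower_mem
      exact (JJ n D).sum_mem (fun i _ => hsqE i)
  -- reduced forms of `ell * g e_i`
  choose r hrB hr hrh using fun i : Fin n => exists_red D (ell n * g (Finsupp.single i 1))
  have hc2 : (2 * (D : ℂ) + 1) ≠ 0 := by
    have : ((2 * D + 1 : ℕ) : ℂ) ≠ 0 := Nat.cast_ne_zero.mpr (by omega)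
    simpa using this
  have hmem : (2 * (D : ℂ) + 1) • g 0 + kap0 D • ∑ i, E D i (r i) ∈ JJ n D := by
    have h1 := low.hJ _ hL0
    rw [low.hc (t + 1) (g 0) hg0h] at h1
    -- `ell * h`
    have h2 : ell n * h = ell n * FF n D (g 0)
        + kap0 D • ∑ i, ell n * E D i (g (Finsupp.single i 1)) := by
      rw [← hg1, mul_add, mul_smul_comm, Finset.mul_sum]
    rw [h2] at hL
    have h3 : ∀ i : Fin n, E D i (r i) - ell n * E D i (g (Finsupp.single i 1)) ∈ JJ n D := by
      intro i
      have h4 := ell_E D i (g (Finsupp.single i 1))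
      have h5 := E_mem i (hr i)
      rw [E_sub] at h5
      have h6 := (JJ n D).neg_mem ((JJ n D).add_mem h4 h5)
      convert h6 using 1
      ring
    have h4 := Submodule.smul_of_tower_mem (JJ n D) (kap0 D) ((JJ n D).sum_mem (fun i (_ : i ∈ Finset.univ) => h3 i))
    have h5 := (JJ n D).add_mem ((JJ n D).sub_mem hL h1) h4
    convert h5 using 1
    rw [Finset.sum_sub_distrib, smul_sub]
    have h6 : (((n * D : ℕ) : ℂ) - 2 * ((t + 1 : ℕ) : ℂ)) = -(2 * (D : ℂ) + 1) := by
      have h7 : (2 * (t : ℂ) + 1) = (n : ℂ) * D + 2 * D := by exact_mod_cast ht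
      push_cast
      linear_combination -h7
    rw [h6, neg_smul]
    ring
  have hzero := box_mem_zero (Box.add ((hgB 0).smul (2 * (D : ℂ) + 1))
    ((Box.sum (fun i (_ : i ∈ Finset.univ) => (hrB i).E i)).smul (kap0 D))) hmem
  have hsupp : ∀ m' : Fin n →₀ ℕ, coeff m' (g 0) ≠ 0 → ∃ i, m' i = D := by
    intro m' hm'
    by_contra hcon
    push Not at hcon
    have h1 : ∀ i, coeff m' (E D i (r i)) = 0 := by
      intro i
      by_contra h2
      exact hcon i (E_support (mem_support_iff.mpr h2))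
    have h2 := congrArg (coeff m') hzero
    rw [coeff_add, coeff_smul, coeff_smul, coeff_sum, Finset.sum_eq_zero (fun i _ => h1 i),
      smul_zero, add_zero, coeff_zero, smul_eq_mul] at h2
    rcases mul_eq_zero.mp h2 with h3 | h3
    · exact hc2 h3
    · exact hm' h3
  -- the coefficient of `h` at `m`
  apply hm
  rw [← hg1, coeff_add, coeff_smul, coeff_sum]
  have h1 : ∀ i, coeff m (E D i (g (Finsupp.single i 1))) = 0 := by
    intro i
    by_contra h2
    have := E_support (mem_support_iff.mpr h2)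
    have := hmD i
    omega
  have h2 : coeff m (FF n D (g 0)) = 0 := by
    rw [coeff_lowF]
    apply Finset.sum_eq_zero
    intro i _
    have h3 : coeff (m + Finsupp.single i 1) (g 0) = 0 := by
      by_contra h4
      obtain ⟨j, hj⟩ := hsupp _ h4
      have h5 := hmD j
      rw [Finsupp.add_apply, Finsupp.single_apply] at hj
      split_ifs at hj <;> omega
    rw [h3, mul_zero]
  rw [h2, Finset.sum_eq_zero (fun i _ => h1 i), smul_zero, add_zero]

end Pool.Agent.Lib_MP_8b82cd_w
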