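import Mathlib
import Pool.Agent.Lib_MP_8b82cd_w.B2
import Pool.Agent.Lib_MP_8b82cd_w.B3
import Pool.Agent.Lib_MP_8b82cd_w.B4

/-! Obstruction for odd `n * D`, `k = 3`. -/

namespace Pool.Agent.Lib_MP_8b82cd_w

open MvPolynomial Pool.Agent.Lib_MP_8b82cd_ag

variable {n : ℕ}

private theorem n5_top (n D : ℕ) : ∀ t, n * D < t → ∀ p : MvPolynomial (Fin n) ℂ,
    p.IsHomogeneous t → p ∈ JJ n D := fun t ht p hp =>
  ci_top (fun _ : Fin n => D + 1) (n * D) (by simp; ring) t ht p hp

private theorem n5_smul {D : ℕ} (c : ℂ) {f : MvPolynomial (Fin n) ℂ} (hf : f ∈ JJ n D) :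
    c • f ∈ JJ n D := Submodule.smul_of_tower_mem _ c hf

private theorem n5_sum_single (i : Fin n) : ∑ j, (Finsupp.single i 1 : Fin n →₀ ℕ) j = 1 := by
  simp [Finsupp.single_apply]

private theorem n5_sum_add (q r : Fin n →₀ ℕ) : ∑ j, (q + r) j = ∑ j, q j + ∑ j, r j := by
  simp [Finset.sum_add_distrib]

/-- `ell^2 * E_i f ∈ JJ` if `ell^2 * f ∈ JJ` -/
private theorem n5_sq {D : ℕ} (i : Fin n) {f : MvPolynomial (Fin n) ℂ}
    (hf : ell n ^ 2 * f ∈ JJ n D) : ell n ^ 2 * E D i f ∈ JJ n D := by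
  have h1 := (JJ n D).mul_mem_left (ell n) (ell_E D i f)
  have h2 : ell n * E D i (ell n * f) ∈ JJ n D := by
    apply ell_E_mem
    have : ell n * (ell n * f) = ell n ^ 2 * f := by ring
    rwa [this]
  have h3 := (JJ n D).add_mem h1 h2
  have e : ell n * (ell n * E D i f - E D i (ell n * f)) + ell n * E D i (ell n * f) =
      ell n ^ 2 * E D i f := by ring
  rwa [e] at h3

/-- PIECE N5 (`k = 3`). `e = e0 n D 3 = t + 1`. `|q| = 2`: `FF (g q) = 0`, `2 deg + 1 = nD`,
`ell^2 * g q ∈ JJ`. `|q| = 1`: `FF (g q) = - κ ∑ E_j (g (q+e_j))`, `ell^2 * FF (g q) ∈ JJ`, so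
`ell * g q ∈ JJ` (`sq_ker`, `2 deg = nD + 2D + 1`), and `ell * FF (g q) = (2D+1) g q` mod `JJ`
(`hc`), so `g q` is `- κ/(2D+1) ∑_j E_j (ell * g (q + e_j))` mod `JJ`: for `q = e_i` every
monomial of `g e_i` has an exponent `D`. `q = 0`: `ell * E_i (g e_i) ∈ JJ`, so
`ell * FF (g 0) ∈ JJ`, `FF (g 0) = 0` (`ker_im`), `h = κ ∑ E_i (g e_i)`; a monomial of
`E_i (g e_i)` has exponent `D` at `i` and comes from a monomial of `g e_i` with exponent `0` at
`i` and exponent `D` at some `j ≠ i`. So each monomial of `h` has two exponents `D`. -/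
theorem neg_odd_three {D t : ℕ} (hD : 1 ≤ D) (hpar : n * D % 2 = 1)
    (h : MvPolynomial (Fin n) ℂ) (hh : h.IsHomogeneous t) (ht : 2 * t = n * D + 4 * D + 1)
    (hb : Box D h) (hL : ell n * h ∈ JJ n D) (m : Fin n →₀ ℕ) (hm : coeff m h ≠ 0)
    (hmD : ∀ i j, i ≠ j → m i < D ∨ m j < D) :
    ¬ Inj n D 3 := by
  intro hI
  have he : e0 n D 3 = t + 1 := by
    unfold e0
    omega
  have hI' : InjP (powI n (D + 1) 3) (ell n) (t + 1 - 1) 1 := by
    unfold Inj at hI
    rw [he] at hI
    exact hI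
  obtain ⟨g, hg1, hg2, hg3, -, hg5, hg6⟩ :=
    dual_data (D := D) (k := 3) (e := t + 1) (by omega) (by omega) hI' h (by simpa using hh) hb
  have hlow := low_ci n D
  have htop := n5_top n D
  -- `|q| = 2`
  have hq2 : ∀ q : Fin n →₀ ℕ, ∑ i, q i = 2 → ell n ^ 2 * g q ∈ JJ n D := by
    intro q hq
    have h0 : FF n D (g q) = 0 := by
      have h1 := hg6 q (by rintro rfl; simp at hq) (by omega)
      have h2 : ∀ i : Fin n, E D i (g (q + Finsupp.single i 1)) = 0 := by
        intro i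
        rw [hg2 (q + Finsupp.single i 1) (by rw [n5_sum_add, hq, n5_sum_single])]
        simp [E]
      simpa [h2] using h1
    have hs : (g q).IsHomogeneous (t - 2 * D - 1) := by
      apply hg3
      rw [hq]
      omega
    exact hlow.wt_neg_one htop hs (by omega) (by rw [h0]; exact (JJ n D).zero_mem)
  -- `|q| = 1`
  have hq1 : ∀ i : Fin n, ell n * g (Finsupp.single i 1) ∈ JJ n D ∧
      (FF n D (g (Finsupp.single i 1)) =
        -(kap0 D • ∑ j, E D j (g (Finsupp.single i 1 + Finsupp.single j 1)))) ∧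
      (g (Finsupp.single i 1)).IsHomogeneous (t - D) := by
    intro i
    have h1 := hg6 (Finsupp.single i 1) (by simp) (by rw [n5_sum_single]; omega)
    have h2 : FF n D (g (Finsupp.single i 1)) =
        -(kap0 D • ∑ j, E D j (g (Finsupp.single i 1 + Finsupp.single j 1))) :=
      eq_neg_of_add_eq_zero_left h1
    have hs : (g (Finsupp.single i 1)).IsHomogeneous (t - D) := by
      apply hg3
      rw [n5_sum_single]
      omega
    refine ⟨?_, h2, hs⟩
    apply hlow.sq_ker htop hs (by omega)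
    rw [h2, mul_neg, mul_smul_comm, Finset.mul_sum]
    apply (JJ n D).neg_mem
    apply n5_smul
    apply (JJ n D).sum_mem
    intro j _
    apply n5_sq
    apply hq2
    rw [n5_sum_add, n5_sum_single, n5_sum_single]
  -- every monomial of `g e_i` has an exponent `D`
  have hA : ∀ i : Fin n, ∀ m' ∈ (g (Finsupp.single i 1)).support, ∃ j, m' j = D := by
    intro i m' hm'
    obtain ⟨h1, h2, hs⟩ := hq1 i
    have h3 := hlow.hJ _ h1
    rw [hlow.hc _ _ hs, h2] at h3
    have h4 : ell n * -(kap0 D • ∑ j, E D j (g (Finsupp.single i 1 + Finsupp.single j 1))) +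
        (((n * D : ℕ) : ℂ) - 2 * ((t - D : ℕ) : ℂ)) • g (Finsupp.single i 1) +
        kap0 D • ∑ j, (ell n * E D j (g (Finsupp.single i 1 + Finsupp.single j 1)) -
          E D j (ell n * g (Finsupp.single i 1 + Finsupp.single j 1))) ∈ JJ n D := by
      apply (JJ n D).add_mem h3
      apply n5_smul
      apply (JJ n D).sum_mem
      intro j _
      exact ell_E D j _
    have h5 : ell n * -(kap0 D • ∑ j, E D j (g (Finsupp.single i 1 + Finsupp.single j 1))) +
        (((n * D : ℕ) : ℂ) - 2 * ((t - D : ℕ) : ℂ)) • g (Finsupp.single i 1) +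
        kap0 D • ∑ j, (ell n * E D j (g (Finsupp.single i 1 + Finsupp.single j 1)) -
          E D j (ell n * g (Finsupp.single i 1 + Finsupp.single j 1))) =
        (((n * D : ℕ) : ℂ) - 2 * ((t - D : ℕ) : ℂ)) • g (Finsupp.single i 1) -
          kap0 D • ∑ j, E D j (ell n * g (Finsupp.single i 1 + Finsupp.single j 1)) := by
      rw [Finset.sum_sub_distrib, ← Finset.mul_sum, smul_sub, mul_neg, mul_smul_comm]
      ring
    rw [h5, mem_ciI_iff] at h4
    have hc : (((n * D : ℕ) : ℂ) - 2 * ((t - D : ℕ) : ℂ)) ≠ 0 := by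
      rw [Nat.cast_sub (by omega)]
      have e1 : (2 : ℂ) * t = n * D + 4 * D + 1 := by exact_mod_cast ht
      have e2 : (((n * D : ℕ) : ℂ) - 2 * ((t : ℂ) - (D : ℂ))) = -((2 * D + 1 : ℕ) : ℂ) := by
        push_cast
        linear_combination -e1
      rw [e2, neg_ne_zero]
      exact_mod_cast (by omega : 2 * D + 1 ≠ 0)
    by_contra hno
    push Not at hno
    have h6 : coeff m' (∑ j, E D j (ell n * g (Finsupp.single i 1 + Finsupp.single j 1))) = 0 := by
      rw [coeff_sum]
      apply Finset.sum_eq_zero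
      intro j _
      by_contra hne
      exact hno j (E_support (mem_support_iff.mpr hne))
    obtain ⟨l, hl⟩ := h4 m' (by
      rw [mem_support_iff, coeff_sub, coeff_smul, coeff_smul, h6, smul_zero, sub_zero]
      exact smul_ne_zero hc (mem_support_iff.mp hm'))
    have := hg1 _ m' hm' l
    omega
  -- `q = 0`
  have h0 : FF n D (g 0) = 0 := by
    have hs : (g 0).IsHomogeneous (t + 1) := by
      apply hg3
      simp
    apply box_mem_zero (Box.FF (hg1 0))
    apply hlow.ker_im htop hs (by omega)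
    have h1 : FF n D (g 0) = h - kap0 D • ∑ i, E D i (g (Finsupp.single i 1)) :=
      eq_sub_of_add_eq hg5
    rw [h1, mul_sub, mul_smul_comm, Finset.mul_sum]
    apply (JJ n D).sub_mem hL
    apply n5_smul
    apply (JJ n D).sum_mem
    intro i _
    exact ell_E_mem i (hq1 i).1
  rw [h0, zero_add] at hg5
  rw [← hg5, coeff_smul, coeff_sum] at hm
  have hm2 := right_ne_zero_of_smul hm
  obtain ⟨i, -, hi⟩ := Finset.exists_ne_zero_of_sum_ne_zero hm2
  have hi' := mem_support_iff.mpr hi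
  have h1 := E_support hi'
  obtain ⟨m', hm', h2, h3⟩ := E_support_from hi'
  obtain ⟨j, hj⟩ := hA i m' hm'
  have hij : i ≠ j := by
    rintro rfl
    omega
  have h4 := h3 j (Ne.symm hij)
  rcases hmD i j hij with h5 | h5 <;> omega

end Pool.Agent.Lib_MP_8b82cd_w
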