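import Mathlib
import Pool.Agent.Lib_MP_8b82cd_w.B2
import Pool.Agent.Lib_MP_8b82cd_w.B3
import Pool.Agent.Lib_MP_8b82cd_w.B4

/-! Obstruction for odd `n * D`, `k = 4`. -/

namespace Pool.Agent.Lib_MP_8b82cd_w

open MvPolynomial Pool.Agent.Lib_MP_8b82cd_ag

variable {n : ℕ}

private theorem n6_top (n D : ℕ) : ∀ t, n * D < t → ∀ p : MvPolynomial (Fin n) ℂ,
    p.IsHomogeneous t → p ∈ JJ n D :=
  ci_top (fun _ : Fin n => D + 1) (n * D) (by simp; ring)

private theorem n6_sq {D : ℕ} (i : Fin n) {f : MvPolynomial (Fin n) ℂ}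
    (hf : ell n ^ 2 * f ∈ JJ n D) : ell n ^ 2 * E D i f ∈ JJ n D := by
  have h1 : ell n * (ell n * E D i f - E D i (ell n * f)) ∈ JJ n D :=
    (JJ n D).mul_mem_left _ (ell_E D i f)
  have h2 : ell n * E D i (ell n * f) - E D i (ell n * (ell n * f)) ∈ JJ n D :=
    ell_E D i (ell n * f)
  have e : ell n * (ell n * f) = ell n ^ 2 * f := by ring
  rw [e] at h2
  have h3 : E D i (ell n ^ 2 * f) ∈ JJ n D := E_mem i hf
  have h4 := (JJ n D).add_mem ((JJ n D).add_mem h1 h2) h3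
  have e2 : ell n * (ell n * E D i f - E D i (ell n * f)) +
      (ell n * E D i (ell n * f) - E D i (ell n ^ 2 * f)) + E D i (ell n ^ 2 * f) =
      ell n ^ 2 * E D i f := by ring
  rwa [e2] at h4

private theorem n6_E_zero (D : ℕ) (i : Fin n) : E D i (0 : MvPolynomial (Fin n) ℂ) = 0 := by
  simp [E]

/-- from the equation `FF g + κ ∑ u_i = 0` and `c * u_i ∈ JJ` to `c * FF g ∈ JJ` -/
private theorem n6_mem {D : ℕ} {p c : MvPolynomial (Fin n) ℂ} {u : Fin n → MvPolynomial (Fin n) ℂ}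
    (h : FF n D p + kap0 D • ∑ i, u i = 0) (hu : ∀ i, c * u i ∈ JJ n D) :
    c * FF n D p ∈ JJ n D := by
  have e : FF n D p = -(kap0 D • ∑ i, u i) := eq_neg_of_add_eq_zero_left h
  rw [e, mul_neg, mul_smul_comm, Finset.mul_sum]
  exact (JJ n D).neg_mem (Submodule.smul_of_tower_mem _ _
    ((JJ n D).sum_mem fun i _ => hu i))

private theorem n6_sum (q : Fin n →₀ ℕ) (i : Fin n) :
    ∑ j, (q + Finsupp.single i 1 : Fin n →₀ ℕ) j = ∑ j, q j + 1 := by
  simp [Finset.sum_add_distrib]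

/-- PIECE N6 (`k = 4`). `e = e0 n D 4 = t + 1`. `|q| = 3`: `FF (g q) = 0`, `2 deg + 1 = nD`,
`ell^2 * g q ∈ JJ`. `|q| = 2`: `ell^2 * FF (g q) ∈ JJ`, so `ell * g q ∈ JJ` (`sq_ker`).
`|q| = 1`: `ell * FF (g q) ∈ JJ`, `FF (g q) = 0` (`ker_im`), `g q = 0` (`low_inj`). `q = 0`:
`h = FF (g 0)`, `ell * h ∈ JJ`, so `h = 0` (`ker_im`). -/
theorem neg_odd_four {D t : ℕ} (hD : 1 ≤ D) (hpar : n * D % 2 = 1)
    (h : MvPolynomial (Fin n) ℂ) (hh : h.IsHomogeneous t) (ht : 2 * t = n * D + 6 * D + 3)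
    (hb : Box D h) (hL : ell n * h ∈ JJ n D) (hne : h ≠ 0) :
    ¬ Inj n D 4 := by
  intro hI
  have he0 : e0 n D 4 = t + 1 := by
    unfold e0
    omega
  unfold Inj at hI
  rw [he0] at hI
  have hlow := low_ci n D
  have htop := n6_top n D
  obtain ⟨g, hg1, hg2, hg3, -, hg5, hg6⟩ := dual_data (D := D) (k := 4) (e := t + 1)
    (by norm_num) (by omega) hI h hh hb
  -- `|q| = 3`
  have s3 : ∀ q : Fin n →₀ ℕ, ∑ i, q i = 3 → ell n ^ 2 * g q ∈ JJ n D := by
    intro q hq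
    have hq0 : q ≠ 0 := by
      rintro rfl
      simp at hq
    have h1 := hg6 q hq0 (by omega)
    have h2 : FF n D (g q) ∈ JJ n D := by
      have h3 := n6_mem (c := 1) h1 (fun i => by
        rw [hg2 (q + Finsupp.single i 1) (by rw [n6_sum]; omega), n6_E_zero, mul_zero]
        exact (JJ n D).zero_mem)
      rwa [one_mul] at h3
    exact hlow.wt_neg_one htop (hg3 q (t + 1 - 3 * (D + 1)) (by rw [hq]; omega)) (by omega) h2
  -- `|q| = 2`
  have s2 : ∀ q : Fin n →₀ ℕ, ∑ i, q i = 2 → ell n * g q ∈ JJ n D := by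
    intro q hq
    have hq0 : q ≠ 0 := by
      rintro rfl
      simp at hq
    have h1 := hg6 q hq0 (by omega)
    have h2 : ell n ^ 2 * FF n D (g q) ∈ JJ n D :=
      n6_mem h1 (fun i => n6_sq i (s3 _ (by rw [n6_sum]; omega)))
    exact hlow.sq_ker htop (hg3 q (t + 1 - 2 * (D + 1)) (by rw [hq]; omega)) (by omega) h2
  -- `|q| = 1`
  have s1 : ∀ q : Fin n →₀ ℕ, ∑ i, q i = 1 → g q = 0 := by
    intro q hq
    have hq0 : q ≠ 0 := by
      rintro rfl
      simp at hq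
    have h1 := hg6 q hq0 (by omega)
    have h2 : ell n * FF n D (g q) ∈ JJ n D :=
      n6_mem h1 (fun i => ell_E_mem i (s2 _ (by rw [n6_sum]; omega)))
    have hhom : (g q).IsHomogeneous (t - D - 1 + 1) := hg3 q _ (by rw [hq]; omega)
    have h3 : FF n D (g q) ∈ JJ n D := hlow.ker_im htop hhom (by omega) h2
    have h4 : g q ∈ JJ n D := hlow.low_inj htop hhom (by omega) h3
    exact box_mem_zero (hg1 q) h4
  -- `q = 0`
  have h0 : FF n D (g 0) = h := by
    rw [← hg5]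
    have : ∑ i, E D i (g (Finsupp.single i 1)) = 0 := by
      refine Finset.sum_eq_zero fun i _ => ?_
      rw [s1 (Finsupp.single i 1) (by simp), n6_E_zero]
    rw [this, smul_zero, add_zero]
  have hhom0 : (g 0).IsHomogeneous (t + 1) := hg3 0 _ (by simp)
  have h3 : FF n D (g 0) ∈ JJ n D := hlow.ker_im htop hhom0 (by omega) (by rw [h0]; exact hL)
  rw [h0] at h3
  exact hne (box_mem_zero hb h3)

end Pool.Agent.Lib_MP_8b82cd_w
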