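import Mathlib
import Pool.Agent.Lib_MP_8b82cd_w.T1
import Pool.Agent.Lib_MP_8b82cd_w.T2
import Pool.Agent.Lib_MP_8b82cd_w.N4
import Pool.Agent.Lib_MP_8b82cd_w.N5
import Pool.Agent.Lib_MP_8b82cd_w.N6

/-! Negative results for odd `n * D`. -/

namespace Pool.Agent.Lib_MP_8b82cd_w

open MvPolynomial Pool.Agent.Lib_MP_8b82cd_ag

variable {n : ℕ}

/-- `p` pairs of variables -/
private theorem t4_pairs {D : ℕ} (Q : ℕ → Prop) (a b : ℕ → ℕ)
    (h : ∀ i, a i ≤ D ∧ b i ≤ D ∧ D ≤ a i + b i ∧ Q (a i) ∧ Q (b i)) : ∀ p : ℕ,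
    ∃ w : Fin (2 * p) → ℕ, HW (2 * p) D w ∧ ∑ i, w i = ∑ i ∈ Finset.range p, (a i + b i) ∧
      ∀ i, Q (w i) := by
  intro p
  induction p with
  | zero => exact ⟨fun i => i.elim0, hw_zero D _, by simp, fun i => i.elim0⟩
  | succ p ih =>
    obtain ⟨w, h1, h2, h3⟩ := ih
    obtain ⟨ha, hb, hab, hqa, hqb⟩ := h p
    refine ⟨Fin.snoc (Fin.snoc w (a p) : Fin (2 * p + 1) → ℕ) (b p),
      hw_pair h1 (a p) (b p) ha hb hab, ?_, ?_⟩
    · rw [Finset.sum_range_succ, ← h2]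
      have e : ∑ i, (Fin.snoc (Fin.snoc w (a p) : Fin (2 * p + 1) → ℕ) (b p) :
          Fin (2 * p + 2) → ℕ) i = ∑ i, w i + a p + b p := by
        rw [Fin.sum_univ_castSucc, Fin.sum_univ_castSucc]
        simp
      have e2 : ∑ i, w i + a p + b p = ∑ i, w i + (a p + b p) := by ring
      exact e.trans e2
    · intro i
      have key : ∀ i : Fin (2 * p + 2), Q ((Fin.snoc (Fin.snoc w (a p) : Fin (2 * p + 1) → ℕ) (b p) :
          Fin (2 * p + 2) → ℕ) i) := by
        intro i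
        induction i using Fin.lastCases with
        | last => simpa using hqb
        | cast i =>
          rw [Fin.snoc_castSucc]
          induction i using Fin.lastCases with
          | last => simpa using hqa
          | cast i => simpa using h3 i
      exact key i

/-- `p` pairs of variables and one more variable -/
private theorem t4_build {D : ℕ} (Q : ℕ → Prop) (a b : ℕ → ℕ) (p c s : ℕ)
    (h : ∀ i, a i ≤ D ∧ b i ≤ D ∧ D ≤ a i + b i ∧ Q (a i) ∧ Q (b i)) (hc : c ≤ D)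
    (hs : ∑ i ∈ Finset.range p, (a i + b i) = s) (hcs : 2 * p * D + (D - c) ≤ 2 * s) :
    ∃ f : MvPolynomial (Fin (2 * p + 1)) ℂ, f.IsHomogeneous (s + c) ∧ Box D f ∧
      ell (2 * p + 1) * f ∈ JJ (2 * p + 1) D ∧ ∃ m : Fin (2 * p + 1) →₀ ℕ, coeff m f ≠ 0 ∧
      (∀ i : Fin (2 * p), Q (m i.castSucc)) ∧ m (Fin.last (2 * p)) = c := by
  obtain ⟨w, h1, h2, h3⟩ := t4_pairs (D := D) Q a b h p
  obtain ⟨f, hf1, hf2, hf3, hf4⟩ := hw_ext h1 c hc (by rw [h2, hs]; exact hcs)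
  refine ⟨f, ?_, hf2, hf3, _, hf4, ?_, ?_⟩
  · have e : ∑ i, (Fin.snoc w c : Fin (2 * p + 1) → ℕ) i = s + c := by
      rw [Fin.sum_univ_castSucc, ← hs, ← h2]
      simp
    rw [← e]
    exact hf1
  · intro i
    have e : (Finsupp.equivFunOnFinite.symm (Fin.snoc w c : Fin (2 * p + 1) → ℕ)) i.castSucc =
        w i := by
      simp
    rw [e]
    exact h3 i
  · simp

/-- PIECE T4a. Pairs `(D-2, r+2)` of degree `D + r`, `r ≤ D - 4`, with `∑ r = (D+3)/2`:
`D ≥ 7`: `r = min (D-4) ((D+3)/2)` and the rest; `D = 5`, `n ≥ 9`: `r = 1,1,1,1`; other pairs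
`r = 0`; then `hw_ext` with `c = D - 2`. -/
theorem neg2o {D : ℕ} (hn : 5 ≤ n) (hpar : n * D % 2 = 1) (hD : 7 ≤ D ∨ (D = 5 ∧ 9 ≤ n)) :
    ¬ Inj n D 2 := by
  have hodd : n % 2 = 1 ∧ D % 2 = 1 := by
    have := Nat.odd_mul.mp (Nat.odd_iff.mpr hpar)
    exact ⟨Nat.odd_iff.mp this.1, Nat.odd_iff.mp this.2⟩
  obtain ⟨p, rfl⟩ : ∃ p, n = 2 * p + 1 := ⟨n / 2, by omega⟩
  obtain ⟨E, rfl⟩ : ∃ E, D = 2 * E + 1 := ⟨D / 2, by omega⟩
  -- the sequence `r`
  obtain ⟨r, hr, hr2⟩ : ∃ r : ℕ → ℕ, (∀ i, r i + 4 ≤ 2 * E + 1) ∧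
      ∑ i ∈ Finset.range p, r i = E + 2 := by
    rcases hD with hD | ⟨hD, hn9⟩
    · obtain ⟨q, rfl⟩ : ∃ q, p = q + 2 := ⟨p - 2, by omega⟩
      refine ⟨fun i => if i = 0 then min (2 * E + 1 - 4) (E + 2) else
        if i = 1 then E + 2 - min (2 * E + 1 - 4) (E + 2) else 0, ?_, ?_⟩
      · intro i
        simp only
        split_ifs <;> omega
      · rw [Finset.sum_range_succ', Finset.sum_range_succ']
        simp
    · obtain ⟨q, rfl⟩ : ∃ q, p = q + 4 := ⟨p - 4, by omega⟩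
      have hE : E = 2 := by omega
      subst hE
      refine ⟨fun i => if i < 4 then 1 else 0, ?_, ?_⟩
      · intro i
        simp only
        split_ifs <;> omega
      · rw [Finset.sum_range_succ', Finset.sum_range_succ', Finset.sum_range_succ',
          Finset.sum_range_succ']
        simp
  have hE2 : 2 ≤ E := by omega
  obtain ⟨f, hf1, hf2, hf3, m, hf4, hf5, hf6⟩ := t4_build (D := 2 * E + 1) (fun x => x + 1 < 2 * E + 1)
    (fun _ => 2 * E - 1) (fun i => r i + 2) p (2 * E - 1) (p * (2 * E + 1) + (E + 2))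
    (by
      intro i
      have := hr i
      omega) (by omega) (by
      have e : ∀ i ∈ Finset.range p, (2 * E - 1) + (r i + 2) = (2 * E + 1) + r i := by
        intro i _
        omega
      rw [Finset.sum_congr rfl e, Finset.sum_add_distrib, hr2]
      simp) (by
      have e : 2 * p * (2 * E + 1) = 2 * (p * (2 * E + 1)) := by ring
      omega)
  refine neg_odd_two (by omega) hpar f hf1 ?_ hf2 hf3 m hf4 ?_
  · have e : (2 * p + 1) * (2 * E + 1) = 2 * (p * (2 * E + 1)) + (2 * E + 1) := by ring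
    omega
  · intro i
    induction i using Fin.lastCases with
    | last => rw [hf6]; omega
    | cast i => exact hf5 i

/-- PIECE T4b. `n = 7, D = 5`: pairs `(4,4), (4,4), (4,3)`, then `hw_ext` with `c = 5`.
`n ≥ 11, D = 3`: five pairs `(2,2)`, other pairs `(2,1)`, then `hw_ext` with `c = 3`. -/
theorem neg3o {D : ℕ} (hpar : n * D % 2 = 1) (hD : (n = 7 ∧ D = 5) ∨ (11 ≤ n ∧ D = 3)) :
    ¬ Inj n D 3 := by
  have hodd : n % 2 = 1 ∧ D % 2 = 1 := by
    have := Nat.odd_mul.mp (Nat.odd_iff.mpr hpar)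
    exact ⟨Nat.odd_iff.mp this.1, Nat.odd_iff.mp this.2⟩
  obtain ⟨p, rfl⟩ : ∃ p, n = 2 * p + 1 := ⟨n / 2, by omega⟩
  obtain ⟨f, s, hs, hf1, hf2, hf3, m, hf4, hf5⟩ : ∃ (f : MvPolynomial (Fin (2 * p + 1)) ℂ) (s : ℕ),
      2 * (s + D) = (2 * p + 1) * D + 4 * D + 1 ∧ f.IsHomogeneous (s + D) ∧ Box D f ∧
      ell (2 * p + 1) * f ∈ JJ (2 * p + 1) D ∧ ∃ m : Fin (2 * p + 1) →₀ ℕ, coeff m f ≠ 0 ∧
      (∀ i : Fin (2 * p), m i.castSucc < D) := by
    rcases hD with ⟨hn, hD⟩ | ⟨hn, hD⟩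
    · subst hD
      have hp : p = 3 := by omega
      subst hp
      obtain ⟨f, hf1, hf2, hf3, m, hf4, hf5, hf6⟩ := t4_build (D := 5) (fun x => x < 5)
        (fun _ => 4) (fun i => if i < 2 then 4 else 3) 3 5 23
        (by
          intro i
          split_ifs <;> omega) (by omega) (by simp [Finset.sum_range_succ]) (by omega)
      exact ⟨f, 23, by omega, hf1, hf2, hf3, m, hf4, hf5⟩
    · subst hD
      obtain ⟨q, rfl⟩ : ∃ q, p = q + 5 := ⟨p - 5, by omega⟩
      have hsum : ∀ q : ℕ, ∑ i ∈ Finset.range (q + 5), (2 + (if i < 5 then 2 else 1)) =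
          3 * (q + 5) + 5 := by
        intro q
        induction q with
        | zero => simp [Finset.sum_range_succ]
        | succ q ih =>
          rw [show q + 1 + 5 = (q + 5) + 1 by ring, Finset.sum_range_succ, ih,
            if_neg (by omega)]
          ring
      obtain ⟨f, hf1, hf2, hf3, m, hf4, hf5, hf6⟩ := t4_build (D := 3) (fun x => x < 3)
        (fun _ => 2) (fun i => if i < 5 then 2 else 1) (q + 5) 3 (3 * (q + 5) + 5)
        (by
          intro i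
          split_ifs <;> omega) (by omega) (hsum q) (by omega)
      exact ⟨f, 3 * (q + 5) + 5, by omega, hf1, hf2, hf3, m, hf4, hf5⟩
  refine neg_odd_three (by omega) hpar f hf1 hs hf2 hf3 m hf4 ?_
  intro i j hij
  induction i using Fin.lastCases with
  | cast i => exact Or.inl (hf5 i)
  | last =>
    induction j using Fin.lastCases with
    | cast j => exact Or.inr (hf5 j)
    | last => exact absurd rfl hij

/-- PIECE T4c. `D ≥ 3`, `n ≥ 7`: pairs `(D,D), (D,D), (D,(D+3)/2)`, rest `(D,0)`, then `hw_ext`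
with `c = D`. `D = 1`, `n ≥ 9`: four pairs `(1,1)`, rest `(1,0)`, then `c = 1`. -/
theorem neg4o {D : ℕ} (hpar : n * D % 2 = 1) (hD : (7 ≤ n ∧ 3 ≤ D) ∨ (9 ≤ n ∧ D = 1)) :
    ¬ Inj n D 4 := by
  have hodd : n % 2 = 1 ∧ D % 2 = 1 := by
    have := Nat.odd_mul.mp (Nat.odd_iff.mpr hpar)
    exact ⟨Nat.odd_iff.mp this.1, Nat.odd_iff.mp this.2⟩
  obtain ⟨p, rfl⟩ : ∃ p, n = 2 * p + 1 := ⟨n / 2, by omega⟩
  obtain ⟨E, rfl⟩ : ∃ E, D = 2 * E + 1 := ⟨D / 2, by omega⟩
  obtain ⟨b, hb, hb2⟩ : ∃ b : ℕ → ℕ, (∀ i, b i ≤ 2 * E + 1) ∧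
      ∑ i ∈ Finset.range p, b i = 5 * E + 4 := by
    rcases hD with ⟨hn, hD⟩ | ⟨hn, hD⟩
    · obtain ⟨q, rfl⟩ : ∃ q, p = q + 3 := ⟨p - 3, by omega⟩
      refine ⟨fun i => if i < 2 then 2 * E + 1 else if i = 2 then E + 2 else 0, ?_, ?_⟩
      · intro i
        simp only
        split_ifs <;> omega
      · rw [Finset.sum_range_succ', Finset.sum_range_succ', Finset.sum_range_succ']
        simp
        omega
    · obtain ⟨q, rfl⟩ : ∃ q, p = q + 4 := ⟨p - 4, by omega⟩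
      have hE : E = 0 := by omega
      subst hE
      refine ⟨fun i => if i < 4 then 1 else 0, ?_, ?_⟩
      · intro i
        simp only
        split_ifs <;> omega
      · rw [Finset.sum_range_succ', Finset.sum_range_succ', Finset.sum_range_succ',
          Finset.sum_range_succ']
        simp
  obtain ⟨f, hf1, hf2, hf3, m, hf4, hf5, hf6⟩ := t4_build (D := 2 * E + 1) (fun _ => True)
    (fun _ => 2 * E + 1) b p (2 * E + 1) (p * (2 * E + 1) + (5 * E + 4))
    (by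
      intro i
      have := hb i
      refine ⟨le_refl _, this, by omega, trivial, trivial⟩) (le_refl _) (by
      rw [Finset.sum_add_distrib, hb2]
      simp) (by
      have e : 2 * p * (2 * E + 1) = 2 * (p * (2 * E + 1)) := by ring
      omega)
  refine neg_odd_four (by omega) hpar f hf1 ?_ hf2 hf3 ?_
  · have e : (2 * p + 1) * (2 * E + 1) = 2 * (p * (2 * E + 1)) + (2 * E + 1) := by ring
    omega
  · intro h0
    rw [h0] at hf4
    exact hf4 (by simp)

end Pool.Agent.Lib_MP_8b82cd_w
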