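import Mathlib
import Pool.Agent.Lib_MP_8b82cd_ag.TwoTwo
import Pool.Agent.Lib_MP_8b82cd_ag.N2
import Pool.Agent.Lib_MP_8b82cd_w.A4
import Pool.Agent.Lib_MP_8b82cd_w.T3
import Pool.Agent.Lib_MP_8b82cd_w.T4
import Pool.Agent.Lib_MP_8b82cd_w.Cnt3
import Pool.Agent.Lib_MP_8b82cd_w.S443
import Pool.Agent.Lib_MP_8b82cd_w.S433
import Pool.Agent.Lib_MP_8b82cd_w.K2x
import Pool.Agent.Lib_MP_8b82cd_w.Norm
import Pool.Agent.Lib_MP_8b82cd_w.P3b
import Pool.Agent.Lib_MP_8b82cd_w.S724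
import Pool.Agent.Lib_MP_8b82cd_w.S543

/-! Assembly. -/

namespace Pool.Agent.Lib_MP_8b82cd_w

open MvPolynomial Pool.Agent.Lib_MP_8b82cd_ag Pool.Agent.Lib_MP_8b82cd_ag.Lefschetz

variable {n : ℕ}

/-- from `pow22` and `not_surj` -/
theorem inj_1_2 (hn : 4 ≤ n) : Inj n 1 2 := by
  rcases pow22 (show 0 < n by omega) (e0 n 1 2 - 1) 1 le_rfl with h | h
  · exact h
  · exact absurd h (not_surj hn le_rfl (by omega))

/-- not injective for some `k` implies not injective for all larger ones -/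
private theorem neg_up {D k l : ℕ} (hn : 4 ≤ n) (hD : 1 ≤ D) (hk : 1 ≤ k)
    (h : ¬ Inj n D k) (hkl : k ≤ l) : ¬ Inj n D l :=
  fun hl => h (hl.mono (by omega) hD hk hkl)

/-- `n D` even -/
private theorem even_case {D k : ℕ} (hn : 4 ≤ n) (hD : 1 ≤ D) (hk : 2 ≤ k)
    (hpar : n * D % 2 = 0) :
    Inj n D k ↔ (k = 2 ∧ (D = 1 ∨ D = 2)) ∨
      (n = 4 ∧ ((D = 1 ∧ k = 3) ∨ (D = 3 ∧ k = 2))) := by
  constructor
  · intro h
    by_contra hcon
    by_cases hn4 : n = 4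
    · subst hn4
      have hD3 : D ≤ 3 := by
        by_contra hD4
        exact neg_up le_rfl hD (by omega)
          (neg2e le_rfl (by omega) hpar (by omega)) hk h
      have hD' : D = 1 ∨ D = 2 ∨ D = 3 := by omega
      rcases hD' with rfl | rfl | rfl
      · exact neg_up le_rfl hD (by omega) sporadic_neg.1 (by omega : 4 ≤ k) h
      · exact neg_up le_rfl hD (by omega) not_inj_4_2_3 (by omega : 3 ≤ k) h
      · exact neg_up le_rfl hD (by omega) not_inj_4_3_3 (by omega : 3 ≤ k) h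
    · rcases Nat.lt_or_ge k 3 with hk3 | hk3
      · have hk2 : k = 2 := by omega
        subst hk2
        exact neg2e hn (by omega) hpar (by omega) h
      · exact neg_up hn hD (by omega) (neg3e (by omega) hD hpar) hk3 h
  · rintro (⟨rfl, rfl | rfl⟩ | ⟨rfl, ⟨rfl, rfl⟩ | ⟨rfl, rfl⟩⟩)
    · exact inj_1_2 hn
    · exact inj_2_2 (by omega)
    · exact inj_4_1_3
    · exact inj_4_3_2

/-- `n D` odd -/
private theorem odd_case {D k : ℕ} (hn : 4 ≤ n) (hD : 1 ≤ D) (hk : 2 ≤ k)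
    (hpar : n * D % 2 = 1) (hn2 : n % 2 = 1) (hD2 : D % 2 = 1) :
    Inj n D k ↔ (k = 2 ∧ D = 1) ∨ ((D = 1 ∧ k = 3) ∨ (D = 3 ∧ k = 2)) ∨
      (n = 5 ∧ D = 1 ∧ k ≤ 7) ∨ (n = 7 ∧ D = 1 ∧ k = 4) ∨ (n = 5 ∧ D = 3 ∧ k = 3) ∨
      ((n = 5 ∨ n = 7) ∧ D = 5 ∧ k = 2) := by
  obtain ⟨-, s518, s534, s553, s715, s733, s933⟩ := sporadic_neg
  constructor
  · intro h
    by_contra hcon
    have key : ∀ l, 1 ≤ l → l ≤ k → ¬ Inj n D l → False := fun l hl hlk hneg =>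
      neg_up hn hD hl hneg hlk h
    rcases Nat.lt_or_ge D 7 with hD7 | hD7
    · have hD' : D = 1 ∨ D = 3 ∨ D = 5 := by omega
      rcases hD' with rfl | rfl | rfl
      · rcases Nat.lt_or_ge n 9 with hn9 | hn9
        · have hn' : n = 5 ∨ n = 7 := by omega
          rcases hn' with rfl | rfl
          · exact key 8 (by omega) (by omega) s518
          · exact key 5 (by omega) (by omega) s715
        · exact key 4 (by omega) (by omega) (neg4o hpar (Or.inr ⟨hn9, rfl⟩))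
      · rcases Nat.lt_or_ge n 11 with hn11 | hn11
        · have hn' : n = 5 ∨ n = 7 ∨ n = 9 := by omega
          rcases hn' with rfl | rfl | rfl
          · exact key 4 (by omega) (by omega) s534
          · exact key 3 (by omega) (by omega) s733
          · exact key 3 (by omega) (by omega) s933
        · exact key 3 (by omega) (by omega) (neg3o hpar (Or.inr ⟨hn11, rfl⟩))
      · rcases Nat.lt_or_ge n 9 with hn9 | hn9
        · have hn' : n = 5 ∨ n = 7 := by omega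
          rcases hn' with rfl | rfl
          · exact key 3 (by omega) (by omega) s553
          · exact key 3 (by omega) (by omega) (neg3o hpar (Or.inl ⟨rfl, rfl⟩))
        · exact key 2 (by omega) hk (neg2o (by omega) hpar (Or.inr ⟨rfl, hn9⟩))
    · exact key 2 (by omega) hk (neg2o (by omega) hpar (Or.inl hD7))
  · rintro (⟨rfl, rfl⟩ | (⟨rfl, rfl⟩ | ⟨rfl, rfl⟩) | ⟨rfl, rfl, h⟩ | ⟨rfl, rfl, rfl⟩ |
      ⟨rfl, rfl, rfl⟩ | ⟨rfl | rfl, rfl, rfl⟩)
    · exact inj_1_2 hn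
    · exact inj_1_3 (by omega) hn2
    · exact inj_3_2 (by omega) hn2
    · exact inj_5_1_7.mono (by omega) le_rfl (by omega) h
    · exact inj_7_1_4
    · exact inj_5_3_3
    · exact inj_5_5_2
    · exact inj_7_5_2

/-- PIECE FIN. All cases, `d = D + 1 ≥ 2`, `k ≥ 2`. -/
theorem inj_iff {D k : ℕ} (hn : 4 ≤ n) (hD : 1 ≤ D) (hk : 2 ≤ k) :
    Inj n D k ↔
      (k = 2 ∧ (D = 1 ∨ D = 2)) ∨
      ((n = 4 ∨ n % 2 = 1) ∧ ((D = 1 ∧ k = 3) ∨ (D = 3 ∧ k = 2))) ∨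
      (n = 5 ∧ D = 1 ∧ k ≤ 7) ∨ (n = 7 ∧ D = 1 ∧ k = 4) ∨ (n = 5 ∧ D = 3 ∧ k = 3) ∨
      ((n = 5 ∨ n = 7) ∧ D = 5 ∧ k = 2) := by
  rcases Nat.mod_two_eq_zero_or_one (n * D) with hpar | hpar
  · rw [even_case hn hD hk hpar]
    have h1 : n % 2 = 0 ∨ D % 2 = 0 := by
      rcases Nat.mod_two_eq_zero_or_one n with h | h
      · exact Or.inl h
      · rcases Nat.mod_two_eq_zero_or_one D with h' | h'
        · exact Or.inr h'
        · rw [Nat.mul_mod, h, h'] at hpar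
          omega
    omega
  · have h1 : n % 2 = 1 ∧ D % 2 = 1 := by
      rcases Nat.mod_two_eq_zero_or_one n with h | h
      · rw [Nat.mul_mod, h, Nat.zero_mul] at hpar
        omega
      · rcases Nat.mod_two_eq_zero_or_one D with h' | h'
        · rw [Nat.mul_mod, h', Nat.mul_zero] at hpar
          omega
        · exact ⟨h, h'⟩
    rw [odd_case hn hD hk hpar h1.1 h1.2]
    refine or_congr ⟨fun h => ⟨h.1, Or.inl h.2⟩, fun h => ⟨h.1, by omega⟩⟩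
      (or_congr ⟨fun h => ⟨Or.inr h1.1, h⟩, fun h => h.2⟩ Iff.rfl)

/-- PIECE FIN. The classification for `n ≥ 4`. -/
theorem main {d k : ℕ} (hn : 4 ≤ n) (hd : 0 < d) (hk : 0 < k) :
    HasWLP n d k ↔
      d = 1 ∨ k = 1 ∨ (k = 2 ∧ (d = 2 ∨ d = 3)) ∨
      ((n = 4 ∨ n % 2 = 1) ∧ ((d = 2 ∧ k = 3) ∨ (d = 4 ∧ k = 2))) ∨
      (n = 5 ∧ d = 2 ∧ k ≤ 7) ∨ (n = 7 ∧ d = 2 ∧ k = 4) ∨ (n = 5 ∧ d = 4 ∧ k = 3) ∨
      ((n = 5 ∨ n = 7) ∧ d = 6 ∧ k = 2) := by
  by_cases hd1 : d = 1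
  · subst hd1
    refine ⟨fun _ => Or.inl rfl, fun _ => (hasWLP_iff n 1 k).mpr fun i => ?_⟩
    exact d_one_all (by omega) i 1
  by_cases hk1 : k = 1
  · subst hk1
    refine ⟨fun _ => Or.inr (Or.inl rfl), fun _ => (hasWLP_iff n d 1).mpr fun i => ?_⟩
    exact k_one_all hd i 1
  obtain ⟨D, rfl⟩ : ∃ D, d = D + 1 := ⟨d - 1, by omega⟩
  have h2 : D + 1 = 2 ↔ D = 1 := by omega
  have h3 : D + 1 = 3 ↔ D = 2 := by omega
  have h4 : D + 1 = 4 ↔ D = 3 := by omega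
  have h6 : D + 1 = 6 ↔ D = 5 := by omega
  rw [wlp_iff hn (by omega) (by omega), inj_iff hn (by omega) (by omega), or_iff_right hd1,
    or_iff_right hk1, h2, h3, h4, h6]

end Pool.Agent.Lib_MP_8b82cd_w
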