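import Mathlib
import Pool.Agent.Lib_MP_8b82cd_w.C1b
import Pool.Agent.Lib_MP_8b82cd_w.C2

/-! `T_{4,4,2}`. -/

namespace Pool.Agent.Lib_MP_8b82cd_w

open MvPolynomial Pool.Agent.Lib_MP_8b82cd_ag

/-- the exponent vector `(a, b, c, d)` -/
noncomputable def mk442 (a b c d : ℕ) : Fin 4 →₀ ℕ := Finsupp.equivFunOnFinite.symm ![a, b, c, d]

@[simp] theorem mk442_0 (a b c d : ℕ) : mk442 a b c d 0 = a := rfl
@[simp] theorem mk442_1 (a b c d : ℕ) : mk442 a b c d 1 = b := rfl
@[simp] theorem mk442_2 (a b c d : ℕ) : mk442 a b c d 2 = c := rfl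
@[simp] theorem mk442_3 (a b c d : ℕ) : mk442 a b c d 3 = d := rfl

theorem mk442_inj (a b c d a' b' c' d' : ℕ) :
    mk442 a b c d = mk442 a' b' c' d' ↔ a = a' ∧ b = b' ∧ c = c' ∧ d = d' := by
  constructor
  · intro h
    exact ⟨DFunLike.congr_fun h 0, DFunLike.congr_fun h 1, DFunLike.congr_fun h 2,
      DFunLike.congr_fun h 3⟩
  · rintro ⟨rfl, rfl, rfl, rfl⟩
    rfl

theorem mk442_eta (m : Fin 4 →₀ ℕ) : m = mk442 (m 0) (m 1) (m 2) (m 3) := by
  ext i
  fin_cases i <;> rfl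

/-- the exponents `(4, 4, 4, 1)` -/
def e442 : Fin 4 → ℕ := ![4, 4, 4, 1]

theorem e442_eq : Function.update (fun _ : Fin 4 => 3 + 1) 3 1 = e442 := by
  funext i
  fin_cases i <;> rfl

/-- membership of a form in `(x_0^4, x_1^4, x_2^4, x_3)` -/
theorem mem442 {t : ℕ} {p : MvPolynomial (Fin 4) ℂ} (hp : p.IsHomogeneous t) :
    p ∈ ciI e442 ↔ ∀ a b c : ℕ, a ≤ 3 → b ≤ 3 → c ≤ 3 → a + b + c = t →
      coeff (mk442 a b c 0) p = 0 := by
  rw [mem_ciI_iff]
  constructor
  · intro h a b c ha hb hc _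
    by_contra hne
    obtain ⟨i, hi⟩ := h _ (mem_support_iff.mpr hne)
    fin_cases i
    · have : 4 ≤ a := hi
      omega
    · have : 4 ≤ b := hi
      omega
    · have : 4 ≤ c := hi
      omega
    · have : 1 ≤ 0 := hi
      omega
  · intro h m hm
    by_contra hne
    push Not at hne
    have h0 : m 0 < 4 := hne 0
    have h1 : m 1 < 4 := hne 1
    have h2 : m 2 < 4 := hne 2
    have h3 : m 3 < 1 := hne 3
    have h4 : m 3 = 0 := by omega
    have h5 := (isHomogeneous_iff.mp hp) m (mem_support_iff.mp hm)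
    rw [Fin.sum_univ_four] at h5
    have h6 := h (m 0) (m 1) (m 2) (by omega) (by omega) (by omega) (by omega)
    have h7 := mk442_eta m
    rw [h4] at h7
    rw [← h7] at h6
    exact (mem_support_iff.mp hm) h6

/-- coefficients of the product with the sum of the variables -/
theorem coeff442 (v : MvPolynomial (Fin 4) ℂ) (a b c : ℕ) :
    coeff (mk442 a b c 0) (ell 4 * v) =
      (if a = 0 then 0 else coeff (mk442 (a - 1) b c 0) v) +
      (if b = 0 then 0 else coeff (mk442 a (b - 1) c 0) v) +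
      (if c = 0 then 0 else coeff (mk442 a b (c - 1) 0) v) := by
  classical
  rw [ell, Finset.sum_mul, coeff_sum, Fin.sum_univ_four, coeff_X_mul', coeff_X_mul', coeff_X_mul',
    coeff_X_mul']
  have s0 : (0 : Fin 4) ∈ (mk442 a b c 0).support ↔ ¬ a = 0 := by
    rw [Finsupp.mem_support_iff]; rfl
  have s1 : (1 : Fin 4) ∈ (mk442 a b c 0).support ↔ ¬ b = 0 := by
    rw [Finsupp.mem_support_iff]; rfl
  have s2 : (2 : Fin 4) ∈ (mk442 a b c 0).support ↔ ¬ c = 0 := by
    rw [Finsupp.mem_support_iff]; rfl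
  have s3 : ¬ (3 : Fin 4) ∈ (mk442 a b c 0).support := by
    rw [Finsupp.mem_support_iff, mk442_3]
    simp
  have t0 : mk442 a b c 0 - Finsupp.single 0 1 = mk442 (a - 1) b c 0 := by
    ext i
    fin_cases i <;> simp [mk442, Finsupp.single_apply]
  have t1 : mk442 a b c 0 - Finsupp.single 1 1 = mk442 a (b - 1) c 0 := by
    ext i
    fin_cases i <;> simp [mk442, Finsupp.single_apply]
  have t2 : mk442 a b c 0 - Finsupp.single 2 1 = mk442 a b (c - 1) 0 := by
    ext i
    fin_cases i <;> simp [mk442, Finsupp.single_apply]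
  rw [if_neg s3, t0, t1, t2, add_zero]
  simp only [s0, s1, s2, ite_not]

/-- monomials of a given degree -/
theorem hom442 {a b c t : ℕ} (x : ℂ) (h : a + b + c = t) :
    (monomial (mk442 a b c 0) x : MvPolynomial (Fin 4) ℂ).IsHomogeneous t := by
  apply isHomogeneous_monomial
  rw [Finsupp.degree_eq_sum, Fin.sum_univ_four]
  simpa using h

theorem dvd442 (m : Fin 4 →₀ ℕ) (x : ℂ) (i : Fin 4) (h : 3 ≤ m i) :
    (X i : MvPolynomial (Fin 4) ℂ) ^ (3 - 0) ∣ monomial m x := by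
  refine ⟨monomial (m - Finsupp.single i 3) x, ?_⟩
  rw [X_pow_eq_monomial, monomial_mul, one_mul]
  congr 1
  rw [add_comm, tsub_add_cancel_of_le]
  rw [Finsupp.single_le_iff]
  exact h

theorem cm442 (a b c a' b' c' : ℕ) (x : ℂ) :
    coeff (mk442 a b c 0) (monomial (mk442 a' b' c' 0) x : MvPolynomial (Fin 4) ℂ) =
      if a' = a ∧ b' = b ∧ c' = c then x else 0 := by
  classical
  rw [coeff_monomial]
  simp only [mk442_inj, and_true]

/-- degree 9 -/
theorem span442_9 : SpanE 3 0 e442 9 := by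
  intro v hv _
  have hw : (monomial (mk442 3 3 3 0) (coeff (mk442 3 3 3 0) v) :
      MvPolynomial (Fin 4) ℂ).IsHomogeneous 9 := hom442 _ (by norm_num)
  refine ⟨![monomial (mk442 3 3 3 0) (coeff (mk442 3 3 3 0) v), 0, 0, 0], ?_, ?_⟩
  · intro i
    fin_cases i
    · refine ⟨hw, ?_, dvd442 _ _ _ (by simp)⟩
      have h1 : (ell 4 * (monomial (mk442 3 3 3 0) (coeff (mk442 3 3 3 0) v) :
          MvPolynomial (Fin 4) ℂ)).IsHomogeneous (1 + 9) := (ell_isHomogeneous 4).mul hw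
      show ell 4 * monomial (mk442 3 3 3 0) (coeff (mk442 3 3 3 0) v) ∈ ciI e442
      rw [mem442 h1]
      intro a b c ha hb hc hs
      omega
    all_goals exact ⟨isHomogeneous_zero _ _ _, by simp, dvd_zero _⟩
  · have h2 : (v - ∑ i : Fin 4, (![monomial (mk442 3 3 3 0) (coeff (mk442 3 3 3 0) v), 0, 0, 0] :
        Fin 4 → MvPolynomial (Fin 4) ℂ) i) =
        v - monomial (mk442 3 3 3 0) (coeff (mk442 3 3 3 0) v) := by
      simp [Fin.sum_univ_four]
    rw [h2, mem442 (hv.sub hw)]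
    intro a b c ha hb hc hs
    have e1 : a = 3 := by omega
    have e2 : b = 3 := by omega
    have e3 : c = 3 := by omega
    subst e1 e2 e3
    rw [coeff_sub, cm442]
    simp

/-- degree 8 -/
theorem span442_8 : SpanE 3 0 e442 8 := by
  intro v hv hL
  have hL1 := (mem442 ((ell_isHomogeneous 4).mul hv)).1 hL 3 3 3 le_rfl le_rfl le_rfl (by norm_num)
  rw [coeff442] at hL1
  norm_num at hL1
  obtain ⟨x, hx⟩ : ∃ x, x = coeff (mk442 3 3 2 0) v := ⟨_, rfl⟩
  obtain ⟨y, hy⟩ : ∃ y, y = coeff (mk442 3 2 3 0) v := ⟨_, rfl⟩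
  obtain ⟨z, hz⟩ : ∃ z, z = coeff (mk442 2 3 3 0) v := ⟨_, rfl⟩
  rw [← hx, ← hy, ← hz] at hL1
  have hw0 : (monomial (mk442 3 2 3 0) y - monomial (mk442 3 3 2 0) y :
      MvPolynomial (Fin 4) ℂ).IsHomogeneous 8 :=
    (hom442 _ (by norm_num)).sub (hom442 _ (by norm_num))
  have hw1 : (monomial (mk442 3 3 2 0) (x + y) - monomial (mk442 2 3 3 0) (x + y) :
      MvPolynomial (Fin 4) ℂ).IsHomogeneous 8 :=
    (hom442 _ (by norm_num)).sub (hom442 _ (by norm_num))
  refine ⟨![monomial (mk442 3 2 3 0) y - monomial (mk442 3 3 2 0) y,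
    monomial (mk442 3 3 2 0) (x + y) - monomial (mk442 2 3 3 0) (x + y), 0, 0], ?_, ?_⟩
  · intro i
    fin_cases i
    · refine ⟨hw0, ?_, dvd_sub (dvd442 _ _ _ (by simp)) (dvd442 _ _ _ (by simp))⟩
      have h1 := (ell_isHomogeneous 4).mul hw0
      show ell 4 * (monomial (mk442 3 2 3 0) y - monomial (mk442 3 3 2 0) y) ∈ ciI e442
      rw [mem442 h1]
      intro a b c ha hb hc hs
      have e1 : a = 3 := by omega
      have e2 : b = 3 := by omega
      have e3 : c = 3 := by omega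
      subst e1 e2 e3
      rw [coeff442]
      simp only [coeff_sub, cm442]
      norm_num
    · refine ⟨hw1, ?_, dvd_sub (dvd442 _ _ _ (by simp)) (dvd442 _ _ _ (by simp))⟩
      have h1 := (ell_isHomogeneous 4).mul hw1
      show ell 4 * (monomial (mk442 3 3 2 0) (x + y) - monomial (mk442 2 3 3 0) (x + y)) ∈
        ciI e442
      rw [mem442 h1]
      intro a b c ha hb hc hs
      have e1 : a = 3 := by omega
      have e2 : b = 3 := by omega
      have e3 : c = 3 := by omega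
      subst e1 e2 e3
      rw [coeff442]
      simp only [coeff_sub, cm442]
      norm_num
    all_goals exact ⟨isHomogeneous_zero _ _ _, by simp, dvd_zero _⟩
  · have h2 : (v - ∑ i : Fin 4, (![monomial (mk442 3 2 3 0) y - monomial (mk442 3 3 2 0) y,
        monomial (mk442 3 3 2 0) (x + y) - monomial (mk442 2 3 3 0) (x + y), 0, 0] :
        Fin 4 → MvPolynomial (Fin 4) ℂ) i) =
        v - ((monomial (mk442 3 2 3 0) y - monomial (mk442 3 3 2 0) y) +
        (monomial (mk442 3 3 2 0) (x + y) - monomial (mk442 2 3 3 0) (x + y))) := by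
      simp [Fin.sum_univ_four]
    rw [h2, mem442 (hv.sub (hw0.add hw1))]
    intro a b c ha hb hc hs
    obtain ⟨e1, e2, e3⟩ | ⟨e1, e2, e3⟩ | ⟨e1, e2, e3⟩ :
        (a = 2 ∧ b = 3 ∧ c = 3) ∨ (a = 3 ∧ b = 2 ∧ c = 3) ∨ (a = 3 ∧ b = 3 ∧ c = 2) := by omega
    · subst e1 e2 e3
      simp only [coeff_sub, coeff_add, cm442]
      norm_num
      rw [← hz]
      linear_combination hL1
    · subst e1 e2 e3
      simp only [coeff_sub, coeff_add, cm442]
      norm_num
      rw [← hy]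
      ring
    · subst e1 e2 e3
      simp only [coeff_sub, coeff_add, cm442]
      norm_num
      rw [← hx]
      ring

/-- degree 7 -/
theorem span442_7 : SpanE 3 0 e442 7 := by
  intro v hv hL
  have hL0 := (mem442 ((ell_isHomogeneous 4).mul hv)).1 hL
  have h332 := hL0 3 3 2 (by norm_num) (by norm_num) (by norm_num) (by norm_num)
  have h323 := hL0 3 2 3 (by norm_num) (by norm_num) (by norm_num) (by norm_num)
  have h233 := hL0 2 3 3 (by norm_num) (by norm_num) (by norm_num) (by norm_num)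
  rw [coeff442] at h332 h323 h233
  norm_num at h332 h323 h233
  obtain ⟨x, hx⟩ : ∃ x, x = coeff (mk442 3 2 2 0) v := ⟨_, rfl⟩
  obtain ⟨y, hy⟩ : ∃ y, y = coeff (mk442 2 3 2 0) v := ⟨_, rfl⟩
  obtain ⟨z, hz⟩ : ∃ z, z = coeff (mk442 2 2 3 0) v := ⟨_, rfl⟩
  rw [← hx, ← hy] at h332
  rw [← hx, ← hz] at h323
  rw [← hy, ← hz] at h233
  have hw0 : (monomial (mk442 3 2 2 0) x - monomial (mk442 3 3 1 0) x -
      monomial (mk442 3 1 3 0) x : MvPolynomial (Fin 4) ℂ).IsHomogeneous 7 :=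
    ((hom442 _ (by norm_num)).sub (hom442 _ (by norm_num))).sub (hom442 _ (by norm_num))
  have hw1 : (monomial (mk442 2 3 2 0) y - monomial (mk442 3 3 1 0) y -
      monomial (mk442 1 3 3 0) y : MvPolynomial (Fin 4) ℂ).IsHomogeneous 7 :=
    ((hom442 _ (by norm_num)).sub (hom442 _ (by norm_num))).sub (hom442 _ (by norm_num))
  have hw2 : (monomial (mk442 2 2 3 0) z - monomial (mk442 3 1 3 0) z -
      monomial (mk442 1 3 3 0) z : MvPolynomial (Fin 4) ℂ).IsHomogeneous 7 :=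
    ((hom442 _ (by norm_num)).sub (hom442 _ (by norm_num))).sub (hom442 _ (by norm_num))
  refine ⟨![monomial (mk442 3 2 2 0) x - monomial (mk442 3 3 1 0) x - monomial (mk442 3 1 3 0) x,
    monomial (mk442 2 3 2 0) y - monomial (mk442 3 3 1 0) y - monomial (mk442 1 3 3 0) y,
    monomial (mk442 2 2 3 0) z - monomial (mk442 3 1 3 0) z - monomial (mk442 1 3 3 0) z, 0],
    ?_, ?_⟩
  · have hcases : ∀ a b c : ℕ, a ≤ 3 → b ≤ 3 → c ≤ 3 → a + b + c = 1 + 7 →
        (a = 2 ∧ b = 3 ∧ c = 3) ∨ (a = 3 ∧ b = 2 ∧ c = 3) ∨ (a = 3 ∧ b = 3 ∧ c = 2) := by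
      intro a b c ha hb hc hs
      omega
    intro i
    fin_cases i
    · refine ⟨hw0, ?_, dvd_sub (dvd_sub (dvd442 _ _ _ (by simp)) (dvd442 _ _ _ (by simp)))
        (dvd442 _ _ _ (by simp))⟩
      have h1 := (ell_isHomogeneous 4).mul hw0
      show ell 4 * (monomial (mk442 3 2 2 0) x - monomial (mk442 3 3 1 0) x -
        monomial (mk442 3 1 3 0) x) ∈ ciI e442
      rw [mem442 h1]
      intro a b c ha hb hc hs
      obtain ⟨e1, e2, e3⟩ | ⟨e1, e2, e3⟩ | ⟨e1, e2, e3⟩ := hcases a b c ha hb hc hs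
      all_goals
        subst e1 e2 e3
        rw [coeff442]
        simp only [coeff_sub, cm442]
        norm_num
    · refine ⟨hw1, ?_, dvd_sub (dvd_sub (dvd442 _ _ _ (by simp)) (dvd442 _ _ _ (by simp)))
        (dvd442 _ _ _ (by simp))⟩
      have h1 := (ell_isHomogeneous 4).mul hw1
      show ell 4 * (monomial (mk442 2 3 2 0) y - monomial (mk442 3 3 1 0) y -
        monomial (mk442 1 3 3 0) y) ∈ ciI e442
      rw [mem442 h1]
      intro a b c ha hb hc hs
      obtain ⟨e1, e2, e3⟩ | ⟨e1, e2, e3⟩ | ⟨e1, e2, e3⟩ := hcases a b c ha hb hc hs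
      all_goals
        subst e1 e2 e3
        rw [coeff442]
        simp only [coeff_sub, cm442]
        norm_num
    · refine ⟨hw2, ?_, dvd_sub (dvd_sub (dvd442 _ _ _ (by simp)) (dvd442 _ _ _ (by simp)))
        (dvd442 _ _ _ (by simp))⟩
      have h1 := (ell_isHomogeneous 4).mul hw2
      show ell 4 * (monomial (mk442 2 2 3 0) z - monomial (mk442 3 1 3 0) z -
        monomial (mk442 1 3 3 0) z) ∈ ciI e442
      rw [mem442 h1]
      intro a b c ha hb hc hs
      obtain ⟨e1, e2, e3⟩ | ⟨e1, e2, e3⟩ | ⟨e1, e2, e3⟩ := hcases a b c ha hb hc hs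
      all_goals
        subst e1 e2 e3
        rw [coeff442]
        simp only [coeff_sub, cm442]
        norm_num
    · exact ⟨isHomogeneous_zero _ _ _, by simp, dvd_zero _⟩
  · have h2 : (v - ∑ i : Fin 4, (![monomial (mk442 3 2 2 0) x - monomial (mk442 3 3 1 0) x -
        monomial (mk442 3 1 3 0) x,
        monomial (mk442 2 3 2 0) y - monomial (mk442 3 3 1 0) y - monomial (mk442 1 3 3 0) y,
        monomial (mk442 2 2 3 0) z - monomial (mk442 3 1 3 0) z - monomial (mk442 1 3 3 0) z, 0] :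
        Fin 4 → MvPolynomial (Fin 4) ℂ) i) =
        v - ((monomial (mk442 3 2 2 0) x - monomial (mk442 3 3 1 0) x -
          monomial (mk442 3 1 3 0) x) +
        (monomial (mk442 2 3 2 0) y - monomial (mk442 3 3 1 0) y - monomial (mk442 1 3 3 0) y) +
        (monomial (mk442 2 2 3 0) z - monomial (mk442 3 1 3 0) z -
          monomial (mk442 1 3 3 0) z)) := by
      simp [Fin.sum_univ_four]
    rw [h2, mem442 (hv.sub ((hw0.add hw1).add hw2))]
    intro a b c ha hb hc hs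
    obtain ⟨e1, e2, e3⟩ | ⟨e1, e2, e3⟩ | ⟨e1, e2, e3⟩ | ⟨e1, e2, e3⟩ | ⟨e1, e2, e3⟩ |
        ⟨e1, e2, e3⟩ :
        (a = 3 ∧ b = 2 ∧ c = 2) ∨ (a = 2 ∧ b = 3 ∧ c = 2) ∨ (a = 2 ∧ b = 2 ∧ c = 3) ∨
        (a = 3 ∧ b = 3 ∧ c = 1) ∨ (a = 3 ∧ b = 1 ∧ c = 3) ∨ (a = 1 ∧ b = 3 ∧ c = 3) := by omega
    · subst e1 e2 e3
      simp only [coeff_sub, coeff_add, cm442]
      norm_num
      rw [← hx]
      ring
    · subst e1 e2 e3
      simp only [coeff_sub, coeff_add, cm442]
      norm_num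
      rw [← hy]
      ring
    · subst e1 e2 e3
      simp only [coeff_sub, coeff_add, cm442]
      norm_num
      rw [← hz]
      ring
    · subst e1 e2 e3
      simp only [coeff_sub, coeff_add, cm442]
      norm_num
      linear_combination h332
    · subst e1 e2 e3
      simp only [coeff_sub, coeff_add, cm442]
      norm_num
      linear_combination h323
    · subst e1 e2 e3
      simp only [coeff_sub, coeff_add, cm442]
      norm_num
      linear_combination h233

/-- PIECE S442. `pos_two` with `D = 3`, `b = 0`, `t = 9`; `span_step` with `l = 3` reduces to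
`SpanE 3 0 e' t'`, `t' = 9, 8, 7`, `e' = (4,4,4,1)`. Modulo `ciI e'` the form `v` is:
`t' = 9`: `c x0^3 x1^3 x2^3`, take `w 0`.
`t' = 8`: `a x0^3x1^3x2^2 + b x0^3x1^2x2^3 + c x0^2x1^3x2^3` with `a + b + c = 0`; take
`w 1 = (a+b) x1^3 (x0^3x2^2 - x0^2x2^3)`, `w 0 = b x0^3 (x1^2x2^3 - x1^3x2^2)`.
`t' = 7`: monomials of type (3,3,1) and (3,2,2); with `α, β, γ` the coefficients at
(3,2,2), (2,3,2), (2,2,3) the others are `-α-β` at (3,3,1) etc.; take
`w 0 = α x0^3 (x1^2x2^2 - x1^3x2 - x1x2^3)` and similarly `w 1`, `w 2`. -/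
theorem inj_4_3_2 : Inj 4 3 2 := by
  apply pos_two (b := 0) (by norm_num) (by norm_num) (by norm_num)
  have h9 : e0 4 3 2 - 1 = 9 := by simp [e0]
  rw [h9]
  apply span_step (by norm_num) _ (fun i => Or.inr rfl) 3 rfl
  · simp
  · intro j hj _
    rw [e442_eq]
    obtain rfl | rfl | rfl : j = 0 ∨ j = 1 ∨ j = 2 := by omega
    · exact span442_9
    · exact span442_8
    · exact span442_7

end Pool.Agent.Lib_MP_8b82cd_w
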