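import Mathlib
import Pool.Agent.Lib_MP_8b82cd_w.C1b
import Pool.Agent.Lib_MP_8b82cd_w.C2

/-! `T_{5,6,2}`. -/

namespace Pool.Agent.Lib_MP_8b82cd_w

open MvPolynomial Pool.Agent.Lib_MP_8b82cd_ag

/-- exponents `D + 1` on the first `N` variables and `1` on the others -/
def eN (n D N : ℕ) : Fin n → ℕ := fun i => if (i : ℕ) < N then D + 1 else 1

/-- the exponent vector `(a, b, c, 0, …, 0)` -/
noncomputable def mk562 (m a b c : ℕ) : Fin (m + 3) →₀ ℕ :=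
  Finsupp.equivFunOnFinite.symm
    (Fin.cons a (Fin.cons b (Fin.cons c (fun _ : Fin m => 0) : Fin (m + 1) → ℕ) :
      Fin (m + 2) → ℕ) : Fin (m + 3) → ℕ)

@[simp] theorem mk562_0 (m a b c : ℕ) : mk562 m a b c 0 = a := rfl
@[simp] theorem mk562_1 (m a b c : ℕ) : mk562 m a b c (Fin.succ 0) = b := rfl
@[simp] theorem mk562_2 (m a b c : ℕ) : mk562 m a b c (Fin.succ (Fin.succ 0)) = c := rfl
@[simp] theorem mk562_3 (m a b c : ℕ) (i : Fin m) :
    mk562 m a b c (Fin.succ (Fin.succ (Fin.succ i))) = 0 := rfl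

theorem mk562_inj (m a b c a' b' c' : ℕ) :
    mk562 m a b c = mk562 m a' b' c' ↔ a = a' ∧ b = b' ∧ c = c' := by
  constructor
  · intro h
    exact ⟨DFunLike.congr_fun h 0, DFunLike.congr_fun h (Fin.succ 0),
      DFunLike.congr_fun h (Fin.succ (Fin.succ 0))⟩
  · rintro ⟨rfl, rfl, rfl⟩
    rfl

theorem fin562 {m : ℕ} {P : Fin (m + 3) → Prop} (h0 : P 0) (h1 : P (Fin.succ 0))
    (h2 : P (Fin.succ (Fin.succ 0))) (h3 : ∀ i : Fin m, P (Fin.succ (Fin.succ (Fin.succ i)))) :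
    ∀ i, P i :=
  Fin.cases h0 (Fin.cases h1 (Fin.cases h2 h3))

theorem mk562_eta {m : ℕ} (r : Fin (m + 3) →₀ ℕ)
    (h : ∀ i : Fin m, r (Fin.succ (Fin.succ (Fin.succ i))) = 0) :
    r = mk562 m (r 0) (r (Fin.succ 0)) (r (Fin.succ (Fin.succ 0))) := by
  ext i
  revert i
  apply fin562
  · rfl
  · rfl
  · rfl
  · intro i
    rw [h i]
    rfl

theorem eN562_0 (m : ℕ) : eN (m + 3) 5 3 0 = 6 := rfl

theorem eN562_1 (m : ℕ) : eN (m + 3) 5 3 (Fin.succ 0) = 6 := rfl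

theorem eN562_2 (m : ℕ) : eN (m + 3) 5 3 (Fin.succ (Fin.succ 0)) = 6 := rfl

theorem eN562_3 (m : ℕ) (i : Fin m) :
    eN (m + 3) 5 3 (Fin.succ (Fin.succ (Fin.succ i))) = 1 := by
  unfold eN
  rw [if_neg]
  rw [Fin.val_succ, Fin.val_succ, Fin.val_succ]
  omega

theorem sum562 {m : ℕ} {M : Type*} [AddCommMonoid M] (f : Fin (m + 3) → M) :
    ∑ i, f i = f 0 + (f (Fin.succ 0) + (f (Fin.succ (Fin.succ 0)) +
      ∑ i : Fin m, f (Fin.succ (Fin.succ (Fin.succ i))))) := by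
  rw [Fin.sum_univ_succ, Fin.sum_univ_succ, Fin.sum_univ_succ]

/-- membership of a form in `(x_0^6, x_1^6, x_2^6, x_3, …)` -/
theorem mem562 {m t : ℕ} {p : MvPolynomial (Fin (m + 3)) ℂ} (hp : p.IsHomogeneous t) :
    p ∈ ciI (eN (m + 3) 5 3) ↔ ∀ a b c : ℕ, a ≤ 5 → b ≤ 5 → c ≤ 5 → a + b + c = t →
      coeff (mk562 m a b c) p = 0 := by
  rw [mem_ciI_iff]
  constructor
  · intro h a b c ha hb hc _
    by_contra hne
    obtain ⟨i, hi⟩ := h _ (mem_support_iff.mpr hne)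
    revert i
    apply fin562
    · intro hi
      rw [eN562_0, mk562_0] at hi
      omega
    · intro hi
      rw [eN562_1, mk562_1] at hi
      omega
    · intro hi
      rw [eN562_2, mk562_2] at hi
      omega
    · intro i hi
      rw [eN562_3, mk562_3] at hi
      omega
  · intro h r hr
    by_contra hne
    push Not at hne
    have h0 : r 0 < 6 := by
      have := hne 0
      rwa [eN562_0] at this
    have h1 : r (Fin.succ 0) < 6 := by
      have := hne (Fin.succ 0)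
      rwa [eN562_1] at this
    have h2 : r (Fin.succ (Fin.succ 0)) < 6 := by
      have := hne (Fin.succ (Fin.succ 0))
      rwa [eN562_2] at this
    have h3 : ∀ i : Fin m, r (Fin.succ (Fin.succ (Fin.succ i))) = 0 := by
      intro i
      have := hne (Fin.succ (Fin.succ (Fin.succ i)))
      rw [eN562_3] at this
      omega
    have h5 := (isHomogeneous_iff.mp hp) r (mem_support_iff.mp hr)
    rw [sum562, Finset.sum_eq_zero (fun i _ => h3 i)] at h5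
    have h6 := h (r 0) (r (Fin.succ 0)) (r (Fin.succ (Fin.succ 0))) (by omega) (by omega)
      (by omega) (by omega)
    rw [← mk562_eta r h3] at h6
    exact (mem_support_iff.mp hr) h6

/-- coefficients of the product with the sum of the variables -/
theorem coeff562 {m : ℕ} (v : MvPolynomial (Fin (m + 3)) ℂ) (a b c : ℕ) :
    coeff (mk562 m a b c) (ell (m + 3) * v) =
      (if a = 0 then 0 else coeff (mk562 m (a - 1) b c) v) +
      (if b = 0 then 0 else coeff (mk562 m a (b - 1) c) v) +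
      (if c = 0 then 0 else coeff (mk562 m a b (c - 1)) v) := by
  classical
  rw [ell, Finset.sum_mul, coeff_sum, sum562, coeff_X_mul', coeff_X_mul', coeff_X_mul']
  have s0 : (0 : Fin (m + 3)) ∈ (mk562 m a b c).support ↔ ¬ a = 0 := by
    rw [Finsupp.mem_support_iff]; rfl
  have s1 : (Fin.succ 0 : Fin (m + 3)) ∈ (mk562 m a b c).support ↔ ¬ b = 0 := by
    rw [Finsupp.mem_support_iff]; rfl
  have s2 : (Fin.succ (Fin.succ 0) : Fin (m + 3)) ∈ (mk562 m a b c).support ↔ ¬ c = 0 := by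
    rw [Finsupp.mem_support_iff]; rfl
  have s3 : ∑ i : Fin m, coeff (mk562 m a b c) (X (Fin.succ (Fin.succ (Fin.succ i))) * v) = 0 := by
    apply Finset.sum_eq_zero
    intro i _
    rw [coeff_X_mul', if_neg]
    rw [Finsupp.mem_support_iff, mk562_3]
    simp
  have t0 : mk562 m a b c - Finsupp.single 0 1 = mk562 m (a - 1) b c := by
    ext i
    rw [Finsupp.tsub_apply, Finsupp.single_apply]
    revert i
    apply fin562
    · rw [if_pos rfl, mk562_0, mk562_0]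
    · rw [if_neg (Fin.succ_ne_zero _).symm, mk562_1, mk562_1, Nat.sub_zero]
    · rw [if_neg (Fin.succ_ne_zero _).symm, mk562_2, mk562_2, Nat.sub_zero]
    · intro i
      rw [if_neg (Fin.succ_ne_zero _).symm, mk562_3, mk562_3, Nat.sub_zero]
  have t1 : mk562 m a b c - Finsupp.single (Fin.succ 0) 1 = mk562 m a (b - 1) c := by
    ext i
    rw [Finsupp.tsub_apply, Finsupp.single_apply]
    revert i
    apply fin562
    · rw [if_neg (Fin.succ_ne_zero _), mk562_0, mk562_0, Nat.sub_zero]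
    · rw [if_pos rfl, mk562_1, mk562_1]
    · rw [if_neg (fun h => (Fin.succ_ne_zero _) (Fin.succ_injective _ h).symm), mk562_2, mk562_2,
        Nat.sub_zero]
    · intro i
      rw [if_neg (fun h => (Fin.succ_ne_zero _) (Fin.succ_injective _ h).symm), mk562_3, mk562_3,
        Nat.sub_zero]
  have t2 : mk562 m a b c - Finsupp.single (Fin.succ (Fin.succ 0)) 1 = mk562 m a b (c - 1) := by
    ext i
    rw [Finsupp.tsub_apply, Finsupp.single_apply]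
    revert i
    apply fin562
    · rw [if_neg (Fin.succ_ne_zero _), mk562_0, mk562_0, Nat.sub_zero]
    · rw [if_neg (fun h => (Fin.succ_ne_zero _) (Fin.succ_injective _ h)), mk562_1, mk562_1,
        Nat.sub_zero]
    · rw [if_pos rfl, mk562_2, mk562_2]
    · intro i
      rw [if_neg (fun h => (Fin.succ_ne_zero _)
        (Fin.succ_injective _ (Fin.succ_injective _ h)).symm), mk562_3, mk562_3, Nat.sub_zero]
  rw [s3, t0, t1, t2, add_zero]
  simp only [s0, s1, s2, ite_not]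
  ring

/-- monomials of a given degree -/
theorem hom562 {m a b c t : ℕ} (x : ℂ) (h : a + b + c = t) :
    (monomial (mk562 m a b c) x : MvPolynomial (Fin (m + 3)) ℂ).IsHomogeneous t := by
  apply isHomogeneous_monomial
  rw [Finsupp.degree_eq_sum, sum562, Finset.sum_eq_zero (fun i _ => mk562_3 m a b c i), mk562_0,
    mk562_1, mk562_2]
  omega

theorem dvd562 {m : ℕ} (r : Fin (m + 3) →₀ ℕ) (x : ℂ) (i : Fin (m + 3)) (h : 4 ≤ r i) :
    (X i : MvPolynomial (Fin (m + 3)) ℂ) ^ (5 - 1) ∣ monomial r x := by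
  have h1 : Finsupp.single i 4 + (r - Finsupp.single i 4) = r := by
    rw [add_tsub_cancel_of_le]
    rw [Finsupp.single_le_iff]
    exact h
  refine ⟨monomial (r - Finsupp.single i 4) x, ?_⟩
  rw [X_pow_eq_monomial, monomial_mul, one_mul]
  show monomial r x = monomial (Finsupp.single i 4 + (r - Finsupp.single i 4)) x
  rw [h1]

theorem cm562 (m a b c a' b' c' : ℕ) (x : ℂ) :
    coeff (mk562 m a b c) (monomial (mk562 m a' b' c') x : MvPolynomial (Fin (m + 3)) ℂ) =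
      if a' = a ∧ b' = b ∧ c' = c then x else 0 := by
  classical
  rw [coeff_monomial]
  simp only [mk562_inj]

/-- `x^5 (y z^5 - y^2 z^4 + y^3 z^3 - y^4 z^2 + y^5 z)` times a constant -/
noncomputable def S562B0 (m : ℕ) (x : ℂ) : MvPolynomial (Fin (m + 3)) ℂ :=
  monomial (mk562 m 5 1 5) x - monomial (mk562 m 5 2 4) x + monomial (mk562 m 5 3 3) x -
    monomial (mk562 m 5 4 2) x + monomial (mk562 m 5 5 1) x

/-- `y^5 (x z^5 - x^2 z^4 + x^3 z^3 - x^4 z^2 + x^5 z)` times a constant -/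
noncomputable def S562B1 (m : ℕ) (x : ℂ) : MvPolynomial (Fin (m + 3)) ℂ :=
  monomial (mk562 m 1 5 5) x - monomial (mk562 m 2 5 4) x + monomial (mk562 m 3 5 3) x -
    monomial (mk562 m 4 5 2) x + monomial (mk562 m 5 5 1) x

/-- `z^5 (x y^5 - x^2 y^4 + x^3 y^3 - x^4 y^2 + x^5 y)` times a constant -/
noncomputable def S562B2 (m : ℕ) (x : ℂ) : MvPolynomial (Fin (m + 3)) ℂ :=
  monomial (mk562 m 1 5 5) x - monomial (mk562 m 2 4 5) x + monomial (mk562 m 3 3 5) x -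
    monomial (mk562 m 4 2 5) x + monomial (mk562 m 5 1 5) x

/-- `y^4 (x^2 z^5 - x^3 z^4 + x^4 z^3 - x^5 z^2) + y^5 (-2 x z^5 + x^2 z^4 - x^4 z^2 + 2 x^5 z)`
times a constant -/
noncomputable def S562A1 (m : ℕ) (x : ℂ) : MvPolynomial (Fin (m + 3)) ℂ :=
  (monomial (mk562 m 2 4 5) x - monomial (mk562 m 3 4 4) x + monomial (mk562 m 4 4 3) x -
    monomial (mk562 m 5 4 2) x) +
  (monomial (mk562 m 2 5 4) x - monomial (mk562 m 1 5 5) (2 * x) - monomial (mk562 m 4 5 2) x +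
    monomial (mk562 m 5 5 1) (2 * x))

/-- `z^4 (x^2 y^5 - x^3 y^4 + x^4 y^3 - x^5 y^2) + z^5 (-2 x y^5 + x^2 y^4 - x^4 y^2 + 2 x^5 y)`
times a constant -/
noncomputable def S562A2 (m : ℕ) (x : ℂ) : MvPolynomial (Fin (m + 3)) ℂ :=
  (monomial (mk562 m 2 5 4) x - monomial (mk562 m 3 4 4) x + monomial (mk562 m 4 3 4) x -
    monomial (mk562 m 5 2 4) x) +
  (monomial (mk562 m 2 4 5) x - monomial (mk562 m 1 5 5) (2 * x) - monomial (mk562 m 4 2 5) x +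
    monomial (mk562 m 5 1 5) (2 * x))

theorem S562B0_hom (m : ℕ) (x : ℂ) : (S562B0 m x).IsHomogeneous 11 := by
  unfold S562B0
  refine ((((hom562 _ ?_).sub (hom562 _ ?_)).add (hom562 _ ?_)).sub (hom562 _ ?_)).add
    (hom562 _ ?_) <;> norm_num

theorem S562B1_hom (m : ℕ) (x : ℂ) : (S562B1 m x).IsHomogeneous 11 := by
  unfold S562B1
  refine ((((hom562 _ ?_).sub (hom562 _ ?_)).add (hom562 _ ?_)).sub (hom562 _ ?_)).add
    (hom562 _ ?_) <;> norm_num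

theorem S562B2_hom (m : ℕ) (x : ℂ) : (S562B2 m x).IsHomogeneous 11 := by
  unfold S562B2
  refine ((((hom562 _ ?_).sub (hom562 _ ?_)).add (hom562 _ ?_)).sub (hom562 _ ?_)).add
    (hom562 _ ?_) <;> norm_num

theorem S562A1_hom (m : ℕ) (x : ℂ) : (S562A1 m x).IsHomogeneous 11 := by
  unfold S562A1
  refine ((((hom562 _ ?_).sub (hom562 _ ?_)).add (hom562 _ ?_)).sub (hom562 _ ?_)).add
    ((((hom562 _ ?_).sub (hom562 _ ?_)).sub (hom562 _ ?_)).add (hom562 _ ?_)) <;> norm_num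

theorem S562A2_hom (m : ℕ) (x : ℂ) : (S562A2 m x).IsHomogeneous 11 := by
  unfold S562A2
  refine ((((hom562 _ ?_).sub (hom562 _ ?_)).add (hom562 _ ?_)).sub (hom562 _ ?_)).add
    ((((hom562 _ ?_).sub (hom562 _ ?_)).sub (hom562 _ ?_)).add (hom562 _ ?_)) <;> norm_num

theorem S562B0_dvd (m : ℕ) (x : ℂ) :
    (X 0 : MvPolynomial (Fin (m + 3)) ℂ) ^ (5 - 1) ∣ S562B0 m x := by
  unfold S562B0
  refine dvd_add (dvd_sub (dvd_add (dvd_sub (dvd562 _ _ _ ?_) (dvd562 _ _ _ ?_))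
    (dvd562 _ _ _ ?_)) (dvd562 _ _ _ ?_)) (dvd562 _ _ _ ?_) <;> simp

theorem S562B1_dvd (m : ℕ) (x : ℂ) :
    (X (Fin.succ 0) : MvPolynomial (Fin (m + 3)) ℂ) ^ (5 - 1) ∣ S562B1 m x := by
  unfold S562B1
  refine dvd_add (dvd_sub (dvd_add (dvd_sub (dvd562 _ _ _ ?_) (dvd562 _ _ _ ?_))
    (dvd562 _ _ _ ?_)) (dvd562 _ _ _ ?_)) (dvd562 _ _ _ ?_) <;> rw [mk562_1] <;> norm_num

theorem S562B2_dvd (m : ℕ) (x : ℂ) :
    (X (Fin.succ (Fin.succ 0)) : MvPolynomial (Fin (m + 3)) ℂ) ^ (5 - 1) ∣ S562B2 m x := by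
  unfold S562B2
  refine dvd_add (dvd_sub (dvd_add (dvd_sub (dvd562 _ _ _ ?_) (dvd562 _ _ _ ?_))
    (dvd562 _ _ _ ?_)) (dvd562 _ _ _ ?_)) (dvd562 _ _ _ ?_) <;> rw [mk562_2] <;> norm_num

theorem S562A1_dvd (m : ℕ) (x : ℂ) :
    (X (Fin.succ 0) : MvPolynomial (Fin (m + 3)) ℂ) ^ (5 - 1) ∣ S562A1 m x := by
  unfold S562A1
  refine dvd_add
    (dvd_sub (dvd_add (dvd_sub (dvd562 _ _ _ ?_) (dvd562 _ _ _ ?_)) (dvd562 _ _ _ ?_))
      (dvd562 _ _ _ ?_))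
    (dvd_add (dvd_sub (dvd_sub (dvd562 _ _ _ ?_) (dvd562 _ _ _ ?_)) (dvd562 _ _ _ ?_))
      (dvd562 _ _ _ ?_)) <;> rw [mk562_1] <;> norm_num

theorem S562A2_dvd (m : ℕ) (x : ℂ) :
    (X (Fin.succ (Fin.succ 0)) : MvPolynomial (Fin (m + 3)) ℂ) ^ (5 - 1) ∣ S562A2 m x := by
  unfold S562A2
  refine dvd_add
    (dvd_sub (dvd_add (dvd_sub (dvd562 _ _ _ ?_) (dvd562 _ _ _ ?_)) (dvd562 _ _ _ ?_))
      (dvd562 _ _ _ ?_))
    (dvd_add (dvd_sub (dvd_sub (dvd562 _ _ _ ?_) (dvd562 _ _ _ ?_)) (dvd562 _ _ _ ?_))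
      (dvd562 _ _ _ ?_)) <;> rw [mk562_2] <;> norm_num

theorem cases562_12 : ∀ a b c : ℕ, a ≤ 5 → b ≤ 5 → c ≤ 5 → a + b + c = 12 →
    (a = 5 ∧ b = 5 ∧ c = 2) ∨ (a = 5 ∧ b = 2 ∧ c = 5) ∨ (a = 2 ∧ b = 5 ∧ c = 5) ∨
    (a = 5 ∧ b = 4 ∧ c = 3) ∨ (a = 5 ∧ b = 3 ∧ c = 4) ∨ (a = 4 ∧ b = 5 ∧ c = 3) ∨
    (a = 3 ∧ b = 5 ∧ c = 4) ∨ (a = 4 ∧ b = 3 ∧ c = 5) ∨ (a = 3 ∧ b = 4 ∧ c = 5) ∨
    (a = 4 ∧ b = 4 ∧ c = 4) := by
  intro a b c ha hb hc h
  have hc' : c = 12 - a - b := by omega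
  subst hc'
  interval_cases a <;> interval_cases b <;> simp_all

theorem cases562_11 : ∀ a b c : ℕ, a ≤ 5 → b ≤ 5 → c ≤ 5 → a + b + c = 11 →
    (a = 5 ∧ b = 5 ∧ c = 1) ∨ (a = 5 ∧ b = 1 ∧ c = 5) ∨ (a = 1 ∧ b = 5 ∧ c = 5) ∨
    (a = 5 ∧ b = 4 ∧ c = 2) ∨ (a = 5 ∧ b = 2 ∧ c = 4) ∨ (a = 4 ∧ b = 5 ∧ c = 2) ∨
    (a = 2 ∧ b = 5 ∧ c = 4) ∨ (a = 4 ∧ b = 2 ∧ c = 5) ∨ (a = 2 ∧ b = 4 ∧ c = 5) ∨
    (a = 5 ∧ b = 3 ∧ c = 3) ∨ (a = 3 ∧ b = 5 ∧ c = 3) ∨ (a = 3 ∧ b = 3 ∧ c = 5) ∨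
    (a = 4 ∧ b = 4 ∧ c = 3) ∨ (a = 4 ∧ b = 3 ∧ c = 4) ∨ (a = 3 ∧ b = 4 ∧ c = 4) := by
  intro a b c ha hb hc h
  have hc' : c = 11 - a - b := by omega
  subst hc'
  interval_cases a <;> interval_cases b <;> simp_all

theorem S562B0_mem (m : ℕ) (x : ℂ) : ell (m + 3) * S562B0 m x ∈ ciI (eN (m + 3) 5 3) := by
  rw [mem562 ((ell_isHomogeneous (m + 3)).mul (S562B0_hom m x))]
  intro a b c ha hb hc hs
  rcases cases562_12 a b c ha hb hc (by omega) with ⟨rfl, rfl, rfl⟩ | ⟨rfl, rfl, rfl⟩ |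
    ⟨rfl, rfl, rfl⟩ | ⟨rfl, rfl, rfl⟩ | ⟨rfl, rfl, rfl⟩ | ⟨rfl, rfl, rfl⟩ | ⟨rfl, rfl, rfl⟩ |
    ⟨rfl, rfl, rfl⟩ | ⟨rfl, rfl, rfl⟩ | ⟨rfl, rfl, rfl⟩
  all_goals
    rw [coeff562]
    simp only [S562B0, coeff_sub, coeff_add, cm562]
    norm_num

theorem S562B1_mem (m : ℕ) (x : ℂ) : ell (m + 3) * S562B1 m x ∈ ciI (eN (m + 3) 5 3) := by
  rw [mem562 ((ell_isHomogeneous (m + 3)).mul (S562B1_hom m x))]
  intro a b c ha hb hc hs
  rcases cases562_12 a b c ha hb hc (by omega) with ⟨rfl, rfl, rfl⟩ | ⟨rfl, rfl, rfl⟩ |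
    ⟨rfl, rfl, rfl⟩ | ⟨rfl, rfl, rfl⟩ | ⟨rfl, rfl, rfl⟩ | ⟨rfl, rfl, rfl⟩ | ⟨rfl, rfl, rfl⟩ |
    ⟨rfl, rfl, rfl⟩ | ⟨rfl, rfl, rfl⟩ | ⟨rfl, rfl, rfl⟩
  all_goals
    rw [coeff562]
    simp only [S562B1, coeff_sub, coeff_add, cm562]
    norm_num

theorem S562B2_mem (m : ℕ) (x : ℂ) : ell (m + 3) * S562B2 m x ∈ ciI (eN (m + 3) 5 3) := by
  rw [mem562 ((ell_isHomogeneous (m + 3)).mul (S562B2_hom m x))]
  intro a b c ha hb hc hs
  rcases cases562_12 a b c ha hb hc (by omega) with ⟨rfl, rfl, rfl⟩ | ⟨rfl, rfl, rfl⟩ |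
    ⟨rfl, rfl, rfl⟩ | ⟨rfl, rfl, rfl⟩ | ⟨rfl, rfl, rfl⟩ | ⟨rfl, rfl, rfl⟩ | ⟨rfl, rfl, rfl⟩ |
    ⟨rfl, rfl, rfl⟩ | ⟨rfl, rfl, rfl⟩ | ⟨rfl, rfl, rfl⟩
  all_goals
    rw [coeff562]
    simp only [S562B2, coeff_sub, coeff_add, cm562]
    norm_num

theorem S562A1_mem (m : ℕ) (x : ℂ) : ell (m + 3) * S562A1 m x ∈ ciI (eN (m + 3) 5 3) := by
  rw [mem562 ((ell_isHomogeneous (m + 3)).mul (S562A1_hom m x))]
  intro a b c ha hb hc hs
  rcases cases562_12 a b c ha hb hc (by omega) with ⟨rfl, rfl, rfl⟩ | ⟨rfl, rfl, rfl⟩ |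
    ⟨rfl, rfl, rfl⟩ | ⟨rfl, rfl, rfl⟩ | ⟨rfl, rfl, rfl⟩ | ⟨rfl, rfl, rfl⟩ | ⟨rfl, rfl, rfl⟩ |
    ⟨rfl, rfl, rfl⟩ | ⟨rfl, rfl, rfl⟩ | ⟨rfl, rfl, rfl⟩
  all_goals
    rw [coeff562]
    simp only [S562A1, coeff_sub, coeff_add, cm562]
    norm_num
    try ring

theorem S562A2_mem (m : ℕ) (x : ℂ) : ell (m + 3) * S562A2 m x ∈ ciI (eN (m + 3) 5 3) := by
  rw [mem562 ((ell_isHomogeneous (m + 3)).mul (S562A2_hom m x))]
  intro a b c ha hb hc hs
  rcases cases562_12 a b c ha hb hc (by omega) with ⟨rfl, rfl, rfl⟩ | ⟨rfl, rfl, rfl⟩ |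
    ⟨rfl, rfl, rfl⟩ | ⟨rfl, rfl, rfl⟩ | ⟨rfl, rfl, rfl⟩ | ⟨rfl, rfl, rfl⟩ | ⟨rfl, rfl, rfl⟩ |
    ⟨rfl, rfl, rfl⟩ | ⟨rfl, rfl, rfl⟩ | ⟨rfl, rfl, rfl⟩
  all_goals
    rw [coeff562]
    simp only [S562A2, coeff_sub, coeff_add, cm562]
    norm_num
    try ring

theorem span562_aux (m : ℕ) : SpanE 5 1 (eN (m + 3) 5 3) 11 := by
  intro v hv hL
  have hL0 := (mem562 ((ell_isHomogeneous (m + 3)).mul hv)).1 hL
  have h552 := hL0 5 5 2 (by norm_num) (by norm_num) (by norm_num) (by norm_num)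
  have h525 := hL0 5 2 5 (by norm_num) (by norm_num) (by norm_num) (by norm_num)
  have h255 := hL0 2 5 5 (by norm_num) (by norm_num) (by norm_num) (by norm_num)
  have h543 := hL0 5 4 3 (by norm_num) (by norm_num) (by norm_num) (by norm_num)
  have h534 := hL0 5 3 4 (by norm_num) (by norm_num) (by norm_num) (by norm_num)
  have h453 := hL0 4 5 3 (by norm_num) (by norm_num) (by norm_num) (by norm_num)
  have h354 := hL0 3 5 4 (by norm_num) (by norm_num) (by norm_num) (by norm_num)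
  have h435 := hL0 4 3 5 (by norm_num) (by norm_num) (by norm_num) (by norm_num)
  have h345 := hL0 3 4 5 (by norm_num) (by norm_num) (by norm_num) (by norm_num)
  have h444 := hL0 4 4 4 (by norm_num) (by norm_num) (by norm_num) (by norm_num)
  rw [coeff562] at h552 h525 h255 h543 h534 h453 h354 h435 h345 h444
  norm_num at h552 h525 h255 h543 h534 h453 h354 h435 h345 h444
  have hw0 := S562B0_hom m (coeff (mk562 m 5 3 3) v)
  have hw1 := (S562B1_hom m (coeff (mk562 m 3 5 3) v)).add (S562A1_hom m (coeff (mk562 m 4 4 3) v))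
  have hw2 := (S562B2_hom m (coeff (mk562 m 3 3 5) v)).add (S562A2_hom m (coeff (mk562 m 4 3 4) v))
  refine ⟨Fin.cons (S562B0 m (coeff (mk562 m 5 3 3) v))
    (Fin.cons (S562B1 m (coeff (mk562 m 3 5 3) v) + S562A1 m (coeff (mk562 m 4 4 3) v))
      (Fin.cons (S562B2 m (coeff (mk562 m 3 3 5) v) + S562A2 m (coeff (mk562 m 4 3 4) v))
        (fun _ : Fin m => 0) : Fin (m + 1) → MvPolynomial (Fin (m + 3)) ℂ) :
        Fin (m + 2) → MvPolynomial (Fin (m + 3)) ℂ), ?_, ?_⟩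
  · apply fin562
    · exact ⟨hw0, S562B0_mem m _, S562B0_dvd m _⟩
    · refine ⟨hw1, ?_, dvd_add (S562B1_dvd m _) (S562A1_dvd m _)⟩
      show ell (m + 3) * (S562B1 m (coeff (mk562 m 3 5 3) v) + S562A1 m (coeff (mk562 m 4 4 3) v)) ∈ _
      rw [mul_add]
      exact Ideal.add_mem _ (S562B1_mem m _) (S562A1_mem m _)
    · refine ⟨hw2, ?_, dvd_add (S562B2_dvd m _) (S562A2_dvd m _)⟩
      show ell (m + 3) * (S562B2 m (coeff (mk562 m 3 3 5) v) + S562A2 m (coeff (mk562 m 4 3 4) v)) ∈ _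
      rw [mul_add]
      exact Ideal.add_mem _ (S562B2_mem m _) (S562A2_mem m _)
    · intro i
      show (0 : MvPolynomial (Fin (m + 3)) ℂ).IsHomogeneous 11 ∧
        ell (m + 3) * (0 : MvPolynomial (Fin (m + 3)) ℂ) ∈ ciI (eN (m + 3) 5 3) ∧
        X (Fin.succ (Fin.succ (Fin.succ i))) ^ (5 - 1) ∣ (0 : MvPolynomial (Fin (m + 3)) ℂ)
      exact ⟨isHomogeneous_zero _ _ _, by simp, dvd_zero _⟩
  · rw [sum562]
    simp only [Fin.cons_zero, Fin.cons_succ, Finset.sum_const_zero, add_zero]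
    rw [mem562 (hv.sub (hw0.add (hw1.add hw2)))]
    intro a b c ha hb hc hs
    rcases cases562_11 a b c ha hb hc hs with ⟨rfl, rfl, rfl⟩ | ⟨rfl, rfl, rfl⟩ |
      ⟨rfl, rfl, rfl⟩ | ⟨rfl, rfl, rfl⟩ | ⟨rfl, rfl, rfl⟩ | ⟨rfl, rfl, rfl⟩ | ⟨rfl, rfl, rfl⟩ |
      ⟨rfl, rfl, rfl⟩ | ⟨rfl, rfl, rfl⟩ | ⟨rfl, rfl, rfl⟩ | ⟨rfl, rfl, rfl⟩ | ⟨rfl, rfl, rfl⟩ |
      ⟨rfl, rfl, rfl⟩ | ⟨rfl, rfl, rfl⟩ | ⟨rfl, rfl, rfl⟩
    all_goals
      simp only [S562B0, S562B1, S562B2, S562A1, S562A2, coeff_sub, coeff_add, cm562]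
      norm_num
    -- 551
    · linear_combination h552 - h543 - h453
    -- 515
    · linear_combination h525 - h534 - h435
    -- 155
    · linear_combination h255 - h354 - h345 + 2 * h444
    -- 542
    · linear_combination h543
    -- 524
    · linear_combination h534
    -- 452
    · linear_combination h453
    -- 254
    · linear_combination h354 - h444
    -- 425
    · linear_combination h435
    -- 245
    · linear_combination h345 - h444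
    -- 344
    · linear_combination h444

/-- PIECE S562a. Three variables `x, y, z` (indices 0, 1, 2), exponents `≤ 5`, degree 11 (15
monomials; modulo `ciI e` nothing else). With `B_i = x_i^5 ∑_{a=1}^5 (-1)^a s^a t^(6-a)` and
`A_i = x_i^4 ∑_{a=2}^5 (-1)^a s^a t^(7-a) + x_i^5 ∑_{a=1}^5 (-1)^a (3-a) s^a t^(6-a)`, `(s,t)` the
two other variables in increasing order, and `v(a,b,c)` the coefficients of `v`:
`w 0 = -v(5,3,3) B_0`, `w 1 = -v(3,5,3) B_1 + v(4,4,3) A_1`,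
`w 2 = -v(3,3,5) B_2 + v(4,3,4) A_2`. The ten equations `ell * v ∈ ciI e` (degree 12) give
`v = w 0 + w 1 + w 2` coefficientwise. -/
theorem span_5_3 (n : ℕ) (hn : 3 ≤ n) : SpanE 5 1 (eN n 5 3) 11 := by
  obtain ⟨m, rfl⟩ : ∃ m, n = m + 3 := ⟨n - 3, by omega⟩
  exact span562_aux m

theorem eN562_cases (n D N : ℕ) (i : Fin n) : eN n D N i = 1 ∨ eN n D N i = D + 1 := by
  unfold eN
  split_ifs
  · exact Or.inr rfl
  · exact Or.inl rfl

theorem eN562_pos (n D N : ℕ) (i : Fin n) : 1 ≤ eN n D N i := by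
  rcases eN562_cases n D N i with h | h <;> omega

theorem eN562_update (n D N : ℕ) (hN : N < n) :
    Function.update (eN n D (N + 1)) ⟨N, hN⟩ 1 = eN n D N := by
  funext i
  by_cases hi : i = ⟨N, hN⟩
  · subst hi
    rw [Function.update_self]
    simp [eN]
  · rw [Function.update_of_ne hi]
    have h1 : (i : ℕ) ≠ N := fun h => hi (Fin.ext h)
    unfold eN
    by_cases h2 : (i : ℕ) < N
    · rw [if_pos h2, if_pos (by omega)]
    · rw [if_neg h2, if_neg (by omega)]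

theorem eN562_sum (n D : ℕ) : ∀ N, N ≤ n → ∑ i, (eN n D N i - 1) = N * D := by
  intro N
  induction N with
  | zero =>
    intro _
    rw [zero_mul]
    apply Finset.sum_eq_zero
    intro i _
    simp [eN]
  | succ N ih =>
    intro hN
    have h1 := ih (by omega)
    have hN' : N < n := by omega
    rw [← eN562_update n D N hN'] at h1
    rw [← Finset.add_sum_erase _ _ (Finset.mem_univ (⟨N, hN'⟩ : Fin n)),
      Function.update_self] at h1
    rw [← Finset.add_sum_erase _ _ (Finset.mem_univ (⟨N, hN'⟩ : Fin n))]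
    have h2 : ∑ i ∈ Finset.univ.erase (⟨N, hN'⟩ : Fin n),
        (Function.update (eN n D (N + 1)) ⟨N, hN'⟩ 1 i - 1) =
        ∑ i ∈ Finset.univ.erase (⟨N, hN'⟩ : Fin n), (eN n D (N + 1) i - 1) := by
      apply Finset.sum_congr rfl
      intro i hi
      rw [Function.update_of_ne (Finset.ne_of_mem_erase hi)]
    rw [h2] at h1
    have h3 : eN n D (N + 1) ⟨N, hN'⟩ = D + 1 := by simp [eN]
    rw [h3]
    rw [Nat.add_mul]
    omega

theorem eN562_step (n N : ℕ) (hN : N < n) (t : ℕ) (ht : (N + 1) * 5 + 10 ≤ 2 * t + 3)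
    (ih : ∀ j, j < 4 → SpanE 5 1 (eN n 5 N) (t - j)) : SpanE 5 1 (eN n 5 (N + 1)) t := by
  apply span_step (by norm_num) _ (eN562_cases n 5 (N + 1)) ⟨N, hN⟩ (by simp [eN]) t
  · rw [eN562_sum n 5 (N + 1) (by omega)]
    omega
  · intro j hj _
    rw [eN562_update]
    exact ih j (by omega)

/-- PIECE S562b. By `span_step` (remove the last variable with exponent 6) and `span_top`:
`N = 1`: `t ≥ 6`; `N = 2`: `t ≥ 9`; `N = 3`: `t ≥ 12` from these, `t = 11` is `span_5_3`;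
`N = 4`: `t ≥ 14`. -/
theorem span_5_4 (n : ℕ) (hn : 4 ≤ n) (t : ℕ) (ht : 14 ≤ t) : SpanE 5 1 (eN n 5 4) t := by
  have h1 : ∀ t, 6 ≤ t → SpanE 5 1 (eN n 5 1) t := by
    intro t ht
    apply span_top _ (eN562_pos n 5 1)
    rw [eN562_sum n 5 1 (by omega)]
    omega
  have h2 : ∀ t, 9 ≤ t → SpanE 5 1 (eN n 5 2) t := by
    intro t ht
    apply eN562_step n 1 (by omega) t (by omega)
    intro j hj
    exact h1 _ (by omega)
  have h3 : ∀ t, 11 ≤ t → SpanE 5 1 (eN n 5 3) t := by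
    intro t ht
    rcases Nat.eq_or_lt_of_le ht with h | h
    · rw [← h]
      exact span_5_3 n (by omega)
    · apply eN562_step n 2 (by omega) t (by omega)
      intro j hj
      exact h2 _ (by omega)
  apply eN562_step n 3 (by omega) t (by omega)
  intro j hj
  exact h3 _ (by omega)

/-- PIECE S562c. `pos_two`, `b = 1`, `t = 17`, `span_step` with `l = 4` and `span_5_4`. -/
theorem inj_5_5_2 : Inj 5 5 2 := by
  apply pos_two (b := 1) (by norm_num) (by norm_num) (by norm_num)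
  have h17 : e0 5 5 2 - 1 = 17 := by simp [e0]
  rw [h17]
  apply span_step (by norm_num) _ (fun i => Or.inr rfl) 4 rfl
  · simp
  · intro j hj _
    have h1 : Function.update (fun _ : Fin 5 => 5 + 1) 4 1 = eN 5 5 4 := by
      funext i
      fin_cases i <;> rfl
    rw [h1]
    exact span_5_4 5 (by norm_num) _ (by omega)

end Pool.Agent.Lib_MP_8b82cd_w
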