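import Mathlib
import Pool.Agent.Lib_MP_8b82cd_w.Norm

/-! `T_{7,2,4}`. -/

namespace Pool.Agent.Lib_MP_8b82cd_w

open MvPolynomial Pool.Agent.Lib_MP_8b82cd_ag

/-! ### The difference operator: exchange of an exponent `1` and an exponent `0` -/

private theorem coeff_ell_mul_S7 {n : ℕ} (M : Fin n →₀ ℕ) (f : MvPolynomial (Fin n) ℂ) :
    coeff M (ell n * f) = ∑ i, if M i = 0 then 0 else coeff (M - Finsupp.single i 1) f := by
  classical
  rw [ell, Finset.sum_mul, coeff_sum]
  refine Finset.sum_congr rfl fun i _ => ?_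
  rw [coeff_X_mul']
  by_cases h : M i = 0
  · rw [if_pos h, if_neg (by simpa using h)]
  · rw [if_neg h, if_pos (by simpa using h)]

/-- five variables: the norm argument -/
private theorem inj5_S7 {g : MvPolynomial (Fin 5) ℂ} (hg : g.IsHomogeneous 7)
    (hJ : ell 5 * g ∈ powI 5 2 4) : g = 0 := by
  have hP : (ell 5 * g).IsHomogeneous 8 := by
    have h1 := ell_pow_mul_isHomogeneous hg 1
    rwa [pow_one] at h1
  have h0 : ell 5 * g = 0 := by
    refine norm_zero (by norm_num) hP ?_ rfl (by norm_num)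
    intro m hm i
    have h1 := (mem_powI_iff (by norm_num) 4).mp hJ m hm
    have h2 := isHomogeneous_iff.mp hP m (mem_support_iff.mp hm)
    by_contra hodd
    have h3 : ∑ j, 2 * (m j / 2) < ∑ j, m j := by
      refine Finset.sum_lt_sum (fun j _ => ?_) ⟨i, Finset.mem_univ i, ?_⟩
      · omega
      · rw [Nat.not_even_iff_odd, Nat.odd_iff] at hodd
        omega
    rw [← Finset.mul_sum] at h3
    omega
  have hell : ell 5 ≠ 0 := by
    intro h
    have := congrArg (eval (fun _ => (1 : ℂ))) h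
    simp [ell] at this
  exact (mul_eq_zero.mp h0).resolve_left hell

private theorem sum_add_single_S7 {n : ℕ} (m : Fin n →₀ ℕ) (a : Fin n) :
    ∑ i, (m + Finsupp.single a 1 : Fin n →₀ ℕ) i = ∑ i, m i + 1 := by
  classical
  simp only [Finsupp.add_apply, Finset.sum_add_distrib]
  congr 1
  rw [Finset.sum_eq_single a]
  · simp
  · intro j _ hj
    exact Finsupp.single_eq_of_ne hj
  · intro h
    exact absurd (Finset.mem_univ a) h

private theorem exch_S7 {f : MvPolynomial (Fin 7) ℂ} (hf : f.IsHomogeneous 8)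
    (hE : ∀ M : Fin 7 →₀ ℕ, ∑ i, M i / 2 < 4 → coeff M (ell 7 * f) = 0)
    {a b : Fin 7} (hab : a ≠ b) (m : Fin 7 →₀ ℕ) (ha : m a = 0) (hb : m b = 0) :
    coeff (m + Finsupp.single a 1) f = coeff (m + Finsupp.single b 1) f := by
  classical
  set T : Finset (Fin 7) := {a, b}ᶜ with hT
  have hcard : T.card = 5 := by rw [hT, Finset.card_compl, Finset.card_pair hab]; rfl
  let φ : Fin 5 ↪ Fin 7 := (T.orderEmbOfFin hcard).toEmbedding
  have hφT : ∀ i, φ i ∈ T := fun i => T.orderEmbOfFin_mem hcard i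
  have hφa : ∀ i, φ i ≠ a := by
    intro i h
    have := hφT i
    rw [h, hT] at this
    simp at this
  have hφb : ∀ i, φ i ≠ b := by
    intro i h
    have := hφT i
    rw [h, hT] at this
    simp at this
  have hmap : Finset.univ.map φ = T := T.map_orderEmbOfFin_univ hcard
  have hsum : ∀ h : Fin 7 → ℂ, ∑ j, h j = h a + h b + ∑ i, h (φ i) := by
    intro h
    rw [← Finset.sum_add_sum_compl ({a, b} : Finset (Fin 7)) h, Finset.sum_pair hab, ← hT, ← hmap,
      Finset.sum_map]
  have hsumN : ∀ h : Fin 7 → ℕ, ∑ j, h j = h a + h b + ∑ i, h (φ i) := by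
    intro h
    rw [← Finset.sum_add_sum_compl ({a, b} : Finset (Fin 7)) h, Finset.sum_pair hab, ← hT, ← hmap,
      Finset.sum_map]
  let ι : (Fin 5 →₀ ℕ) → (Fin 7 →₀ ℕ) := fun m' => m'.embDomain φ
  have hιφ : ∀ m' i, ι m' (φ i) = m' i := fun m' i => Finsupp.embDomain_apply_self φ m' i
  have hιa : ∀ m', ι m' a = 0 := fun m' => Finsupp.embDomain_of_notMem_range φ m' a (by
    rintro ⟨i, hi⟩
    exact hφa i hi)
  have hιb : ∀ m', ι m' b = 0 := fun m' => Finsupp.embDomain_of_notMem_range φ m' b (by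
    rintro ⟨i, hi⟩
    exact hφb i hi)
  have hιsum : ∀ m', ∑ j, ι m' j = ∑ i, m' i := by
    intro m'
    rw [hsumN, hιa, hιb]
    simp [hιφ]
  have hιfl : ∀ m', ∑ j, ι m' j / 2 = ∑ i, m' i / 2 := by
    intro m'
    rw [hsumN (fun j => ι m' j / 2), hιa, hιb]
    simp [hιφ]
  have hcov : ∀ j : Fin 7, j = a ∨ j = b ∨ ∃ i, φ i = j := by
    intro j
    by_cases h1 : j = a
    · exact Or.inl h1
    by_cases h2 : j = b
    · exact Or.inr (Or.inl h2)
    right; right
    have h3 : j ∈ Finset.univ.map φ := by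
      rw [hmap, hT]
      simp [h1, h2]
    obtain ⟨i, -, hi⟩ := Finset.mem_map.mp h3
    exact ⟨i, hi⟩
  set g : MvPolynomial (Fin 5) ℂ := ∑ m' ∈ Finset.univ.finsuppAntidiag 7,
    monomial m' (coeff (ι m' + Finsupp.single a 1) f - coeff (ι m' + Finsupp.single b 1) f) with hg
  have hcoef : ∀ m', coeff m' g =
      coeff (ι m' + Finsupp.single a 1) f - coeff (ι m' + Finsupp.single b 1) f := by
    intro m'
    rw [hg, coeff_sum]
    simp only [coeff_monomial]
    rw [Finset.sum_ite_eq']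
    by_cases h7 : ∑ i, m' i = 7
    · rw [if_pos (by simp [Finset.mem_finsuppAntidiag, h7])]
    · rw [if_neg (by simp [Finset.mem_finsuppAntidiag, h7])]
      have h8 : ∀ c : Fin 7, coeff (ι m' + Finsupp.single c 1) f = 0 := by
        intro c
        by_contra hne
        have h9 := isHomogeneous_iff.mp hf _ hne
        rw [sum_add_single_S7, hιsum] at h9
        omega
      rw [h8, h8, sub_zero]
  have hhom : g.IsHomogeneous 7 := by
    rw [isHomogeneous_iff]
    intro m' hm'
    rw [hcoef] at hm'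
    by_contra h7
    apply hm'
    have h8 : ∀ c : Fin 7, coeff (ι m' + Finsupp.single c 1) f = 0 := by
      intro c
      by_contra hne
      have h9 := isHomogeneous_iff.mp hf _ hne
      rw [sum_add_single_S7, hιsum] at h9
      omega
    rw [h8, h8, sub_zero]
  have hkey : ∀ (M' : Fin 5 →₀ ℕ) (c : Fin 7), (c = a ∨ c = b) → ∑ i, M' i / 2 < 4 →
      coeff (ι M') f + ∑ i, (if M' i = 0 then 0 else
        coeff (ι (M' - Finsupp.single i 1) + Finsupp.single c 1) f) = 0 := by
    intro M' c hc hM'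
    have hcφ : ∀ i, φ i ≠ c := by
      intro i
      rcases hc with rfl | rfl
      · exact hφa i
      · exact hφb i
    have hιc : ι M' c = 0 := by
      rcases hc with rfl | rfl
      · exact hιa M'
      · exact hιb M'
    have hfl : ∑ i, (ι M' + Finsupp.single c 1 : Fin 7 →₀ ℕ) i / 2 < 4 := by
      have : ∀ i, (ι M' + Finsupp.single c 1 : Fin 7 →₀ ℕ) i / 2 = ι M' i / 2 := by
        intro i
        by_cases hi : i = c
        · subst hi
          simp [hιc]
        · rw [Finsupp.add_apply, Finsupp.single_eq_of_ne hi, add_zero]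
      rw [Finset.sum_congr rfl fun i _ => this i, hιfl]
      exact hM'
    have h1 := hE _ hfl
    rw [coeff_ell_mul_S7, hsum] at h1
    have h2 : ∀ i : Fin 5, (if (ι M' + Finsupp.single c 1 : Fin 7 →₀ ℕ) (φ i) = 0 then (0 : ℂ) else
        coeff (ι M' + Finsupp.single c 1 - Finsupp.single (φ i) 1) f) =
        if M' i = 0 then 0 else coeff (ι (M' - Finsupp.single i 1) + Finsupp.single c 1) f := by
      intro i
      have h3 : (ι M' + Finsupp.single c 1 : Fin 7 →₀ ℕ) (φ i) = M' i := by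
        rw [Finsupp.add_apply, Finsupp.single_eq_of_ne (hcφ i), add_zero, hιφ]
      rw [h3]
      by_cases h4 : M' i = 0
      · rw [if_pos h4, if_pos h4]
      · rw [if_neg h4, if_neg h4]
        congr 1
        ext j
        rcases hcov j with rfl | rfl | ⟨l, rfl⟩
        · simp [hιa, (hφa i).symm]
        · simp [hιb, (hφb i).symm]
        · rw [Finsupp.coe_tsub, Pi.sub_apply, Finsupp.add_apply, Finsupp.add_apply,
            Finsupp.single_eq_of_ne (hcφ l), hιφ, hιφ, Finsupp.coe_tsub, Pi.sub_apply]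
          by_cases hli : l = i
          · subst hli
            simp
          · have h5 : φ l ≠ φ i := fun h => hli (φ.injective h)
            rw [Finsupp.single_eq_of_ne h5, Finsupp.single_eq_of_ne hli]
            simp
    rw [Finset.sum_congr rfl fun i _ => h2 i] at h1
    have h6 : ∀ x : Fin 7, (x = a ∨ x = b) → x ≠ c →
        (ι M' + Finsupp.single c 1 : Fin 7 →₀ ℕ) x = 0 := by
      intro x hx hxc
      rw [Finsupp.add_apply, Finsupp.single_eq_of_ne hxc, add_zero]
      rcases hx with rfl | rfl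
      · exact hιa M'
      · exact hιb M'
    have h7 : (ι M' + Finsupp.single c 1 : Fin 7 →₀ ℕ) c ≠ 0 := by simp
    have h8 : ι M' + Finsupp.single c 1 - Finsupp.single c 1 = ι M' := by simp
    rcases hc with rfl | rfl
    · rw [if_neg h7, if_pos (h6 b (Or.inr rfl) hab.symm), h8, add_zero] at h1
      exact h1
    · rw [if_pos (h6 a (Or.inl rfl) hab), if_neg h7, h8, zero_add] at h1
      exact h1
  have hJ : ell 5 * g ∈ powI 5 2 4 := by
    rw [mem_powI_iff (by norm_num)]
    intro M' hM'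
    by_contra hlt
    push Not at hlt
    rw [mem_support_iff] at hM'
    apply hM'
    rw [coeff_ell_mul_S7]
    have h1 := hkey M' a (Or.inl rfl) hlt
    have h2 := hkey M' b (Or.inr rfl) hlt
    have h3 : ∀ i : Fin 5, (if M' i = 0 then (0 : ℂ) else coeff (M' - Finsupp.single i 1) g) =
        (if M' i = 0 then 0 else coeff (ι (M' - Finsupp.single i 1) + Finsupp.single a 1) f) -
        (if M' i = 0 then 0 else coeff (ι (M' - Finsupp.single i 1) + Finsupp.single b 1) f) := by
      intro i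
      split_ifs
      · rw [sub_zero]
      · rw [hcoef]
    rw [Finset.sum_congr rfl fun i _ => h3 i, Finset.sum_sub_distrib]
    linear_combination h1 - h2
  have hg0 := inj5_S7 hhom hJ
  set m' : Fin 5 →₀ ℕ := Finsupp.equivFunOnFinite.symm (fun i => m (φ i)) with hm'
  have hιm : ι m' = m := by
    ext j
    rcases hcov j with rfl | rfl | ⟨l, rfl⟩
    · rw [hιa, ha]
    · rw [hιb, hb]
    · rw [hιφ]
      rfl
  have h9 := hcoef m'
  rw [hg0, coeff_zero, hιm] at h9
  exact (sub_eq_zero.mp h9.symm)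

/-! ### The combinatorial system -/

/-- the exponents at least 2 are equal, and so are the degrees -/
private def Eqv7 (m m' : Fin 7 → ℕ) : Prop :=
  (∀ i, (2 ≤ m i ∨ 2 ≤ m' i) → m i = m' i) ∧ ∑ i, m i = ∑ i, m' i

/-- the equations for the coefficients -/
private structure Sys7 (c : (Fin 7 → ℕ) → ℂ) : Prop where
  E : ∀ M : Fin 7 → ℕ, ∑ i, M i / 2 < 4 →
    ∑ i, (if M i = 0 then 0 else c (Function.update M i (M i - 1))) = 0
  X : ∀ m m' : Fin 7 → ℕ, Eqv7 m m' → ∑ i, m i / 2 < 4 → ∑ i, m i = 8 → c m = c m'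

private theorem Sys7.perm {c : (Fin 7 → ℕ) → ℂ} (h : Sys7 c) (σ : Equiv.Perm (Fin 7)) :
    Sys7 (fun m => c (m ∘ σ)) where
  E := by
    intro M hM
    have h1 := h.E (M ∘ σ) (by
      have := Equiv.sum_comp σ (fun i => M i / 2)
      simp only [Function.comp]
      omega)
    rw [← Equiv.sum_comp σ]
    refine Eq.trans ?_ h1
    refine Finset.sum_congr rfl fun j _ => ?_
    rw [Function.update_comp_equiv, Equiv.symm_apply_apply]
    rfl
  X := by
    intro m m' hm hfl h8
    refine h.X _ _ ⟨fun i hi => hm.1 _ hi, ?_⟩ ?_ ?_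
    · have h1 := Equiv.sum_comp σ m
      have h2 := Equiv.sum_comp σ m'
      have h3 := hm.2
      simp only [Function.comp]
      omega
    · have := Equiv.sum_comp σ (fun i => m i / 2)
      simp only [Function.comp]
      omega
    · have := Equiv.sum_comp σ m
      simp only [Function.comp]
      omega

private theorem Sys7.eqn {c : (Fin 7 → ℕ) → ℂ} (h : Sys7 c) (M : Fin 7 → ℕ)
    (mm : Fin 7 → Fin 7 → ℕ) (hM : ∑ i, M i / 2 < 4)
    (hmm : ∀ i, M i ≠ 0 → ((∀ j, (2 ≤ Function.update M i (M i - 1) j ∨ 2 ≤ mm i j) →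
      Function.update M i (M i - 1) j = mm i j) ∧
      ∑ j, Function.update M i (M i - 1) j = ∑ j, mm i j) ∧
      ∑ j, Function.update M i (M i - 1) j / 2 < 4 ∧
      ∑ j, Function.update M i (M i - 1) j = 8) :
    ∑ i, (if M i = 0 then 0 else c (mm i)) = 0 := by
  refine Eq.trans ?_ (h.E M hM)
  refine Finset.sum_congr rfl fun i _ => ?_
  by_cases h0 : M i = 0
  · rw [if_pos h0, if_pos h0]
  · rw [if_neg h0, if_neg h0]
    obtain ⟨h1, h2, h3⟩ := hmm i h0
    exact (h.X _ _ h1 h2 h3).symm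

private theorem Sys7.triple {c : (Fin 7 → ℕ) → ℂ} (h : Sys7 c) :
    c ![3,1,1,1,1,1,0] + c ![1,3,1,1,1,1,0] + c ![1,1,3,1,1,1,0] = 0 := by
  have e1_0 := h.eqn ![3,1,1,1,1,1,1] ![![2,1,1,1,1,1,1], ![3,1,1,1,1,1,0], ![3,1,1,1,1,1,0],
    ![3,1,1,1,1,1,0], ![3,1,1,1,1,1,0], ![3,1,1,1,1,1,0], ![3,1,1,1,1,1,0]] (by decide)
    (by decide)
  have e1_1 := h.eqn ![1,3,1,1,1,1,1] ![![1,3,1,1,1,1,0], ![1,2,1,1,1,1,1], ![1,3,1,1,1,1,0],
    ![1,3,1,1,1,1,0], ![1,3,1,1,1,1,0], ![1,3,1,1,1,1,0], ![1,3,1,1,1,1,0]] (by decide)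
    (by decide)
  have e1_2 := h.eqn ![1,1,3,1,1,1,1] ![![1,1,3,1,1,1,0], ![1,1,3,1,1,1,0], ![1,1,2,1,1,1,1],
    ![1,1,3,1,1,1,0], ![1,1,3,1,1,1,0], ![1,1,3,1,1,1,0], ![1,1,3,1,1,1,0]] (by decide)
    (by decide)
  have e2_01 := h.eqn ![2,2,1,1,1,1,1] ![![1,2,1,1,1,1,1], ![2,1,1,1,1,1,1], ![2,2,1,1,1,1,0],
    ![2,2,1,1,1,1,0], ![2,2,1,1,1,1,0], ![2,2,1,1,1,1,0], ![2,2,1,1,1,1,0]] (by decide)
    (by decide)
  have e2_02 := h.eqn ![2,1,2,1,1,1,1] ![![1,1,2,1,1,1,1], ![2,1,2,1,1,1,0], ![2,1,1,1,1,1,1],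
    ![2,1,2,1,1,1,0], ![2,1,2,1,1,1,0], ![2,1,2,1,1,1,0], ![2,1,2,1,1,1,0]] (by decide)
    (by decide)
  have e2_12 := h.eqn ![1,2,2,1,1,1,1] ![![1,2,2,1,1,1,0], ![1,1,2,1,1,1,1], ![1,2,1,1,1,1,1],
    ![1,2,2,1,1,1,0], ![1,2,2,1,1,1,0], ![1,2,2,1,1,1,0], ![1,2,2,1,1,1,0]] (by decide)
    (by decide)
  have e3_01 := h.eqn ![3,2,1,1,1,1,0] ![![2,2,1,1,1,1,0], ![3,1,1,1,1,1,0], ![3,2,1,1,1,0,0],
    ![3,2,1,1,1,0,0], ![3,2,1,1,1,0,0], ![3,2,1,1,1,0,0], 0] (by decide) (by decide)
  have e3_10 := h.eqn ![2,3,1,1,1,1,0] ![![1,3,1,1,1,1,0], ![2,2,1,1,1,1,0], ![2,3,1,1,1,0,0],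
    ![2,3,1,1,1,0,0], ![2,3,1,1,1,0,0], ![2,3,1,1,1,0,0], 0] (by decide) (by decide)
  have e3_02 := h.eqn ![3,1,2,1,1,1,0] ![![2,1,2,1,1,1,0], ![3,1,2,1,1,0,0], ![3,1,1,1,1,1,0],
    ![3,1,2,1,1,0,0], ![3,1,2,1,1,0,0], ![3,1,2,1,1,0,0], 0] (by decide) (by decide)
  have e3_20 := h.eqn ![2,1,3,1,1,1,0] ![![1,1,3,1,1,1,0], ![2,1,3,1,1,0,0], ![2,1,2,1,1,1,0],
    ![2,1,3,1,1,0,0], ![2,1,3,1,1,0,0], ![2,1,3,1,1,0,0], 0] (by decide) (by decide)
  have e3_12 := h.eqn ![1,3,2,1,1,1,0] ![![1,3,2,1,1,0,0], ![1,2,2,1,1,1,0], ![1,3,1,1,1,1,0],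
    ![1,3,2,1,1,0,0], ![1,3,2,1,1,0,0], ![1,3,2,1,1,0,0], 0] (by decide) (by decide)
  have e3_21 := h.eqn ![1,2,3,1,1,1,0] ![![1,2,3,1,1,0,0], ![1,1,3,1,1,1,0], ![1,2,2,1,1,1,0],
    ![1,2,3,1,1,0,0], ![1,2,3,1,1,0,0], ![1,2,3,1,1,0,0], 0] (by decide) (by decide)
  have e4_01 := h.eqn ![3,3,1,1,1,0,0] ![![2,3,1,1,1,0,0], ![3,2,1,1,1,0,0], ![3,3,1,1,0,0,0],
    ![3,3,1,1,0,0,0], ![3,3,1,1,0,0,0], 0, 0] (by decide) (by decide)
  have e4_02 := h.eqn ![3,1,3,1,1,0,0] ![![2,1,3,1,1,0,0], ![3,1,3,1,0,0,0], ![3,1,2,1,1,0,0],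
    ![3,1,3,1,0,0,0], ![3,1,3,1,0,0,0], 0, 0] (by decide) (by decide)
  have e4_12 := h.eqn ![1,3,3,1,1,0,0] ![![1,3,3,1,0,0,0], ![1,2,3,1,1,0,0], ![1,3,2,1,1,0,0],
    ![1,3,3,1,0,0,0], ![1,3,3,1,0,0,0], 0, 0] (by decide) (by decide)
  have e5 := h.eqn ![2,2,2,1,1,1,0] ![![1,2,2,1,1,1,0], ![2,1,2,1,1,1,0], ![2,2,1,1,1,1,0],
    ![2,2,2,1,1,0,0], ![2,2,2,1,1,0,0], ![2,2,2,1,1,0,0], 0] (by decide) (by decide)
  have e6_0 := h.eqn ![3,2,2,1,1,0,0] ![![2,2,2,1,1,0,0], ![3,1,2,1,1,0,0], ![3,2,1,1,1,0,0],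
    ![3,2,2,1,0,0,0], ![3,2,2,1,0,0,0], 0, 0] (by decide) (by decide)
  have e6_1 := h.eqn ![2,3,2,1,1,0,0] ![![1,3,2,1,1,0,0], ![2,2,2,1,1,0,0], ![2,3,1,1,1,0,0],
    ![2,3,2,1,0,0,0], ![2,3,2,1,0,0,0], 0, 0] (by decide) (by decide)
  have e6_2 := h.eqn ![2,2,3,1,1,0,0] ![![1,2,3,1,1,0,0], ![2,1,3,1,1,0,0], ![2,2,2,1,1,0,0],
    ![2,2,3,1,0,0,0], ![2,2,3,1,0,0,0], 0, 0] (by decide) (by decide)
  have e7_01 := h.eqn ![3,3,2,1,0,0,0] ![![2,3,2,1,0,0,0], ![3,2,2,1,0,0,0], ![3,3,1,1,0,0,0],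
    ![3,3,2,0,0,0,0], 0, 0, 0] (by decide) (by decide)
  have e7_02 := h.eqn ![3,2,3,1,0,0,0] ![![2,2,3,1,0,0,0], ![3,1,3,1,0,0,0], ![3,2,2,1,0,0,0],
    ![3,2,3,0,0,0,0], 0, 0, 0] (by decide) (by decide)
  have e7_12 := h.eqn ![2,3,3,1,0,0,0] ![![1,3,3,1,0,0,0], ![2,2,3,1,0,0,0], ![2,3,2,1,0,0,0],
    ![2,3,3,0,0,0,0], 0, 0, 0] (by decide) (by decide)
  have e8 := h.eqn ![3,3,3,0,0,0,0] ![![2,3,3,0,0,0,0], ![3,2,3,0,0,0,0], ![3,3,2,0,0,0,0],
    0, 0, 0, 0] (by decide) (by decide)
  simp only [Fin.sum_univ_seven, Matrix.cons_val, OfNat.ofNat_ne_zero, one_ne_zero, if_false,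
    if_true] at e1_0 e1_1 e1_2 e2_01 e2_02 e2_12 e3_01 e3_10 e3_02 e3_20 e3_12 e3_21
  simp only [Fin.sum_univ_seven, Matrix.cons_val, OfNat.ofNat_ne_zero, one_ne_zero, if_false,
    if_true] at e4_01 e4_02 e4_12 e5 e6_0 e6_1 e6_2 e7_01 e7_02 e7_12 e8
  linear_combination (1/7)*e1_0 + (1/7)*e1_1 + (1/7)*e1_2 + (-1/14)*e2_01 + (-1/14)*e2_02 +
    (-1/14)*e2_12 + (1/14)*e3_01 + (1/14)*e3_10 + (1/14)*e3_02 + (1/14)*e3_20 + (1/14)*e3_12 +
    (1/14)*e3_21 + (-1/14)*e4_01 + (-1/14)*e4_02 + (-1/14)*e4_12 + (3/14)*e5 + (-3/14)*e6_0 +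
    (-3/14)*e6_1 + (-3/14)*e6_2 + (3/14)*e7_01 + (3/14)*e7_02 + (3/14)*e7_12 + (-3/14)*e8

private theorem Sys7.base0 {c : (Fin 7 → ℕ) → ℂ} (h : Sys7 c) : c ![3,1,1,1,1,1,0] = 0 := by
  have h1 := h.triple
  have h2 := (h.perm (Equiv.swap 2 3)).triple
  have h3 := (h.perm (Equiv.swap 1 3)).triple
  have h4 := (h.perm (Equiv.swap 0 3)).triple
  have a1 : (![3,1,1,1,1,1,0] : Fin 7 → ℕ) ∘ Equiv.swap (2 : Fin 7) 3 = ![3,1,1,1,1,1,0] := by
    decide
  have a2 : (![1,3,1,1,1,1,0] : Fin 7 → ℕ) ∘ Equiv.swap (2 : Fin 7) 3 = ![1,3,1,1,1,1,0] := by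
    decide
  have a3 : (![1,1,3,1,1,1,0] : Fin 7 → ℕ) ∘ Equiv.swap (2 : Fin 7) 3 = ![1,1,1,3,1,1,0] := by
    decide
  have b1 : (![3,1,1,1,1,1,0] : Fin 7 → ℕ) ∘ Equiv.swap (1 : Fin 7) 3 = ![3,1,1,1,1,1,0] := by
    decide
  have b2 : (![1,3,1,1,1,1,0] : Fin 7 → ℕ) ∘ Equiv.swap (1 : Fin 7) 3 = ![1,1,1,3,1,1,0] := by
    decide
  have b3 : (![1,1,3,1,1,1,0] : Fin 7 → ℕ) ∘ Equiv.swap (1 : Fin 7) 3 = ![1,1,3,1,1,1,0] := by
    decide
  have c1 : (![3,1,1,1,1,1,0] : Fin 7 → ℕ) ∘ Equiv.swap (0 : Fin 7) 3 = ![1,1,1,3,1,1,0] := by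
    decide
  have c2 : (![1,3,1,1,1,1,0] : Fin 7 → ℕ) ∘ Equiv.swap (0 : Fin 7) 3 = ![1,3,1,1,1,1,0] := by
    decide
  have c3 : (![1,1,3,1,1,1,0] : Fin 7 → ℕ) ∘ Equiv.swap (0 : Fin 7) 3 = ![1,1,3,1,1,1,0] := by
    decide
  simp only [a1, a2, a3] at h2
  simp only [b1, b2, b3] at h3
  simp only [c1, c2, c3] at h4
  linear_combination (1/3) * h1 + (1/3) * h2 + (1/3) * h3 - (2/3) * h4

private theorem sum_upd_S7 (M : Fin 7 → ℕ) (b : Fin 7) (v : ℕ) :
    ∑ j, Function.update M b v j + M b = ∑ j, M j + v := by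
  rw [← Finset.add_sum_erase _ (fun j => M j) (Finset.mem_univ b),
    ← Finset.add_sum_erase _ (fun j => Function.update M b v j) (Finset.mem_univ b)]
  have h1 : ∑ j ∈ Finset.univ.erase b, Function.update M b v j = ∑ j ∈ Finset.univ.erase b, M j :=
    Finset.sum_congr rfl fun j hj => Function.update_of_ne (Finset.ne_of_mem_erase hj) _ _
  rw [h1]
  simp only [Function.update_self]
  ring

private theorem Sys7.base {c : (Fin 7 → ℕ) → ℂ} (h : Sys7 c) (m : Fin 7 → ℕ) (i : Fin 7)
    (hi : m i = 3) (hj : ∀ j, j ≠ i → m j ≤ 1) (h8 : ∑ j, m j = 8) : c m = 0 := by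
  have h1 := (h.perm (Equiv.swap 0 i)).base0
  have a1 : ∀ i : Fin 7, ((![3,1,1,1,1,1,0] : Fin 7 → ℕ) ∘ Equiv.swap (0 : Fin 7) i) i = 3 := by
    decide
  have a2 : ∀ i j : Fin 7, j ≠ i →
      ((![3,1,1,1,1,1,0] : Fin 7 → ℕ) ∘ Equiv.swap (0 : Fin 7) i) j ≤ 1 := by
    decide
  have a3 : ∀ i : Fin 7, ∑ j, ((![3,1,1,1,1,1,0] : Fin 7 → ℕ) ∘ Equiv.swap (0 : Fin 7) i) j = 8 := by
    decide
  have a4 : ∀ i : Fin 7,
      ∑ j, ((![3,1,1,1,1,1,0] : Fin 7 → ℕ) ∘ Equiv.swap (0 : Fin 7) i) j / 2 < 4 := by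
    decide
  have hEq : Eqv7 ((![3,1,1,1,1,1,0] : Fin 7 → ℕ) ∘ Equiv.swap (0 : Fin 7) i) m := by
    refine ⟨fun j hj2 => ?_, by rw [a3 i, h8]⟩
    by_cases hji : j = i
    · rw [hji, a1, hi]
    · exfalso
      have h3 := a2 i j hji
      have h4 := hj j hji
      omega
  rw [← h.X _ m hEq (a4 i) (a3 i)]
  exact h1

private theorem Sys7.zero {c : (Fin 7 → ℕ) → ℂ} (h : Sys7 c) : ∀ (N : ℕ) (m : Fin 7 → ℕ),
    (∑ i, if 2 ≤ m i then m i else 0) = N → ∑ i, m i / 2 < 4 → ∑ i, m i = 8 → c m = 0 := by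
  intro N
  induction N using Nat.strong_induction_on with
  | _ N ih =>
  intro m hN hfl h8
  by_cases hb : ∃ b, m b = 0
  · obtain ⟨b, hb⟩ := hb
    set M : Fin 7 → ℕ := Function.update m b 1 with hM
    have hMb : M b = 1 := by rw [hM, Function.update_self]
    have hMj : ∀ j, j ≠ b → M j = m j := fun j hj => by rw [hM, Function.update_of_ne hj]
    have hMfl : ∀ j, M j / 2 = m j / 2 := by
      intro j
      by_cases hj : j = b
      · rw [hj, hMb, hb]
      · rw [hMj j hj]
    have hM9 : ∑ j, M j = 9 := by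
      have := sum_upd_S7 m b 1
      rw [← hM] at this
      omega
    have h1 := h.E M (by rw [Finset.sum_congr rfl fun j _ => hMfl j]; exact hfl)
    have hupd : ∀ j, 1 ≤ M j → ∑ l, Function.update M j (M j - 1) l = 8 := by
      intro j hj
      have := sum_upd_S7 M j (M j - 1)
      omega
    have hupf : ∀ j, ∑ l, Function.update M j (M j - 1) l / 2 < 4 := by
      intro j
      refine lt_of_le_of_lt ?_ hfl
      refine Finset.sum_le_sum fun l _ => ?_
      rw [← hMfl l]
      by_cases hlj : l = j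
      · rw [hlj, Function.update_self]
        omega
      · rw [Function.update_of_ne hlj]
    have h2 : ∀ j, (if M j = 0 then 0 else c (Function.update M j (M j - 1))) =
        if M j = 1 then c m else 0 := by
      intro j
      by_cases h0 : M j = 0
      · rw [if_pos h0, if_neg (by omega)]
      rw [if_neg h0]
      by_cases h3 : M j = 1
      · rw [if_pos h3]
        refine h.X _ _ ⟨fun l hl => ?_, ?_⟩ (hupf j) (hupd j (by omega))
        · by_cases hlj : l = j
          · rw [hlj, Function.update_self, h3] at hl ⊢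
            by_cases hjb : j = b
            · rw [hjb, hb]
            · rw [← hMj j hjb, h3] at hl ⊢
              omega
          · rw [Function.update_of_ne hlj] at hl ⊢
            by_cases hlb : l = b
            · rw [hlb, hMb, hb] at hl
              omega
            · exact hMj l hlb
        · rw [hupd j (by omega), h8]
      · rw [if_neg h3]
        have hjb : j ≠ b := by
          rintro rfl
          exact h3 hMb
        have hmj : 2 ≤ m j := by
          have := hMj j hjb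
          omega
        refine ih _ ?_ _ rfl (hupf j) (hupd j (by omega))
        rw [← hN]
        refine Finset.sum_lt_sum (fun l _ => ?_) ⟨j, Finset.mem_univ j, ?_⟩
        · by_cases hlj : l = j
          · rw [hlj, Function.update_self, hMj j hjb]
            split_ifs <;> omega
          · rw [Function.update_of_ne hlj]
            by_cases hlb : l = b
            · rw [hlb, hMb, hb]
              simp
            · rw [hMj l hlb]
        · rw [Function.update_self, hMj j hjb]
          split_ifs <;> omega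
    rw [Finset.sum_congr rfl fun j _ => h2 j, Finset.sum_ite, Finset.sum_const,
      Finset.sum_const_zero, add_zero, nsmul_eq_mul] at h1
    refine (mul_eq_zero.mp h1).resolve_left ?_
    exact Nat.cast_ne_zero.mpr (Finset.card_ne_zero.mpr
      ⟨b, Finset.mem_filter.mpr ⟨Finset.mem_univ b, hMb⟩⟩)
  · push Not at hb
    have h8' := h8
    rw [Fin.sum_univ_seven] at h8'
    have b0 := hb 0
    have b1 := hb 1
    have b2 := hb 2
    have b3 := hb 3
    have b4 := hb 4
    have b5 := hb 5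
    have b6 := hb 6
    obtain ⟨i, hi⟩ : ∃ i, 2 ≤ m i := by
      by_contra hcon
      push Not at hcon
      have c0 := hcon 0
      have c1 := hcon 1
      have c2 := hcon 2
      have c3 := hcon 3
      have c4 := hcon 4
      have c5 := hcon 5
      have c6 := hcon 6
      omega
    have hother : ∀ j, j ≠ i → m j = 1 := by
      intro j hj
      fin_cases i <;> fin_cases j <;> simp at hi hj ⊢ <;> omega
    have hi2 : m i = 2 := by
      fin_cases i <;> simp at hi ⊢ <;> omega
    set M : Fin 7 → ℕ := Function.update m i 3 with hM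
    have hMi : M i = 3 := by rw [hM, Function.update_self]
    have hMj : ∀ j, j ≠ i → M j = 1 := fun j hj => by rw [hM, Function.update_of_ne hj, hother j hj]
    have hM9 : ∑ j, M j = 9 := by
      have := sum_upd_S7 m i 3
      rw [← hM] at this
      omega
    have hMfl : ∑ j, M j / 2 < 4 := by
      rw [← Finset.add_sum_erase _ _ (Finset.mem_univ i), hMi,
        Finset.sum_eq_zero fun j hj => by rw [hMj j (Finset.ne_of_mem_erase hj)]; norm_num]
      norm_num
    have h1 := h.E M hMfl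
    rw [Finset.sum_eq_single i] at h1
    · rw [if_neg (by omega)] at h1
      rw [← h1]
      congr 1
      ext j
      by_cases hj : j = i
      · rw [hj, Function.update_self, hMi, hi2]
      · rw [Function.update_of_ne hj, hMj j hj, hother j hj]
    · intro j _ hj
      rw [if_neg (by rw [hMj j hj]; exact one_ne_zero)]
      refine h.base _ i ?_ ?_ ?_
      · rw [Function.update_of_ne (Ne.symm hj), hMi]
      · intro l hl
        by_cases hlj : l = j
        · rw [hlj, Function.update_self, hMj j hj]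
          omega
        · rw [Function.update_of_ne hlj, hMj l hl]
      · have h9 := sum_upd_S7 M j (M j - 1)
        rw [hMj j hj] at h9 ⊢
        omega
    · intro hni
      exact absurd (Finset.mem_univ i) hni

private theorem sys_of_S7 {f : MvPolynomial (Fin 7) ℂ} (hf : f.IsHomogeneous 8)
    (hE : ∀ M : Fin 7 →₀ ℕ, ∑ i, M i / 2 < 4 → coeff M (ell 7 * f) = 0) :
    Sys7 (fun m => coeff (Finsupp.equivFunOnFinite.symm m) f) where
  E := by
    intro M hM
    have h1 := hE (Finsupp.equivFunOnFinite.symm M) hM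
    rw [coeff_ell_mul_S7] at h1
    refine Eq.trans (Finset.sum_congr rfl fun i _ => ?_) h1
    have h2 : (Finsupp.equivFunOnFinite.symm M : Fin 7 →₀ ℕ) i = M i := rfl
    rw [h2]
    by_cases h0 : M i = 0
    · rw [if_pos h0, if_pos h0]
    · rw [if_neg h0, if_neg h0]
      congr 1
      ext j
      show Function.update M i (M i - 1) j = _
      rw [Finsupp.coe_tsub, Pi.sub_apply]
      show _ = M j - _
      by_cases hj : j = i
      · rw [hj, Function.update_self, Finsupp.single_eq_same]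
      · rw [Function.update_of_ne hj, Finsupp.single_eq_of_ne hj, Nat.sub_zero]
  X := by
    have key : ∀ (N : ℕ) (m m' : Fin 7 → ℕ), Eqv7 m m' → ∑ i, (m i - m' i) = N →
        coeff (Finsupp.equivFunOnFinite.symm m) f =
          coeff (Finsupp.equivFunOnFinite.symm m') f := by
      intro N
      induction N with
      | zero =>
        intro m m' hmm hN
        have h1 : ∀ i, m i ≤ m' i := by
          intro i
          have := Finset.sum_eq_zero_iff.mp hN i (Finset.mem_univ i)
          omega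
        have h2 : m = m' := by
          ext i
          exact (Finset.sum_eq_sum_iff_of_le fun i _ => h1 i).mp hmm.2 i (Finset.mem_univ i)
        rw [h2]
      | succ N ih =>
        intro m m' hmm hN
        obtain ⟨a, -, ha⟩ := Finset.exists_ne_zero_of_sum_ne_zero (by rw [hN]; omega :
          ∑ i, (m i - m' i) ≠ 0)
        obtain ⟨b, hb⟩ : ∃ b, m b < m' b := by
          by_contra hcon
          push Not at hcon
          have h1 := (Finset.sum_eq_sum_iff_of_le fun i _ => hcon i).mp hmm.2.symm a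
            (Finset.mem_univ a)
          omega
        have ha' : m a = 1 ∧ m' a = 0 := by
          have h1 : ¬ (2 ≤ m a ∨ 2 ≤ m' a) := fun h => by
            have := hmm.1 a h
            omega
          omega
        have hb' : m b = 0 ∧ m' b = 1 := by
          have h1 : ¬ (2 ≤ m b ∨ 2 ≤ m' b) := fun h => by
            have := hmm.1 b h
            omega
          omega
        have hab : a ≠ b := by
          rintro rfl
          omega
        set m0 : Fin 7 → ℕ := Function.update m a 0 with hm0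
        have h00 : m0 a = 0 := by rw [hm0, Function.update_self]
        have h01 : m0 b = 0 := by rw [hm0, Function.update_of_ne hab.symm, hb'.1]
        have h1 := exch_S7 hf hE hab (Finsupp.equivFunOnFinite.symm m0) h00 h01
        have h2 : (Finsupp.equivFunOnFinite.symm m0 + Finsupp.single a 1 : Fin 7 →₀ ℕ) =
            Finsupp.equivFunOnFinite.symm m := by
          ext j
          rw [Finsupp.add_apply]
          show m0 j + _ = m j
          by_cases hj : j = a
          · rw [hj, h00, Finsupp.single_eq_same, ha'.1]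
          · rw [hm0, Function.update_of_ne hj, Finsupp.single_eq_of_ne hj, add_zero]
        have h3 : (Finsupp.equivFunOnFinite.symm m0 + Finsupp.single b 1 : Fin 7 →₀ ℕ) =
            Finsupp.equivFunOnFinite.symm (Function.update m0 b 1) := by
          ext j
          rw [Finsupp.add_apply]
          show m0 j + _ = Function.update m0 b 1 j
          by_cases hj : j = b
          · rw [hj, h01, Finsupp.single_eq_same, Function.update_self]
          · rw [Function.update_of_ne hj, Finsupp.single_eq_of_ne hj, add_zero]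
        rw [h2, h3] at h1
        rw [h1]
        have hval : ∀ j, Function.update m0 b 1 j = if j = a then 0 else if j = b then 1 else m j := by
          intro j
          by_cases hjb : j = b
          · rw [hjb, Function.update_self, if_neg hab.symm, if_pos rfl]
          · rw [Function.update_of_ne hjb, hm0]
            by_cases hja : j = a
            · rw [hja, Function.update_self, if_pos rfl]
            · rw [Function.update_of_ne hja, if_neg hja, if_neg hjb]
        apply ih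
        · refine ⟨fun j hj => ?_, ?_⟩
          · rw [hval] at hj ⊢
            by_cases hja : j = a
            · rw [if_pos hja] at hj ⊢
              rw [hja] at hj ⊢
              omega
            · rw [if_neg hja] at hj ⊢
              by_cases hjb : j = b
              · rw [if_pos hjb] at hj ⊢
                rw [hjb] at hj ⊢
                omega
              · rw [if_neg hjb] at hj ⊢
                exact hmm.1 j hj
          · have h4 := sum_upd_S7 m0 b 1
            have h5 := sum_upd_S7 m a 0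
            have h6 := hmm.2
            rw [← hm0] at h5
            omega
        · have h4 : ∑ j, (Function.update m0 b 1 j - m' j) + 1 = ∑ j, (m j - m' j) := by
            rw [← Finset.add_sum_erase _ _ (Finset.mem_univ a),
              ← Finset.add_sum_erase _ (fun j => m j - m' j) (Finset.mem_univ a)]
            have h5 : ∀ j ∈ Finset.univ.erase a, Function.update m0 b 1 j - m' j = m j - m' j := by
              intro j hj
              rw [hval, if_neg (Finset.ne_of_mem_erase hj)]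
              by_cases hjb : j = b
              · rw [if_pos hjb, hjb, hb'.1, hb'.2]
              · rw [if_neg hjb]
            rw [Finset.sum_congr rfl h5, hval a, if_pos rfl, ha'.1, ha'.2]
            omega
          omega
    intro m m' hmm _ _
    exact key _ m m' hmm rfl

/-- PIECE S724 (degree 8 → 9, 2793 × 3535). Let `c` be the coefficients of `f`, `ell * f` in the
ideal. The difference `coeff (m + e_a) f - coeff (m + e_b) f` (`m_a = m_b = 0`) gives a form in the
other five variables, killed by the sum of these variables modulo the ideal, so it is `0` by the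
norm argument: `c` does not change if an exponent `1` and an exponent `0` are exchanged. The
remaining system is solved by hand: `c (3_i, 2, 2, ...)` etc. are multiples of
`a_i = c (3_i, 1, 1, 1, 1, 1, 0)`, the equation at `(3, 3, 3, 0, 0, 0, 0)` gives
`a_i + a_j + a_k = 0`, so `a = 0`, and all other coefficients vanish by induction on the sum of the
exponents which are at least `2`. -/
theorem inj_7_1_4 : Inj 7 1 4 := by
  intro f hf hJ
  have e1 : e0 7 1 4 - 1 = 8 := by unfold e0; norm_num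
  rw [e1] at hf
  rw [pow_one] at hJ
  have hE : ∀ M : Fin 7 →₀ ℕ, ∑ i, M i / 2 < 4 → coeff M (ell 7 * f) = 0 := by
    intro M hM
    by_contra hne
    have h1 : 4 ≤ ∑ i, M i / 2 :=
      (mem_powI_iff (by norm_num) 4).mp hJ M (mem_support_iff.mpr hne)
    omega
  have hS := sys_of_S7 hf hE
  rw [mem_powI_iff (by norm_num)]
  intro m hm
  by_contra hlt
  push Not at hlt
  rw [mem_support_iff] at hm
  apply hm
  have h8 := isHomogeneous_iff.mp hf m hm
  have := hS.zero _ (fun i => m i) rfl hlt h8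
  have e2 : (Finsupp.equivFunOnFinite.symm fun i => m i) = m := by
    ext i
    rfl
  simpa only [e2] using this

end Pool.Agent.Lib_MP_8b82cd_w
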