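import Mathlib
import Pool.Agent.Lib_MP_8b82cd_w.S562

/-! `T_{7,6,2}`. -/

namespace Pool.Agent.Lib_MP_8b82cd_w

open MvPolynomial Pool.Agent.Lib_MP_8b82cd_ag

/-- PIECE S762a. Four variables, exponents `≤ 5`, degree 13 (104 monomials, 80 equations, the
solution space has dimension 24 and is the direct sum over the four variables of the 6-dimensional
spaces of solutions divisible by `x_i^4`). Computer certificate. -/
theorem span_5_4_13 : SpanE 5 1 (eN 7 5 4) 13 := by
  sorry

/-- PIECE S762b. `pos_two` with `b = 1`, `t = 22`; `span_step` from `N = 7` down to `N = 4`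
(`N = 6`: `t ≥ 19`, `N = 5`: `t ≥ 16`, `N = 4`: `t ≥ 13`, where `t ≥ 14` is `span_5_4`). -/
theorem inj_7_5_2 : Inj 7 5 2 := by
  sorry

end Pool.Agent.Lib_MP_8b82cd_w
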